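import Pool.Agent.MMI.Final
import Pool.Agent.MMA1.Glue

/-! # The interface to the Boolean-valued universe -/

set_option autoImplicit false

namespace Pool.Agent.MMA1

open Classical Cardinal

noncomputable instance : SuccOrder W := SuccOrder.ofLinearWellFoundedLT W

theorem Iic_W_countable (a : W) : (Set.Iic a).Countable := by
  rw [← Set.Iio_insert]
  exact (Iio_W_countable a).insert a

theorem pres_BS : SSPAlg.Pres W (⊤ : BS) := by
  intro g hg
  have h := core_om g fun n => top_le_iff.1 (hg n)
  exact h.ge

theorem iterCore_BS : Glue.IterCore W BS := by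
  intro R hR D hD
  have h1 : Glue.vCrit R ≤ sspc R := le_rfl
  refine h1.trans ((core R hR D hD).trans (iSup_mono fun G => ?_))
  unfold filB vGeneric
  refine le_inf (inf_le_left.trans (inf_le_left.trans inf_le_right)) (le_inf ?_ inf_le_right)
  refine (inf_le_left.trans inf_le_right).trans (le_of_eq ?_)
  refine iInf_congr fun x => iInf_congr fun y => ?_
  congr 1
  exact iSup_congr fun w => (inf_assoc _ _ _).symm

/-- every quotient of the Boolean-valued universe of `BS` is a model of ZFC and `MM(ℵ₁)` -/
theorem main_BS (U : Pool.Agent.BVM.UF BS) : Pool.Agent.BVM.IsModelZFC U.E ∧ MM U.E :=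
  main_of_core Iic_W_countable pres_BS iterCore_BS U

end Pool.Agent.MMA1
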