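import Pool.Agent.MMA1.Defs

/-! # The ordinals `W = ω₁` and `K = (2 ^ ℵ₀)⁺` -/

set_option autoImplicit false

namespace Pool.Agent.MMA1

open Classical Cardinal

theorem mk_W : #W = ℵ₁ := by
  change #(Ordinal.omega 1).ToType = _
  rw [Cardinal.mk_toType, Ordinal.card_omega]

theorem mk_K : #K = Order.succ (2 ^ ℵ₀) := by
  change #(Order.succ (2 ^ ℵ₀ : Cardinal.{0})).ord.ToType = _
  rw [Cardinal.mk_toType, Cardinal.card_ord]

theorem isRegular_kappa : (Order.succ (2 ^ ℵ₀ : Cardinal.{0})).IsRegular :=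
  isRegular_succ (cantor ℵ₀).le

theorem cof_K : Order.cof K = Order.succ (2 ^ ℵ₀) := by
  change Order.cof (Order.succ (2 ^ ℵ₀ : Cardinal.{0})).ord.ToType = _
  rw [Ordinal.cof_toType, isRegular_kappa.cof_ord]

theorem cof_W : Order.cof W = ℵ₁ := by
  change Order.cof (Ordinal.omega 1).ToType = _
  rw [Ordinal.cof_toType, Cardinal.isRegular_aleph_one.cof_omega_eq]

theorem W_bdd {T : Set W} (h : T.Countable) : ∃ μ, ∀ ζ ∈ T, ζ < μ := by
  have h1 : ¬ IsCofinal T := by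
    intro hT
    have h2 := Order.cof_le hT
    rw [cof_W] at h2
    exact absurd (h2.trans (Cardinal.mk_le_aleph0_iff.2 h.to_subtype)) (not_le.2 aleph0_lt_aleph_one)
  unfold IsCofinal at h1
  push Not at h1
  exact h1

theorem K_bdd {T : Set K} (h : #T ≤ 2 ^ ℵ₀) : ∃ μ, ∀ ζ ∈ T, ζ < μ := by
  have h1 : ¬ IsCofinal T := by
    intro hT
    have h2 := Order.cof_le hT
    rw [cof_K] at h2
    exact absurd (h2.trans h) (not_le.2 (Order.lt_succ _))
  unfold IsCofinal at h1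
  push Not at h1
  exact h1

theorem K_bdd_countable {T : Set K} (h : T.Countable) : ∃ μ, ∀ ζ ∈ T, ζ < μ :=
  K_bdd ((Cardinal.mk_le_aleph0_iff.2 h.to_subtype).trans (cantor ℵ₀).le)

theorem K_bdd_range {ι : Type} (h : #ι ≤ 2 ^ ℵ₀) (f : ι → K) : ∃ μ, ∀ i, f i < μ := by
  obtain ⟨μ, hμ⟩ := K_bdd (T := Set.range f) (mk_range_le.trans h)
  exact ⟨μ, fun i => hμ _ ⟨i, rfl⟩⟩

instance : NoMaxOrder K := ⟨fun a => by
  obtain ⟨μ, hμ⟩ := K_bdd_countable (Set.countable_singleton a)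
  exact ⟨μ, hμ a rfl⟩⟩

instance : NoMaxOrder W := ⟨fun a => by
  obtain ⟨μ, hμ⟩ := W_bdd (Set.countable_singleton a)
  exact ⟨μ, hμ a rfl⟩⟩

theorem Iio_W_countable (δ : W) : (Set.Iio δ).Countable := by
  have h := Cardinal.mk_Iio_lt δ (by
    change (#(Ordinal.omega 1).ToType).ord = Ordinal.type (· < · : (Ordinal.omega 1).ToType → _ → Prop)
    rw [Cardinal.mk_toType, Ordinal.card_omega, Ordinal.type_toType, Cardinal.ord_aleph])
  rw [mk_W] at h
  rw [← Set.countable_coe_iff, ← Cardinal.mk_le_aleph0_iff]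
  rw [← succ_aleph0] at h
  exact Order.lt_succ_iff.1 h

theorem mk_Iio_K (ρ : K) : #(Set.Iio ρ) ≤ 2 ^ ℵ₀ := by
  have h := Cardinal.mk_Iio_lt ρ (by
    change (#(Order.succ (2 ^ ℵ₀ : Cardinal.{0})).ord.ToType).ord =
      Ordinal.type (· < · : (Order.succ (2 ^ ℵ₀ : Cardinal.{0})).ord.ToType → _ → Prop)
    rw [Cardinal.mk_toType, Cardinal.card_ord, Ordinal.type_toType])
  rw [mk_K] at h
  exact Order.lt_succ_iff.1 h

theorem mk_W_le : #W ≤ 2 ^ ℵ₀ := by
  rw [mk_W, ← succ_aleph0]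
  exact Order.succ_le_of_lt (cantor ℵ₀)

theorem mk_A0 : #A0 = 2 ^ (2 ^ ℵ₀ : Cardinal.{0}) := by
  rw [Cardinal.mk_set, Cardinal.mk_set, Cardinal.mk_nat]

theorem mk_K_le : #K ≤ 2 ^ (2 ^ ℵ₀ : Cardinal.{0}) := by
  rw [mk_K]
  exact Order.succ_le_of_lt (cantor _)

theorem mk_Cd_le : #Cd ≤ 2 ^ (2 ^ ℵ₀ : Cardinal.{0}) := by
  have h0 : (ℵ₀ : Cardinal.{0}) ≤ 2 ^ (2 ^ ℵ₀ : Cardinal.{0}) :=
    (cantor ℵ₀).le.trans (cantor _).le
  have h2 : #Cd ≤ #(Option (ℕ → K × A0)) := by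
    have h3 : ∀ p : Cd, p ≠ Cd.triv → ∃ f : ℕ → K × A0, (∀ n, p.1 (f n).1 = some (f n).2) ∧
        ∀ η, p.1 η ≠ none → ∃ n, (f n).1 = η := by
      intro p hp
      have hne : {η | p.1 η ≠ none}.Nonempty := by
        by_contra hcon
        rw [Set.not_nonempty_iff_eq_empty] at hcon
        refine hp (Subtype.ext (funext fun η => ?_))
        by_contra h
        have : η ∈ {η | p.1 η ≠ none} := h
        rw [hcon] at this
        exact this
      obtain ⟨g, hg⟩ := p.2.exists_eq_range hne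
      have hg2 : ∀ n, p.1 (g n) ≠ none := fun n => by
        have : g n ∈ {η | p.1 η ≠ none} := hg ▸ ⟨n, rfl⟩
        exact this
      refine ⟨fun n => (g n, (p.1 (g n)).get (Option.isSome_iff_ne_none.2 (hg2 n))), fun n => ?_,
        fun η hη => ?_⟩
      · exact (Option.some_get _).symm
      · have : η ∈ Set.range g := hg ▸ hη
        exact this
    refine Cardinal.mk_le_of_injective (f := fun p : Cd =>
      if hp : p = Cd.triv then (none : Option (ℕ → K × A0)) else some (h3 p hp).choose) ?_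
    intro p q hpq
    by_cases hp : p = Cd.triv <;> by_cases hq : q = Cd.triv
    · rw [hp, hq]
    · simp [hp, hq] at hpq
    · simp [hp, hq] at hpq
    · simp only [hp, hq, dif_neg, not_false_eq_true, Option.some.injEq] at hpq
      obtain ⟨h4, h5⟩ := (h3 p hp).choose_spec
      obtain ⟨h6, h7⟩ := (h3 q hq).choose_spec
      rw [← hpq] at h6 h7
      refine Subtype.ext (funext fun η => ?_)
      by_cases h8 : p.1 η = none <;> by_cases h9 : q.1 η = none
      · rw [h8, h9]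
      · obtain ⟨n, hn⟩ := h7 η h9
        have := h4 n
        rw [hn, h8] at this
        cases this
      · obtain ⟨n, hn⟩ := h5 η h8
        have := h6 n
        rw [hn, h9] at this
        cases this
      · obtain ⟨n, hn⟩ := h5 η h8
        rw [← hn, h4 n, h6 n]
  refine h2.trans ?_
  have h4 : #(K × A0) ≤ 2 ^ (2 ^ ℵ₀ : Cardinal.{0}) := by
    rw [Cardinal.mk_prod, Cardinal.lift_id, Cardinal.lift_id, mk_A0]
    refine (mul_le_mul' mk_K_le le_rfl).trans ?_
    rw [mul_eq_self h0]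
  have h5 : #(ℕ → K × A0) ≤ 2 ^ (2 ^ ℵ₀ : Cardinal.{0}) := by
    rw [← Cardinal.power_def, Cardinal.mk_nat]
    refine (Cardinal.power_le_power_right h4).trans ?_
    rw [← Cardinal.power_mul, Cardinal.mul_eq_left (cantor ℵ₀).le (cantor ℵ₀).le aleph0_ne_zero]
  rw [Cardinal.mk_option]
  exact Cardinal.add_le_of_le h0 h5 ((one_le_aleph0).trans h0)

/-- the least element of `K` -/
noncomputable def K0 : K := (wellFounded_lt (α := K)).min Set.univ Set.univ_nonempty

theorem K0_le (η : K) : K0 ≤ η := not_lt.1 ((wellFounded_lt (α := K)).not_lt_min Set.univ (Set.mem_univ η))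

theorem lt_succ_iff_K {η ζ : K} : ζ < Order.succ η ↔ ζ ≤ η := Order.lt_succ_iff

end Pool.Agent.MMA1
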