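import Pool.Agent.MMI.TwoStep
import Pool.Agent.MMI.WK

/-! # The iteration: basic facts on the orders of the stages -/

set_option autoImplicit false

namespace Pool.Agent.MMA1

open Classical

variable {S : Stp}

theorem LE_mono {ζ ξ : WithTop K} (h : ζ ≤ ξ) {p q : Cd} (hpq : (LE S ξ).le p q) : (LE S ζ).le p q := by
  rw [LE_le] at hpq ⊢
  exact fun η hη => hpq η (hη.trans_le h)

theorem prj_Val (η : K) (p : Cd) : prj (Itd S η) (Val S η p) = down (LE S η) p := prj_val _ _ _ _

theorem Val_ne_bot (η : K) (p : Cd) : Val S η p ≠ ⊥ := val_ne_bot _ _ _ _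

theorem Val_le_emb (η : K) (p : Cd) : Val S η p ≤ emb (Itd S η) (down (LE S η) p) := val_le_emb _ _ _ _

theorem Val_none {η : K} {p : Cd} (h : p.at η = none) : Val S η p = emb (Itd S η) (down (LE S η) p) :=
  val_none _ _ h

/-- monotonicity in the part below `η` -/
theorem Val_mono {η : K} {p q : Cd} (h : p.at η = q.at η)
    (hd : down (LE S η) p ≤ down (LE S η) q) : Val S η p ≤ Val S η q := by
  unfold Val val
  rw [show p.1 η = q.1 η from h]
  exact inf_le_inf_right _ (emb_mono hd)

theorem down_le_of_le {X : Type} {L : Pre X} {p q : X} (h : L.le p q) : down L p ≤ down L q :=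
  down_mono h

theorem LE_of_agree {ξ : WithTop K} {p q : Cd} (h : ∀ η : K, (η : WithTop K) < ξ → p.at η = q.at η) :
    (LE S ξ).le p q := by
  induction ξ using (wellFounded_lt (α := WithTop K)).induction with
  | _ ξ ih =>
    rw [LE_le]
    intro η hη
    exact Val_mono (h η hη) (down_mono (ih η hη fun ζ hζ => h ζ (hζ.trans hη)))

theorem down_of_agree {ξ : WithTop K} {p q : Cd} (h : ∀ η : K, (η : WithTop K) < ξ → p.at η = q.at η) :
    down (LE S ξ) p = down (LE S ξ) q :=
  le_antisymm (down_mono (LE_of_agree h)) (down_mono (LE_of_agree fun η hη => (h η hη).symm))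

theorem Val_congr {η : K} {p q : Cd} (h : ∀ ζ ≤ η, p.at ζ = q.at ζ) : Val S η p = Val S η q :=
  le_antisymm (Val_mono (h η le_rfl) (down_of_agree fun ζ hζ => h ζ (WithTop.coe_lt_coe.1 hζ).le).le)
    (Val_mono (h η le_rfl).symm
      (down_of_agree fun ζ hζ => h ζ (WithTop.coe_lt_coe.1 hζ).le).ge)

/-- every element of the two step algebra is coded -/
theorem Val_code {η : K} (hF : FullQ (Itd S η)) (u : BA (TS (Itd S η))) :
    ∃ a : A0, ∀ p : Cd, Val S η (p.set η (some a)) =
      emb (Itd S η) (down (LE S η) p) ⊓ (u ⊔ (emb (Itd S η) (prj (Itd S η) u))ᶜ) := by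
  obtain ⟨a, ha⟩ : ∃ a, dec (Itd S η) (some a) = u := by
    have h : ∃ f : A0 → BA (TS (Itd S η)), Function.Surjective f := hF
    obtain ⟨a, ha⟩ := h.choose_spec u
    refine ⟨a, ?_⟩
    change (if h : ∃ f : A0 → BA (TS (Itd S η)), Function.Surjective f then h.choose a else ⊤) = u
    rw [dif_pos h, ha]
  refine ⟨a, fun p => ?_⟩
  have h1 : (p.set η (some a)).1 η = some a := Function.update_self _ _ _
  have h2 : down (LE S η) (p.set η (some a)) = down (LE S η) p := by
    refine down_of_agree fun ζ hζ => ?_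
    exact Function.update_of_ne (WithTop.coe_lt_coe.1 hζ).ne _ _
  change emb (Itd S η) (down (LE S η) (p.set η (some a))) ⊓
    (dec (Itd S η) ((p.set η (some a)).1 η) ⊔
      (emb (Itd S η) (prj (Itd S η) (dec (Itd S η) ((p.set η (some a)).1 η))))ᶜ) = _
  rw [h2, h1, ha]

/-- an element with the right projection is the value of a condition -/
theorem exists_Val_eq {η : K} (hF : FullQ (Itd S η)) (u : BA (TS (Itd S η))) (c : Cd)
    (h : prj (Itd S η) u = down (LE S η) c) : ∃ a : A0, Val S η (c.set η (some a)) = u := by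
  obtain ⟨a, ha⟩ := Val_code hF u
  refine ⟨a, ?_⟩
  rw [ha c, h, inf_sup_left, inf_compl_eq_bot, sup_bot_eq]
  refine le_antisymm inf_le_right (le_inf ?_ le_rfl)
  rw [← h]
  exact le_emb_prj u

theorem set_at (p : Cd) (η : K) (a : Option A0) : (p.set η a).at η = a := Function.update_self _ _ _

theorem set_at_ne (p : Cd) {η ζ : K} (h : ζ ≠ η) (a : Option A0) : (p.set η a).at ζ = p.at ζ :=
  Function.update_of_ne h _ _

theorem triv_at (η : K) : Cd.triv.at η = none := rfl

theorem splice_lt {ξ : WithTop K} {p q : Cd} {η : K} (h : (η : WithTop K) < ξ) :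
    (splice ξ p q).at η = p.at η := if_pos h

theorem splice_ge {ξ : WithTop K} {p q : Cd} {η : K} (h : ξ ≤ (η : WithTop K)) :
    (splice ξ p q).at η = q.at η := if_neg (not_lt.2 h)

/-- extending below `ζ` gives a stronger condition -/
theorem splice_le {ζ : WithTop K} {r p : Cd} (h : (LE S ζ).le r p) (ξ : WithTop K) :
    (LE S ξ).le (splice ζ r p) p := by
  induction ξ using (wellFounded_lt (α := WithTop K)).induction with
  | _ ξ ih =>
    rw [LE_le]
    intro η hη
    by_cases h1 : (η : WithTop K) < ζ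
    · have h2 : Val S η (splice ζ r p) = Val S η r :=
        Val_congr fun ζ' hζ' => splice_lt ((WithTop.coe_le_coe.2 hζ').trans_lt h1)
      rw [h2]
      rw [LE_le] at h
      exact h η h1
    · exact Val_mono (splice_ge (not_lt.1 h1)) (down_mono (ih η hη))

theorem splice_equiv {ζ : WithTop K} (r p : Cd) :
    (LE S ζ).le (splice ζ r p) r ∧ (LE S ζ).le r (splice ζ r p) :=
  ⟨LE_of_agree fun _ hη => splice_lt hη, LE_of_agree fun _ hη => (splice_lt hη).symm⟩

theorem le_splice {ζ ξ : WithTop K} {q r p : Cd} (h1 : (LE S ζ).le q r) (h2 : (LE S ξ).le q p) :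
    (LE S ξ).le q (splice ζ r p) := by
  induction ξ using (wellFounded_lt (α := WithTop K)).induction with
  | _ ξ ih =>
    rw [LE_le]
    intro η hη
    have h3 := ih η hη (LE_mono hη.le h2)
    by_cases h4 : (η : WithTop K) < ζ
    · have h5 : Val S η (splice ζ r p) = Val S η r :=
        Val_congr fun ζ' hζ' => splice_lt ((WithTop.coe_le_coe.2 hζ').trans_lt h4)
      rw [h5]
      rw [LE_le] at h1
      exact h1 η h4
    · rw [LE_le] at h2
      have h5 := h2 η hη
      have h6 : (splice ζ r p).1 η = p.1 η := splice_ge (not_lt.1 h4)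
      unfold Val val at h5 ⊢
      rw [h6]
      exact le_inf (inf_le_left.trans (emb_mono (down_mono h3))) (h5.trans inf_le_right)

/-- monotonicity of splicing -/
theorem splice_mono {ζ ξ : WithTop K} {r r' p : Cd} (h : (LE S ζ).le r r') :
    (LE S ξ).le (splice ζ r p) (splice ζ r' p) := by
  induction ξ using (wellFounded_lt (α := WithTop K)).induction with
  | _ ξ ih =>
    rw [LE_le]
    intro η hη
    by_cases h1 : (η : WithTop K) < ζ
    · have h2 : ∀ r : Cd, Val S η (splice ζ r p) = Val S η r := fun r =>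
        Val_congr fun ζ' hζ' => splice_lt ((WithTop.coe_le_coe.2 hζ').trans_lt h1)
      rw [h2, h2]
      rw [LE_le] at h
      exact h η h1
    · refine Val_mono ?_ (down_mono (ih η hη))
      rw [splice_ge (not_lt.1 h1), splice_ge (not_lt.1 h1)]

theorem le_of_none {ζ ξ : WithTop K} {q p : Cd} (h : (LE S ζ).le q p)
    (hn : ∀ η : K, ζ ≤ (η : WithTop K) → (η : WithTop K) < ξ → p.at η = none) : (LE S ξ).le q p := by
  induction ξ using (wellFounded_lt (α := WithTop K)).induction with
  | _ ξ ih =>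
    rw [LE_le]
    intro η hη
    by_cases h4 : (η : WithTop K) < ζ
    · rw [LE_le] at h
      exact h η h4
    · rw [Val_none (hn η (not_lt.1 h4) hη)]
      refine (Val_le_emb η q).trans (emb_mono (down_mono ?_))
      exact ih η hη fun η' h1 h2 => hn η' h1 (h2.trans hη)

theorem LE_succ {η : K} {p q : Cd} :
    (LE S ((Order.succ η : K) : WithTop K)).le p q ↔ (nxt (LE S η) (Itd S η) η).le p q := by
  constructor
  · intro h
    refine ⟨LE_mono (WithTop.coe_le_coe.2 (Order.le_succ η)) h, ?_⟩
    rw [LE_le] at h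
    exact h η (WithTop.coe_lt_coe.2 (Order.lt_succ η))
  · rintro ⟨h1, h2⟩
    rw [LE_le] at h1 ⊢
    intro ζ hζ
    rcases (Order.lt_succ_iff.1 (WithTop.coe_lt_coe.1 hζ)).lt_or_eq with h | h
    · exact h1 ζ (WithTop.coe_lt_coe.2 h)
    · rw [h]; exact h2

theorem LE_succ_eq (η : K) : LE S ((Order.succ η : K) : WithTop K) = nxt (LE S η) (Itd S η) η := by
  have h : (LE S ((Order.succ η : K) : WithTop K)).le = (nxt (LE S η) (Itd S η) η).le := by
    funext p q
    exact propext LE_succ
  cases h1 : LE S ((Order.succ η : K) : WithTop K)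
  cases h2 : nxt (LE S η) (Itd S η) η
  rw [h1, h2] at h
  cases h
  rfl

theorem LE_lim {ξ : WithTop K} (hlim : ∀ η : K, (η : WithTop K) < ξ → ((Order.succ η : K) : WithTop K) < ξ)
    {p q : Cd} : (LE S ξ).le p q ↔ ∀ ζ : K, (ζ : WithTop K) < ξ → (LE S ζ).le p q := by
  constructor
  · exact fun h ζ hζ => LE_mono hζ.le h
  · intro h
    rw [LE_le]
    intro η hη
    have h1 := h _ (hlim η hη)
    rw [LE_le] at h1
    exact h1 η (WithTop.coe_lt_coe.2 (Order.lt_succ η))

theorem LE_zero (p q : Cd) : (LE S (K0 : WithTop K)).le p q := by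
  rw [LE_le]
  intro η hη
  exact absurd (WithTop.coe_lt_coe.1 hη) (not_lt.2 (K0_le η))

end Pool.Agent.MMA1
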