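import Pool.Agent.MMI.SGen

/-! # Preservation of `ω₁` -/

set_option autoImplicit false

namespace Pool.Agent.MMA1

open Classical

/-- `ω₁` is preserved -/
theorem core_om (f : ℕ → W → BS) (hf : ∀ n, (⨆ α, f n α) = ⊤) :
    (⨆ δ, ⨅ n, ⨆ α, ⨆ _ : α < δ, f n α) = ⊤ := by
  refine le_antisymm le_top (le_iff_Fo.2 fun s _ => ?_)
  refine Fo_iSup.2 fun y _ => ?_
  have h1 : ∀ᶠ z in MF, ∀ n : ℕ, ∀ t, SGen z.1 t → ∀ a, Un.ww a ∈ z.1 →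
      (∀ s, ∃ (x : SC) (b : W), SP.le x s ∧ Fo x (f n b)) →
      ∀ s, SP.le s t → ∃ (s' x : SC) (b : W), SP.le s' s ∧ SP.le s' x ∧ InN z.1 x ∧ Un.ww b ∈ z.1 ∧
        Fo x (f n b) :=
    eventually_countable_forall.2 fun n =>
      SGen_choose Un.ww ww_inj Un.ww fun _ x b => Fo x (f n b)
  obtain ⟨N, hyN, ⟨⟨⟨h2, h3⟩, h4⟩, h5⟩⟩ :=
    MF_exists (((h1.and sgen').and MF_dl).and MF_InN) (Set.countable_singleton (cS y))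
  obtain ⟨t, hty, ht⟩ := h3 y ((h5 y).1 (hyN rfl))
  obtain ⟨δ, hδ, ⟨β, hβ⟩, -⟩ := h4
  have hmem : ∀ b : W, Un.ww b ∈ N ↔ b < δ := fun b => by
    have h6 : b ∈ dl N ↔ b ∈ Set.Iio δ := by rw [show dl N = Set.Iio δ from hδ]
    exact h6
  refine ⟨t, hty, δ, Fo_iInf.2 fun n => Fo_iSup.2 fun s' hs' => ?_⟩
  obtain ⟨s₁, x, b, h7, h8, -, h9, h10⟩ := h2 n t ht β ((hmem β).2 hβ) (fun s₀ => by
    have h11 : Fo s₀ (⨆ α, f n α) := by rw [hf n]; exact Fo_top s₀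
    obtain ⟨z, hz, b, hb⟩ := Fo_iSup.1 h11 s₀ (SP.refl s₀)
    exact ⟨z, b, hz, hb⟩) s' hs'
  refine ⟨s₁, h7, b, ?_⟩
  exact le_iff_Fo.1 (le_iSup (fun _ : b < δ => f n b) ((hmem b).1 h9)) s₁ (h10.mono h8)

end Pool.Agent.MMA1
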