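import Pool.Agent.MMI.Basic

/-! # The embeddings into the final algebra -/

set_option autoImplicit false

namespace Pool.Agent.MMA1

open Classical

theorem Leg_congr {F F' : Prg} {η : K} (h : ∀ ζ ≤ η, F ζ = F' ζ) : Leg F η ↔ Leg F' η := by
  unfold Leg
  rw [h η le_rfl, LP_congr (η : WithTop K) (F := F) (F' := F')
    fun ζ hζ => h ζ (WithTop.coe_lt_coe.1 hζ).le]

/-- a condition of the final forcing -/
def mkS (F : Prg) (ξ : K) (h : ∀ η < ξ, Leg F η) (p : Cd) : SC := ⟨(ξ, F, p), h⟩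

theorem SP_le {t s : SC} : SP.le t s ↔ s.len ≤ t.len ∧ (∀ η < s.len, t.prg η = s.prg η) ∧
    (LP s.prg s.len).le t.cnd s.cnd := Iff.rfl

/-- the order of a stage only depends on the program below it -/
theorem liftS_LP_eq {F : Prg} {ξ : K} {G : Prg} (h2 : ∀ η < ξ, G η = F η) :
    LP G ξ = LP F ξ :=
  LP_congr (ξ : WithTop K) fun η hη => h2 η (WithTop.coe_lt_coe.1 hη)

/-- comparison of the conditions at an early stage -/
theorem liftS_cnd_le {F : Prg} {ξ : K} {s t : SC} (h1 : ξ ≤ s.len) (h2 : ∀ η < ξ, s.prg η = F η)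
    (h : SP.le t s) : (LP F ξ).le t.cnd s.cnd := by
  rw [← liftS_LP_eq h2]
  exact LE_mono (WithTop.coe_le_coe.2 h1) h.2.2

/-- stronger conditions extend the program -/
theorem liftS_ext_of_le {F : Prg} {ξ : K} {s t : SC} (h1 : ξ ≤ s.len) (h2 : ∀ η < ξ, s.prg η = F η)
    (h : SP.le t s) : ξ ≤ t.len ∧ ∀ η < ξ, t.prg η = F η :=
  ⟨h1.trans h.1, fun η hη => (h.2.1 η (hη.trans_le h1)).trans (h2 η hη)⟩

/-- every condition can be made longer -/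
theorem exists_len (s : SC) (ξ : K) : ∃ t, SP.le t s ∧ ξ ≤ t.len ∧ t.cnd = s.cnd := by
  let G : Prg := fun η => if η < s.len then s.prg η else (true, fun _ _ => ∅)
  have hG : ∀ η < s.len, G η = s.prg η := fun η hη => if_pos hη
  have hL : ∀ η < max ξ s.len, Leg G η := by
    intro η _
    by_cases h1 : η < s.len
    · have h2 : Leg s.prg η := s.2 η h1
      exact (Leg_congr fun ζ hζ => hG ζ (hζ.trans_lt h1)).2 h2
    · left
      change (if η < s.len then s.prg η else (true, fun _ _ => ∅)).1 = true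
      rw [if_neg h1]
  refine ⟨mkS G (max ξ s.len) hL s.cnd, ⟨le_max_right _ _, hG, (LP _ _).refl _⟩, le_max_left _ _, rfl⟩

/-- changing the condition of the iteration -/
theorem exists_cnd (s : SC) {p : Cd} {F : Prg} {ξ : K} (h1 : ξ ≤ s.len) (h2 : ∀ η < ξ, s.prg η = F η)
    (h : (LP F ξ).le p s.cnd) :
    ∃ t, SP.le t s ∧ t.len = s.len ∧ t.prg = s.prg ∧ (LP F ξ).le t.cnd p := by
  refine ⟨mkS s.prg s.len s.2 (splice ξ p s.cnd), ⟨le_rfl, fun _ _ => rfl, ?_⟩, rfl, rfl, ?_⟩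
  · rw [← liftS_LP_eq h2] at h
    exact splice_le h _
  · exact (splice_equiv p s.cnd).1

theorem Fo_liftS {F : Prg} {ξ : K} {s : SC} (h1 : ξ ≤ s.len) (h2 : ∀ η < ξ, s.prg η = F η)
    {U : BA (LP F ξ)} : Fo s (liftS F ξ U) ↔ Fo s.cnd U := by
  unfold liftS
  rw [Fo_toB]
  constructor
  · intro h
    refine Fo_reg fun q hq => ?_
    obtain ⟨t, ht, ht1, ht2, ht3⟩ := exists_cnd s h1 h2 hq
    obtain ⟨z, hz, w, ⟨hw1, hw2, hw3⟩, hzw⟩ := h t ht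
    refine ⟨z.cnd, (LP F ξ).trans _ _ _ (liftS_cnd_le (s := t) (by rw [ht1]; exact h1)
      (fun η hη => by rw [ht2]; exact h2 η hη) hz) ht3, ?_⟩
    exact hw3.mono (liftS_cnd_le hw1 hw2 hzw)
  · intro h y hy
    exact ⟨y, SP.refl y, s, ⟨h1, h2, h⟩, hy⟩

theorem Fo_stg {F : Prg} {ξ : K} {s : SC} (h1 : ξ ≤ s.len) (h2 : ∀ η < ξ, s.prg η = F η) :
    Fo s (stg F ξ) :=
  (Fo_liftS h1 h2).2 (Fo_top _)

/-- a condition which forces `stg F ξ` extends to one which extends `F` -/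
theorem exists_of_Fo_stg {F : Prg} {ξ : K} {s : SC} (h : Fo s (stg F ξ)) :
    ∃ t, SP.le t s ∧ ξ ≤ t.len ∧ ∀ η < ξ, t.prg η = F η := by
  unfold stg liftS at h
  rw [Fo_toB] at h
  obtain ⟨z, hz, w, ⟨hw1, hw2, -⟩, hzw⟩ := h s (SP.refl s)
  exact ⟨z, hz, liftS_ext_of_le hw1 hw2 hzw⟩

/-- equality below `stg` can be checked at the conditions which extend `F` -/
theorem le_of_stg {F : Prg} {ξ : K} {U V : BS}
    (h : ∀ s : SC, ξ ≤ s.len → (∀ η < ξ, s.prg η = F η) → Fo s U → Fo s V) : stg F ξ ⊓ U ≤ V := by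
  refine le_iff_Fo.2 fun x hx => Fo_reg fun y hy => ?_
  obtain ⟨h1, h2⟩ := Fo_inf.1 (hx.mono hy)
  obtain ⟨t, ht, ht1, ht2⟩ := exists_of_Fo_stg h1
  exact ⟨t, ht, h t ht1 ht2 (h2.mono ht)⟩

theorem liftS_mono {F : Prg} {ξ : K} {U V : BA (LP F ξ)} (h : U ≤ V) :
    liftS F ξ U ≤ liftS F ξ V := by
  refine le_iff_Fo.2 fun x hx => ?_
  unfold liftS at hx ⊢
  rw [Fo_toB] at hx ⊢
  intro y hy
  obtain ⟨z, hz, w, ⟨hw1, hw2, hw3⟩, hzw⟩ := hx y hy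
  exact ⟨z, hz, w, ⟨hw1, hw2, le_iff_Fo.1 h _ hw3⟩, hzw⟩

theorem liftS_le_stg {F : Prg} {ξ : K} (U : BA (LP F ξ)) : liftS F ξ U ≤ stg F ξ :=
  liftS_mono le_top

/-- elements below `stg` are determined by the conditions which extend `F` -/
theorem liftS_ext {F : Prg} {ξ : K} {V V' : BS} (hV : V ≤ stg F ξ) (hV' : V' ≤ stg F ξ)
    (h : ∀ s : SC, ξ ≤ s.len → (∀ η < ξ, s.prg η = F η) → (Fo s V ↔ Fo s V')) : V = V' := by
  refine le_antisymm ?_ ?_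
  · have h1 : stg F ξ ⊓ V ≤ V' := le_of_stg fun s h1 h2 h3 => (h s h1 h2).1 h3
    rwa [inf_eq_right.2 hV] at h1
  · have h1 : stg F ξ ⊓ V' ≤ V := le_of_stg fun s h1 h2 h3 => (h s h1 h2).2 h3
    rwa [inf_eq_right.2 hV'] at h1

theorem liftS_inf {F : Prg} {ξ : K} (U V : BA (LP F ξ)) :
    liftS F ξ (U ⊓ V) = liftS F ξ U ⊓ liftS F ξ V := by
  refine liftS_ext (liftS_le_stg _) (inf_le_left.trans (liftS_le_stg _)) fun s h1 h2 => ?_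
  rw [Fo_inf, Fo_liftS h1 h2, Fo_liftS h1 h2, Fo_liftS h1 h2, Fo_inf]

theorem liftS_compl {F : Prg} {ξ : K} (U : BA (LP F ξ)) :
    liftS F ξ Uᶜ = stg F ξ ⊓ (liftS F ξ U)ᶜ := by
  refine liftS_ext (liftS_le_stg _) inf_le_left fun s h1 h2 => ?_
  rw [Fo_inf, Fo_liftS h1 h2, Fo_compl, Fo_compl]
  constructor
  · intro h
    refine ⟨Fo_stg h1 h2, fun t ht hU => ?_⟩
    obtain ⟨h3, h4⟩ := liftS_ext_of_le h1 h2 ht
    exact h t.cnd (liftS_cnd_le h1 h2 ht) ((Fo_liftS h3 h4).1 hU)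
  · rintro ⟨-, h⟩ q hq hU
    obtain ⟨t, ht, -, -, ht3⟩ := exists_cnd s h1 h2 hq
    obtain ⟨h3, h4⟩ := liftS_ext_of_le h1 h2 ht
    exact h t ht ((Fo_liftS h3 h4).2 (hU.mono ht3))

theorem liftS_iSup {F : Prg} {ξ : K} {ι : Sort*} (U : ι → BA (LP F ξ)) :
    liftS F ξ (⨆ i, U i) = ⨆ i, liftS F ξ (U i) := by
  refine liftS_ext (liftS_le_stg _) (iSup_le fun i => liftS_le_stg _) fun s h1 h2 => ?_
  rw [Fo_liftS h1 h2, Fo_iSup, Fo_iSup]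
  constructor
  · intro h t ht
    obtain ⟨h3, h4⟩ := liftS_ext_of_le h1 h2 ht
    obtain ⟨q, hq, i, hi⟩ := h t.cnd (liftS_cnd_le h1 h2 ht)
    obtain ⟨t', ht', -, -, h5⟩ := exists_cnd t h3 h4 hq
    obtain ⟨h6, h7⟩ := liftS_ext_of_le h3 h4 ht'
    exact ⟨t', ht', i, (Fo_liftS h6 h7).2 (hi.mono h5)⟩
  · intro h q hq
    obtain ⟨t, ht, -, -, ht3⟩ := exists_cnd s h1 h2 hq
    obtain ⟨h3, h4⟩ := liftS_ext_of_le h1 h2 ht
    obtain ⟨z, hz, i, hi⟩ := h t ht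
    obtain ⟨h5, h6⟩ := liftS_ext_of_le h3 h4 hz
    exact ⟨z.cnd, (LP F ξ).trans _ _ _ (liftS_cnd_le h3 h4 hz) ht3, i, (Fo_liftS h5 h6).1 hi⟩

theorem liftS_iInf {F : Prg} {ξ : K} {ι : Sort*} (U : ι → BA (LP F ξ)) :
    liftS F ξ (⨅ i, U i) = stg F ξ ⊓ ⨅ i, liftS F ξ (U i) := by
  refine liftS_ext (liftS_le_stg _) inf_le_left fun s h1 h2 => ?_
  rw [Fo_liftS h1 h2, Fo_inf, Fo_iInf, Fo_iInf]
  constructor
  · exact fun h => ⟨Fo_stg h1 h2, fun i => (Fo_liftS h1 h2).2 (h i)⟩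
  · exact fun h i => (Fo_liftS h1 h2).1 (h.2 i)

theorem liftS_himp {F : Prg} {ξ : K} (U V : BA (LP F ξ)) :
    liftS F ξ (U ⇨ V) = stg F ξ ⊓ (liftS F ξ U ⇨ liftS F ξ V) := by
  refine liftS_ext (liftS_le_stg _) inf_le_left fun s h1 h2 => ?_
  rw [Fo_liftS h1 h2, Fo_inf, Fo_himp, Fo_himp]
  constructor
  · intro h
    refine ⟨Fo_stg h1 h2, fun t ht hU => ?_⟩
    obtain ⟨h3, h4⟩ := liftS_ext_of_le h1 h2 ht
    exact (Fo_liftS h3 h4).2 (h t.cnd (liftS_cnd_le h1 h2 ht) ((Fo_liftS h3 h4).1 hU))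
  · rintro ⟨-, h⟩ q hq hU
    refine Fo_reg fun q' hq' => ?_
    obtain ⟨t, ht, -, -, ht3⟩ := exists_cnd s h1 h2 ((LP F ξ).trans _ _ _ hq' hq)
    obtain ⟨h3, h4⟩ := liftS_ext_of_le h1 h2 ht
    refine ⟨t.cnd, ht3, (Fo_liftS h3 h4).1 (h t ht ((Fo_liftS h3 h4).2 ?_))⟩
    exact hU.mono ((LP F ξ).trans _ _ _ ht3 hq')

theorem liftS_cast {X : Type} {L L' : Pre X} (h : L = L') (U : BA L) :
    ∃ U' : BA L', ∀ q, Fo q U' ↔ Fo q U := by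
  subst h
  exact ⟨U, fun _ => Iff.rfl⟩

/-- changing the program from `ξ` on -/
theorem liftS_congr {F F' : Prg} {ξ : K} (h : ∀ η < ξ, F η = F' η) (U : BA (LP F ξ)) :
    ∃ U' : BA (LP F' ξ), liftS F' ξ U' = liftS F ξ U ∧ ∀ q, Fo q U' ↔ Fo q U := by
  obtain ⟨U', hU'⟩ := liftS_cast (liftS_LP_eq h) U
  refine ⟨U', ?_, hU'⟩
  unfold liftS
  congr 1
  ext s
  constructor
  · rintro ⟨h1, h2, h3⟩
    exact ⟨h1, fun η hη => (h2 η hη).trans (h η hη).symm, (hU' _).1 h3⟩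
  · rintro ⟨h1, h2, h3⟩
    exact ⟨h1, fun η hη => (h2 η hη).trans (h η hη), (hU' _).2 h3⟩

theorem stg_congr {F F' : Prg} {ξ : K} (h : ∀ η < ξ, F η = F' η) : stg F ξ = stg F' ξ := by
  unfold stg liftS
  congr 1
  ext s
  constructor
  · rintro ⟨h1, h2, -⟩
    exact ⟨h1, fun η hη => (h2 η hη).trans (h η hη), Fo_top _⟩
  · rintro ⟨h1, h2, -⟩
    exact ⟨h1, fun η hη => (h2 η hη).trans (h η hη).symm, Fo_top _⟩

/-! ### congruence -/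

/-- `X` is the value of `U` below `stg F ξ` -/
def LRel (F : Prg) (ξ : K) (U : BA (LP F ξ)) (X : BS) : Prop := liftS F ξ U = stg F ξ ⊓ X

theorem LRel.Fo_iff {F : Prg} {ξ : K} {U : BA (LP F ξ)} {X : BS} (h : LRel F ξ U X) {s : SC}
    (h1 : ξ ≤ s.len) (h2 : ∀ η < ξ, s.prg η = F η) : Fo s.cnd U ↔ Fo s X := by
  unfold LRel at h
  rw [← Fo_liftS h1 h2, h, Fo_inf]
  exact ⟨fun h => h.2, fun h => ⟨Fo_stg h1 h2, h⟩⟩

theorem LRel.of_Fo {F : Prg} {ξ : K} {U : BA (LP F ξ)} {X : BS}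
    (h : ∀ s : SC, ξ ≤ s.len → (∀ η < ξ, s.prg η = F η) → (Fo s (liftS F ξ U) ↔ Fo s X)) :
    LRel F ξ U X := by
  refine liftS_ext (liftS_le_stg _) inf_le_left fun s h1 h2 => ?_
  rw [Fo_inf, h s h1 h2]
  exact ⟨fun h => ⟨Fo_stg h1 h2, h⟩, fun h => h.2⟩

theorem LRel.liftS_iff {F : Prg} {ξ : K} {U : BA (LP F ξ)} {X : BS} (h : LRel F ξ U X) {s : SC}
    (h1 : ξ ≤ s.len) (h2 : ∀ η < ξ, s.prg η = F η) : Fo s (liftS F ξ U) ↔ Fo s X := by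
  rw [Fo_liftS h1 h2, h.Fo_iff h1 h2]

theorem LRel.iInf {F : Prg} {ξ : K} {ι : Sort*} {U : ι → BA (LP F ξ)} {X : ι → BS}
    (h : ∀ i, LRel F ξ (U i) (X i)) : LRel F ξ (⨅ i, U i) (⨅ i, X i) := by
  refine LRel.of_Fo fun s h1 h2 => ?_
  rw [Fo_liftS h1 h2, Fo_iInf, Fo_iInf]
  exact forall_congr' fun i => (h i).Fo_iff h1 h2

theorem LRel.iSup {F : Prg} {ξ : K} {ι : Sort*} {U : ι → BA (LP F ξ)} {X : ι → BS}
    (h : ∀ i, LRel F ξ (U i) (X i)) : LRel F ξ (⨆ i, U i) (⨆ i, X i) := by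
  refine LRel.of_Fo fun s h1 h2 => ?_
  rw [liftS_iSup, Fo_iSup, Fo_iSup]
  refine forall_congr' fun t => forall_congr' fun ht => exists_congr fun z =>
    and_congr_right fun hz => exists_congr fun i => ?_
  obtain ⟨h3, h4⟩ := liftS_ext_of_le h1 h2 ht
  obtain ⟨h5, h6⟩ := liftS_ext_of_le h3 h4 hz
  exact (h i).liftS_iff h5 h6

theorem LRel.inf {F : Prg} {ξ : K} {U V : BA (LP F ξ)} {X Y : BS}
    (h : LRel F ξ U X) (h' : LRel F ξ V Y) : LRel F ξ (U ⊓ V) (X ⊓ Y) := by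
  refine LRel.of_Fo fun s h1 h2 => ?_
  rw [Fo_liftS h1 h2, Fo_inf, Fo_inf, h.Fo_iff h1 h2, h'.Fo_iff h1 h2]

theorem LRel.himp {F : Prg} {ξ : K} {U V : BA (LP F ξ)} {X Y : BS}
    (h : LRel F ξ U X) (h' : LRel F ξ V Y) : LRel F ξ (U ⇨ V) (X ⇨ Y) := by
  refine LRel.of_Fo fun s h1 h2 => ?_
  have h3 : Fo s (liftS F ξ (U ⇨ V)) ↔ Fo s (liftS F ξ U ⇨ liftS F ξ V) := by
    rw [liftS_himp, Fo_inf]
    exact ⟨fun h => h.2, fun h => ⟨Fo_stg h1 h2, h⟩⟩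
  rw [h3, Fo_himp, Fo_himp]
  refine forall_congr' fun t => forall_congr' fun ht => ?_
  obtain ⟨h4, h5⟩ := liftS_ext_of_le h1 h2 ht
  rw [h.liftS_iff h4 h5, h'.liftS_iff h4 h5]

theorem lift_denB {F : Prg} {ξ : K} {R : W → W → BA (LP F ξ)} {D : W → BA (LP F ξ)}
    {RS : W → W → BS} {DS : W → BS} (hR : ∀ x y, liftS F ξ (R x y) = stg F ξ ⊓ RS x y)
    (hD : ∀ x, liftS F ξ (D x) = stg F ξ ⊓ DS x) :
    liftS F ξ (denB R D) = stg F ξ ⊓ denB RS DS := by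
  have hR' : ∀ x y, LRel F ξ (R x y) (RS x y) := hR
  have hD' : ∀ x, LRel F ξ (D x) (DS x) := hD
  exact LRel.iInf fun q => LRel.iSup fun j => (hR' j q).inf (hD' j)

theorem lift_PD {F : Prg} {ξ : K} {R : W → W → BA (LP F ξ)} {D : W → BA (LP F ξ)}
    {RS : W → W → BS} {DS : W → BS} (hR : ∀ x y, liftS F ξ (R x y) = stg F ξ ⊓ RS x y)
    (hD : ∀ x, liftS F ξ (D x) = stg F ξ ⊓ DS x) (s : Set W) (q : W) :
    liftS F ξ (PD R D s q) = stg F ξ ⊓ PD RS DS s q := by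
  have hR' : ∀ x y, LRel F ξ (R x y) (RS x y) := hR
  have hD' : ∀ x, LRel F ξ (D x) (DS x) := hD
  exact LRel.iInf fun q' => (hR' q' q).himp (LRel.iSup fun j => LRel.iSup fun _ => LRel.iSup fun t =>
    ((hR' t q').inf (hR' t j)).inf (hD' j))

end Pool.Agent.MMA1
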