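import Pool.Agent.MMI.Main
import Pool.Agent.MMI.LiftS

/-! # Capturing dense sets and names by a longer program -/

set_option autoImplicit false

namespace Pool.Agent.MMA1

open Classical Cardinal

/-- `(ξ, F)` is a legal extension of the program of `s` -/
def CapVal (s : SC) (P : K × Prg) : Prop :=
  s.len ≤ P.1 ∧ (∀ η < s.len, P.2 η = s.prg η) ∧ ∀ η < P.1, Leg P.2 η

/-- the relation between a pair and the next pair -/
def CapNext {ι : Type} (D : ι → Set SC) (P P' : K × Prg) (i : ι) (q : Cd) : Prop :=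
  P.1 < P'.1 ∧ (∀ η < P.1, P'.2 η = P.2 η) ∧
    (∃ h : ∀ η < P'.1, Leg P'.2 η, mkS P'.2 P'.1 h q ∈ D i) ∧
    ∀ (h : ∀ η < P.1, Leg P.2 η) (a : Cd), mkS P.2 P.1 h a ∈ D i → ¬ (LP P.2 P.1).Comp a q

theorem cap_next {ι : Type} (D : ι → Set SC) (hD : ∀ i, SP.Dense (D i))
    (hO : ∀ i t s, SP.le t s → s ∈ D i → t ∈ D i) (s : SC) (P : K × Prg) (hP : CapVal s P)
    (hn : ∀ h : ∀ η < P.1, Leg P.2 η, ¬ ∀ i, (LP P.2 P.1).Dense {q | mkS P.2 P.1 h q ∈ D i}) :
    ∃ P' i q, CapVal s P' ∧ CapNext D P P' i q := by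
  obtain ⟨h1, h2, h3⟩ := hP
  have h4 := hn h3
  push Not at h4
  obtain ⟨i, hi⟩ := h4
  unfold Pre.Dense at hi
  push Not at hi
  obtain ⟨r, hr⟩ := hi
  obtain ⟨t, ht, hts⟩ := hD i (mkS P.2 P.1 h3 r)
  obtain ⟨t', ht', hlen, hcnd⟩ := exists_len t (Order.succ P.1)
  have htD : t' ∈ D i := hO i _ _ ht' ht
  have htP := SP_le.1 (SP.trans _ _ _ ht' hts)
  have e1 : (mkS P.2 P.1 h3 r).len = P.1 := rfl
  have e2 : (mkS P.2 P.1 h3 r).prg = P.2 := rfl
  have e3 : (mkS P.2 P.1 h3 r).cnd = r := rfl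
  rw [e1, e2, e3] at htP
  refine ⟨(t'.len, t'.prg), i, t'.cnd, ⟨h1.trans htP.1, fun η hη => ?_, t'.2⟩,
    Order.succ_le_iff.1 hlen, htP.2.1, ⟨t'.2, htD⟩, ?_⟩
  · exact (htP.2.1 η (hη.trans_le h1)).trans (h2 η hη)
  · rintro h a ha ⟨z, hz1, hz2⟩
    refine hr z ?_ ((LP _ _).trans _ _ _ hz2 htP.2.2)
    exact hO i _ _ (SP_le.2 ⟨le_rfl, fun _ _ => rfl, hz1⟩ : SP.le (mkS P.2 P.1 h3 z) (mkS P.2 P.1 h a)) ha

/-- least upper bounds of few elements of `K` and one more element -/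
theorem cap_lub (α : K) (f : (β : K) → β < α → K) (b : K) :
    ∃ ξ, b ≤ ξ ∧ (∀ β h, f β h ≤ ξ) ∧ ∀ η < ξ, η < b ∨ ∃ β h, η < f β h := by
  have h1 : ∃ ξ, b ≤ ξ ∧ ∀ β h, f β h ≤ ξ := by
    obtain ⟨μ, hμ⟩ := K_bdd_range (mk_Iio_K α) (fun β : Set.Iio α => f β.1 β.2)
    exact ⟨max b μ, le_max_left _ _, fun β h => (hμ ⟨β, h⟩).le.trans (le_max_right _ _)⟩
  let T : Set K := {ξ | b ≤ ξ ∧ ∀ β h, f β h ≤ ξ}
  refine ⟨(wellFounded_lt (α := K)).min T h1, ((wellFounded_lt (α := K)).min_mem T h1).1,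
    ((wellFounded_lt (α := K)).min_mem T h1).2, fun η hη => ?_⟩
  have h2 : η ∉ T := fun h => (wellFounded_lt (α := K)).not_lt_min T h hη
  by_contra hcon
  push Not at hcon
  exact h2 ⟨hcon.1, hcon.2⟩

/-- the recursion -/
noncomputable def capRec (s : SC) (nx : K × Prg → K × Prg) : K → K × Prg :=
  (wellFounded_lt (α := K)).fix fun α U =>
    ((cap_lub α (fun β h => (nx (U β h)).1) s.len).choose,
      fun η => if h : ∃ β, ∃ h : β < α, η < (nx (U β h)).1 then (nx (U h.choose h.choose_spec.choose)).2 η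
        else s.prg η)

theorem capRec_fst (s : SC) (nx : K × Prg → K × Prg) (α : K) :
    (s.len ≤ (capRec s nx α).1 ∧ (∀ β < α, (nx (capRec s nx β)).1 ≤ (capRec s nx α).1) ∧
    ∀ η < (capRec s nx α).1, η < s.len ∨ ∃ β < α, η < (nx (capRec s nx β)).1) := by
  have h1 := (cap_lub α (fun β _ => (nx (capRec s nx β)).1) s.len).choose_spec
  have h2 : (capRec s nx α).1 = (cap_lub α (fun β _ => (nx (capRec s nx β)).1) s.len).choose := by
    rw [capRec, WellFounded.fix_eq]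
  rw [← h2] at h1
  refine ⟨h1.1, fun β hβ => h1.2.1 β hβ, fun η hη => ?_⟩
  rcases h1.2.2 η hη with h | ⟨β, hβ, h⟩
  · exact Or.inl h
  · exact Or.inr ⟨β, hβ, h⟩

theorem capRec_snd (s : SC) (nx : K × Prg → K × Prg) (α : K) (η : K) :
    (∃ β < α, η < (nx (capRec s nx β)).1 ∧ (capRec s nx α).2 η = (nx (capRec s nx β)).2 η) ∨
    ((∀ β < α, (nx (capRec s nx β)).1 ≤ η) ∧ (capRec s nx α).2 η = s.prg η) := by
  have h2 : (capRec s nx α).2 η =
      if h : ∃ β, ∃ _ : β < α, η < (nx (capRec s nx β)).1 then (nx (capRec s nx h.choose)).2 η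
        else s.prg η := by
    rw [capRec, WellFounded.fix_eq]
  by_cases h : ∃ β, ∃ _ : β < α, η < (nx (capRec s nx β)).1
  · rw [dif_pos h] at h2
    exact Or.inl ⟨h.choose, h.choose_spec.choose, h.choose_spec.choose_spec, h2⟩
  · rw [dif_neg h] at h2
    push Not at h
    exact Or.inr ⟨h, h2⟩

/-- few open dense sets are captured at some stage of a longer program -/
theorem capD {ι : Type} (hι : #ι ≤ 2 ^ ℵ₀) (D : ι → Set SC) (hD : ∀ i, SP.Dense (D i))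
    (hO : ∀ i t s, SP.le t s → s ∈ D i → t ∈ D i) (s : SC) :
    ∃ (ξ : K) (F : Prg) (h : ∀ η < ξ, Leg F η), s.len ≤ ξ ∧ (∀ η < s.len, F η = s.prg η) ∧
      ∀ i, (LP F ξ).Dense {q | mkS F ξ h q ∈ D i} := by
  by_contra hcon
  have hn : ∀ P : K × Prg, CapVal s P → ∀ h : ∀ η < P.1, Leg P.2 η,
      ¬ ∀ i, (LP P.2 P.1).Dense {q | mkS P.2 P.1 h q ∈ D i} :=
    fun P hP h h' => hcon ⟨P.1, P.2, h, hP.1, hP.2.1, h'⟩
  have hnx : ∀ P : K × Prg, ∃ P' : K × Prg, CapVal s P → CapVal s P' ∧ ∃ i q, CapNext D P P' i q := by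
    intro P
    by_cases hP : CapVal s P
    · obtain ⟨P', i, q, h1, h2⟩ := cap_next D hD hO s P hP (hn P hP)
      exact ⟨P', fun _ => ⟨h1, i, q, h2⟩⟩
    · exact ⟨P, fun h => absurd h hP⟩
  choose nx hnx using hnx
  set P : K → K × Prg := capRec s nx with hPdef
  have hF := capRec_fst s nx
  have hS := capRec_snd s nx
  rw [← hPdef] at hF hS
  -- the main induction
  have key : ∀ α, CapVal s (P α) ∧ ∀ β < α, ∀ η < (nx (P β)).1, (P α).2 η = (nx (P β)).2 η := by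
    intro α
    induction α using (wellFounded_lt (α := K)).induction with
    | _ α ih =>
      have coh : ∀ β < α, ∀ β' < β, ∀ η < (nx (P β')).1, (nx (P β)).2 η = (nx (P β')).2 η := by
        intro β hβ β' hβ' η hη
        obtain ⟨-, i, q, h3⟩ := hnx (P β) (ih β hβ).1
        rw [h3.2.1 η (hη.trans_le ((hF β).2.1 β' hβ'))]
        exact (ih β hβ).2 β' hβ' η hη
      have hb : ∀ β < α, ∀ η < (nx (P β)).1, (P α).2 η = (nx (P β)).2 η := by
        intro β hβ η hη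
        rcases hS α η with ⟨β', hβ', h1, h2⟩ | ⟨h1, h2⟩
        · rw [h2]
          rcases lt_trichotomy β β' with h | h | h
          · exact coh β' hβ' β h η hη
          · rw [h]
          · exact (coh β hβ β' h η h1).symm
        · exact absurd hη (not_lt.2 (h1 β hβ))
      refine ⟨⟨(hF α).1, fun η hη => ?_, fun η hη => ?_⟩, hb⟩
      · rcases hS α η with ⟨β', hβ', h1, h2⟩ | ⟨h1, h2⟩
        · rw [h2]
          exact (hnx (P β') (ih β' hβ').1).1.2.1 η hη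
        · exact h2
      · rcases (hF α).2.2 η hη with h | ⟨β, hβ, h⟩
        · have h1 : ∀ ζ ≤ η, (P α).2 ζ = s.prg ζ := by
            intro ζ hζ
            rcases hS α ζ with ⟨β', hβ', h1, h2⟩ | ⟨h1, h2⟩
            · rw [h2]
              exact (hnx (P β') (ih β' hβ').1).1.2.1 ζ (hζ.trans_lt h)
            · exact h2
          exact (Leg_congr h1).2 (s.2 η h)
        · have h1 : ∀ ζ ≤ η, (P α).2 ζ = (nx (P β)).2 ζ := fun ζ hζ => hb β hβ ζ (hζ.trans_lt h)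
          exact (Leg_congr h1).2 ((hnx (P β) (ih β hβ).1).1.2.2 η h)
  have hU : ∀ α, CapVal s (nx (P α)) ∧ ∃ i q, CapNext D (P α) (nx (P α)) i q :=
    fun α => hnx (P α) (key α).1
  choose i q hiq using fun α => (hU α).2
  -- the union program
  have hmono : StrictMono fun α => (P α).1 := fun β α h =>
    (hiq β).1.trans_le ((hF α).2.1 β h)
  have hge : ∀ η, η < (nx (P η)).1 := fun η => (hmono.le_apply (x := η)).trans_lt (hiq η).1
  let G : Prg := fun η => (nx (P η)).2 η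
  have coh : ∀ β α, β < α → ∀ η < (nx (P β)).1, (nx (P α)).2 η = (nx (P β)).2 η := by
    intro β α h η hη
    rw [(hiq α).2.1 η (hη.trans_le ((hF α).2.1 β h))]
    exact (key α).2 β h η hη
  have hG : ∀ α, ∀ η < (nx (P α)).1, G η = (nx (P α)).2 η := by
    intro α η hη
    rcases lt_trichotomy η α with h | h | h
    · exact (coh η α h η (hge η)).symm
    · rw [← h]
    · exact coh α η h η hη
  have hGleg : ∀ η, Leg G η := fun η =>
    (Leg_congr (fun ζ hζ => hG η ζ (hζ.trans_lt (hge η)))).2 ((hU η).1.2.2 η (hge η))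
  have hkcc : KCC (LP G ⊤) := main_kcc_top G hGleg
  -- the antichain
  have hinc : ∀ β α, β < α → i β = i α → ¬ (LP G ⊤).Comp (q β) (q α) := by
    intro β α h hi ⟨z, hz1, hz2⟩
    obtain ⟨hleg, hmem⟩ := (hiq β).2.2.1
    have h1 : mkS (P α).2 (P α).1 (key α).1.2.2 (q β) ∈ D (i α) := by
      rw [← hi]
      have h5 : SP.le (mkS (P α).2 (P α).1 (key α).1.2.2 (q β)) (mkS (nx (P β)).2 (nx (P β)).1 hleg (q β)) :=
        SP_le.2 ⟨(hF α).2.1 β h, (key α).2 β h, (LP _ _).refl _⟩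
      exact hO (i β) _ _ h5 hmem
    refine (hiq α).2.2.2 (key α).1.2.2 (q β) h1 ⟨z, ?_, ?_⟩
    · have h2 : LP (P α).2 (P α).1 = LP G (P α).1 := LP_congr _ fun η hη => by
        have hη' := WithTop.coe_lt_coe.1 hη
        rw [hG α η (hη'.trans (hiq α).1), (hiq α).2.1 η hη']
      rw [h2]
      exact LE_mono le_top hz1
    · have h2 : LP (P α).2 (P α).1 = LP G (P α).1 := LP_congr _ fun η hη => by
        have hη' := WithTop.coe_lt_coe.1 hη
        rw [hG α η (hη'.trans (hiq α).1), (hiq α).2.1 η hη']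
      rw [h2]
      exact LE_mono le_top hz2
  -- pigeonhole
  obtain ⟨j, hj⟩ : ∃ j, (2 ^ ℵ₀ : Cardinal.{0}) < #(i ⁻¹' {j}) := by
    by_contra hno
    push Not at hno
    have h1 : #K ≤ #(Σ j, i ⁻¹' {j}) := by
      refine mk_le_of_injective (f := fun α : K => (⟨i α, α, rfl⟩ : Σ j, i ⁻¹' {j})) ?_
      intro α β h
      have := congrArg (fun x : (Σ j, i ⁻¹' {j}) => (x.2.1 : K)) h
      exact this
    rw [mk_sigma] at h1
    have h2 : (Cardinal.sum fun j => #(i ⁻¹' {j})) ≤ 2 ^ ℵ₀ := by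
      refine (Cardinal.sum_le_sum _ _ hno).trans ?_
      rw [Cardinal.sum_const, lift_id, lift_id]
      refine (mul_le_mul' hι le_rfl).trans ?_
      rw [mul_eq_self (cantor ℵ₀).le]
    have h3 := h1.trans h2
    rw [mk_K] at h3
    exact absurd h3 (not_le.2 (Order.lt_succ _))
  have hinj : Set.InjOn q (i ⁻¹' {j}) := by
    intro α hα β hβ h
    have hα' : i α = j := hα
    have hβ' : i β = j := hβ
    rcases lt_trichotomy α β with h1 | h1 | h1
    · exfalso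
      refine hinc α β h1 (hα'.trans hβ'.symm) ?_
      rw [h]
      exact ⟨q β, (LP G ⊤).refl _, (LP G ⊤).refl _⟩
    · exact h1
    · exfalso
      refine hinc β α h1 (hβ'.trans hα'.symm) ?_
      rw [h]
      exact ⟨q β, (LP G ⊤).refl _, (LP G ⊤).refl _⟩
  have h1 := hkcc (q '' (i ⁻¹' {j})) (by
    rintro _ ⟨α, hα, rfl⟩ _ ⟨β, hβ, rfl⟩ hne hcomp
    have hα' : i α = j := hα
    have hβ' : i β = j := hβ
    rcases lt_trichotomy α β with h1 | h1 | h1
    · exact hinc α β h1 (hα'.trans hβ'.symm) hcomp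
    · exact hne (by rw [h1])
    · obtain ⟨z, hz1, hz2⟩ := hcomp
      exact hinc β α h1 (hβ'.trans hα'.symm) ⟨z, hz2, hz1⟩)
  rw [Cardinal.mk_image_eq_of_injOn _ _ hinj] at h1
  exact absurd h1 (not_le.2 hj)

/-- few elements of the final algebra are captured at some stage of a longer program -/
theorem cap {ι : Type} (hι : #ι ≤ 2 ^ ℵ₀) (V : ι → BS) (s : SC) :
    ∃ (ξ : K) (F : Prg), (∀ η < ξ, Leg F η) ∧ s.len ≤ ξ ∧ (∀ η < s.len, F η = s.prg η) ∧
      ∃ V' : ι → BA (LP F ξ), ∀ i, liftS F ξ (V' i) = stg F ξ ⊓ V i := by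
  obtain ⟨ξ, F, h, h1, h2, h3⟩ := capD hι (fun i => {t | Fo t (V i) ∨ Fo t (V i)ᶜ}) (fun i t => by
      by_cases ht : Fo t (V i)
      · exact ⟨t, Or.inl ht, SP.refl t⟩
      · obtain ⟨y, hy, hyV⟩ := exists_Fo_compl ht
        exact ⟨y, Or.inr hyV, hy⟩)
    (fun i t s hts hs => hs.imp (fun h => h.mono hts) fun h => h.mono hts) s
  refine ⟨ξ, F, h, h1, h2, fun i => toB _ {q | Fo (mkS F ξ h q) (V i)}, fun i => ?_⟩
  have key : ∀ (t : SC) (q : Cd), ξ ≤ t.len → (∀ η < ξ, t.prg η = F η) → (LP F ξ).le t.cnd q →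
      SP.le t (mkS F ξ h q) := fun t q h4 h5 h6 => SP_le.2 ⟨h4, h5, h6⟩
  refine le_antisymm (le_inf (liftS_le_stg _) ?_) (le_of_stg fun t h4 h5 h6 => ?_)
  · refine le_iff_Fo.2 fun t ht => Fo_reg fun y hy => ?_
    have hyl := ht.mono hy
    obtain ⟨y', hy', h4, h5⟩ := exists_of_Fo_stg (le_iff_Fo.1 (liftS_le_stg _) _ hyl)
    have h6 := (Fo_liftS h4 h5).1 (hyl.mono hy')
    obtain ⟨z, hz, r, hr, hzr⟩ := Fo_toB.1 h6 y'.cnd ((LP F ξ).refl _)
    obtain ⟨t', ht', h7, h8, h9⟩ := exists_cnd y' h4 h5 hz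
    refine ⟨t', SP.trans _ _ _ ht' hy', ?_⟩
    exact Fo.mono (key t' r (h7 ▸ h4) (by rw [h8]; exact h5) ((LP F ξ).trans _ _ _ h9 hzr)) hr
  · refine (Fo_liftS h4 h5).2 (Fo_toB.2 fun y hy => ?_)
    obtain ⟨r, hr, hry⟩ := h3 i y
    refine ⟨r, hry, r, ?_, (LP F ξ).refl _⟩
    rcases hr with hr | hr
    · exact hr
    · exfalso
      obtain ⟨t', ht', h7, h8, h9⟩ := exists_cnd t h4 h5 ((LP F ξ).trans _ _ _ hry hy)
      have h10 : Fo t' (V i)ᶜ := Fo.mono (key t' r (h7 ▸ h4) (by rw [h8]; exact h5) h9) hr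
      exact Fo_compl.1 h10 t' (SP.refl _) (h6.mono ht')

end Pool.Agent.MMA1
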