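import Pool.Agent.MMI.Fo
import Pool.Agent.MMI.WK

/-! # Cardinalities of the algebras -/

set_option autoImplicit false

namespace Pool.Agent.MMA1

open Classical Cardinal

/-- every element of the algebra is generated by an antichain -/
theorem cardB_antichain {X : Type} (L : Pre X) (U : BA L) :
    ∃ A : Set X, (∀ x ∈ A, ∀ y ∈ A, x ≠ y → ¬ L.Comp x y) ∧ toB L A = U := by
  obtain ⟨A, hA⟩ := zorn_subset
    {A : Set X | (∀ x ∈ A, Fo x U) ∧ ∀ x ∈ A, ∀ y ∈ A, x ≠ y → ¬ L.Comp x y} (by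
      intro c hc hchain
      refine ⟨⋃₀ c, ⟨?_, ?_⟩, fun s hs => Set.subset_sUnion_of_mem hs⟩
      · rintro x ⟨s, hs, hx⟩
        exact (hc hs).1 x hx
      · rintro x ⟨s, hs, hx⟩ y ⟨t, ht, hy⟩ hxy
        rcases hchain.total hs ht with h | h
        · exact (hc ht).2 x (h hx) y hy hxy
        · exact (hc hs).2 x hx y (h hy) hxy)
  have hA1 := hA.prop
  refine ⟨A, hA1.2, le_antisymm ?_ ?_⟩
  · refine le_iff_Fo.2 fun x hx => Fo_reg fun y hy => ?_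
    obtain ⟨z, hz, s, hs, hzs⟩ := Fo_toB.1 hx y hy
    exact ⟨z, hz, (hA1.1 s hs).mono hzs⟩
  · refine le_iff_Fo.2 fun x hx => Fo_toB.2 fun y hy => ?_
    by_contra hcon
    push Not at hcon
    have h1 : ∀ s ∈ A, ¬ L.Comp y s := fun s hs ⟨z, hz1, hz2⟩ => hcon z hz1 s hs hz2
    have h2 : insert y A ⊆ A := hA.le_of_ge (y := insert y A) (by
      constructor
      · rintro w (rfl | hw)
        · exact hx.mono hy
        · exact hA1.1 w hw
      · rintro w (rfl | hw) w' (rfl | hw') hne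
        · exact absurd rfl hne
        · exact h1 w' hw'
        · rintro ⟨z, hz1, hz2⟩
          exact h1 w hw ⟨z, hz2, hz1⟩
        · exact hA1.2 w hw w' hw' hne) (Set.subset_insert y A)
    exact h1 y (h2 (Set.mem_insert y A)) ⟨y, L.refl y, L.refl y⟩

theorem cardB_aleph0_le : (ℵ₀ : Cardinal.{0}) ≤ 2 ^ (2 ^ ℵ₀ : Cardinal.{0}) :=
  (cantor ℵ₀).le.trans (cantor _).le

/-- the basic computation -/
theorem cardB_pow : ((2 ^ (2 ^ ℵ₀ : Cardinal.{0})) ^ (2 ^ ℵ₀ : Cardinal.{0}) : Cardinal.{0}) =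
    2 ^ (2 ^ ℵ₀ : Cardinal.{0}) := by
  rw [← Cardinal.power_mul, mul_eq_self (cantor ℵ₀).le]

theorem cardB_pow_le {c : Cardinal.{0}} (h : c ≤ 2 ^ (2 ^ ℵ₀ : Cardinal.{0})) {d : Cardinal.{0}}
    (hd0 : d ≠ 0) (hd : d ≤ 2 ^ ℵ₀) : c ^ d ≤ 2 ^ (2 ^ ℵ₀ : Cardinal.{0}) := by
  by_cases hc : c = 0
  · rw [hc, zero_power hd0]
    exact zero_le
  refine (power_le_power_right h).trans ?_
  refine (power_le_power_left (ne_of_gt (lt_of_lt_of_le aleph0_pos cardB_aleph0_le)) hd).trans ?_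
  rw [cardB_pow]

/-- the number of small subsets -/
theorem cardB_small {X : Type} (hX : #X ≤ 2 ^ (2 ^ ℵ₀ : Cardinal.{0})) :
    #{t : Set X // #t ≤ 2 ^ (ℵ₀ : Cardinal.{0})} ≤ 2 ^ (2 ^ ℵ₀ : Cardinal.{0}) := by
  refine (mk_bounded_set_le X (2 ^ (ℵ₀ : Cardinal.{0}))).trans ?_
  refine cardB_pow_le (max_le hX cardB_aleph0_le) ?_ le_rfl
  exact ne_of_gt (lt_of_lt_of_le aleph0_pos (cantor ℵ₀).le)

theorem card_BA {X : Type} (L : Pre X) (hX : #X ≤ 2 ^ (2 ^ ℵ₀ : Cardinal.{0})) (hK : KCC L) :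
    #(BA L) ≤ 2 ^ (2 ^ ℵ₀ : Cardinal.{0}) := by
  refine le_trans ?_ (cardB_small hX)
  refine mk_le_of_surjective (f := fun t : {t : Set X // #t ≤ 2 ^ (ℵ₀ : Cardinal.{0})} =>
    toB L t.1) fun U => ?_
  obtain ⟨A, hA, hU⟩ := cardB_antichain L U
  exact ⟨⟨A, hK A hA⟩, hU⟩

theorem full_of_card {X : Type} {L : Pre X} (Q : BPo L)
    (h : #(BA (TS Q)) ≤ 2 ^ (2 ^ ℵ₀ : Cardinal.{0})) : FullQ Q := by
  rw [← mk_A0] at h
  obtain ⟨f⟩ := h
  have : Nonempty (BA (TS Q)) := ⟨⊤⟩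
  exact ⟨Function.invFun f, Function.invFun_surjective f.injective⟩

/-- families of incompatible elements are small -/
theorem cardB_family {X : Type} {L : Pre X} (hK : KCC L) {ι : Type} (f : ι → X)
    (hf : ∀ i j, i ≠ j → ¬ L.Comp (f i) (f j)) : #ι ≤ 2 ^ (ℵ₀ : Cardinal.{0}) := by
  have hinj : Function.Injective f := by
    intro i j hij
    by_contra hne
    refine hf i j hne ?_
    rw [hij]
    exact ⟨f j, L.refl _, L.refl _⟩
  rw [← mk_range_eq f hinj]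
  refine hK (Set.range f) ?_
  rintro _ ⟨i, rfl⟩ _ ⟨j, rfl⟩ hne
  exact hf i j fun h => hne (by rw [h])

/-- families of disjoint elements have small support -/
theorem cardB_disj {X : Type} {L : Pre X} (hK : KCC L) {ι : Type} (v : ι → BA L)
    (hv : ∀ i j, i ≠ j → v i ⊓ v j = ⊥) : #{i | v i ≠ ⊥} ≤ 2 ^ (ℵ₀ : Cardinal.{0}) := by
  have h1 : ∀ i : {i | v i ≠ ⊥}, ∃ x, Fo x (v i.1) := fun i => ne_bot_iff.1 i.2
  choose f hf using h1
  refine cardB_family hK f fun i j hij => ?_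
  rintro ⟨z, hz1, hz2⟩
  have h2 : Fo z (v i.1 ⊓ v j.1) := Fo_inf.2 ⟨(hf i).mono hz1, (hf j).mono hz2⟩
  rw [hv i.1 j.1 fun h => hij (Subtype.ext h)] at h2
  exact not_Fo_bot z h2

/-- the graph of a function on its support -/
def cardB_gr {X : Type} {L : Pre Cd} (v : X → BA L) : Set (X × BA L) := {z | v z.1 = z.2 ∧ z.2 ≠ ⊥}

theorem cardB_gr_inj {X : Type} {L : Pre Cd} {v v' : X → BA L} (h : cardB_gr v = cardB_gr v') :
    v = v' := by
  funext x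
  by_cases h1 : v x = ⊥
  · by_cases h2 : v' x = ⊥
    · rw [h1, h2]
    · have h3 : (x, v' x) ∈ cardB_gr v' := ⟨rfl, h2⟩
      rw [← h] at h3
      exact h3.1
  · have h3 : (x, v x) ∈ cardB_gr v := ⟨rfl, h1⟩
    rw [h] at h3
    exact h3.1.symm

theorem cardB_gr_small {X : Type} {L : Pre Cd} (hK : KCC L) (v : X → BA L)
    (hv : ∀ i j, i ≠ j → v i ⊓ v j = ⊥) : #(cardB_gr v) ≤ 2 ^ (ℵ₀ : Cardinal.{0}) := by
  refine le_trans ?_ (cardB_disj hK v hv)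
  refine mk_le_of_injective (f := fun z : cardB_gr v =>
    (⟨z.1.1, show v z.1.1 ≠ ⊥ by rw [z.2.1]; exact z.2.2⟩ : {i | v i ≠ ⊥})) ?_
  rintro ⟨⟨x, u⟩, hx, hu⟩ ⟨⟨x', u'⟩, hx', hu'⟩ h
  have h1 : x = x' := congrArg Subtype.val h
  subst h1
  have h2 : u = u' := hx.symm.trans hx'
  subst h2
  rfl

theorem card_killY {L : Pre Cd} (hK : KCC L) (R : W → W → BA L) :
    #(killB R).Y ≤ 2 ^ (2 ^ ℵ₀ : Cardinal.{0}) := by
  have hB : #(BA L) ≤ 2 ^ (2 ^ ℵ₀ : Cardinal.{0}) := card_BA L mk_Cd_le hK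
  have hW0 : #W ≠ 0 := mk_ne_zero W
  have hW : #W ≤ 2 ^ (2 ^ ℵ₀ : Cardinal.{0}) := mk_W_le.trans (cantor _).le
  have h1 : #(W → BA L) ≤ 2 ^ (2 ^ ℵ₀ : Cardinal.{0}) := by
    rw [← power_def]
    exact cardB_pow_le hB hW0 mk_W_le
  have hmul : ∀ {a b : Cardinal.{0}}, a ≤ 2 ^ (2 ^ ℵ₀ : Cardinal.{0}) → b ≤ 2 ^ (2 ^ ℵ₀ : Cardinal.{0}) →
      a * b ≤ 2 ^ (2 ^ ℵ₀ : Cardinal.{0}) := by
    intro a b ha hb
    refine (mul_le_mul' ha hb).trans ?_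
    rw [mul_eq_self cardB_aleph0_le]
  have hX : #(XK L) ≤ 2 ^ (2 ^ ℵ₀ : Cardinal.{0}) := by
    unfold XK
    rw [mk_sum, lift_id, lift_id]
    refine add_le_of_le cardB_aleph0_le ?_ ?_
    · rw [mk_prod, lift_id, lift_id]
      exact hmul hW h1
    · rw [mk_prod, lift_id, lift_id, mk_prod, lift_id]
      exact hmul hW (hmul hW hW)
  have hXB : #(XK L × BA L) ≤ 2 ^ (2 ^ ℵ₀ : Cardinal.{0}) := by
    rw [mk_prod, lift_id, lift_id]
    exact hmul hX hB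
  have h2 : #(ℕ → {t : Set (XK L × BA L) // #t ≤ 2 ^ (ℵ₀ : Cardinal.{0})}) ≤
      2 ^ (2 ^ ℵ₀ : Cardinal.{0}) := by
    rw [← power_def]
    refine cardB_pow_le (cardB_small hXB) (mk_ne_zero ℕ) ?_
    rw [mk_nat]
    exact (cantor ℵ₀).le
  refine le_trans ?_ h2
  have h3 : ∀ u : (killB R).Y, ∃ v : ℕ → XK L → BA L,
      (∀ n x x', x ≠ x' → v n x ⊓ v n x' = ⊥) ∧ ∀ x, u.1 x = ⨆ n, v n x := fun u => u.2
  choose v hv1 hv2 using h3
  refine mk_le_of_injective (f := fun u : (killB R).Y => fun n : ℕ =>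
    (⟨cardB_gr (v u n), cardB_gr_small hK _ (hv1 u n)⟩ :
      {t : Set (XK L × BA L) // #t ≤ 2 ^ (ℵ₀ : Cardinal.{0})})) ?_
  intro u u' h
  have h4 : ∀ n, v u n = v u' n := fun n =>
    cardB_gr_inj (congrArg Subtype.val (congrFun h n))
  refine Subtype.ext (funext fun x => ?_)
  rw [hv2 u x, hv2 u' x]
  exact iSup_congr fun n => by rw [h4 n]

theorem cardB_full {L : Pre Cd} (Q : BPo L) (hY : #Q.Y ≤ 2 ^ (2 ^ ℵ₀ : Cardinal.{0}))
    (hK2 : KCC (TS Q)) : FullQ Q := by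
  refine full_of_card Q (card_BA (TS Q) ?_ hK2)
  have h1 : #(TSC Q) ≤ #(Cd × Q.Y) := mk_subtype_le _
  refine h1.trans ?_
  rw [mk_prod, lift_id, lift_id]
  refine (mul_le_mul' mk_Cd_le hY).trans ?_
  rw [mul_eq_self cardB_aleph0_le]

theorem full_kill {L : Pre Cd} (hK : KCC L) (R : W → W → BA L) (hK2 : KCC (TS (killB R))) :
    FullQ (killB R) :=
  cardB_full _ (card_killY hK R) hK2

theorem full_pos {L : Pre Cd} (R : W → W → BA L) (hR : IsBPre R) (hK2 : KCC (TS (posB R hR))) :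
    FullQ (posB R hR) :=
  cardB_full _ (mk_W_le.trans (cantor _).le) hK2

end Pool.Agent.MMA1
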