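import Pool.Agent.MMI.WK

/-! # The cardinality of the final algebra -/

set_option autoImplicit false

namespace Pool.Agent.MMA1

open Classical Cardinal

/-- a bound for the cardinality of the final algebra -/
theorem card_BS : #BS ≤ 2 ^ (2 ^ (2 ^ (2 ^ ℵ₀ : Cardinal.{0}) : Cardinal.{0}) : Cardinal.{0}) := by
  have hl : (ℵ₀ : Cardinal.{0}) ≤ 2 ^ (2 ^ ℵ₀ : Cardinal.{0}) := (cantor ℵ₀).le.trans (cantor _).le
  have hm : (ℵ₀ : Cardinal.{0}) ≤ 2 ^ (2 ^ (2 ^ ℵ₀ : Cardinal.{0}) : Cardinal.{0}) :=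
    hl.trans (cantor _).le
  have hlm : (2 ^ (2 ^ ℵ₀ : Cardinal.{0}) : Cardinal.{0}) ≤
      2 ^ (2 ^ (2 ^ ℵ₀ : Cardinal.{0}) : Cardinal.{0}) := (cantor _).le
  have hm0 : (2 ^ (2 ^ (2 ^ ℵ₀ : Cardinal.{0}) : Cardinal.{0}) : Cardinal.{0}) ≠ 0 :=
    ne_of_gt (lt_of_lt_of_le aleph0_pos hm)
  have hpow : ∀ {c d : Cardinal.{0}}, c ≤ 2 ^ (2 ^ (2 ^ ℵ₀ : Cardinal.{0}) : Cardinal.{0}) → d ≠ 0 →
      d ≤ 2 ^ (2 ^ ℵ₀ : Cardinal.{0}) → c ^ d ≤ 2 ^ (2 ^ (2 ^ ℵ₀ : Cardinal.{0}) : Cardinal.{0}) := by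
    intro c d hc hd0 hd
    refine (power_le_power_right hc).trans ?_
    rw [← Cardinal.power_mul]
    refine power_le_power_left two_ne_zero ?_
    refine (mul_le_mul' le_rfl hd).trans ?_
    rw [mul_eq_self hl]
  have hmul : ∀ {a b : Cardinal.{0}}, a ≤ 2 ^ (2 ^ (2 ^ ℵ₀ : Cardinal.{0}) : Cardinal.{0}) →
      b ≤ 2 ^ (2 ^ (2 ^ ℵ₀ : Cardinal.{0}) : Cardinal.{0}) →
      a * b ≤ 2 ^ (2 ^ (2 ^ ℵ₀ : Cardinal.{0}) : Cardinal.{0}) := by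
    intro a b ha hb
    refine (mul_le_mul' ha hb).trans ?_
    rw [mul_eq_self hm]
  have hW : #W ≤ 2 ^ (2 ^ ℵ₀ : Cardinal.{0}) := mk_W_le.trans (cantor _).le
  have h1 : #(Set Cd) ≤ 2 ^ (2 ^ (2 ^ ℵ₀ : Cardinal.{0}) : Cardinal.{0}) := by
    rw [mk_set]
    exact power_le_power_left two_ne_zero mk_Cd_le
  have h2 : #(W → Set Cd) ≤ 2 ^ (2 ^ (2 ^ ℵ₀ : Cardinal.{0}) : Cardinal.{0}) := by
    rw [← power_def]
    exact hpow h1 (mk_ne_zero W) hW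
  have h3 : #(W → W → Set Cd) ≤ 2 ^ (2 ^ (2 ^ ℵ₀ : Cardinal.{0}) : Cardinal.{0}) := by
    rw [← power_def]
    exact hpow h2 (mk_ne_zero W) hW
  have h4 : #Ent ≤ 2 ^ (2 ^ (2 ^ ℵ₀ : Cardinal.{0}) : Cardinal.{0}) := by
    unfold Ent
    rw [mk_prod, lift_id, lift_id]
    refine hmul ?_ h3
    rw [mk_bool]
    exact (natCast_lt_aleph0 (n := 2)).le.trans hm
  have h5 : #Prg ≤ 2 ^ (2 ^ (2 ^ ℵ₀ : Cardinal.{0}) : Cardinal.{0}) := by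
    unfold Prg
    rw [← power_def]
    exact hpow h4 (mk_ne_zero K) mk_K_le
  have h6 : #SC ≤ 2 ^ (2 ^ (2 ^ ℵ₀ : Cardinal.{0}) : Cardinal.{0}) := by
    have h7 : #SC ≤ #SC0 := mk_subtype_le _
    refine h7.trans ?_
    rw [mk_prod, lift_id, lift_id, mk_prod, lift_id, lift_id]
    exact hmul (mk_K_le.trans hlm) (hmul h5 (mk_Cd_le.trans hlm))
  have h7 : #BS ≤ #(Set SC) := by
    refine mk_le_of_injective (f := fun U : BS => {s : SC | Fo s U}) ?_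
    intro U V h
    have h8 : ∀ s : SC, Fo s U ↔ Fo s V := fun s => by
      have h9 : s ∈ {s : SC | Fo s U} ↔ s ∈ {s : SC | Fo s V} := by
        change s ∈ (fun U : BS => {s : SC | Fo s U}) U ↔ s ∈ (fun U : BS => {s : SC | Fo s U}) V
        rw [h]
      exact h9
    exact le_antisymm (fun s hs => (h8 s).1 hs) (fun s hs => (h8 s).2 hs)
  refine h7.trans ?_
  rw [mk_set]
  exact power_le_power_left two_ne_zero h6

end Pool.Agent.MMA1
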