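import Pool.Agent.MMI.SGen

/-! # The good case: a generic filter is added -/

set_option autoImplicit false

namespace Pool.Agent.MMA1

open Classical

section TwoStepPos

variable {L : Pre Cd} {R : W → W → BA L} {hR : IsBPre R}

/-- Boolean value of: `x` is in the generic filter -/
noncomputable def SPos_gen (R : W → W → BA L) (hR : IsBPre R) (x : W) : BA (TS (posB R hR)) :=
  toB (TS (posB R hR)) {z | Fo z.1.1 (R z.1.2 x)}

theorem SPos_Fo_gen {w : TSC (posB R hR)} {x : W} : Fo w (SPos_gen R hR x) ↔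
    ∀ v : TSC (posB R hR), (TS (posB R hR)).le v w →
      ∃ w' : TSC (posB R hR), (TS (posB R hR)).le w' v ∧ Fo w'.1.1 (R w'.1.2 x) := by
  unfold SPos_gen
  rw [Fo_toB]
  refine forall_congr' fun v => forall_congr' fun _ => ?_
  constructor
  · rintro ⟨w', h1, s, hs, h2, h3⟩
    refine ⟨w', h1, ?_⟩
    have h4 : Fo w'.1.1 (R s.1.2 x) := Fo.mono h2 hs
    exact le_iff_Fo.1 (hR.2 w'.1.2 s.1.2 x) _ (Fo_inf.2 ⟨h3, h4⟩)
  · rintro ⟨w', h1, h2⟩
    exact ⟨w', h1, w', h2, (TS (posB R hR)).refl _⟩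

/-- the order gives membership in the generic filter -/
theorem SPos_trans {w v : TSC (posB R hR)} {x : W} (h : (TS (posB R hR)).le w v)
    (hv : Fo v.1.1 (R v.1.2 x)) : Fo w.1.1 (R w.1.2 x) :=
  le_iff_Fo.1 (hR.2 w.1.2 v.1.2 x) _ (Fo_inf.2 ⟨h.2, Fo.mono h.1 hv⟩)

theorem SPos_Fo_gen_self (w : TSC (posB R hR)) : Fo w (SPos_gen R hR w.1.2) :=
  SPos_Fo_gen.2 fun v hv => ⟨v, (TS (posB R hR)).refl v, hv.2⟩

end TwoStepPos

theorem spos_core {F : Prg} {ξ : K} (hleg : ∀ η ≤ ξ, Leg F η)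
    {R : W → W → BA (LP F ξ)} (hR : IsBPre R) (hQ : Itd (stp F) ξ = posB R hR)
    {D : W → W → BA (LP F ξ)}
    (hD : ∀ i, denB R (D i) = ⊤) {RS DS : W → W → BS}
    (hRS : ∀ x y, liftS F ξ (R x y) = stg F ξ ⊓ RS x y)
    (hDS : ∀ i x, liftS F ξ (D i x) = stg F ξ ⊓ DS i x) :
    stg F (Order.succ ξ) ≤ ⨆ G : W → BS, filB RS G ⊓ ⨅ i, ⨆ x, G x ⊓ DS i x := by
  obtain ⟨V, hV⟩ : ∃ V : Cd → BA (TS (posB R hR)), V = fun p => val (LP F ξ) (posB R hR) ξ p :=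
    ⟨_, rfl⟩
  have hFull : Full (stp F) ((Order.succ ξ : K) : WithTop K) :=
    main_full F (Order.succ ξ) fun η hη => hleg η (Order.lt_succ_iff.1 hη)
  have hFull' : Full (stp F) (ξ : WithTop K) := fun η hη =>
    hFull η (hη.trans (WithTop.coe_lt_coe.2 (Order.lt_succ ξ)))
  -- the order of the next stage
  have hle : ∀ p q, (LP F (Order.succ ξ : K)).le p q ↔ (LP F ξ).le p q ∧ V p ≤ V q := by
    intro p q
    have h1 := LE_succ (S := stp F) (η := ξ) (p := p) (q := q)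
    rw [hQ] at h1
    rw [hV]
    exact h1
  have hVne : ∀ p, V p ≠ ⊥ := fun p => by rw [hV]; exact val_ne_bot _ _ _ _
  have hVprj : ∀ p, prj (posB R hR) (V p) = down (LP F ξ) p := fun p => by
    rw [hV]; exact prj_val _ _ _ _
  have hVemb : ∀ p, V p ≤ emb (posB R hR) (down (LP F ξ) p) := fun p => by
    rw [hV]; exact val_le_emb _ _ _ _
  have hVex : ∀ v : BA (TS (posB R hR)), v ≠ ⊥ → ∃ x, V x ≤ v := by
    have h1 : ∀ v : BA (TS (Itd (stp F) ξ)), v ≠ ⊥ →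
        ∃ x, val (LE (stp F) ξ) (Itd (stp F) ξ) ξ x ≤ v := fun v hv =>
      Val_exists (hFull ξ (WithTop.coe_lt_coe.2 (Order.lt_succ ξ))) hv
    rw [hQ] at h1
    rw [hV]
    exact h1
  -- elements below `emb`
  have hVFo : ∀ p U, V p ≤ emb (posB R hR) U → Fo p U := by
    intro p U h
    have h1 := prj_mono h
    rw [hVprj, prj_emb] at h1
    exact down_le_iff.1 h1
  have hVFo' : ∀ p (U : BA (LP F ξ)) w, Fo w (V p) → Fo p U → Fo w.1.1 U := by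
    intro p U w hw hp
    have h1 := le_iff_Fo.1 (hVemb p) w hw
    exact Fo_emb.1 (le_iff_Fo.1 (emb_mono (down_le_iff.2 hp)) w h1)
  -- conditions which extend the program
  obtain ⟨ext, hext⟩ : ∃ ext : SC → Prop, ∀ s, ext s ↔ (Order.succ ξ ≤ s.len ∧
      ∀ η < Order.succ ξ, s.prg η = F η) := ⟨_, fun _ => Iff.rfl⟩
  have hextle : ∀ t s, SP.le t s → ext s → ext t ∧ (LP F (Order.succ ξ : K)).le t.cnd s.cnd := by
    intro t s hts hs
    rw [hext] at hs ⊢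
    obtain ⟨h1, h2, h3⟩ := SP_le.1 hts
    refine ⟨⟨hs.1.trans h1, fun η hη => (h2 η (hη.trans_le hs.1)).trans (hs.2 η hη)⟩, ?_⟩
    have h4 : LP F (Order.succ ξ : K) = LP s.prg (Order.succ ξ : K) :=
      SGen_LP_congr fun η hη => (hs.2 η hη).symm
    rw [h4]
    exact SGen_LP_mono (WithTop.coe_le_coe.2 hs.1) h3
  have hVmono : ∀ t s, SP.le t s → ext s → V t.cnd ≤ V s.cnd := fun t s hts hs =>
    ((hle _ _).1 (hextle t s hts hs).2).2
  -- shrinking a condition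
  have hshr : ∀ s, ext s → ∀ (v : BA (TS (posB R hR))) (w : TSC (posB R hR)), Fo w (V s.cnd) →
      Fo w v → ∃ t, SP.le t s ∧ ext t ∧ V t.cnd ≤ v := by
    intro s hs v w hw1 hw2
    have hne : V s.cnd ⊓ v ≠ ⊥ := ne_bot_iff.2 ⟨w, Fo_inf.2 ⟨hw1, hw2⟩⟩
    obtain ⟨x, hx⟩ := hVex _ hne
    have h1 : V x ≤ V s.cnd := hx.trans inf_le_left
    have h2 : (LP F ξ).le x s.cnd := by
      refine (down_le_down_LE hFull').1 ?_
      have h3 := prj_mono h1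
      rw [hVprj, hVprj] at h3
      exact h3
    have h3 : (LP F (Order.succ ξ : K)).le x s.cnd := (hle _ _).2 ⟨h2, h1⟩
    have hs' := (hext s).1 hs
    obtain ⟨t, ht, ht1, ht2, ht3⟩ := exists_cnd s (p := x) (F := F) (ξ := Order.succ ξ) hs'.1 hs'.2 h3
    refine ⟨t, ht, (hextle t s ht hs).1, ?_⟩
    exact (((hle _ _).1 ht3).2.trans hx).trans inf_le_right
  -- the name of the generic filter
  obtain ⟨G, hG⟩ : ∃ G : W → BS, G = fun x => toB SP {s | ext s ∧ V s.cnd ≤ SPos_gen R hR x} :=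
    ⟨_, rfl⟩
  have hFoG : ∀ s, ext s → ∀ x, Fo s (G x) ↔ V s.cnd ≤ SPos_gen R hR x := by
    intro s hs x
    rw [hG]
    constructor
    · intro h
      refine le_iff_Fo.2 fun w hw => ?_
      by_contra hcon
      obtain ⟨w', hw', hw'c⟩ := exists_Fo_compl hcon
      obtain ⟨t, ht, hte, htV⟩ := hshr s hs _ w' (hw.mono hw') hw'c
      obtain ⟨y, hy, s', ⟨hs'e, hs'V⟩, hys'⟩ := Fo_toB.1 h t ht
      have h1 : V y.cnd ≤ SPos_gen R hR x := (hVmono y s' hys' hs'e).trans hs'V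
      have h2 : V y.cnd ≤ (SPos_gen R hR x)ᶜ := (hVmono y t hy hte).trans htV
      have h3 : V y.cnd ≤ ⊥ := by
        have := le_inf h1 h2
        rwa [inf_compl_eq_bot] at this
      exact hVne _ (le_bot_iff.1 h3)
    · intro h
      exact Fo_toB.2 fun y hy => ⟨y, SP.refl y, s, ⟨hs, h⟩, hy⟩
  have hFoR : ∀ s, ext s → ∀ x y, Fo s (RS x y) ↔ Fo s.cnd (R x y) := by
    intro s hs x y
    have hs' := (hext s).1 hs
    have h1 : ξ ≤ s.len := (Order.le_succ ξ).trans hs'.1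
    have h2 : ∀ η < ξ, s.prg η = F η := fun η hη => hs'.2 η (hη.trans (Order.lt_succ ξ))
    rw [← Fo_liftS h1 h2, hRS, Fo_inf]
    exact ⟨fun h => ⟨Fo_stg h1 h2, h⟩, fun h => h.2⟩
  have hFoD : ∀ s, ext s → ∀ i x, Fo s (DS i x) ↔ Fo s.cnd (D i x) := by
    intro s hs i x
    have hs' := (hext s).1 hs
    have h1 : ξ ≤ s.len := (Order.le_succ ξ).trans hs'.1
    have h2 : ∀ η < ξ, s.prg η = F η := fun η hη => hs'.2 η (hη.trans (Order.lt_succ ξ))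
    rw [← Fo_liftS h1 h2, hDS, Fo_inf]
    exact ⟨fun h => ⟨Fo_stg h1 h2, h⟩, fun h => h.2⟩
  refine le_trans ?_ (le_iSup _ G)
  have hkey : stg F (Order.succ ξ) ⊓ ⊤ ≤ filB RS G ⊓ ⨅ i, ⨆ x, G x ⊓ DS i x := by
    refine le_of_stg fun s hs1 hs2 _ => ?_
    have hs : ext s := (hext s).2 ⟨hs1, hs2⟩
    unfold filB
    rw [Fo_inf, Fo_inf, Fo_inf]
    refine ⟨⟨⟨?_, ?_⟩, ?_⟩, ?_⟩
    · -- nonempty
      refine Fo_iSup.2 fun t ht => ?_
      have hte := (hextle t s ht hs).1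
      obtain ⟨w, hw⟩ := ne_bot_iff.1 (hVne t.cnd)
      obtain ⟨y, hy, hye, hyV⟩ := hshr t hte _ w hw (SPos_Fo_gen_self w)
      exact ⟨y, hy, w.1.2, (hFoG y hye _).2 hyV⟩
    · -- upwards closed
      refine Fo_iInf.2 fun x => Fo_iInf.2 fun y => Fo_himp.2 fun t ht h => ?_
      have hte := (hextle t s ht hs).1
      rw [Fo_inf, hFoG t hte, hFoR t hte] at h
      rw [hFoG t hte]
      refine le_iff_Fo.2 fun w hw => SPos_Fo_gen.2 fun v hv => ?_
      obtain ⟨w', hw', h1⟩ := SPos_Fo_gen.1 (le_iff_Fo.1 h.1 w hw) v hv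
      refine ⟨w', hw', ?_⟩
      have h2 : Fo w'.1.1 (R x y) := hVFo' _ _ w'
        (hw.mono ((TS (posB R hR)).trans _ _ _ hw' hv)) h.2
      exact le_iff_Fo.1 (hR.2 _ x y) _ (Fo_inf.2 ⟨h1, h2⟩)
    · -- directed
      refine Fo_iInf.2 fun x => Fo_iInf.2 fun y => Fo_himp.2 fun t ht h => ?_
      have hte := (hextle t s ht hs).1
      rw [Fo_inf, hFoG t hte, hFoG t hte] at h
      refine Fo_iSup.2 fun t' ht' => ?_
      have hte' := (hextle t' t ht' hte).1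
      have hmono := hVmono t' t ht' hte
      obtain ⟨w, hw⟩ := ne_bot_iff.1 (hVne t'.cnd)
      obtain ⟨w1, hw1, h1⟩ := SPos_Fo_gen.1 (le_iff_Fo.1 (hmono.trans h.1) w hw) w
        ((TS (posB R hR)).refl w)
      obtain ⟨w2, hw2, h2⟩ := SPos_Fo_gen.1 (le_iff_Fo.1 (hmono.trans h.2) w hw) w1 hw1
      have h3 : Fo w2.1.1 (R w2.1.2 x) := SPos_trans hw2 h1
      obtain ⟨u, hu, hue, huV⟩ := hshr t' hte'
        (SPos_gen R hR w2.1.2 ⊓ emb (posB R hR) (R w2.1.2 x ⊓ R w2.1.2 y)) w2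
        (hw.mono ((TS (posB R hR)).trans _ _ _ hw2 hw1))
        (Fo_inf.2 ⟨SPos_Fo_gen_self w2, Fo_emb.2 (Fo_inf.2 ⟨h3, h2⟩)⟩)
      have h4 := hVFo _ _ (huV.trans inf_le_right)
      rw [Fo_inf] at h4
      refine ⟨u, hu, w2.1.2, ?_⟩
      exact Fo_inf.2 ⟨(hFoG u hue _).2 (huV.trans inf_le_left),
        Fo_inf.2 ⟨(hFoR u hue _ _).2 h4.1, (hFoR u hue _ _).2 h4.2⟩⟩
    · -- generic
      refine Fo_iInf.2 fun i => Fo_iSup.2 fun t ht => ?_
      have hte := (hextle t s ht hs).1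
      obtain ⟨w, hw⟩ := ne_bot_iff.1 (hVne t.cnd)
      have h1 : Fo w.1.1 (denB R (D i)) := by rw [hD i]; exact Fo_top _
      unfold denB at h1
      obtain ⟨c, hc, j, hj⟩ := Fo_iSup.1 (Fo_iInf.1 h1 w.1.2) w.1.1 ((LP F ξ).refl _)
      rw [Fo_inf] at hj
      obtain ⟨w', hw'⟩ : ∃ w' : TSC (posB R hR), w'.1 = (c, j) := ⟨⟨(c, j), Fo_top _⟩, rfl⟩
      have hw'w : (TS (posB R hR)).le w' w := by
        refine ⟨?_, ?_⟩
        · rw [hw']; exact hc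
        · rw [hw']; exact hj.1
      obtain ⟨u, hu, hue, huV⟩ := hshr t hte (SPos_gen R hR w'.1.2 ⊓ emb (posB R hR) (D i j)) w'
        (hw.mono hw'w) (Fo_inf.2 ⟨SPos_Fo_gen_self w', Fo_emb.2 (by rw [hw']; exact hj.2)⟩)
      have h4 := hVFo _ _ (huV.trans inf_le_right)
      refine ⟨u, hu, j, ?_⟩
      refine Fo_inf.2 ⟨(hFoG u hue _).2 ?_, (hFoD u hue _ _).2 h4⟩
      have h5 := huV.trans inf_le_left
      rw [hw'] at h5
      exact h5
  rw [inf_top_eq] at hkey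
  exact hkey

/-- the generic filter added at the stage `ξ` -/
theorem spos {F : Prg} {ξ : K} (hleg : ∀ η ≤ ξ, Leg F η) (hF : (F ξ).1 = false)
    {R : W → W → BA (LP F ξ)} (hR : relP (LP F ξ) (F ξ) = R) {D : W → W → BA (LP F ξ)}
    (hD : ∀ i, denB R (D i) = ⊤) {RS DS : W → W → BS}
    (hRS : ∀ x y, liftS F ξ (R x y) = stg F ξ ⊓ RS x y)
    (hDS : ∀ i x, liftS F ξ (D i x) = stg F ξ ⊓ DS i x) :
    stg F (Order.succ ξ) ≤ ⨆ G : W → BS, filB RS G ⊓ ⨅ i, ⨆ x, G x ⊓ DS i x := by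
  subst hR
  refine spos_core hleg (isBPre_relP _ _) ?_ hD hRS hDS
  change itE (LP F ξ) (F ξ) = _
  exact if_neg (by rw [hF]; exact Bool.false_ne_true)

end Pool.Agent.MMA1
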