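import Pool.Agent.MMI.KillS
import Pool.Agent.MMI.SPos
import Pool.Agent.MMI.COm
import Pool.Agent.MMI.CardS

/-! # The core of the proof -/

set_option autoImplicit false

namespace Pool.Agent.MMA1

open Classical Cardinal

theorem Final_mkS_le {F : Prg} {ξ : K} (h : ∀ η < ξ, Leg F η) {p : Cd} {s : SC} (h1 : s.len ≤ ξ)
    (h2 : ∀ η < s.len, F η = s.prg η) (h3 : (LP F ξ).le p s.cnd) : SP.le (mkS F ξ h p) s := by
  refine SP_le.2 ⟨h1, h2, ?_⟩
  have h4 : LP F s.len = LP s.prg s.len := LP_congr _ fun η hη => h2 η (WithTop.coe_lt_coe.1 hη)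
  rw [← h4]
  exact LE_mono (WithTop.coe_le_coe.2 h1) h3

theorem Final_liftS_inj {F : Prg} {ξ : K} (h : ∀ η < ξ, Leg F η) {U V : BA (LP F ξ)}
    (hUV : liftS F ξ U = liftS F ξ V) : U = V := by
  refine BA_ext fun q => ?_
  have h1 : Fo (mkS F ξ h q) (liftS F ξ U) ↔ Fo q U :=
    Fo_liftS (F := F) (ξ := ξ) (s := mkS F ξ h q) le_rfl (fun _ _ => rfl)
  have h2 : Fo (mkS F ξ h q) (liftS F ξ V) ↔ Fo q V :=
    Fo_liftS (F := F) (ξ := ξ) (s := mkS F ξ h q) le_rfl (fun _ _ => rfl)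
  rw [hUV] at h1
  exact h1.symm.trans h2

theorem Final_liftS_eq {F F' : Prg} {ξ : K} (h : ∀ η < ξ, F η = F' η) {U : BA (LP F ξ)}
    {U' : BA (LP F' ξ)} (hU : ∀ q, Fo q U' ↔ Fo q U) : liftS F' ξ U' = liftS F ξ U := by
  unfold liftS
  congr 1
  ext s
  simp only [Set.mem_ofPred_eq, hU]
  refine and_congr_right fun _ => and_congr_left fun _ => ?_
  exact forall_congr' fun η => forall_congr' fun hη => by rw [h η hη]

theorem Final_liftS_sup {F : Prg} {ξ : K} (U V : BA (LP F ξ)) :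
    liftS F ξ (U ⊔ V) = liftS F ξ U ⊔ liftS F ξ V := by
  rw [sup_eq_iSup, liftS_iSup, sup_eq_iSup]
  exact iSup_congr fun b => by cases b <;> rfl

theorem Final_transport {L L' : Pre Cd} (h : L = L') (R D : W → W → BA L) :
    ∃ R' D' : W → W → BA L', (∀ x y q, Fo q (R' x y) ↔ Fo q (R x y)) ∧
      (∀ x y q, Fo q (D' x y) ↔ Fo q (D x y)) ∧ (IsBPre R → IsBPre R') ∧ (LegR R → LegR R') ∧
      (∀ p0 q, Fo q (bg R' p0)ᶜ ↔ Fo q (bg R p0)ᶜ) ∧
      ((∀ i, denB R (D i) = ⊤) → ∀ i, denB R' (D' i) = ⊤) := by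
  subst h
  exact ⟨R, D, fun _ _ _ => Iff.rfl, fun _ _ _ => Iff.rfl, id, id, fun _ _ => Iff.rfl, id⟩

theorem Final_filB {𝔹 : Type} [CompleteBooleanAlgebra 𝔹] {R R' : W → W → 𝔹} {B : 𝔹}
    (h1 : ∀ x y, R x y ≤ R' x y) (h2 : ∀ x y, B ⊓ R' x y ≤ R x y) (G : W → 𝔹) :
    B ⊓ filB R' G ≤ filB R G := by
  unfold filB
  refine le_inf (le_inf ?_ ?_) ?_
  · exact inf_le_right.trans (inf_le_left.trans inf_le_left)
  · refine (inf_le_right.trans (inf_le_left.trans inf_le_right)).trans ?_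
    exact iInf_mono fun x => iInf_mono fun y => himp_le_himp_right (inf_le_inf_left _ (h1 x y))
  · refine le_iInf fun x => le_iInf fun y => le_himp_iff.2 ?_
    have h3 : (⨅ x, ⨅ y, G x ⊓ G y ⇨ ⨆ z, G z ⊓ (R' z x ⊓ R' z y)) ≤
        G x ⊓ G y ⇨ ⨆ z, G z ⊓ (R' z x ⊓ R' z y) := (iInf_le _ x).trans (iInf_le _ y)
    have h4 : B ⊓ ((⨆ x, G x) ⊓ (⨅ x, ⨅ y, G x ⊓ R' x y ⇨ G y) ⊓
        ⨅ x, ⨅ y, G x ⊓ G y ⇨ ⨆ z, G z ⊓ (R' z x ⊓ R' z y)) ⊓ (G x ⊓ G y) ≤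
        B ⊓ ⨆ z, G z ⊓ (R' z x ⊓ R' z y) := by
      refine le_inf (inf_le_left.trans inf_le_left) ?_
      refine le_trans ?_ (le_himp_iff.1 h3)
      exact inf_le_inf_right _ (inf_le_right.trans inf_le_right)
    refine h4.trans ?_
    rw [inf_iSup_eq]
    refine iSup_mono fun w => ?_
    refine le_inf (inf_le_right.trans inf_le_left) (le_inf ?_ ?_)
    · exact (inf_le_inf_left B (inf_le_right.trans inf_le_left)).trans (h2 w x)
    · exact (inf_le_inf_left B (inf_le_right.trans inf_le_right)).trans (h2 w y)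

theorem Final_denB_mono {𝔹 : Type} [CompleteBooleanAlgebra 𝔹] {R R' : W → W → 𝔹}
    (h1 : ∀ x y, R x y ≤ R' x y) (D : W → 𝔹) : denB R D ≤ denB R' D :=
  iInf_mono fun _ => iSup_mono fun _ => inf_le_inf_right _ (h1 _ _)

theorem Final_mk : #((W × W) ⊕ (W × W)) ≤ 2 ^ (ℵ₀ : Cardinal.{0}) := by
  have h0 : (ℵ₀ : Cardinal.{0}) ≤ 2 ^ (ℵ₀ : Cardinal.{0}) := (cantor ℵ₀).le
  have h1 : #(W × W) ≤ 2 ^ (ℵ₀ : Cardinal.{0}) := by
    rw [Cardinal.mk_prod]
    simp only [Cardinal.lift_id]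
    exact (mul_le_mul' mk_W_le mk_W_le).trans (mul_eq_self h0).le
  rw [Cardinal.mk_sum]
  simp only [Cardinal.lift_id]
  exact (add_le_add h1 h1).trans (add_eq_self h0).le

theorem Final_relE {L L' : Pre Cd} {R : W → W → BA L} {R' : W → W → BA L'}
    (h : ∀ x y q, Fo q (R' x y) ↔ Fo q (R x y)) (b : Bool) :
    relE L' (b, fun x y => {q | Fo q (R x y)}) = R' := by
  funext x y
  change toB L' {q | Fo q (R x y)} = R' x y
  rw [← toB_setOf (R' x y)]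
  congr 1
  ext q
  exact (h x y q).symm

theorem core (R : W → W → BS) (hR : IsBPre R) (D : W → W → BS) (hD : ∀ i, denB R (D i) = ⊤) :
    sspc R ≤ ⨆ G : W → BS, filB R G ⊓ ⨅ i, ⨆ x, G x ⊓ D i x := by
  refine le_iff_Fo.2 fun s hs => Fo_reg fun s1 hs1 => ?_
  obtain ⟨ξ, F, hleg, hlen, hprg, V', hV'⟩ := cap Final_mk
    (Sum.elim (fun t : W × W => R t.1 t.2) (fun t : W × W => D t.1 t.2)) s1
  have hR0 : ∀ x y, liftS F ξ (V' (Sum.inl (x, y))) = stg F ξ ⊓ R x y := fun x y => hV' _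
  have hD0 : ∀ i x, liftS F ξ (V' (Sum.inr (i, x))) = stg F ξ ⊓ D i x := fun i x => hV' _
  obtain ⟨R0, hR0d⟩ : ∃ R0 : W → W → BA (LP F ξ), ∀ x y, R0 x y = V' (Sum.inl (x, y)) :=
    ⟨_, fun _ _ => rfl⟩
  obtain ⟨D0, hD0d⟩ : ∃ D0 : W → W → BA (LP F ξ), ∀ x y, D0 x y = V' (Sum.inr (x, y)) :=
    ⟨_, fun _ _ => rfl⟩
  simp only [← hR0d] at hR0
  simp only [← hD0d] at hD0
  have htop : liftS F ξ ⊤ = stg F ξ := rfl
  have hRp : IsBPre R0 := by
    constructor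
    · intro x
      refine Final_liftS_inj hleg ?_
      rw [hR0, hR.1, inf_top_eq, htop]
    · intro x y w
      rw [← inf_eq_left]
      refine Final_liftS_inj hleg ?_
      rw [liftS_inf, liftS_inf, hR0, hR0, hR0, inf_eq_left]
      refine le_inf (inf_le_left.trans inf_le_left) ?_
      exact (inf_le_inf inf_le_right inf_le_right).trans (hR.2 x y w)
  have hDd : ∀ i, denB R0 (D0 i) = ⊤ := by
    intro i
    refine Final_liftS_inj hleg ?_
    rw [lift_denB hR0 (hD0 i), hD i, inf_top_eq, htop]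
  by_cases hA : ∃ p, (LP F ξ).le p s1.cnd ∧ Fo p (⨅ p0, bg R0 p0)
  · obtain ⟨p, hp, hpB⟩ := hA
    obtain ⟨F', hF'⟩ : ∃ F' : Prg, F' = Function.update F ξ
      (false, fun x y => {q | Fo q (goodR R0 x y)}) := ⟨_, rfl⟩
    have hF1 : ∀ η < ξ, F η = F' η := fun η hη => by
      rw [hF', Function.update_of_ne hη.ne]
    have hF2 : F' ξ = (false, fun x y => {q | Fo q (goodR R0 x y)}) := by
      rw [hF', Function.update_self]
    have hL : LP F ξ = LP F' ξ := LP_congr _ fun η hη => hF1 η (WithTop.coe_lt_coe.1 hη)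
    obtain ⟨R1, D1, e1, e2, e3, e4, -, e6⟩ := Final_transport hL (goodR R0) D0
    have h1 : relE (LP F' ξ) (F' ξ) = R1 := by rw [hF2]; exact Final_relE e1 false
    have h2 : IsBPre R1 := e3 (isBPre_goodR hRp)
    have h3 : relP (LP F' ξ) (F' ξ) = R1 := by
      unfold relP
      rw [h1, if_pos h2]
    have h4 : ∀ η ≤ ξ, Leg F' η := by
      intro η hη
      rcases hη.lt_or_eq with h | h
      · exact (Leg_congr fun ζ hζ => hF1 ζ (hζ.trans_lt h)).1 (hleg η h)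
      · rw [h]
        refine Or.inr ?_
        rw [h3]
        exact e4 (LegR_good R0 hRp)
    have h6 : ∀ i, denB R1 (D1 i) = ⊤ := e6 fun i => top_le_iff.1
      (by rw [← hDd i]; exact Final_denB_mono (fun x y => le_sup_left) _)
    have h7 : ∀ x y, liftS F' ξ (R1 x y) =
        stg F' ξ ⊓ (R x y ⊔ (liftS F ξ (⨅ p0, bg R0 p0))ᶜ) := by
      intro x y
      rw [Final_liftS_eq hF1 (e1 x y), ← stg_congr hF1]
      unfold goodR
      rw [Final_liftS_sup, hR0, liftS_compl, inf_sup_left]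
    have h8 : ∀ i x, liftS F' ξ (D1 i x) = stg F' ξ ⊓ D i x := by
      intro i x
      rw [Final_liftS_eq hF1 (e2 i x), ← stg_congr hF1, hD0]
    have h9 := spos h4 (by rw [hF2]) h3 h6 h7 h8
    have h4' : ∀ η < Order.succ ξ, Leg F' η := fun η hη => h4 η (Order.lt_succ_iff.1 hη)
    have h10 : SP.le (mkS F' (Order.succ ξ) h4' p) (mkS F ξ hleg p) :=
      Final_mkS_le h4' (Order.le_succ ξ) (fun η hη => (hF1 η hη).symm) (by
        exact (LP F' _).refl p)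
    have h11 : SP.le (mkS F ξ hleg p) s1 := Final_mkS_le hleg hlen hprg hp
    have h12 : Fo (mkS F' (Order.succ ξ) h4' p) (stg F' (Order.succ ξ)) :=
      Fo_stg le_rfl fun _ _ => rfl
    obtain ⟨s3, hs3, G, hG⟩ := Fo_iSup.1 (le_iff_Fo.1 h9 _ h12) _ (SP.refl _)
    refine ⟨s3, SP.trans _ _ _ hs3 (SP.trans _ _ _ h10 h11), ?_⟩
    refine le_iff_Fo.1 (le_iSup (fun G : W → BS => filB R G ⊓ ⨅ i, ⨆ x, G x ⊓ D i x) G) s3 ?_
    obtain ⟨hG1, hG2⟩ := Fo_inf.1 hG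
    refine Fo_inf.2 ⟨?_, hG2⟩
    have h13 : Fo s3 (liftS F ξ (⨅ p0, bg R0 p0)) := by
      refine Fo.mono (SP.trans _ _ _ hs3 h10) ?_
      exact (Fo_liftS (s := mkS F ξ hleg p) le_rfl (fun _ _ => rfl)).2 hpB
    refine le_iff_Fo.1 (Final_filB (fun x y => le_sup_left) ?_ G) s3 (Fo_inf.2 ⟨h13, hG1⟩)
    intro x y
    rw [inf_sup_left, inf_compl_eq_bot, sup_bot_eq]
    exact inf_le_right
  · exfalso
    have hB : Fo s1.cnd (⨅ p0, bg R0 p0)ᶜ := Fo_compl.2 fun y hy hyB => hA ⟨y, hy, hyB⟩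
    rw [compl_iInf] at hB
    obtain ⟨p, hp, p0, hp0⟩ := Fo_iSup.1 hB s1.cnd ((LP F ξ).refl _)
    obtain ⟨F', hF'⟩ : ∃ F' : Prg, F' = Function.update F ξ
      (true, fun x y => {q | Fo q (R0 x y)}) := ⟨_, rfl⟩
    have hF1 : ∀ η < ξ, F η = F' η := fun η hη => by
      rw [hF', Function.update_of_ne hη.ne]
    have hF2 : F' ξ = (true, fun x y => {q | Fo q (R0 x y)}) := by
      rw [hF', Function.update_self]
    have hL : LP F ξ = LP F' ξ := LP_congr _ fun η hη => hF1 η (WithTop.coe_lt_coe.1 hη)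
    obtain ⟨R1, D1, e1, e2, e3, -, e5, -⟩ := Final_transport hL R0 D0
    have h1 : relE (LP F' ξ) (F' ξ) = R1 := by rw [hF2]; exact Final_relE e1 true
    have h4 : ∀ η ≤ ξ, Leg F' η := by
      intro η hη
      rcases hη.lt_or_eq with h | h
      · exact (Leg_congr fun ζ hζ => hF1 ζ (hζ.trans_lt h)).1 (hleg η h)
      · rw [h]
        exact Or.inl (by rw [hF2])
    have h4' : ∀ η < Order.succ ξ, Leg F' η := fun η hη => h4 η (Order.lt_succ_iff.1 hη)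
    have h10 : SP.le (mkS F' (Order.succ ξ) h4' p) (mkS F ξ hleg p) :=
      Final_mkS_le h4' (Order.le_succ ξ) (fun η hη => (hF1 η hη).symm) (by
        exact (LP F' _).refl p)
    have h11 : SP.le (mkS F ξ hleg p) s1 := Final_mkS_le hleg hlen hprg hp
    refine skill (F := F') (ξ := ξ) h4 (by rw [hF2]) (by rw [h1]; exact e3 hRp) (RS := R) ?_ p0
      (mkS F' (Order.succ ξ) h4' p) le_rfl (fun _ _ => rfl) ?_
      (hs.mono (SP.trans _ _ _ h10 (SP.trans _ _ _ h11 hs1)))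
    · intro x y
      rw [h1, Final_liftS_eq hF1 (e1 x y), ← stg_congr hF1, hR0]
    · rw [h1]
      exact (e5 p0 p).2 hp0

end Pool.Agent.MMA1
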