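import Pool.Agent.MMA1.Defs

/-! # The forcing calculus in regular open algebras -/

set_option autoImplicit false

namespace Pool.Agent.MMA1

open Classical

variable {X : Type} {L : Pre X}

theorem le_iff_Fo {U V : BA L} : U ≤ V ↔ ∀ x, Fo x U → Fo x V := Iff.rfl

theorem BA_ext {U V : BA L} (h : ∀ x, Fo x U ↔ Fo x V) : U = V :=
  le_antisymm (le_iff_Fo.2 fun x => (h x).1) (le_iff_Fo.2 fun x => (h x).2)

theorem Fo.mono {x y : X} {U : BA L} (h : L.le x y) (hy : Fo y U) : Fo x U :=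
  (Heyting.Regular.val (show StarHur.RO.Alg (PT L) from U)).lower h hy

theorem mem_pcompl {P : Type} [Preorder P] {U : LowerSet P} {x : P} :
    x ∈ Uᶜ ↔ ∀ y, y ≤ x → y ∉ U := by
  have h1 : x ∈ Uᶜ ↔ LowerSet.Iic x ≤ Uᶜ := (LowerSet.Iic_le (s := Uᶜ) (a := x)).symm
  rw [h1, le_compl_iff_disjoint_right, disjoint_iff_inf_le]
  constructor
  · intro h y hy hyU
    exact h (show y ∈ LowerSet.Iic x ⊓ U from ⟨hy, hyU⟩)
  · intro h y hy
    exact absurd hy.2 (h y hy.1)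

/-- a lower set -/
def mkL (L : Pre X) (S : Set X) (h1 : ∀ x y, L.le x y → y ∈ S → x ∈ S) : LowerSet (PT L) where
  carrier := (show Set (PT L) from S)
  lower' := fun a b hab ha => h1 b a hab ha

theorem mkL_reg (L : Pre X) (S : Set X) (h1 : ∀ x y, L.le x y → y ∈ S → x ∈ S)
    (h2 : ∀ x, (∀ y, L.le y x → ∃ z, L.le z y ∧ z ∈ S) → x ∈ S) :
    ((mkL L S h1)ᶜ)ᶜ = mkL L S h1 := by
  refine le_antisymm ?_ le_compl_compl
  have key : ∀ (x : PT L), x ∈ ((mkL L S h1)ᶜ)ᶜ → x ∈ mkL L S h1 := by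
    intro x hx
    refine h2 x ?_
    intro (y : PT L) hy
    have h3 : y ∉ (mkL L S h1)ᶜ := mem_pcompl.1 hx y hy
    by_contra hcon
    push Not at hcon
    exact h3 (mem_pcompl.2 fun z hz hzS => hcon z hz hzS)
  exact key

/-- a regular lower set -/
def mkB (L : Pre X) (S : Set X) (h1 : ∀ x y, L.le x y → y ∈ S → x ∈ S)
    (h2 : ∀ x, (∀ y, L.le y x → ∃ z, L.le z y ∧ z ∈ S) → x ∈ S) : BA L :=
  (⟨mkL L S h1, mkL_reg L S h1 h2⟩ : StarHur.RO.Alg (PT L))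

theorem Fo_mkB {S : Set X} {h1 : ∀ x y, L.le x y → y ∈ S → x ∈ S}
    {h2 : ∀ x, (∀ y, L.le y x → ∃ z, L.le z y ∧ z ∈ S) → x ∈ S} {x : X} :
    Fo x (mkB L S h1 h2) ↔ x ∈ S := Iff.rfl

theorem Fo_reg {x : X} {U : BA L} (h : ∀ y, L.le y x → ∃ z, L.le z y ∧ Fo z U) : Fo x U := by
  have hU : (Heyting.Regular.val (show StarHur.RO.Alg (PT L) from U) : LowerSet (PT L))ᶜᶜ =
      Heyting.Regular.val (show StarHur.RO.Alg (PT L) from U) :=
    Heyting.Regular.prop (show StarHur.RO.Alg (PT L) from U)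
  have key : ∀ (x : PT L), (∀ y : PT L, y ≤ x → ∃ z : PT L, z ≤ y ∧
      z ∈ (Heyting.Regular.val (show StarHur.RO.Alg (PT L) from U) : LowerSet (PT L))) →
      x ∈ (Heyting.Regular.val (show StarHur.RO.Alg (PT L) from U) : LowerSet (PT L))ᶜᶜ := by
    intro x h
    refine mem_pcompl.2 ?_
    intro y hy hyc
    obtain ⟨z, hz, hzU⟩ := h y hy
    exact mem_pcompl.1 hyc z hz hzU
  rw [hU] at key
  exact key x h

theorem Fo_top (x : X) : Fo x (⊤ : BA L) := by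
  have h : mkB L Set.univ (fun _ _ _ _ => trivial) (fun _ _ => trivial) ≤ ⊤ := le_top
  exact le_iff_Fo.1 h x trivial

theorem not_Fo_bot (x : X) : ¬ Fo x (⊥ : BA L) := by
  intro hx
  have h : ⊥ ≤ mkB L ∅ (fun _ _ _ h => h)
    (fun x h => by obtain ⟨z, -, hz⟩ := h x (L.refl x); exact hz) := bot_le
  exact le_iff_Fo.1 h x hx

theorem Fo_iInf {ι : Sort*} {x : X} {U : ι → BA L} : Fo x (⨅ i, U i) ↔ ∀ i, Fo x (U i) := by
  constructor
  · intro h i
    exact le_iff_Fo.1 (iInf_le U i) x h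
  · intro h
    have h1 : mkB L {y | ∀ i, Fo y (U i)} (fun _ _ hab hb i => (hb i).mono hab)
        (fun y hy i => Fo_reg fun z hz => (hy z hz).imp fun w hw => ⟨hw.1, hw.2 i⟩) ≤ ⨅ i, U i :=
      le_iInf fun i => le_iff_Fo.2 fun y hy => hy i
    exact le_iff_Fo.1 h1 x h

theorem Fo_iSup {ι : Sort*} {x : X} {U : ι → BA L} :
    Fo x (⨆ i, U i) ↔ ∀ y, L.le y x → ∃ z, L.le z y ∧ ∃ i, Fo z (U i) := by
  constructor
  · intro h
    have h1 : ⨆ i, U i ≤ mkB L {x | ∀ y, L.le y x → ∃ z, L.le z y ∧ ∃ i, Fo z (U i)}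
        (fun a b hab hb y hy => hb y (L.trans _ _ _ hy hab))
        (fun a ha y hy => by
          obtain ⟨z, hz, hz2⟩ := ha y hy
          obtain ⟨w, hw, hw2⟩ := hz2 z (L.refl z)
          exact ⟨w, L.trans _ _ _ hw hz, hw2⟩) :=
      iSup_le fun i => le_iff_Fo.2 fun y hy z hz => ⟨z, L.refl z, i, hy.mono hz⟩
    exact le_iff_Fo.1 h1 x h
  · intro h
    refine Fo_reg fun y hy => ?_
    obtain ⟨z, hz, i, hi⟩ := h y hy
    exact ⟨z, hz, le_iff_Fo.1 (le_iSup U i) z hi⟩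

theorem Fo_inf {x : X} {U V : BA L} : Fo x (U ⊓ V) ↔ Fo x U ∧ Fo x V := by
  rw [inf_eq_iInf, Fo_iInf]
  constructor
  · intro h; exact ⟨h true, h false⟩
  · rintro ⟨h1, h2⟩ b; cases b
    · exact h2
    · exact h1

theorem Fo_sup {x : X} {U V : BA L} :
    Fo x (U ⊔ V) ↔ ∀ y, L.le y x → ∃ z, L.le z y ∧ (Fo z U ∨ Fo z V) := by
  rw [sup_eq_iSup, Fo_iSup]
  refine forall_congr' fun y => forall_congr' fun _ => exists_congr fun z => and_congr_right fun _ => ?_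
  constructor
  · rintro ⟨b, hb⟩; cases b
    · exact Or.inr hb
    · exact Or.inl hb
  · rintro (h | h)
    · exact ⟨true, h⟩
    · exact ⟨false, h⟩

theorem Fo_compl {x : X} {U : BA L} : Fo x Uᶜ ↔ ∀ y, L.le y x → ¬ Fo y U := by
  constructor
  · intro h y hy hyU
    have h1 : Fo y (U ⊓ Uᶜ) := Fo_inf.2 ⟨hyU, h.mono hy⟩
    rw [inf_compl_eq_bot] at h1
    exact not_Fo_bot y h1
  · intro h
    have h1 : Fo x (U ⊔ Uᶜ) := by rw [sup_compl_eq_top]; exact Fo_top x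
    refine Fo_reg fun y hy => ?_
    obtain ⟨z, hz, h2⟩ := Fo_sup.1 h1 y hy
    exact ⟨z, hz, h2.resolve_left (h z (L.trans _ _ _ hz hy))⟩

theorem Fo_himp {x : X} {U V : BA L} : Fo x (U ⇨ V) ↔ ∀ y, L.le y x → Fo y U → Fo y V := by
  rw [himp_eq, Fo_sup]
  constructor
  · intro h y hy hyU
    refine Fo_reg fun z hz => ?_
    obtain ⟨w, hw, h1⟩ := h z (L.trans _ _ _ hz hy)
    refine ⟨w, hw, h1.resolve_right fun h2 => ?_⟩
    exact Fo_compl.1 h2 w (L.refl w) (hyU.mono (L.trans _ _ _ hw hz))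
  · intro h y hy
    by_cases h1 : ∃ z, L.le z y ∧ Fo z U
    · obtain ⟨z, hz, hzU⟩ := h1
      exact ⟨z, hz, Or.inl (h z (L.trans _ _ _ hz hy) hzU)⟩
    · push Not at h1
      exact ⟨y, L.refl y, Or.inr (Fo_compl.2 h1)⟩

theorem toB_eq_mkB (S : Set X) : toB L S = mkB L {x | ∀ y, L.le y x → ∃ z, L.le z y ∧ ∃ s ∈ S, L.le z s}
    (fun a b hab hb y hy => hb y (L.trans _ _ _ hy hab))
    (fun a ha y hy => by
      obtain ⟨z, hz, hz2⟩ := ha y hy
      obtain ⟨w, hw, hw2⟩ := hz2 z (L.refl z)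
      exact ⟨w, L.trans _ _ _ hw hz, hw2⟩) := by
  refine le_antisymm ?_ ?_
  · refine (Heyting.Regular.gi.gc _ _).mpr ?_
    refine lowerClosure_le.2 ?_
    intro s hs y hy
    exact ⟨y, L.refl y, s, hs, hy⟩
  · refine le_iff_Fo.2 fun x hx => ?_
    refine Fo_reg fun y hy => ?_
    obtain ⟨z, hz, s, hs, hzs⟩ := hx y hy
    refine ⟨z, hz, ?_⟩
    have h1 : (lowerClosure (show Set (PT L) from S) : LowerSet (PT L)) ≤
        (lowerClosure (show Set (PT L) from S) : LowerSet (PT L))ᶜᶜ := le_compl_compl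
    exact h1 (mem_lowerClosure.2 ⟨s, hs, hzs⟩)

theorem Fo_toB {x : X} {S : Set X} :
    Fo x (toB L S) ↔ ∀ y, L.le y x → ∃ z, L.le z y ∧ ∃ s ∈ S, L.le z s := by
  rw [toB_eq_mkB]
  exact Fo_mkB

theorem Fo_down {x p : X} : Fo x (down L p) ↔ ∀ y, L.le y x → L.Comp y p := by
  unfold down
  rw [Fo_toB]
  refine forall_congr' fun y => forall_congr' fun _ => ?_
  unfold Pre.Comp
  refine exists_congr fun z => and_congr_right fun _ => ?_
  simp

theorem Fo_down_of_le {x p : X} (h : L.le x p) : Fo x (down L p) :=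
  Fo_down.2 fun y hy => ⟨y, L.refl y, L.trans _ _ _ hy h⟩

theorem Fo_self (x : X) : Fo x (down L x) := Fo_down_of_le (L.refl x)

theorem toB_setOf (U : BA L) : toB L {x | Fo x U} = U := by
  refine BA_ext fun x => ?_
  rw [Fo_toB]
  constructor
  · intro h
    refine Fo_reg fun y hy => ?_
    obtain ⟨z, hz, s, hs, hzs⟩ := h y hy
    exact ⟨z, hz, Fo.mono hzs hs⟩
  · intro h y hy
    exact ⟨y, L.refl y, y, h.mono hy, L.refl y⟩

theorem down_le_iff {x : X} {U : BA L} : down L x ≤ U ↔ Fo x U := by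
  constructor
  · intro h
    exact le_iff_Fo.1 h x (Fo_self x)
  · intro h
    refine le_iff_Fo.2 fun y hy => Fo_reg fun z hz => ?_
    obtain ⟨w, hw1, hw2⟩ := Fo_down.1 hy z hz
    exact ⟨w, hw1, h.mono hw2⟩

theorem down_mono {x y : X} (h : L.le x y) : down L x ≤ down L y :=
  down_le_iff.2 (Fo_down_of_le h)

theorem ne_bot_iff {U : BA L} : U ≠ ⊥ ↔ ∃ x, Fo x U := by
  constructor
  · intro h
    by_contra hcon
    push Not at hcon
    exact h (le_antisymm (le_iff_Fo.2 fun x hx => absurd hx (hcon x)) bot_le)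
  · rintro ⟨x, hx⟩ rfl
    exact not_Fo_bot x hx

theorem down_ne_bot (x : X) : down L x ≠ ⊥ := ne_bot_iff.2 ⟨x, Fo_self x⟩

theorem exists_Fo_compl {x : X} {U : BA L} (h : ¬ Fo x U) : ∃ y, L.le y x ∧ Fo y Uᶜ := by
  by_contra hcon
  push Not at hcon
  refine h (Fo_reg fun y hy => ?_)
  by_contra hcon2
  push Not at hcon2
  exact hcon y hy (Fo_compl.2 hcon2)

theorem inf_down_ne_bot {p q : X} : down L p ⊓ down L q ≠ ⊥ ↔ L.Comp p q := by
  rw [ne_bot_iff]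
  constructor
  · rintro ⟨x, hx⟩
    obtain ⟨h1, h2⟩ := Fo_inf.1 hx
    obtain ⟨y, hy1, hy2⟩ := Fo_down.1 h1 x (L.refl x)
    obtain ⟨z, hz1, hz2⟩ := Fo_down.1 h2 y hy1
    exact ⟨z, L.trans _ _ _ hz1 hy2, hz2⟩
  · rintro ⟨z, h1, h2⟩
    exact ⟨z, Fo_inf.2 ⟨Fo_down_of_le h1, Fo_down_of_le h2⟩⟩

end Pool.Agent.MMA1
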