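import Pool.Agent.MMI.Basic

/-! # The orders of the iteration are separative -/

set_option autoImplicit false

namespace Pool.Agent.MMA1

open Classical

variable {S : Stp}

/-- every nonzero element of the two step algebra is above the value of a condition which is below a
given one -/
theorem Sep_Val_below {η : K} (hF : FullQ (Itd S η)) {v : BA (TS (Itd S η))} (hv : v ≠ ⊥) {p : Cd}
    (hp : prj (Itd S η) v ≤ down (LE S η) p) :
    ∃ x, (LE S η).le x p ∧ Val S η x ≤ v := by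
  have h1 : prj (Itd S η) v ≠ ⊥ := fun h => hv (prj_eq_bot.1 h)
  obtain ⟨x1, hx1⟩ := ne_bot_iff.1 h1
  obtain ⟨x0, hx01, hx0p⟩ := Fo_down.1 (le_iff_Fo.1 hp x1 hx1) x1 ((LE S η).refl x1)
  have hx0 : Fo x0 (prj (Itd S η) v) := hx1.mono hx01
  obtain ⟨a, ha⟩ := Val_code hF v
  refine ⟨x0.set η (some a), ?_, ?_⟩
  · refine (LE S η).trans _ _ _ (LE_of_agree fun ζ hζ => ?_) hx0p
    exact set_at_ne x0 (WithTop.coe_lt_coe.1 hζ).ne _
  · rw [ha x0, inf_sup_left]
    refine sup_le inf_le_right ?_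
    have h2 : emb (Itd S η) (down (LE S η) x0) ≤ emb (Itd S η) (prj (Itd S η) v) :=
      emb_mono (down_le_iff.2 hx0)
    refine le_trans (inf_le_inf_right _ h2) ?_
    rw [inf_compl_eq_bot]
    exact bot_le

/-- every nonzero element of the two step algebra is above the value of a condition -/
theorem Val_exists {η : K} (hF : FullQ (Itd S η)) {v : BA (TS (Itd S η))} (hv : v ≠ ⊥) :
    ∃ x, Val S η x ≤ v := by
  have h1 : prj (Itd S η) v ≠ ⊥ := fun h => hv (prj_eq_bot.1 h)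
  obtain ⟨x0, hx0⟩ := ne_bot_iff.1 h1
  have h2 : emb (Itd S η) (down (LE S η) x0) ⊓ v ≠ ⊥ := by
    intro h
    have h3 := congrArg (prj (Itd S η)) h
    rw [prj_emb_inf, prj_bot] at h3
    have h4 : Fo x0 (down (LE S η) x0 ⊓ prj (Itd S η) v) := Fo_inf.2 ⟨Fo_self x0, hx0⟩
    rw [h3] at h4
    exact not_Fo_bot x0 h4
  obtain ⟨x, -, hx⟩ := Sep_Val_below hF h2 (p := x0) (by rw [prj_emb_inf]; exact inf_le_left)
  exact ⟨x, hx.trans inf_le_right⟩

theorem LE_sep {ξ : WithTop K} (hF : Full S ξ) {p q : Cd} (h : ¬ (LE S ξ).le p q) :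
    ∃ r, (LE S ξ).le r p ∧ ¬ (LE S ξ).Comp r q := by
  rw [LE_le] at h
  push Not at h
  obtain ⟨η, hη, h1⟩ := h
  have h2 : Val S η p ⊓ (Val S η q)ᶜ ≠ ⊥ := by
    intro h3
    exact h1 (by rwa [← sdiff_eq, sdiff_eq_bot_iff] at h3)
  obtain ⟨x, hxp, hx⟩ := Sep_Val_below (hF η hη) h2 (p := p) (by
    refine (prj_mono inf_le_left).trans ?_
    rw [prj_Val])
  have h3 : (LE S ((Order.succ η : K) : WithTop K)).le x p :=
    LE_succ.2 ⟨hxp, hx.trans inf_le_left⟩
  refine ⟨splice ((Order.succ η : K) : WithTop K) x p, splice_le h3 ξ, ?_⟩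
  rintro ⟨z, hz1, hz2⟩
  rw [LE_le] at hz1 hz2
  have h4 : Val S η (splice ((Order.succ η : K) : WithTop K) x p) = Val S η x :=
    Val_congr fun ζ hζ => splice_lt (WithTop.coe_lt_coe.2 (Order.lt_succ_iff.2 hζ))
  have h5 : Val S η z ≤ (Val S η q)ᶜ := by
    have := hz1 η hη
    rw [h4] at this
    exact this.trans (hx.trans inf_le_right)
  have h6 : Val S η z ≤ Val S η q ⊓ (Val S η q)ᶜ := le_inf (hz2 η hη) h5
  rw [inf_compl_eq_bot, le_bot_iff] at h6
  exact Val_ne_bot η z h6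

theorem LE_of_dense {ξ : WithTop K} (hF : Full S ξ) {p q : Cd}
    (h : ∀ r, (LE S ξ).le r p → ∃ r', (LE S ξ).le r' r ∧ (LE S ξ).le r' q) : (LE S ξ).le p q := by
  by_contra hcon
  obtain ⟨r, hr, hrq⟩ := LE_sep hF hcon
  exact hrq (h r hr)

theorem Fo_down_LE {ξ : WithTop K} (hF : Full S ξ) {p q : Cd} :
    Fo p (down (LE S ξ) q) ↔ (LE S ξ).le p q := by
  constructor
  · intro h
    exact LE_of_dense hF fun r hr => Fo_down.1 h r hr
  · exact Fo_down_of_le

theorem down_le_down_LE {ξ : WithTop K} (hF : Full S ξ) {p q : Cd} :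
    down (LE S ξ) p ≤ down (LE S ξ) q ↔ (LE S ξ).le p q := by
  rw [down_le_iff, Fo_down_LE hF]

end Pool.Agent.MMA1
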