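import Pool.Agent.MMI.MCod
import Pool.Agent.MMI.Sep

/-! # Generic conditions -/

set_option autoImplicit false

namespace Pool.Agent.MMA1

open Classical

variable {L : Pre Cd}

theorem Gen.mono {N : Set Un} {c c' : Cd} (h : L.le c' c) (hc : Gen L N c) : Gen L N c' :=
  fun D hD hd q hq => hc D hD hd q (L.trans _ _ _ hq h)

theorem GenH.mono {z : Set Un × (Un → Un)} {c c' : Cd} (h : L.le c' c) (hc : GenH L z.1 z.2 c) :
    GenH L z.1 z.2 c' :=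
  ⟨hc.1.mono h, fun p p' hp hpp q hq => hc.2 p p' hp hpp q (L.trans _ _ _ hq h)⟩

theorem GenH_id {N : Set Un} {c : Cd} : GenH L N id c ↔ Gen L N c :=
  ⟨fun h => h.1, fun h => ⟨h, fun p p' _ hpp q _ => by rw [cd_inj hpp]⟩⟩

/-- genericity in functional form: if for every `q` there is `x ≤ q` with a witness for `P a x`, then below
a generic condition this happens with `x` and the witness in `N`, and `h` respects them -/
theorem Gen_choose {α β : Type} (L : Pre Cd) (ca : α → Un) (hca : Function.Injective ca) (cb : β → Un)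
    (P : α → Cd → β → Prop) :
    ∀ᶠ z in MF, ∀ c, Gen L z.1 c → ∀ a, ca a ∈ z.1 → (∀ q, ∃ x b, L.le x q ∧ P a x b) →
      ∀ q, L.le q c → ∃ q' x b, L.le q' q ∧ L.le q' x ∧ Un.cd x ∈ z.1 ∧ cb b ∈ z.1 ∧ P a x b ∧
        ∀ a', z.2 (ca a) = ca a' → ∃ x' b', z.2 (Un.cd x) = Un.cd x' ∧ z.2 (cb b) = cb b' ∧
          P a' x' b' := by
  filter_upwards [MF_fun ca hca Un.st (fun a => {x | ∃ b, P a x b}),
    MF_choose2 ca hca Un.cd cd_inj cb P, MF_type Un.cd] with z h1 h2 h3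
  intro c hc a ha hd q hq
  obtain ⟨d, hdD, hdN, q', hq1, hq2⟩ := hc {x | ∃ b, P a x b} (h1 a ha).1
    (fun x => by
      obtain ⟨y, b, hy, hb⟩ := hd x
      exact ⟨y, ⟨b, hb⟩, hy⟩) q hq
  obtain ⟨b, hb, hbN, hb'⟩ := h2 a d ha hdN hdD
  refine ⟨q', d, b, hq2, hq1, hdN, hbN, hb, fun a' ha' => ?_⟩
  obtain ⟨x', hx'⟩ := h3 d hdN
  obtain ⟨b', hb1, hb2⟩ := hb' a' x' ha' hx'
  exact ⟨x', b', hx', hb1, hb2⟩

/-- genericity for names: a name in `N` of an element of `N` which is the supremum of a family over coded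
objects is decided by objects in `N` -/
theorem Gen_iSup {α β : Type} (L : Pre Cd) (ca : α → Un) (hca : Function.Injective ca) (cb : β → Un)
    (f : α → β → BA L) :
    ∀ᶠ z in MF, ∀ c, Gen L z.1 c → ∀ a, ca a ∈ z.1 → ∀ q, L.le q c → Fo q (⨆ b, f a b) →
      ∃ q' x b, L.le q' q ∧ L.le q' x ∧ Un.cd x ∈ z.1 ∧ cb b ∈ z.1 ∧ Fo x (f a b) ∧
        ∀ a', z.2 (ca a) = ca a' → ∃ x' b', z.2 (Un.cd x) = Un.cd x' ∧ z.2 (cb b) = cb b' ∧
          Fo x' (f a' b') := by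
  filter_upwards [MF_fun ca hca Un.st (fun a => {x | (∃ b, Fo x (f a b)) ∨ Fo x (⨆ b, f a b)ᶜ}),
    MF_choose2 ca hca Un.cd cd_inj cb (fun a x b => Fo x (f a b)), MF_type Un.cd] with z h1 h2 h3
  intro c hc a ha q hq hqf
  obtain ⟨d, hdD, hdN, q', hq1, hq2⟩ := hc {x | (∃ b, Fo x (f a b)) ∨ Fo x (⨆ b, f a b)ᶜ} (h1 a ha).1
    (fun x => by
      by_cases hx : Fo x (⨆ b, f a b)ᶜ
      · exact ⟨x, Or.inr hx, L.refl x⟩
      · have h4 : ¬ ∀ y, L.le y x → ¬ Fo y (⨆ b, f a b) := fun h => hx (Fo_compl.2 h)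
        push Not at h4
        obtain ⟨y, hy, hyf⟩ := h4
        obtain ⟨w, hw, b, hb⟩ := Fo_iSup.1 hyf y (L.refl y)
        exact ⟨w, Or.inl ⟨b, hb⟩, L.trans _ _ _ hw hy⟩) q hq
  have hex : ∃ b, Fo d (f a b) := by
    rcases hdD with h | h
    · exact h
    · exact absurd (hqf.mono hq2) (Fo_compl.1 h q' hq1)
  obtain ⟨b, hb, hbN, hb'⟩ := h2 a d ha hdN hex
  refine ⟨q', d, b, hq2, hq1, hdN, hbN, hb, fun a' ha' => ?_⟩
  obtain ⟨x', hx'⟩ := h3 d hdN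
  obtain ⟨b', hb1, hb2⟩ := hb' a' x' ha' hx'
  exact ⟨x', b', hx', hb1, hb2⟩

/-- `h` respects the Boolean values of names in `N` -/
theorem GenH_Fo {α : Type} (L : Pre Cd) (ca : α → Un) (hca : Function.Injective ca) (f : α → BA L) :
    ∀ᶠ z in MF, ∀ c, GenH L z.1 z.2 c → ∀ a a', ca a ∈ z.1 → z.2 (ca a) = ca a' →
      ∀ q, L.le q c → (Fo q (f a) ↔ Fo q (f a')) := by
  filter_upwards [MF_fun ca hca Un.st (fun a => {x | Fo x (f a) ∨ Fo x (f a)ᶜ}),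
    MF_rel2 ca hca Un.cd cd_inj (fun a x => Fo x (f a)),
    MF_rel2 ca hca Un.cd cd_inj (fun a x => Fo x (f a)ᶜ), MF_type Un.cd] with z h1 h2 h2' h3
  intro c hc a a' ha haa q hq
  have key : ∀ q, L.le q c → ∃ q', L.le q' q ∧ ((Fo q' (f a) ∧ Fo q' (f a')) ∨
      (Fo q' (f a)ᶜ ∧ Fo q' (f a')ᶜ)) := by
    intro q hq
    obtain ⟨d, hdD, hdN, q', hq1, hq2⟩ := hc.1 {x | Fo x (f a) ∨ Fo x (f a)ᶜ} (h1 a ha).1
      (fun x => by
        by_cases hx : Fo x (f a)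
        · exact ⟨x, Or.inl hx, L.refl x⟩
        · obtain ⟨y, hy, hyf⟩ := exists_Fo_compl hx
          exact ⟨y, Or.inr hyf, hy⟩) q hq
    obtain ⟨x', hx'⟩ := h3 d hdN
    have hqx : L.le q' x' := (hc.2 d x' hdN hx' q' (L.trans _ _ _ hq2 hq)).1 hq1
    refine ⟨q', hq2, ?_⟩
    rcases hdD with h | h
    · exact Or.inl ⟨h.mono hq1, ((h2 a a' d x' ha hdN haa hx').1 h).mono hqx⟩
    · exact Or.inr ⟨h.mono hq1, ((h2' a a' d x' ha hdN haa hx').1 h).mono hqx⟩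
  constructor
  · intro h
    refine Fo_reg fun y hy => ?_
    obtain ⟨q', hq', h4 | h4⟩ := key y (L.trans _ _ _ hy hq)
    · exact ⟨q', hq', h4.2⟩
    · exact absurd (h.mono (L.trans _ _ _ hq' hy)) (Fo_compl.1 h4.1 q' (L.refl q'))
  · intro h
    refine Fo_reg fun y hy => ?_
    obtain ⟨q', hq', h4 | h4⟩ := key y (L.trans _ _ _ hy hq)
    · exact ⟨q', hq', h4.1⟩
    · exact absurd (h.mono (L.trans _ _ _ hq' hy)) (Fo_compl.1 h4.2 q' (L.refl q'))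

/-- a generic condition at the stage `0` -/
theorem Gen_zero (S : Stp) : ∀ᶠ z in MF, ∀ c, GenH (LE S K0) z.1 z.2 c := by
  filter_upwards [MF_choose Un.st st_inj Un.cd (fun D d => d ∈ D)] with z h1
  intro c
  refine ⟨?_, ?_⟩
  · intro D hD hd q hq
    obtain ⟨y, hy, -⟩ := hd c
    obtain ⟨d, hd1, hd2, -⟩ := h1 D hD ⟨y, hy⟩
    exact ⟨d, hd1, hd2, d, (LE S K0).refl d, LE_zero d q⟩
  · intro p p' _ _ q _
    exact ⟨fun _ => LE_zero q p', fun _ => LE_zero q p⟩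

end Pool.Agent.MMA1
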