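import Pool.Agent.MMI.GenB

/-! # The amalgamation property of iterands -/

set_option autoImplicit false

namespace Pool.Agent.MMA1

open Classical

/-- `t` is in `N` -/
def InT {L : Pre Cd} {Q : BPo L} (cy : Q.Y → Un) (N : Set Un) (t : TSC Q) : Prop :=
  Un.cd t.1.1 ∈ N ∧ cy t.1.2 ∈ N

/-- `h t = t'` -/
def MpT {L : Pre Cd} {Q : BPo L} (cy : Q.Y → Un) (h : Un → Un) (t t' : TSC Q) : Prop :=
  h (Un.cd t.1.1) = Un.cd t'.1.1 ∧ h (cy t.1.2) = cy t'.1.2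

/-- `L` depends only on the coordinates below `η` -/
def Loc (L : Pre Cd) (η : K) : Prop := ∀ p q : Cd, (∀ ζ < η, p.at ζ = q.at ζ) → L.le p q

theorem Loc_LE (S : Stp) (η : K) : Loc (LE S η) η := fun _ _ h =>
  LE_of_agree fun ζ hζ => h ζ (WithTop.coe_lt_coe.1 hζ)

/-- amalgamation property of the iterand `Q` whose elements are coded by `cy` -/
def GOK (L : Pre Cd) (Q : BPo L) (η : K) (cy : Q.Y → Un) (z : Set Un × (Un → Un)) : Prop :=
  ∀ c, GenH L z.1 z.2 c → ∀ s s' : TSC Q, InT cy z.1 s → MpT cy z.2 s s' → L.le c s.1.1 →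
    ∃ u : BA (TS Q), prj Q u = down L c ∧ u ≤ down (TS Q) s ∧ u ≤ down (TS Q) s' ∧
      ∀ D : Set Cd, Un.st D ∈ z.1 → (nxt L Q η).Dense D →
        ∀ v, Fo v u → ∃ w t t' : TSC Q, (TS Q).le w v ∧ (TS Q).le w t ∧ (TS Q).le w t' ∧
          InT cy z.1 t ∧ MpT cy z.2 t t' ∧ ∃ d ∈ D, Un.cd d ∈ z.1 ∧ Fo t (val L Q η d)

theorem prj_down {L : Pre Cd} {Q : BPo L} (t : TSC Q) : prj Q (down (TS Q) t) = down L t.1.1 := by
  refine le_antisymm ?_ ?_
  · rw [prj_le_iff, down_le_iff, Fo_emb]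
    exact Fo_self _
  · rw [down_le_iff]
    exact Fo_prj_of (Fo_self t)

/-- every element of the two step iteration is the value of a condition -/
theorem exists_val_eq {L : Pre Cd} {Q : BPo L} {η : K} (hL : Loc L η) (hF : FullQ Q) (t : TSC Q) :
    ∃ p : Cd, (∀ ζ < η, p.at ζ = t.1.1.at ζ) ∧ val L Q η p = down (TS Q) t := by
  obtain ⟨a, ha⟩ : ∃ a, dec Q (some a) = down (TS Q) t := by
    have h : ∃ f : A0 → BA (TS Q), Function.Surjective f := hF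
    obtain ⟨a, ha⟩ := h.choose_spec (down (TS Q) t)
    refine ⟨a, ?_⟩
    change (if h : ∃ f : A0 → BA (TS Q), Function.Surjective f then h.choose a else ⊤) = down (TS Q) t
    rw [dif_pos h, ha]
  have hat : ∀ ζ < η, (t.1.1.set η (some a)).at ζ = t.1.1.at ζ := fun ζ hζ => set_at_ne _ hζ.ne _
  refine ⟨t.1.1.set η (some a), hat, ?_⟩
  have h1 : (t.1.1.set η (some a)).1 η = some a := set_at _ _ _
  have h2 : down L (t.1.1.set η (some a)) = down L t.1.1 :=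
    le_antisymm (down_mono (hL _ _ hat)) (down_mono (hL _ _ fun ζ hζ => (hat ζ hζ).symm))
  unfold val
  rw [h1, h2, ha, prj_down, inf_sup_left, inf_compl_eq_bot, sup_bot_eq, inf_eq_right]
  rw [down_le_iff, Fo_emb]
  exact Fo_self _

namespace GokAux

/-- the set of conditions deciding `val q` is dense in the next stage -/
theorem dense_dec {L : Pre Cd} {Q : BPo L} {η : K} (hL : Loc L η) (hF : FullQ Q) (q : Cd) :
    (nxt L Q η).Dense {d | val L Q η d ≤ val L Q η q ∨ val L Q η d ⊓ val L Q η q = ⊥} := by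
  intro x
  by_cases h0 : val L Q η x ⊓ val L Q η q = ⊥
  · exact ⟨x, Or.inr h0, (nxt L Q η).refl x⟩
  · obtain ⟨t, ht⟩ := ne_bot_iff.1 h0
    obtain ⟨h1, -⟩ := Fo_inf.1 ht
    have h3 : Fo t.1.1 (down L x) := Fo_emb.1 (le_iff_Fo.1 (val_le_emb L Q η x) t h1)
    obtain ⟨y, hy1, hy2⟩ := Fo_down.1 h3 t.1.1 (L.refl _)
    obtain ⟨d, hd1, hd2⟩ := exists_val_eq hL hF (t.lift y hy1)
    have h4 : down (TS Q) (t.lift y hy1) ≤ val L Q η x ⊓ val L Q η q :=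
      down_le_iff.2 (ht.mono (t.lift_le y hy1))
    refine ⟨d, Or.inl ?_, L.trans _ _ _ (hL d y hd1) hy2, ?_⟩
    · rw [hd2]; exact h4.trans inf_le_right
    · rw [hd2]; exact h4.trans inf_le_left

end GokAux

open GokAux in
theorem SOK_of_GOK (L : Pre Cd) (Q : BPo L) (η : K) (hL : Loc L η) (cy : Q.Y → Un)
    (hcy : Function.Injective cy) (hF : FullQ Q) (h : ∀ᶠ z in MF, FixW z → GOK L Q η cy z) :
    ∀ᶠ z in MF, FixW z → SOK L Q η z := by
  have hcode : Function.Injective (fun t : TSC Q => Un.pair (Un.cd t.1.1) (cy t.1.2)) := by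
    intro t t' htt
    simp only [Un.pair.injEq] at htt
    exact Subtype.ext (Prod.ext (cd_inj htt.1) (hcy htt.2))
  filter_upwards [h, MF_pair, MF_pair', MF_fun Un.cd cd_inj Un.st
      (fun q => {d | val L Q η d ≤ val L Q η q ∨ val L Q η d ⊓ val L Q η q = ⊥}),
    MF_rel2 (fun t : TSC Q => Un.pair (Un.cd t.1.1) (cy t.1.2)) hcode Un.cd cd_inj
      (fun t q => Fo t (val L Q η q)),
    MF_rel2 (fun t : TSC Q => Un.pair (Un.cd t.1.1) (cy t.1.2)) hcode Un.cd cd_inj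
      (fun t q => Fo t (val L Q η q)ᶜ),
    Gen_choose L Un.cd cd_inj cy (fun p x y => (∃ hm : Fo x (Q.m y),
      Fo (⟨(x, y), hm⟩ : TSC Q) (val L Q η p)) ∨ ¬ L.Comp x p)]
    with z hG hpair hpair' hfun hrel hrel' hch hW
  replace hG := hG hW
  intro c hc p p' hp hpp hcp
  have hcp' : L.le c p' := (hc.2 p p' hp hpp c (L.refl c)).1 hcp
  -- good conditions
  have hdense : ∀ a0, L.le a0 c → ∃ a, L.le a a0 ∧ ∃ t t' : TSC Q, InT cy z.1 t ∧ MpT cy z.2 t t' ∧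
      Fo t (val L Q η p) ∧ Fo t' (val L Q η p') ∧ L.le a t.1.1 := by
    intro a0 ha0
    obtain ⟨q', x, y, hq', hqx, hx, hy, hP, hP'⟩ := hch c hc.1 p hp (by
      intro q
      by_cases hqp : L.Comp q p
      · obtain ⟨z0, hz1, hz2⟩ := hqp
        have h1 : Fo z0 (prj Q (val L Q η p)) := by
          rw [prj_val]; exact Fo_down_of_le hz2
        obtain ⟨t, ht1, ht2⟩ := Fo_prj.1 h1 z0 (L.refl _)
        exact ⟨t.1.1, t.1.2, L.trans _ _ _ ht1 hz1, Or.inl ⟨t.2, ht2⟩⟩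
      · obtain ⟨t, ht⟩ := exists_TSC (Q := Q) q
        refine ⟨t.1.1, t.1.2, ht, Or.inr ?_⟩
        rintro ⟨y, hy1, hy2⟩
        exact hqp ⟨y, L.trans _ _ _ hy1 ht, hy2⟩) a0 ha0
    obtain ⟨x', y', hx', hy', hP''⟩ := hP' p' hpp
    have hq'c : L.le q' c := L.trans _ _ _ hq' ha0
    have hqx' : L.le q' x' := (hc.2 x x' hx hx' q' hq'c).1 hqx
    have h1 := hP.resolve_right fun hn => hn ⟨q', hqx, L.trans _ _ _ hq'c hcp⟩
    have h2 := hP''.resolve_right fun hn => hn ⟨q', hqx', L.trans _ _ _ hq'c hcp'⟩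
    obtain ⟨hm, h1⟩ := h1
    obtain ⟨hm', h2⟩ := h2
    exact ⟨q', hq', ⟨(x, y), hm⟩, ⟨(x', y'), hm'⟩, ⟨hx, hy⟩, ⟨hx', hy'⟩, h1, h2, hqx⟩
  -- the elements given by the amalgamation property
  have hex : ∀ a : {a : Cd // L.le a c ∧ ∃ t t' : TSC Q, InT cy z.1 t ∧ MpT cy z.2 t t' ∧
      Fo t (val L Q η p) ∧ Fo t' (val L Q η p') ∧ L.le a t.1.1}, ∃ u : BA (TS Q),
      prj Q u = down L a.1 ∧ u ≤ val L Q η p ∧ u ≤ val L Q η p' ∧
      ∀ D : Set Cd, Un.st D ∈ z.1 → (nxt L Q η).Dense D →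
        ∀ v, Fo v u → ∃ w t t' : TSC Q, (TS Q).le w v ∧ (TS Q).le w t ∧ (TS Q).le w t' ∧
          InT cy z.1 t ∧ MpT cy z.2 t t' ∧ ∃ d ∈ D, Un.cd d ∈ z.1 ∧ Fo t (val L Q η d) := by
    rintro ⟨a, ha, t, t', ht1, ht2, ht3, ht4, ht5⟩
    obtain ⟨u, hu1, hu2, hu3, hu4⟩ := hG a (hc.mono ha) t t' ht1 ht2 ht5
    exact ⟨u, hu1, hu2.trans (down_le_iff.2 ht3), hu3.trans (down_le_iff.2 ht4), hu4⟩
  choose u hu1 hu2 hu3 hu4 using hex
  have hkey : ∀ D : Set Cd, Un.st D ∈ z.1 → (nxt L Q η).Dense D →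
        ∀ v, Fo v (⨆ a, u a) → ∃ w t t' : TSC Q, (TS Q).le w v ∧ (TS Q).le w t ∧ (TS Q).le w t' ∧
          InT cy z.1 t ∧ MpT cy z.2 t t' ∧ ∃ d ∈ D, Un.cd d ∈ z.1 ∧ Fo t (val L Q η d) := by
    intro D hD hDd v hv
    obtain ⟨v', hv', a, ha⟩ := Fo_iSup.1 hv v ((TS Q).refl v)
    obtain ⟨w, t, t', h1, h2⟩ := hu4 a D hD hDd v' ha
    exact ⟨w, t, t', (TS Q).trans _ _ _ h1 hv', h2⟩
  refine ⟨⨆ a, u a, ?_, iSup_le hu2, iSup_le hu3, ?_, ?_⟩
  · rw [prj_iSup]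
    simp only [hu1]
    refine le_antisymm (iSup_le fun a => down_mono a.2.1) ?_
    rw [down_le_iff, Fo_iSup]
    intro y hy
    obtain ⟨a, ha1, ha2⟩ := hdense y hy
    exact ⟨a, ha1, ⟨a, L.trans _ _ _ ha1 hy, ha2⟩, Fo_self a⟩
  · intro D hD hDd
    refine le_iff_Fo.2 fun v hv => Fo_reg fun v' hv' => ?_
    obtain ⟨w, t, t', h1, h2, -, -, -, d, hdD, hdN, hd⟩ := hkey D hD hDd v' (hv.mono hv')
    refine ⟨w, h1, ?_⟩
    exact le_iff_Fo.1 (le_iSup₂ (f := fun d (_ : d ∈ D ∧ Un.cd d ∈ z.1) => val L Q η d) d ⟨hdD, hdN⟩) w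
      (hd.mono h2)
  · intro q q' hq hqq
    have hDq := (hfun q hq).1
    have hDd := dense_dec (Q := Q) hL hF q
    refine le_antisymm (le_inf inf_le_left ?_) (le_inf inf_le_left ?_)
    · refine le_iff_Fo.2 fun v hv => Fo_reg fun v' hv' => ?_
      obtain ⟨hv1, hv2⟩ := Fo_inf.1 hv
      obtain ⟨w, t, t', h1, h2, h3, h4, h5, d, hdD, hdN, hd⟩ := hkey _ hDq hDd v' (hv1.mono hv')
      refine ⟨w, h1, ?_⟩
      have hwq : Fo w (val L Q η q) := (hv2.mono hv').mono h1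
      have htq : Fo t (val L Q η q) := by
        rcases hdD with hdD | hdD
        · exact le_iff_Fo.1 hdD t hd
        · exfalso
          have : Fo w (val L Q η d ⊓ val L Q η q) := Fo_inf.2 ⟨hd.mono h2, hwq⟩
          rw [hdD] at this
          exact not_Fo_bot w this
      have h6 := (hrel t t' q q' ((hpair _ _).2 h4) hq
        (by rw [hpair' _ h4.1 _ h4.2, h5.1, h5.2]) hqq).1 htq
      exact h6.mono h3
    · refine le_iff_Fo.2 fun v hv => Fo_reg fun v' hv' => ?_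
      obtain ⟨hv1, hv2⟩ := Fo_inf.1 hv
      obtain ⟨w, t, t', h1, h2, h3, h4, h5, d, hdD, hdN, hd⟩ := hkey _ hDq hDd v' (hv1.mono hv')
      refine ⟨w, h1, ?_⟩
      have hwq : Fo w (val L Q η q') := (hv2.mono hv').mono h1
      rcases hdD with hdD | hdD
      · exact le_iff_Fo.1 hdD w (hd.mono h2)
      · exfalso
        have h6 : Fo t (val L Q η q)ᶜ := by
          refine Fo_compl.2 fun y hy hyq => ?_
          have : Fo y (val L Q η d ⊓ val L Q η q) := Fo_inf.2 ⟨hd.mono hy, hyq⟩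
          rw [hdD] at this
          exact not_Fo_bot y this
        have h7 := (hrel' t t' q q' ((hpair _ _).2 h4) hq
          (by rw [hpair' _ h4.1 _ h4.2, h5.1, h5.2]) hqq).1 h6
        exact Fo_compl.1 h7 w h3 hwq

end Pool.Agent.MMA1
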