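import Pool.Agent.MMI.MFlt

/-! # The choice of two isomorphic models -/

set_option autoImplicit false

namespace Pool.Agent.MMA1

open Classical Cardinal

/-- terms with two constants -/
inductive PickTm : Type
  | v (b : Bool)
  | op (n : ℕ) (s t : PickTm)

/-- the code of a term -/
def PickTm.enc : PickTm → ℕ
  | .v b => Nat.pair 0 (if b then 1 else 0)
  | .op n s t => Nat.pair 1 (Nat.pair n (Nat.pair s.enc t.enc))

theorem PickTm.enc_inj : ∀ s t : PickTm, s.enc = t.enc → s = t := by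
  intro s
  induction s with
  | v b =>
    intro t h
    cases t with
    | v b' =>
      simp only [PickTm.enc, Nat.pair_eq_pair] at h
      cases b <;> cases b' <;> simp_all
    | op n s' t' =>
      simp only [PickTm.enc, Nat.pair_eq_pair] at h
      exact absurd h.1 (by norm_num)
  | op n s1 s2 ih1 ih2 =>
    intro t h
    cases t with
    | v b' =>
      simp only [PickTm.enc, Nat.pair_eq_pair] at h
      exact absurd h.1 (by norm_num)
    | op n' s' t' =>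
      simp only [PickTm.enc, Nat.pair_eq_pair] at h
      obtain ⟨-, rfl, h1, h2⟩ := h
      rw [ih1 _ h1, ih2 _ h2]

instance : Countable PickTm := ⟨⟨PickTm.enc, fun s t h => PickTm.enc_inj s t h⟩⟩

/-- the value of a term -/
def PickTm.ev (φ : ℕ → Un → Un → Un) (a : K → Un) (j : K) : PickTm → Un
  | .v b => if b then a j else Un.kk j
  | .op n s t => φ n (s.ev φ a j) (t.ev φ a j)

/-- the countable ordinal coded by an element -/
noncomputable def Pickw (x : Un) : Option W := if h : ∃ α, x = Un.ww α then some h.choose else none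

/-- the ordinal below `ρ` coded by an element -/
noncomputable def Pickk (ρ : K) (x : Un) : Option (Set.Iio ρ) :=
  if h : ∃ ζ : Set.Iio ρ, x = Un.kk ζ.1 then some h.choose else none

theorem Pickw_eq {x : Un} {α : W} : Pickw x = some α ↔ x = Un.ww α := by
  unfold Pickw
  constructor
  · intro h
    split_ifs at h with h1
    rw [← Option.some.inj h]
    exact h1.choose_spec
  · intro h
    have h1 : ∃ α, x = Un.ww α := ⟨α, h⟩
    rw [dif_pos h1]
    congr 1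
    have h2 := h1.choose_spec
    have h3 : Un.ww h1.choose = Un.ww α := h2.symm.trans h
    injection h3 with h4
    injection h4

theorem Pickk_eq {ρ : K} {x : Un} {ζ : Set.Iio ρ} : Pickk ρ x = some ζ ↔ x = Un.kk ζ.1 := by
  unfold Pickk
  constructor
  · intro h
    split_ifs at h with h1
    rw [← Option.some.inj h]
    exact h1.choose_spec
  · intro h
    have h1 : ∃ ζ : Set.Iio ρ, x = Un.kk ζ.1 := ⟨ζ, h⟩
    rw [dif_pos h1]
    congr 1
    have h2 := h1.choose_spec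
    have h3 : Un.kk h1.choose.1 = Un.kk ζ.1 := h2.symm.trans h
    injection h3 with h4
    injection h4 with h5
    exact Subtype.ext h5

/-- types together with traces -/
abbrev PickTy (ρ : K) : Type :=
  Set (PickTm × PickTm) × (PickTm → Option W) × (PickTm → Option (Set.Iio ρ))

/-- the type of a point together with its trace -/
noncomputable def Pickty (φ : ℕ → Un → Un → Un) (a : K → Un) (ρ : K) (j : K) : PickTy ρ :=
  ({z | z.1.ev φ a j = z.2.ev φ a j}, fun t => Pickw (t.ev φ a j), fun t => Pickk ρ (t.ev φ a j))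

theorem Pick_card {α : Type} (h : #α ≤ 2 ^ ℵ₀) : #(PickTm → Option α) ≤ 2 ^ ℵ₀ := by
  rw [← Cardinal.power_def, Cardinal.mk_option]
  have h1 : #PickTm ≤ ℵ₀ := Cardinal.mk_le_aleph0_iff.2 inferInstance
  have h0 : (ℵ₀ : Cardinal.{0}) ≤ 2 ^ (ℵ₀ : Cardinal.{0}) := (cantor ℵ₀).le
  have h2 : #α + 1 ≤ 2 ^ (ℵ₀ : Cardinal.{0}) := Cardinal.add_le_of_le h0 h (one_le_aleph0.trans h0)
  calc (#α + 1) ^ #PickTm ≤ (2 ^ (ℵ₀ : Cardinal.{0})) ^ #PickTm := Cardinal.power_le_power_right h2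
    _ ≤ (2 ^ (ℵ₀ : Cardinal.{0})) ^ (ℵ₀ : Cardinal.{0}) :=
      Cardinal.power_le_power_left (by
        have : (0 : Cardinal.{0}) < 2 ^ (ℵ₀ : Cardinal.{0}) := aleph0_pos.trans_le h0
        exact this.ne') h1
    _ = 2 ^ (ℵ₀ : Cardinal.{0}) := by rw [← Cardinal.power_mul, Cardinal.aleph0_mul_aleph0]

theorem Pick_cardTy (ρ : K) : #(PickTy ρ × PickTm) ≤ 2 ^ ℵ₀ := by
  have h0 : (ℵ₀ : Cardinal.{0}) ≤ 2 ^ (ℵ₀ : Cardinal.{0}) := (cantor ℵ₀).le
  have h1 : #PickTm ≤ ℵ₀ := Cardinal.mk_le_aleph0_iff.2 inferInstance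
  have h2 : #(Set (PickTm × PickTm)) ≤ 2 ^ (ℵ₀ : Cardinal.{0}) := by
    rw [Cardinal.mk_set]
    refine Cardinal.power_le_power_left two_ne_zero ?_
    exact Cardinal.mk_le_aleph0_iff.2 inferInstance
  have h3 := Pick_card mk_W_le
  have h4 := Pick_card (mk_Iio_K ρ)
  simp only [Cardinal.mk_prod, Cardinal.lift_id]
  have hmul : ∀ x y : Cardinal.{0}, x ≤ 2 ^ (ℵ₀ : Cardinal.{0}) → y ≤ 2 ^ (ℵ₀ : Cardinal.{0}) →
      x * y ≤ 2 ^ (ℵ₀ : Cardinal.{0}) := fun x y hx hy =>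
    (mul_le_mul' hx hy).trans (by rw [Cardinal.mul_eq_self h0])
  exact hmul _ _ (hmul _ _ h2 (hmul _ _ h3 h4)) (h1.trans h0)

/-- a bound for the ordinals in the models given by the chosen points -/
theorem Pick_bound (φ : ℕ → Un → Un → Un) (a : K → Un) (ρ : K) :
    ∃ μ : K, ∀ j', ∃ j, Pickty φ a ρ j = Pickty φ a ρ j' ∧
      ∀ t : PickTm, ∀ ζ, t.ev φ a j = Un.kk ζ → ζ < μ := by
  set J : PickTy ρ → K := fun x => if h : ∃ j, Pickty φ a ρ j = x then h.choose else K0 with hJ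
  obtain ⟨μ, hμ⟩ := K_bdd_range (Pick_cardTy ρ)
    (fun z => if h : ∃ ζ, z.2.ev φ a (J z.1) = Un.kk ζ then h.choose else K0)
  refine ⟨μ, fun j' => ⟨J (Pickty φ a ρ j'), ?_, ?_⟩⟩
  · have h : ∃ j, Pickty φ a ρ j = Pickty φ a ρ j' := ⟨j', rfl⟩
    simp only [hJ]
    rw [dif_pos h]
    exact h.choose_spec
  · intro t ζ ht
    have h1 := hμ (Pickty φ a ρ j', t)
    have h : ∃ ζ, t.ev φ a (J (Pickty φ a ρ j')) = Un.kk ζ := ⟨ζ, ht⟩
    simp only at h1
    rw [dif_pos h] at h1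
    have h2 : Un.kk ζ = Un.kk h.choose := ht.symm.trans h.choose_spec
    injection h2 with h3
    injection h3 with h4
    rw [h4]
    exact h1

/-- an increasing sequence of length `W` in `K` closed under a function -/
theorem Pick_seq (Φ : K → K) : ∃ (θ : W → K) (θ' : K),
    (∀ i i', i < i' → Φ (θ i) < θ i' ∧ θ i < θ i') ∧
    (∀ i, θ i < θ') ∧ ∀ ζ < θ', ∃ i, ζ ≤ θ i := by
  have h1 : ∀ (i : W) (f : (i' : W) → i' < i → K), ∃ μ, ∀ i' (h : i' < i),
      Φ (f i' h) < μ ∧ f i' h < μ := by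
    intro i f
    have hc : (Set.range fun x : Set.Iio i => max (Φ (f x.1 x.2)) (f x.1 x.2)).Countable := by
      have : Countable (Set.Iio i) := (Iio_W_countable i).to_subtype
      exact Set.countable_range _
    obtain ⟨μ, hμ⟩ := K_bdd_countable hc
    refine ⟨μ, fun i' h => ?_⟩
    have h2 := hμ _ ⟨⟨i', h⟩, rfl⟩
    exact max_lt_iff.1 h2
  choose F hF using h1
  set θ : W → K := (wellFounded_lt (α := W)).fix F with hθ
  have hθ1 : ∀ i, θ i = F i fun i' _ => θ i' := fun i => by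
    rw [hθ, WellFounded.fix_eq]
  have hne : {μ : K | ∀ i, θ i < μ}.Nonempty := by
    obtain ⟨μ, hμ⟩ := K_bdd_range mk_W_le θ
    exact ⟨μ, hμ⟩
  refine ⟨θ, (wellFounded_lt (α := K)).min _ hne, ?_, (wellFounded_lt (α := K)).min_mem _ hne, ?_⟩
  · intro i i' hi
    rw [hθ1 i']
    exact hF i' (fun i _ => θ i) i hi
  · intro ζ hζ
    by_contra hcon
    push Not at hcon
    exact (wellFounded_lt (α := K)).not_lt_min {μ : K | ∀ i, θ i < μ} hcon hζ

/-- two isomorphic countable models which agree below `ρ` and such that the second one lies above the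
first one from `ρ` on -/
theorem pick {P : Set Un × (Un → Un) → Prop} (hP : ∀ᶠ z in MF, P z) (a : K → Un) :
    ∃ j j' : K, j ≠ j' ∧ ∃ z, P z ∧ a j ∈ z.1 ∧ z.2 (a j) = a j' ∧ FixW z ∧
      ∃ ρ : K, Fix z ρ ∧ ∀ ζ ζ' ζ'' : K, Un.kk ζ ∈ z.1 → ρ ≤ ζ → Un.kk ζ' ∈ z.1 → ρ ≤ ζ' →
        z.2 (Un.kk ζ') = Un.kk ζ'' → ζ < ζ'' := by
  obtain ⟨O, hO, hP⟩ := MF_iff.1 hP
  have : Nonempty (Un → Un → Un) := ⟨fun x _ => x⟩
  obtain ⟨φ, hφ⟩ := Set.countable_iff_exists_subset_range.1 hO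
  choose Φ hΦ using Pick_bound φ a
  obtain ⟨θ, θ', hθ1, hθ2, hθ3⟩ := Pick_seq Φ
  -- the level
  have h1 : ∀ t : PickTm, ∃ i : W, ∀ ζ, t.ev φ a θ' = Un.kk ζ → ζ < θ' → ζ ≤ θ i := by
    intro t
    by_cases h : ∃ ζ, t.ev φ a θ' = Un.kk ζ ∧ ζ < θ'
    · obtain ⟨ζ, hζ1, hζ2⟩ := h
      obtain ⟨i, hi⟩ := hθ3 ζ hζ2
      refine ⟨i, fun ζ' h' _ => ?_⟩
      rw [hζ1] at h'
      injection h' with h3
      injection h3 with h4
      rw [← h4]
      exact hi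
    · refine ⟨Classical.arbitrary W, fun ζ h2 h3 => absurd ⟨ζ, h2, h3⟩ h⟩
  choose i0 hi0 using h1
  obtain ⟨i, hi⟩ := W_bdd (Set.countable_range i0)
  have hi1 : ∀ t : PickTm, ∀ ζ, t.ev φ a θ' = Un.kk ζ → ζ < θ' → ζ < θ i :=
    fun t ζ h2 h3 => (hi0 t ζ h2 h3).trans_lt (hθ1 _ _ (hi _ ⟨t, rfl⟩)).2
  obtain ⟨j, hj1, hj2⟩ := hΦ (θ i) θ'
  obtain ⟨i', hi'⟩ := exists_gt i
  have hj3 : ∀ t : PickTm, ∀ ζ, t.ev φ a j = Un.kk ζ → ζ < θ' :=
    fun t ζ h => ((hj2 t ζ h).trans (hθ1 i i' hi').1).trans (hθ2 i')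
  have hjj : j < θ' := hj3 (PickTm.v false) j rfl
  -- the isomorphism
  have e1 : ∀ s t : PickTm, s.ev φ a j = t.ev φ a j ↔ s.ev φ a θ' = t.ev φ a θ' := by
    intro s t
    have h := congrArg (fun x => (s, t) ∈ x.1) hj1
    simpa [Pickty] using h
  have e2 : ∀ (t : PickTm) (α : W), t.ev φ a j = Un.ww α → t.ev φ a θ' = Un.ww α := by
    intro t α h
    have h2 : Pickw (t.ev φ a j) = Pickw (t.ev φ a θ') := congrArg (fun x => x.2.1 t) hj1
    rw [← Pickw_eq] at h ⊢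
    rw [← h2, h]
  have e3 : ∀ (t : PickTm) (ζ : K), ζ < θ i →
      (t.ev φ a j = Un.kk ζ ↔ t.ev φ a θ' = Un.kk ζ) := by
    intro t ζ hζ
    have h2 : Pickk (θ i) (t.ev φ a j) = Pickk (θ i) (t.ev φ a θ') :=
      congrArg (fun x => x.2.2 t) hj1
    have h3 := Pickk_eq (ρ := θ i) (x := t.ev φ a j) (ζ := ⟨ζ, hζ⟩)
    have h4 := Pickk_eq (ρ := θ i) (x := t.ev φ a θ') (ζ := ⟨ζ, hζ⟩)
    rw [← h3, ← h4, h2]
  set h : Un → Un := fun x => if hx : ∃ t : PickTm, t.ev φ a j = x then hx.choose.ev φ a θ' else x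
    with hh
  have hev : ∀ t : PickTm, h (t.ev φ a j) = t.ev φ a θ' := by
    intro t
    have hx : ∃ s : PickTm, s.ev φ a j = t.ev φ a j := ⟨t, rfl⟩
    simp only [hh]
    rw [dif_pos hx]
    exact (e1 _ _).1 hx.choose_spec
  have hCl : Cl O (Set.range fun t : PickTm => t.ev φ a j) := by
    refine ⟨Set.countable_range _, ⟨_, PickTm.v true, rfl⟩, ?_⟩
    rintro ψ hψ _ ⟨s, rfl⟩ _ ⟨t, rfl⟩
    obtain ⟨n, rfl⟩ := hφ hψ
    exact ⟨PickTm.op n s t, rfl⟩
  have hHI : HI O (Set.range fun t : PickTm => t.ev φ a j) h := by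
    constructor
    · rintro _ ⟨s, rfl⟩ _ ⟨t, rfl⟩ hst
      simp only at hst ⊢
      rw [hev, hev] at hst
      exact (e1 _ _).2 hst
    · rintro ψ hψ _ ⟨s, rfl⟩ _ ⟨t, rfl⟩
      obtain ⟨n, rfl⟩ := hφ hψ
      simp only
      rw [hev, hev]
      exact hev (PickTm.op n s t)
  refine ⟨j, θ', hjj.ne, (_, h), hP _ h hCl hHI, ⟨PickTm.v true, rfl⟩, hev (PickTm.v true), ?_,
    θ i, ?_, ?_⟩
  · rintro α ⟨t, ht⟩
    simp only at ht ⊢
    rw [← ht, hev, e2 t α ht, ht]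
  · rintro ζ hζ ⟨t, ht⟩
    simp only at ht ⊢
    rw [← ht, hev, (e3 t ζ hζ).1 ht, ht]
  · rintro ζ ζ' ζ'' ⟨s, hs⟩ - ⟨t, ht⟩ hζ' hh'
    simp only at hs ht hh'
    rw [← ht, hev] at hh'
    refine (hj3 s ζ hs).trans_le ?_
    by_contra hcon
    have h5 := hi1 t ζ'' hh' (not_le.1 hcon)
    have h6 := (e3 t ζ'' h5).2 hh'
    rw [ht] at h6
    injection h6 with h7
    injection h7 with h8
    rw [h8] at hζ'
    exact absurd h5 (not_lt.2 hζ')

/-- with a parameter `ξ` everything below `ξ` is fixed -/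
theorem pick_below {P : Set Un × (Un → Un) → Prop} (hP : ∀ᶠ z in MF, P z) (ξ : K) (a : K → Un) :
    ∃ j j' : K, j ≠ j' ∧ ∃ z, P z ∧ a j ∈ z.1 ∧ z.2 (a j) = a j' ∧ FixW z ∧ Fix z ξ := by
  obtain ⟨j, j', hj, z, ⟨h1, h2⟩, h3, h4, h5, ρ, h6, h7⟩ := pick (hP.and (MF_const (Un.kk ξ))) a
  refine ⟨j, j', hj, z, h1, h3, h4, h5, ?_⟩
  have h8 : ξ < ρ := by
    by_contra hcon
    have hcon' := not_lt.1 hcon
    exact lt_irrefl _ (h7 ξ ξ ξ h2.1 hcon' h2.1 hcon' h2.2)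
  exact fun ζ hζ => h6 ζ (hζ.trans h8)

end Pool.Agent.MMA1
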