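import Pool.Agent.MMI.PIAll
import Pool.Agent.MMI.Pick

/-! # Antichains of the iteration have cardinality at most `2 ^ ℵ₀` -/

set_option autoImplicit false

namespace Pool.Agent.MMA1

open Classical Cardinal

variable {S : Stp}

/-- criterion for the antichain condition -/
theorem KCC_of {X : Type} {L : Pre X} (h : ∀ a : K → X, Function.Injective a →
    ∃ j j' : K, j ≠ j' ∧ L.Comp (a j) (a j')) : KCC L := by
  intro A hA
  by_contra hcon
  have h1 : #K ≤ #A := by
    rw [mk_K]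
    exact Order.succ_le_of_lt (not_le.1 hcon)
  obtain ⟨f⟩ := h1
  obtain ⟨j, j', hj, hc⟩ := h (fun j => (f j : X)) fun j j' hjj => f.injective (Subtype.ext hjj)
  refine hA _ (f j).2 _ (f j').2 ?_ hc
  intro heq
  exact hj (f.injective (Subtype.ext heq))

theorem kcc_GenEx {L : Pre Cd} {ξ : K} (h : GenEx L ξ) : KCC L := by
  refine KCC_of fun a _ => ?_
  obtain ⟨j, j', hj, z, h1, h2, h3, h4, h5⟩ := pick_below h ξ (fun j => Un.cd (a j))
  obtain ⟨c, -, hc1, hc2⟩ := h1 h4 h5 _ _ h2 h3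
  exact ⟨j, j', hj, c, hc1, hc2⟩

/-- the two step iteration with a poset on `W` -/
theorem kcc_pos {L : Pre Cd} (h : KCC L) (R : W → W → BA L) (hR : IsBPre R) :
    KCC (TS (posB R hR)) := by
  intro A hA
  let Aw : W → Set Cd := fun w => {x | ∃ z ∈ A, z.1 = (x, w)}
  have hw : ∀ w, #(Aw w) ≤ 2 ^ ℵ₀ := by
    intro w
    refine h (Aw w) ?_
    rintro x ⟨z, hz, hzx⟩ y ⟨z', hz', hzy⟩ hxy ⟨c, hc1, hc2⟩
    refine hA z hz z' hz' (fun heq => hxy ?_) ?_
    · rw [heq] at hzx
      rw [hzx] at hzy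
      exact congrArg Prod.fst hzy
    · refine ⟨⟨(c, w), Fo_top c⟩, ?_, ?_⟩
      · refine ⟨?_, ?_⟩
        · rw [hzx]; exact hc1
        · rw [hzx]
          change Fo c (R w w)
          rw [hR.1]; exact Fo_top c
      · refine ⟨?_, ?_⟩
        · rw [hzy]; exact hc2
        · rw [hzy]
          change Fo c (R w w)
          rw [hR.1]; exact Fo_top c
  have h1 : #A ≤ #(Σ w : W, Aw w) := by
    refine Cardinal.mk_le_of_injective
      (f := fun z : A => (⟨z.1.1.2, z.1.1.1, z.1, z.2, rfl⟩ : Σ w : W, Aw w)) ?_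
    intro z z' hzz
    have h2 : z.1.1.2 = z'.1.1.2 := congrArg Sigma.fst hzz
    have h3 : z.1.1.1 = z'.1.1.1 := by
      have : ∀ u v : (Σ w : W, Aw w), u = v → u.2.1 = v.2.1 := by rintro u v rfl; rfl
      exact this _ _ hzz
    exact Subtype.ext (Subtype.ext (Prod.ext h3 h2))
  refine h1.trans ?_
  rw [Cardinal.mk_sigma]
  refine (Cardinal.sum_le_sum _ _ hw).trans ?_
  rw [Cardinal.sum_const, Cardinal.lift_id, Cardinal.lift_id]
  refine (mul_le_mul' mk_W_le le_rfl).trans ?_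
  rw [mul_eq_self (cantor ℵ₀).le]

end Pool.Agent.MMA1
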