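import Pool.Agent.MMI.KillSeq
import Pool.Agent.MMI.Kcc

/-! # The amalgamation property and the antichain condition of the killing forcing -/

set_option autoImplicit false

namespace Pool.Agent.MMA1

open Classical

/-- composition of the order with a lower bound -/
theorem GokKill.r_trans {L : Pre Cd} {R : W → W → BA L} {q : Cd} {u v w : (killB R).Y}
    (h1 : Fo q ((killB R).r u v)) (h2 : Fo q ((killB R).r v w)) : Fo q ((killB R).r u w) :=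
  le_iff_Fo.1 ((killB R).r_trans u v w) q (Fo_inf.2 ⟨h1, h2⟩)

theorem GOK_kill (L : Pre Cd) (η : K) (hL : Loc L η) (R : W → W → BA L) (hF : FullQ (killB R)) :
    ∀ᶠ z in MF, FixW z → GOK L (killB R) η cY z := by
  have hca : Function.Injective (fun a : Set Cd × (killB R).Y => Un.pair (Un.st a.1) (cY a.2)) := by
    rintro ⟨a, b⟩ ⟨a', b'⟩ h
    simp only [Un.pair.injEq] at h
    rw [st_inj h.1, cY_inj h.2]
  filter_upwards [kill_seq L R, MF_type Un.cd, MF_type (cY (R := R)), MF_pair, MF_ctb,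
    MF_const (Un.st Set.univ), MF_rel2 Un.cd cd_inj (cY (R := R)) cY_inj
      (fun x y => Fo x ((killB R).m y)),
    Gen_choose L (fun a : Set Cd × (killB R).Y => Un.pair (Un.st a.1) (cY a.2)) hca
      (fun b : Cd × (killB R).Y => Un.pair (Un.cd b.1) (cY b.2))
      (fun a x b => (b.1 ∈ a.1 ∧ (∃ h : Fo x ((killB R).m b.2),
        Fo (⟨(x, b.2), h⟩ : TSC (killB R)) (val L (killB R) η b.1)) ∧
          Fo x ((killB R).r b.2 a.2)) ∨ Fo x ((killB R).m a.2)ᶜ)]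
    with z h1 h2 h3 h4 h5 h6 h7 h8 hW c hc s s' hs hss hcs
  have hcs' : L.le c s'.1.1 := (hc.2 _ _ hs.1 hss.1 c (L.refl c)).1 hcs
  -- enumeration of the dense sets of the model
  have hctb : {D : Set Cd | Un.st D ∈ z.1 ∧ (nxt L (killB R) η).Dense D}.Countable := by
    refine (h5.1.preimage_of_injOn (f := Un.st) (fun a _ b _ h => st_inj h)).mono ?_
    rintro D ⟨hD, -⟩
    exact hD
  have hne : {D : Set Cd | Un.st D ∈ z.1 ∧ (nxt L (killB R) η).Dense D}.Nonempty :=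
    ⟨Set.univ, h6.1, fun x => ⟨x, trivial, (nxt L (killB R) η).refl x⟩⟩
  obtain ⟨f, hf⟩ := hctb.exists_eq_range hne
  have hfn : ∀ n, Un.st (f n) ∈ z.1 ∧ (nxt L (killB R) η).Dense (f n) := by
    intro n
    have h9 : f n ∈ Set.range f := ⟨n, rfl⟩
    rw [← hf] at h9
    exact h9
  obtain ⟨w, hw1, hw2, hw3, hw4⟩ := h1 hW c hc
    (fun n => {t | ∃ d ∈ f n, Un.cd d ∈ z.1 ∧ Fo t (val L (killB R) η d)}) (by
      intro n y hy q hq hqm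
      have hpre : ∀ q, ∃ x, ∃ b : Cd × (killB R).Y, L.le x q ∧ ((b.1 ∈ f n ∧
          (∃ h : Fo x ((killB R).m b.2),
          Fo (⟨(x, b.2), h⟩ : TSC (killB R)) (val L (killB R) η b.1)) ∧
            Fo x ((killB R).r b.2 y)) ∨ Fo x ((killB R).m y)ᶜ) := by
        intro q
        by_cases hq : Fo q ((killB R).m y)ᶜ
        · exact ⟨q, (q, y), L.refl q, Or.inr hq⟩
        · rw [Fo_compl] at hq
          push Not at hq
          obtain ⟨q1, hq1, hq2⟩ := hq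
          obtain ⟨p, -, hp⟩ := exists_val_eq hL hF (⟨(q1, y), hq2⟩ : TSC (killB R))
          obtain ⟨d, hd, hdp⟩ := (hfn n).2 p
          obtain ⟨z0, hz0⟩ := ne_bot_iff.1 (val_ne_bot L (killB R) η d)
          have h9 : Fo z0 (down (TS (killB R)) ⟨(q1, y), hq2⟩) := by
            rw [← hp]; exact le_iff_Fo.1 hdp.2 _ hz0
          obtain ⟨v, hv1, hv2⟩ := Fo_down.1 h9 z0 ((TS (killB R)).refl z0)
          exact ⟨v.1.1, (d, v.1.2), L.trans _ _ _ hv2.1 hq1, Or.inl ⟨hd, ⟨v.2, hz0.mono hv1⟩, hv2.2⟩⟩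
      obtain ⟨q', x, b, hq'1, hq'2, hx, hb, hP, -⟩ := h8 c hc.1 (f n, y)
        ((h4 _ _).2 ⟨(hfn n).1, hy⟩) hpre q hq
      have hP1 := hP.resolve_right fun h13 => Fo_compl.1 h13 q' hq'2 (hqm.mono hq'1)
      obtain ⟨hb1, ⟨hxm, hval⟩, hr⟩ := hP1
      have hbN := (h4 _ _).1 hb
      exact ⟨⟨(x, b.2), hxm⟩, ⟨b.1, hb1, hbN.1, hval⟩, ⟨hx, hbN.2⟩, ⟨q', hq'2, hq'1⟩, hr⟩)
    s.1.2 s'.1.2 hs.2 hss.2 (Fo.mono hcs s.2)
  refine ⟨down (TS (killB R)) ⟨(c, w), hw1⟩, prj_down _, down_mono ⟨hcs, hw2⟩,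
    down_mono ⟨hcs', hw3⟩, ?_⟩
  intro D hDN hDd v hv
  obtain ⟨n, rfl⟩ : D ∈ Set.range f := by rw [← hf]; exact ⟨hDN, hDd⟩
  obtain ⟨v', hv'1, hv'2⟩ := Fo_down.1 hv v ((TS (killB R)).refl v)
  obtain ⟨q', t, hq'1, ⟨d, hd, hdN, hdt⟩, htN, hq'2, hrt, hrt'⟩ := hw4 n v'.1.1 hv'2.1
  have hq'c : L.le q' c := L.trans _ _ _ hq'1 hv'2.1
  obtain ⟨x', hx'⟩ := h2 t.1.1 htN.1
  obtain ⟨y', hy'⟩ := h3 t.1.2 htN.2
  have hm' : Fo x' ((killB R).m y') := (h7 t.1.1 x' t.1.2 y' htN.1 htN.2 hx' hy').1 t.2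
  have hvw : Fo q' ((killB R).r v'.1.2 w) := Fo.mono hq'1 hv'2.2
  refine ⟨v'.lift q' hq'1, t, ⟨(x', y'), hm'⟩, (TS (killB R)).trans _ _ _ (v'.lift_le q' hq'1) hv'1,
    ⟨hq'2, GokKill.r_trans hvw hrt⟩,
    ⟨(hc.2 t.1.1 x' htN.1 hx' q' hq'c).1 hq'2, GokKill.r_trans hvw (hrt' y' hy')⟩,
    htN, ⟨hx', hy'⟩, d, hd, hdN, hdt⟩

theorem kcc_kill {L : Pre Cd} {ξ : K} (h : GenEx L ξ) (R : W → W → BA L) : KCC (TS (killB R)) := by
  refine KCC_of fun a _ => ?_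
  have hP : ∀ᶠ z in MF, (FixW z → Fix z ξ → ∀ p p', Un.cd p ∈ z.1 → z.2 (Un.cd p) = Un.cd p' →
      ∃ c, GenH L z.1 z.2 c ∧ L.le c p ∧ L.le c p') ∧
      (∀ x y, Un.pair x y ∈ z.1 ↔ x ∈ z.1 ∧ y ∈ z.1) ∧
      (∀ x ∈ z.1, ∀ y ∈ z.1, z.2 (Un.pair x y) = Un.pair (z.2 x) (z.2 y)) ∧
      (FixW z → ∀ c, GenH L z.1 z.2 c → ∀ T : ℕ → Set (TSC (killB R)),
      (∀ n y, cY y ∈ z.1 → ∀ q, L.le q c → Fo q ((killB R).m y) →
        ∃ t ∈ T n, InT cY z.1 t ∧ L.Comp t.1.1 q ∧ Fo t.1.1 ((killB R).r t.1.2 y)) →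
      ∀ y0 y0' : (killB R).Y, cY y0 ∈ z.1 → z.2 (cY y0) = cY y0' → Fo c ((killB R).m y0) →
      ∃ w : (killB R).Y, Fo c ((killB R).m w) ∧ Fo c ((killB R).r w y0) ∧ Fo c ((killB R).r w y0') ∧
        ∀ n q, L.le q c → ∃ q' t, L.le q' q ∧ t ∈ T n ∧ InT cY z.1 t ∧ L.le q' t.1.1 ∧
          Fo q' ((killB R).r w t.1.2) ∧
          ∀ y', z.2 (cY t.1.2) = cY y' → Fo q' ((killB R).r w y')) ∧
      (∀ c, Gen L z.1 c → ∀ a : (killB R).Y, cY a ∈ z.1 → ∀ q, L.le q c →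
        Fo q (⨆ _ : Unit, (killB R).m a) →
      ∃ q' x b, L.le q' q ∧ L.le q' x ∧ Un.cd x ∈ z.1 ∧ (fun _ : Unit => Un.kk K0) b ∈ z.1 ∧
        Fo x ((killB R).m a) ∧
        ∀ a', z.2 (cY a) = cY a' → ∃ x' b', z.2 (Un.cd x) = Un.cd x' ∧
          z.2 ((fun _ : Unit => Un.kk K0) b) = (fun _ : Unit => Un.kk K0) b' ∧
          Fo x' ((killB R).m a')) := by
    filter_upwards [h, MF_pair, MF_pair', kill_seq L R, Gen_iSup L (cY (R := R)) cY_inj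
      (fun _ : Unit => Un.kk K0) (fun y _ => (killB R).m y)] with z h1 h2 h3 h4 h5
    exact ⟨h1, h2, h3, h4, h5⟩
  obtain ⟨j, j', hjj, z, ⟨h1, h2, h3, h4, h5⟩, hj, hjz, hW, hξ⟩ := pick_below hP ξ
    (fun j => Un.pair (Un.cd (a j).1.1) (cY (a j).1.2))
  obtain ⟨hj1, hj2⟩ := (h2 _ _).1 hj
  have h6 := h3 _ hj1 _ hj2
  have h7 : Un.pair (z.2 (Un.cd (a j).1.1)) (z.2 (cY (a j).1.2)) =
      Un.pair (Un.cd (a j').1.1) (cY (a j').1.2) := h6.symm.trans hjz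
  rw [Un.pair.injEq] at h7
  obtain ⟨c, hc, hc1, hc2⟩ := h1 hW hξ _ _ hj1 h7.1
  obtain ⟨w, hw1, hw2, hw3, -⟩ := h4 hW c hc (fun _ => Set.univ) (by
    intro n y hy q hq hqm
    obtain ⟨q', x, b, hq'1, hq'2, hx, hb, hm, -⟩ := h5 c hc.1 y hy q hq (by
      rw [iSup_unique]; exact hqm)
    refine ⟨⟨(x, y), hm⟩, trivial, ⟨hx, hy⟩, ⟨q', hq'2, hq'1⟩, ?_⟩
    change Fo x ((killB R).r y y)
    rw [(killB R).r_refl]; exact Fo_top _)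
    (a j).1.2 (a j').1.2 hj2 h7.2 (Fo.mono hc1 (a j).2)
  exact ⟨j, j', hjj, ⟨(c, w), hw1⟩, ⟨hc1, hw2⟩, ⟨hc2, hw3⟩⟩

end Pool.Agent.MMA1
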