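import Pool.Agent.MMI.Gok

/-! # The amalgamation property of proper posets on `W` -/

set_option autoImplicit false

namespace Pool.Agent.MMA1

open Classical

/-- a condition of the two step iteration with a poset on `W` -/
def GokPos.tt {L : Pre Cd} {R : W → W → BA L} {hR : IsBPre R} (x : Cd) (j : W) :
    TSC (posB R hR) := ⟨(x, j), Fo_top x⟩

/-- the name of the set of the second coordinates of the conditions below values of elements of `D` -/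
noncomputable def GokPos.dst (L : Pre Cd) (η : K) (R : W → W → BA L) (hR : IsBPre R) (D : Set Cd) :
    W → BA L :=
  fun j => toB L {x | ∃ d ∈ D, Fo (GokPos.tt (R := R) (hR := hR) x j) (val L (posB R hR) η d)}

theorem GokPos.tt_le {L : Pre Cd} {R : W → W → BA L} {hR : IsBPre R} {x x' : Cd} {j : W}
    (h : L.le x' x) : (TS (posB R hR)).le (GokPos.tt x' j) (GokPos.tt x j) :=
  ⟨h, (by
    change Fo x' (R j j)
    rw [hR.1]; exact Fo_top _)⟩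

/-- the set of good conditions -/
def GokPos.SS {L : Pre Cd} (R : W → W → BA L) (hR : IsBPre R) (N : Set Un) (c : Cd) (y0 : W) :
    Set (TSC (posB R hR)) :=
  {z | L.le z.1.1 c ∧ Fo z.1.1 (R z.1.2 y0) ∧
    ∀ D : W → BA L, Un.wd (codeD D) ∈ N → denB R D = ⊤ → Fo z.1.1 (PD R D (dl N) z.1.2)}

theorem GokPos.PD_mono {L : Pre Cd} {R : W → W → BA L} (hR : IsBPre R) (D : W → BA L) (s : Set W)
    {q q' : W} : PD R D s q ⊓ R q' q ≤ PD R D s q' := by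
  unfold PD
  refine le_iInf fun t => ?_
  rw [le_himp_iff]
  have h1 : (⨅ q', R q' q ⇨ ⨆ j, ⨆ _ : j ∈ s, ⨆ t, R t q' ⊓ R t j ⊓ D j) ≤
      R t q ⇨ ⨆ j, ⨆ _ : j ∈ s, ⨆ t', R t' t ⊓ R t' j ⊓ D j := iInf_le _ t
  rw [le_himp_iff] at h1
  refine le_trans (le_inf (inf_le_left.trans inf_le_left) ?_) h1
  refine le_trans ?_ (hR.2 t q' q)
  exact le_inf inf_le_right (inf_le_left.trans inf_le_right)

theorem GokPos.SS_mono {L : Pre Cd} {R : W → W → BA L} {hR : IsBPre R} {N : Set Un} {c : Cd} {y0 : W}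
    {z w : TSC (posB R hR)} (hw : (TS (posB R hR)).le w z) (hz : z ∈ GokPos.SS R hR N c y0) :
    w ∈ GokPos.SS R hR N c y0 := by
  obtain ⟨h1, h2, h3⟩ := hz
  have hr : Fo w.1.1 (R w.1.2 z.1.2) := hw.2
  refine ⟨L.trans _ _ _ hw.1 h1, ?_, fun D hD hd => ?_⟩
  · exact le_iff_Fo.1 (hR.2 w.1.2 z.1.2 y0) _ (Fo_inf.2 ⟨hr, h2.mono hw.1⟩)
  · exact le_iff_Fo.1 (GokPos.PD_mono hR D (dl N)) _ (Fo_inf.2 ⟨(h3 D hD hd).mono hw.1, hr⟩)

theorem GokPos.den {L : Pre Cd} {η : K} (hL : Loc L η) {R : W → W → BA L} {hR : IsBPre R}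
    (hF : FullQ (posB R hR)) {D : Set Cd} (hD : (nxt L (posB R hR) η).Dense D) :
    denB R (GokPos.dst L η R hR D) = ⊤ := by
  refine le_antisymm le_top (le_iff_Fo.2 fun x _ => ?_)
  unfold denB
  rw [Fo_iInf]
  intro q
  rw [Fo_iSup]
  intro y _
  obtain ⟨p, -, hp⟩ := exists_val_eq hL hF (GokPos.tt (R := R) (hR := hR) y q)
  obtain ⟨d, hd, hdp⟩ := hD p
  obtain ⟨z0, hz0⟩ := ne_bot_iff.1 (val_ne_bot L (posB R hR) η d)
  have h1 : Fo z0 (down (TS (posB R hR)) (GokPos.tt y q)) := by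
    rw [← hp]; exact le_iff_Fo.1 hdp.2 _ hz0
  obtain ⟨w, hw1, hw2⟩ := Fo_down.1 h1 z0 ((TS (posB R hR)).refl z0)
  refine ⟨w.1.1, hw2.1, w.1.2, Fo_inf.2 ⟨hw2.2, ?_⟩⟩
  have h2 : w.1.1 ∈ {x | ∃ d ∈ D, Fo (GokPos.tt (R := R) (hR := hR) x w.1.2)
      (val L (posB R hR) η d)} := ⟨d, hd, hz0.mono hw1⟩
  exact Fo_toB.2 fun y' hy' => ⟨y', L.refl _, w.1.1, h2, hy'⟩

theorem GOK_pos (L : Pre Cd) (η : K) (hL : Loc L η) (R : W → W → BA L) (hR : IsBPre R)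
    (hleg : LegR R) (hF : FullQ (posB R hR)) :
    ∀ᶠ z in MF, FixW z → GOK L (posB R hR) η Un.ww z := by
  have hca : Function.Injective (fun a : Set Cd × W => Un.pair (Un.st a.1) (Un.ww a.2)) := by
    rintro ⟨a, b⟩ ⟨a', b'⟩ h
    simp only [Un.pair.injEq] at h
    rw [st_inj h.1, ww_inj h.2]
  filter_upwards [hleg, MF_fun Un.st st_inj cD (GokPos.dst L η R hR), MF_type Un.cd, MF_pair,
    Gen_choose L (fun a : Set Cd × W => Un.pair (Un.st a.1) (Un.ww a.2)) hca Un.cd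
      (fun a x b => (b ∈ a.1 ∧ Fo (GokPos.tt (R := R) (hR := hR) x a.2) (val L (posB R hR) η b)) ∨
        Fo x (GokPos.dst L η R hR a.1 a.2)ᶜ)] with z h1 h2 h3 h4 h5 hW c hc s s' hs hss hcs
  have hy0 : s'.1.2 = s.1.2 := by
    have h6 : z.2 (Un.ww s.1.2) = Un.ww s.1.2 := hW s.1.2 hs.2
    exact ww_inj (hss.2.symm.trans h6)
  have hcs' : L.le c s'.1.1 := (hc.2 _ _ hs.1 hss.1 c (L.refl c)).1 hcs
  have hu : ∀ v, Fo v (toB (TS (posB R hR)) (GokPos.SS R hR z.1 c s.1.2)) →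
      ∃ w, (TS (posB R hR)).le w v ∧ w ∈ GokPos.SS R hR z.1 c s.1.2 := by
    intro v hv
    obtain ⟨w, hw, t, ht, hwt⟩ := Fo_toB.1 hv v ((TS (posB R hR)).refl v)
    exact ⟨w, hw, GokPos.SS_mono hwt ht⟩
  refine ⟨toB (TS (posB R hR)) (GokPos.SS R hR z.1 c s.1.2), ?_, ?_, ?_, ?_⟩
  · refine le_antisymm ?_ ?_
    · refine prj_le_iff.2 (le_iff_Fo.2 fun v hv => Fo_reg fun v' hv' => ?_)
      obtain ⟨w, hw, hwS⟩ := hu v' (hv.mono hv')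
      exact ⟨w, hw, Fo_emb.2 (Fo_down_of_le hwS.1)⟩
    · rw [down_le_iff, Fo_prj]
      intro y hy
      have h6 := (h1 s.1.2 hs.2 c hc.1)
      unfold gq at h6
      obtain ⟨y', hy', q, hq⟩ := Fo_iSup.1 h6 y hy
      refine ⟨GokPos.tt y' q, hy', Fo_toB.2 fun v hv => ⟨v, (TS (posB R hR)).refl v, GokPos.tt y' q,
        ⟨L.trans _ _ _ hy' hy, (Fo_inf.1 hq).1, fun D hD hd => ?_⟩, hv⟩⟩
      have h7 := (Fo_inf.1 hq).2
      rw [Fo_iInf] at h7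
      have h8 := h7 D
      rw [Fo_iInf] at h8
      exact h8 ⟨hD, hd⟩
  · refine le_iff_Fo.2 fun v hv => Fo_reg fun v' hv' => ?_
    obtain ⟨w, hw, hwS⟩ := hu v' (hv.mono hv')
    exact ⟨w, hw, Fo_down_of_le ⟨L.trans _ _ _ hwS.1 hcs, hwS.2.1⟩⟩
  · refine le_iff_Fo.2 fun v hv => Fo_reg fun v' hv' => ?_
    obtain ⟨w, hw, hwS⟩ := hu v' (hv.mono hv')
    refine ⟨w, hw, Fo_down_of_le ⟨L.trans _ _ _ hwS.1 hcs', ?_⟩⟩
    change Fo w.1.1 (R w.1.2 s'.1.2)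
    rw [hy0]
    exact hwS.2.1
  · intro D hDN hDd v hv
    obtain ⟨w0, hw0, hwS⟩ := hu v hv
    have h6 := hwS.2.2 (GokPos.dst L η R hR D) (h2 D hDN).1 (GokPos.den hL hF hDd)
    unfold PD at h6
    have h7 := Fo_iInf.1 h6 w0.1.2
    rw [Fo_himp] at h7
    have h7' : Fo w0.1.1 (R w0.1.2 w0.1.2) := by
      have h71 : R w0.1.2 w0.1.2 = ⊤ := hR.1 w0.1.2
      rw [h71]; exact Fo_top _
    have h8 := h7 w0.1.1 (L.refl _) h7'
    obtain ⟨y1, hy1, j, h9⟩ := Fo_iSup.1 h8 w0.1.1 (L.refl _)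
    obtain ⟨y2, hy2, hj, h10⟩ := Fo_iSup.1 h9 y1 (L.refl _)
    obtain ⟨y3, hy3, t0, h11⟩ := Fo_iSup.1 h10 y2 (L.refl _)
    have hyw : L.le y3 w0.1.1 := L.trans _ _ _ hy3 (L.trans _ _ _ hy2 hy1)
    have hyc : L.le y3 c := L.trans _ _ _ hyw hwS.1
    obtain ⟨h12, hDj⟩ := Fo_inf.1 h11
    obtain ⟨hr1, hr2⟩ := Fo_inf.1 h12
    have hjN : Un.ww j ∈ z.1 := hj
    have hpre : ∀ q, ∃ x b, L.le x q ∧ ((b ∈ D ∧ Fo (GokPos.tt (R := R) (hR := hR) x j)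
        (val L (posB R hR) η b)) ∨ Fo x (GokPos.dst L η R hR D j)ᶜ) := by
      intro q
      by_cases hq : Fo q (GokPos.dst L η R hR D j)ᶜ
      · exact ⟨q, q, L.refl q, Or.inr hq⟩
      · rw [Fo_compl] at hq
        push Not at hq
        obtain ⟨q1, hq1, hq2⟩ := hq
        obtain ⟨q2, hq3, s1, ⟨d, hd, hd2⟩, hs1⟩ := Fo_toB.1 hq2 q1 (L.refl _)
        exact ⟨q2, d, L.trans _ _ _ hq3 hq1, Or.inl ⟨hd, hd2.mono (GokPos.tt_le hs1)⟩⟩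
    obtain ⟨q', x, b, hq'1, hq'2, hx, hb, hP, -⟩ := h5 c hc.1 (D, j)
      ((h4 _ _).2 ⟨hDN, hjN⟩) hpre y3 hyc
    have hP1 : b ∈ D ∧ Fo (GokPos.tt (R := R) (hR := hR) x j) (val L (posB R hR) η b) := by
      refine hP.resolve_right fun h13 => ?_
      exact Fo_compl.1 h13 q' hq'2 (hDj.mono hq'1)
    obtain ⟨x', hx'⟩ := h3 x hx
    have hq'c : L.le q' c := L.trans _ _ _ hq'1 hyc
    refine ⟨GokPos.tt q' t0, GokPos.tt x j, GokPos.tt x' j, ?_, ⟨hq'2, hr2.mono hq'1⟩,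
      ⟨(hc.2 x x' hx hx' q' hq'c).1 hq'2, hr2.mono hq'1⟩, ⟨hx, hjN⟩, ⟨hx', hW j hjN⟩,
      b, hP1.1, hb, hP1.2⟩
    exact (TS (posB R hR)).trans _ _ _ ⟨L.trans _ _ _ hq'1 hyw, hr1.mono hq'1⟩ hw0

end Pool.Agent.MMA1
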