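import Pool.Agent.MMI.GenB

/-! # The Boolean value of properness -/

set_option autoImplicit false

namespace Pool.Agent.MMA1

open Classical

/-- the relation `R` where it is proper and the total relation elsewhere -/
noncomputable def goodR {L : Pre Cd} (R : W → W → BA L) : W → W → BA L :=
  fun x y => R x y ⊔ (⨅ p0, bg R p0)ᶜ

theorem isBPre_goodR {L : Pre Cd} {R : W → W → BA L} (hR : IsBPre R) : IsBPre (goodR R) := by
  constructor
  · intro x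
    unfold goodR
    rw [hR.1 x, top_sup_eq]
  · intro x y z
    unfold goodR
    rw [← sup_inf_right]
    exact sup_le_sup_right (hR.2 x y z) _

theorem Good_Fo_PD {L : Pre Cd} {R : W → W → BA L} {D : W → BA L} {s : Set W} {q : W} {x : Cd} :
    Fo x (PD R D s q) ↔ ∀ q' y, L.le y x → Fo y (R q' q) →
      ∃ z, L.le z y ∧ ∃ j ∈ s, ∃ t, Fo z (R t q') ∧ Fo z (R t j) ∧ Fo z (D j) := by
  unfold PD
  rw [Fo_iInf]
  refine forall_congr' fun q' => ?_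
  rw [Fo_himp]
  constructor
  · intro h y hy hR
    obtain ⟨z, hz, j, hj⟩ := Fo_iSup.1 (h y hy hR) y (L.refl y)
    obtain ⟨z1, hz1, hjs, h1⟩ := Fo_iSup.1 hj z (L.refl z)
    obtain ⟨z2, hz2, t, h2⟩ := Fo_iSup.1 h1 z1 (L.refl z1)
    rw [Fo_inf, Fo_inf] at h2
    exact ⟨z2, L.trans _ _ _ hz2 (L.trans _ _ _ hz1 hz), j, hjs, t, h2.1.1, h2.1.2, h2.2⟩
  · intro h y hy hR
    refine Fo_iSup.2 fun w hw => ?_
    obtain ⟨z, hz, j, hj, t, h1, h2, h3⟩ := h w (L.trans _ _ _ hw hy) (hR.mono hw)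
    refine ⟨z, hz, j, Fo_iSup.2 fun v hv => ⟨v, L.refl v, hj, Fo_iSup.2 fun u hu =>
      ⟨u, L.refl u, t, ?_⟩⟩⟩
    have huz := L.trans _ _ _ hu hv
    rw [Fo_inf, Fo_inf]
    exact ⟨⟨h1.mono huz, h2.mono huz⟩, h3.mono huz⟩

theorem Good_Fo_denB {L : Pre Cd} {R : W → W → BA L} {D : W → BA L} {x : Cd} :
    Fo x (denB R D) ↔ ∀ q y, L.le y x → ∃ z, L.le z y ∧ ∃ j, Fo z (R j q) ∧ Fo z (D j) := by
  unfold denB
  rw [Fo_iInf]
  refine forall_congr' fun q => ?_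
  rw [Fo_iSup]
  refine forall_congr' fun y => forall_congr' fun _ => exists_congr fun z => and_congr_right fun _ =>
    exists_congr fun j => ?_
  rw [Fo_inf]

theorem Good_eq_top {L : Pre Cd} {U : BA L} : U = ⊤ ↔ ∀ x, Fo x U := by
  constructor
  · rintro rfl x; exact Fo_top x
  · intro h
    exact le_antisymm le_top (le_iff_Fo.2 fun x _ => h x)

/-- a model is good for `gq` if it is closed under the change of dense sets -/
theorem Good_gq {L : Pre Cd} {R R' : W → W → BA L} (hR : IsBPre R) {g : BA L} {N : Set Un}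
    (hg : ∀ x y c, Fo c g → (Fo c (R' x y) ↔ Fo c (R x y)))
    (hN : ∀ D : W → BA L, cD D ∈ N → cD (fun j => D j ⊔ gᶜ) ∈ N) {p0 : W} {c : Cd}
    (hc : Fo c g) (h : Fo c (gq R N p0)) : Fo c (gq R' N p0) := by
  unfold gq at h ⊢
  refine Fo_iSup.2 fun y hy => ?_
  obtain ⟨z, hz, q, hq⟩ := Fo_iSup.1 h y hy
  have hzc : Fo z g := hc.mono (L.trans _ _ _ hz hy)
  refine ⟨z, hz, q, ?_⟩
  rw [Fo_inf] at hq ⊢
  refine ⟨(hg q p0 z hzc).2 hq.1, ?_⟩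
  refine Fo_iInf.2 fun D => Fo_iInf.2 fun hD => ?_
  -- the modified dense set
  have hgD : ∀ j w, Fo w g → (Fo w (D j ⊔ gᶜ) → Fo w (D j)) := by
    intro j w hw h1
    refine Fo_reg fun v hv => ?_
    obtain ⟨u, hu, h2⟩ := Fo_sup.1 h1 v hv
    refine ⟨u, hu, h2.resolve_right fun h3 => ?_⟩
    exact Fo_compl.1 h3 u (L.refl u) (hw.mono (L.trans _ _ _ hu hv))
  have hD2 : denB R (fun j => D j ⊔ gᶜ) = ⊤ := by
    rw [Good_eq_top]
    intro x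
    rw [Good_Fo_denB]
    intro q y _
    by_cases h1 : Fo y g
    · have h2 := Good_Fo_denB.1 (Good_eq_top.1 hD.2 y) q y (L.refl y)
      obtain ⟨z, hz, j, h3, h4⟩ := h2
      refine ⟨z, hz, j, (hg j q z (h1.mono hz)).1 h3, ?_⟩
      exact le_iff_Fo.1 le_sup_left z h4
    · obtain ⟨z, hz, h2⟩ := exists_Fo_compl h1
      refine ⟨z, hz, q, ?_, le_iff_Fo.1 le_sup_right z h2⟩
      rw [hR.1 q]; exact Fo_top z
  have h1 := Fo_iInf.1 (Fo_iInf.1 hq.2 (fun j => D j ⊔ gᶜ)) ⟨hN D hD.1, hD2⟩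
  rw [Good_Fo_PD] at h1 ⊢
  intro q' y' hy' hRq
  have hyg : Fo y' g := hzc.mono hy'
  obtain ⟨w, hw, j, hj, t, h2, h3, h4⟩ := h1 q' y' hy' ((hg q' q y' hyg).1 hRq)
  have hwg : Fo w g := hyg.mono hw
  exact ⟨w, hw, j, hj, t, (hg _ _ w hwg).2 h2, (hg _ _ w hwg).2 h3, hgD j w hwg h4⟩

theorem LegR_good {L : Pre Cd} (R : W → W → BA L) (hR : IsBPre R) : LegR (goodR R) := by
  unfold LegR
  obtain ⟨g, hg⟩ : ∃ g, g = ⨅ p0, bg R p0 := ⟨_, rfl⟩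
  have hgR : ∀ x y c, Fo c g → (Fo c (goodR R x y) ↔ Fo c (R x y)) := by
    intro x y c hc
    unfold goodR
    rw [← hg]
    constructor
    · intro h
      refine Fo_reg fun v hv => ?_
      obtain ⟨u, hu, h2⟩ := Fo_sup.1 h v hv
      refine ⟨u, hu, h2.resolve_right fun h3 => ?_⟩
      exact Fo_compl.1 h3 u (L.refl u) (hc.mono (L.trans _ _ _ hu hv))
    · intro h
      exact le_iff_Fo.1 le_sup_left c h
  have hgc : ∀ x y c, Fo c gᶜ → Fo c (goodR R x y) := by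
    intro x y c hc
    unfold goodR
    rw [← hg]
    exact le_iff_Fo.1 le_sup_right c hc
  -- uniformised models
  have hu : ∀ᶠ z in MF, ∀ a : BA L × W, Un.pair (cU a.1) (Un.ww a.2) ∈ z.1 →
      ((∀ᶠ z in MF, ∀ c, Gen L z.1 c → Fo c a.1 → Fo c (gq R z.1 a.2)) →
        ∀ c, Gen L z.1 c → Fo c a.1 → Fo c (gq R z.1 a.2)) := by
    refine MF_diagN (fun a : BA L × W => Un.pair (cU a.1) (Un.ww a.2)) ?_ (P := fun a N =>
      (∀ᶠ z in MF, ∀ c, Gen L z.1 c → Fo c a.1 → Fo c (gq R z.1 a.2)) →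
        ∀ c, Gen L N c → Fo c a.1 → Fo c (gq R N a.2)) ?_
    · rintro ⟨b, p⟩ ⟨b', p'⟩ h
      simp only [Un.pair.injEq] at h
      rw [cU_inj h.1, ww_inj h.2]
    · intro a
      by_cases h : ∀ᶠ z in MF, ∀ c, Gen L z.1 c → Fo c a.1 → Fo c (gq R z.1 a.2)
      · filter_upwards [h] with z hz _
        exact hz
      · exact Filter.Eventually.of_forall fun z h' => absurd h' h
  filter_upwards [hu, MF_pair, MF_fun (cD (L := L)) cD_inj (cD (L := L)) (fun D j => D j ⊔ gᶜ),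
    Gen_iSup L (cD (L := L)) cD_inj Un.ww (fun D j => D j),
    Gen_iSup L Un.ww ww_inj (cU (L := L)) (fun p0 b =>
      ⨆ _ : (∀ᶠ z in MF, ∀ c, Gen L z.1 c → Fo c b → Fo c (gq R z.1 p0)), b)]
    with z h1 h2 h3 h4 h5 p0 hp0 c hc
  refine Fo_reg fun y hy => ?_
  by_cases hy1 : Fo y g
  · -- the proper case
    have hyb : Fo y (bg R p0) := by
      rw [hg] at hy1
      exact Fo_iInf.1 hy1 p0
    obtain ⟨y1, x, b, hy1y, hy1x, -, hb, hxb, -⟩ := h5 c hc p0 hp0 y hy hyb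
    obtain ⟨y2, hy2, hgood, hy2b⟩ := Fo_iSup.1 (hxb.mono hy1x) y1 (L.refl y1)
    have hy2c : L.le y2 c := L.trans _ _ _ hy2 (L.trans _ _ _ hy1y hy)
    have h6 := h1 (b, p0) ((h2 _ _).2 ⟨hb, hp0⟩) hgood y2 (hc.mono hy2c) hy2b
    refine ⟨y2, L.trans _ _ _ hy2 hy1y, ?_⟩
    exact Good_gq hR hgR (fun D hD => (h3 D hD).1) (hy1.mono (L.trans _ _ _ hy2 hy1y)) h6
  · -- the total relation
    obtain ⟨w, hw, hwg⟩ := exists_Fo_compl hy1
    refine ⟨w, hw, ?_⟩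
    unfold gq
    refine Fo_iSup.2 fun v hv => ⟨v, L.refl v, p0, ?_⟩
    have hvg : Fo v gᶜ := hwg.mono hv
    have hvc : L.le v c := L.trans _ _ _ hv (L.trans _ _ _ hw hy)
    refine Fo_inf.2 ⟨hgc _ _ v hvg, Fo_iInf.2 fun D => Fo_iInf.2 fun hD => ?_⟩
    rw [Good_Fo_PD]
    intro q' y' hy' _
    have h6 : Fo y' (⨆ j, D j) := by
      refine Fo_iSup.2 fun u hu => ?_
      obtain ⟨t, ht, j, -, h7⟩ := Good_Fo_denB.1 (Good_eq_top.1 hD.2 u) q' u (L.refl u)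
      exact ⟨t, ht, j, h7⟩
    obtain ⟨y1, x, j, hy1, hy1x, -, hj, hxD, -⟩ := h4 c hc D hD.1 y' (L.trans _ _ _ hy' hvc) h6
    have hy1g : Fo y1 gᶜ := hvg.mono (L.trans _ _ _ hy1 hy')
    exact ⟨y1, hy1, j, hj, q', hgc _ _ y1 hy1g, hgc _ _ y1 hy1g, hxD.mono hy1x⟩

theorem bad_exists {L : Pre Cd} (R : W → W → BA L) (p0 : W) {c0 : Cd} (h : Fo c0 (bg R p0)ᶜ)
    {P : Set Un × (Un → Un) → Prop} (hP : ∀ᶠ z in MF, P z) :
    ∃ N c, P (N, id) ∧ Gen L N c ∧ L.le c c0 ∧ Fo c (gq R N p0)ᶜ := by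
  have h1 : ¬ ∀ᶠ z in MF, ∀ c, Gen L z.1 c → Fo c (down L c0) → Fo c (gq R z.1 p0) := by
    intro hcon
    refine Fo_compl.1 h c0 (L.refl c0) ?_
    unfold bg
    refine Fo_iSup.2 fun y hy => ⟨y, L.refl y, down L c0, ?_⟩
    exact Fo_iSup.2 fun z hz => ⟨z, L.refl z, hcon, Fo_down_of_le (L.trans _ _ _ hz hy)⟩
  obtain ⟨N, hPN, hN⟩ := MF_not (P := fun N => ∀ c, Gen L N c → Fo c (down L c0) →
    Fo c (gq R N p0)) h1 hP
  push Not at hN
  obtain ⟨c, hc, hcd, hcg⟩ := hN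
  obtain ⟨y, hy, hyg⟩ := exists_Fo_compl hcg
  obtain ⟨w, hw1, hw2⟩ := Fo_down.1 hcd y hy
  exact ⟨N, w, hPN, hc.mono (L.trans _ _ _ hw1 hy), hw2, hyg.mono hw1⟩

end Pool.Agent.MMA1
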