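import Pool.Agent.MMI.Kcc

/-! # Antichains of the whole iteration have cardinality at most `2 ^ ℵ₀` -/

set_option autoImplicit false

namespace Pool.Agent.MMA1

open Classical

variable {S : Stp}

/-- a cofinal monotone sequence, starting with the least element, in a countable set -/
theorem KccTop_seq {T : Set K} (hT : T.Countable) (h0 : K0 ∈ T) :
    ∃ z : ℕ → K, z 0 = K0 ∧ Monotone z ∧ (∀ n, z n ∈ T) ∧ ∀ t ∈ T, ∃ n, t ≤ z n := by
  obtain ⟨g, hg⟩ := hT.exists_eq_range ⟨K0, h0⟩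
  have hgT : ∀ n, g n ∈ T := fun n => by rw [hg]; exact ⟨n, rfl⟩
  let z : ℕ → K := fun n => Nat.rec K0 (fun k x => max x (g k)) n
  have hz1 : ∀ n, z (n + 1) = max (z n) (g n) := fun n => rfl
  refine ⟨z, rfl, monotone_nat_of_le_succ fun n => by rw [hz1]; exact le_max_left _ _, ?_, ?_⟩
  · intro n
    induction n with
    | zero => exact h0
    | succ n ih =>
      rw [hz1]
      rcases le_total (z n) (g n) with h | h
      · rw [max_eq_right h]; exact hgT n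
      · rw [max_eq_left h]; exact ih
  · intro t ht
    rw [hg] at ht
    obtain ⟨n, rfl⟩ := ht
    exact ⟨n + 1, by rw [hz1]; exact le_max_right _ _⟩

/-- recursive choice -/
theorem KccTop_rec {P : ℕ → Cd → Prop} {R : ℕ → Cd → Cd → Prop} (h0 : ∃ c, P 0 c)
    (hs : ∀ n c, P n c → ∃ c', P (n + 1) c' ∧ R n c c') :
    ∃ f : ℕ → Cd, (∀ n, P n (f n)) ∧ ∀ n, R n (f n) (f (n + 1)) := by
  have : Nonempty Cd := ⟨Cd.triv⟩
  choose! s hs1 hs2 using hs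
  obtain ⟨c0, hc0⟩ := h0
  let f : ℕ → Cd := fun n => Nat.rec c0 (fun k x => s k x) n
  have hf1 : ∀ n, f (n + 1) = s n (f n) := fun n => rfl
  have hP : ∀ n, P n (f n) := by
    intro n
    induction n with
    | zero => exact hc0
    | succ n ih => rw [hf1]; exact hs1 n _ ih
  exact ⟨f, hP, fun n => by rw [hf1]; exact hs2 n _ (hP n)⟩

theorem KccTop_le {p w : Cd} (h : ∀ η : K, (LE S (η : WithTop K)).le w p → p.at η ≠ none →
    Val S η w ≤ Val S η p) (ξ : WithTop K) : (LE S ξ).le w p := by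
  induction ξ using (wellFounded_lt (α := WithTop K)).induction with
  | _ ξ ih =>
    rw [LE_le]
    intro η hη
    have h1 := ih η hη
    by_cases h2 : p.at η = none
    · rw [Val_none h2]
      exact (Val_le_emb η w).trans (emb_mono (down_mono h1))
    · exact h η h1 h2

theorem kcc_top (hF : Full S ⊤) (h : ∀ ξ : K, PIev S ξ) : KCC (LE S ⊤) := by
  refine KCC_of fun a ha => ?_
  have hP : ∀ᶠ z in MF,
      (∀ ξ : K, Un.kk ξ ∈ z.1 → z.2 (Un.kk ξ) = Un.kk ξ →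
        (FixW z → Fix z ξ → ∀ η ≤ ξ, Un.kk η ∈ z.1 → PIs S η ξ z)) ∧
      (∀ ζ : K, Un.kk ζ ∈ z.1 → Un.kk (Order.succ ζ) ∈ z.1 ∧
        ∀ ζ', z.2 (Un.kk ζ) = Un.kk ζ' → z.2 (Un.kk (Order.succ ζ)) = Un.kk (Order.succ ζ')) ∧
      (Un.kk K0 ∈ z.1 ∧ z.2 (Un.kk K0) = Un.kk K0) ∧
      (∀ p ζ, Un.cd p ∈ z.1 → p.at ζ ≠ none → Un.kk ζ ∈ z.1) ∧
      (∀ p p' ζ', Un.cd p ∈ z.1 → z.2 (Un.cd p) = Un.cd p' → p'.at ζ' ≠ none →
        ∃ ζ, Un.kk ζ ∈ z.1 ∧ z.2 (Un.kk ζ) = Un.kk ζ') ∧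
      (∀ c, GenH (LE S K0) z.1 z.2 c) ∧ z.1.Countable := by
    filter_upwards [MF_diag' Un.kk kk_inj h, MF_fun Un.kk kk_inj Un.kk Order.succ,
      MF_const (Un.kk K0), MF_supp, MF_supp', Gen_zero S, MF_ctb] with z h1 h2 h3 h4 h5 h6 h7
    exact ⟨h1, h2, h3, h4, h5, h6, h7.1⟩
  obtain ⟨j, j', hjj, z, ⟨h1, h2, h3, h4, h5, h6, h7⟩, hj1, hj2, hW, ρ, hρ, hsep⟩ :=
    pick hP (fun j => Un.cd (a j))
  refine ⟨j, j', hjj, ?_⟩
  set p := a j with hp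
  set p' := a j' with hp'
  -- `ρ` is above the least element
  have hρ0 : K0 < ρ := by
    refine lt_of_le_of_ne (K0_le ρ) ?_
    intro h0
    exact lt_irrefl _ (hsep K0 K0 K0 h3.1 h0.symm.le h3.1 h0.symm.le h3.2)
  let T : Set K := {ζ | Un.kk ζ ∈ z.1 ∧ ζ < ρ}
  have hT : T.Countable := by
    have : T ⊆ Un.kk ⁻¹' z.1 := fun ζ hζ => hζ.1
    exact (h7.preimage kk_inj).mono this
  have hTs : ∀ ζ ∈ T, Order.succ ζ ∈ T := by
    rintro ζ ⟨hζ1, hζ2⟩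
    refine ⟨(h2 ζ hζ1).1, ?_⟩
    refine lt_of_le_of_ne (Order.succ_le_of_lt hζ2) ?_
    intro h0
    have h8 := (h2 ζ hζ1).2 ζ (hρ ζ hζ2 hζ1)
    exact lt_irrefl _ (hsep _ _ _ (h2 ζ hζ1).1 h0.symm.le (h2 ζ hζ1).1 h0.symm.le h8)
  obtain ⟨s, hs0, hsm, hsT, hsc⟩ := KccTop_seq hT ⟨h3.1, hρ0⟩
  have hsc' : ∀ t ∈ T, ∃ n, t < s n := by
    intro t ht
    obtain ⟨n, hn⟩ := hsc _ (hTs t ht)
    exact ⟨n, (Order.lt_succ t).trans_le hn⟩
  have hfix : ∀ n, Fix z (s n) := fun n ζ hζ hN => hρ ζ (hζ.trans (hsT n).2) hN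
  -- the sequence of conditions
  obtain ⟨f, hf1, hf2⟩ := KccTop_rec
    (P := fun n c => GenH (LE S (s n)) z.1 z.2 c ∧ (LE S (s n)).le c p ∧ (LE S (s n)).le c p')
    (R := fun n c c' => ∀ ζ < s n, c'.at ζ = c.at ζ)
    ⟨p, by rw [hs0]; exact ⟨h6 p, LE_zero _ _, LE_zero _ _⟩⟩
    (by
      rintro n c ⟨hc1, hc2, -⟩
      obtain ⟨c', hc3, -, hc4, hc5, hc6⟩ := h1 (s (n + 1)) (hsT _).1
        (hρ _ (hsT _).2 (hsT _).1) hW (hfix _) (s n) (hsm (Nat.le_succ n)) (hsT n).1 c hc1 p p'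
        hj1 hj2 hc2
      exact ⟨c', ⟨hc4, hc5, hc6⟩, hc3⟩)
  have hf3 : ∀ m n, m ≤ n → ∀ ζ < s m, (f n).at ζ = (f m).at ζ := by
    intro m n hmn
    induction n, hmn using Nat.le_induction with
    | base => exact fun _ _ => rfl
    | succ n hmn ih =>
      intro ζ hζ
      rw [hf2 n ζ (hζ.trans_le (hsm hmn)), ih ζ hζ]
  -- the union
  let w0 : K → Option A0 := fun ζ =>
    if ζ < ρ then (if hn : ∃ n, ζ < s n then (f (Nat.find hn)).at ζ else none)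
    else if p.at ζ ≠ none then p.at ζ else p'.at ζ
  have hw0 : {ζ | w0 ζ ≠ none}.Countable := by
    refine (((Set.countable_iUnion fun n => (f n).2).union p.2).union p'.2).mono ?_
    intro ζ hζ
    change w0 ζ ≠ none at hζ
    simp only [w0] at hζ
    split_ifs at hζ with g1 g2 g3
    · exact Or.inl (Or.inl (Set.mem_iUnion.2 ⟨Nat.find g2, hζ⟩))
    · exact absurd rfl hζ
    · exact Or.inl (Or.inr hζ)
    · exact Or.inr hζ
  let w : Cd := ⟨w0, hw0⟩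
  have hw1 : ∀ n, ∀ ζ < s n, w.at ζ = (f n).at ζ := by
    intro n ζ hζ
    have g1 : ζ < ρ := hζ.trans (hsT n).2
    have g2 : ∃ n, ζ < s n := ⟨n, hζ⟩
    have g3 : w.at ζ = (f (Nat.find g2)).at ζ := by
      change w0 ζ = _
      simp only [w0]
      rw [if_pos g1, dif_pos g2]
    rw [g3]
    exact (hf3 _ _ (Nat.find_min' g2 hζ) ζ (Nat.find_spec g2)).symm
  have hw2 : ∀ n, (LE S (s n)).le w (f n) := fun n =>
    LE_of_agree fun η hη => hw1 n η (WithTop.coe_lt_coe.1 hη)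
  -- the support of `p'`
  have hp'2 : ∀ η, p'.at η ≠ none → η ∈ T ∨ (ρ ≤ η ∧ p.at η = none) := by
    intro η hη
    obtain ⟨ζ, hζ1, hζ2⟩ := h5 p p' η hj1 hj2 hη
    by_cases hζ : ζ < ρ
    · left
      rw [hρ ζ hζ hζ1] at hζ2
      rw [← kk_inj hζ2]
      exact ⟨hζ1, hζ⟩
    · right
      have hζ3 := hsep ζ ζ η hζ1 (not_lt.1 hζ) hζ1 (not_lt.1 hζ) hζ2
      have hη2 : ρ ≤ η := (not_lt.1 hζ).trans hζ3.le
      refine ⟨hη2, ?_⟩
      by_contra hcon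
      exact lt_irrefl _ (hsep η ζ η (h4 p η hj1 hcon) hη2 hζ1 (not_lt.1 hζ) hζ2)
  refine ⟨w, KccTop_le ?_ ⊤, KccTop_le ?_ ⊤⟩
  · intro η hη hne
    have hηN := h4 p η hj1 hne
    by_cases hηρ : η < ρ
    · obtain ⟨n, hn⟩ := hsc' η ⟨hηN, hηρ⟩
      have h8 := (LE S (s n)).trans _ _ _ (hw2 n) (hf1 n).2.1
      rw [LE_le] at h8
      exact h8 η (WithTop.coe_lt_coe.2 hn)
    · refine Val_mono ?_ (down_mono hη)
      change w0 η = p.at η
      simp only [w0]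
      rw [if_neg hηρ, if_pos hne]
  · intro η hη hne
    rcases hp'2 η hne with hηT | ⟨hηρ, hηp⟩
    · obtain ⟨n, hn⟩ := hsc' η hηT
      have h8 := (LE S (s n)).trans _ _ _ (hw2 n) (hf1 n).2.2
      rw [LE_le] at h8
      exact h8 η (WithTop.coe_lt_coe.2 hn)
    · refine Val_mono ?_ (down_mono hη)
      change w0 η = p'.at η
      simp only [w0]
      rw [if_neg (not_lt.2 hηρ), if_neg (not_not.2 hηp)]

end Pool.Agent.MMA1
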