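import Pool.Agent.MMI.GenB

/-! # Names for countable sets under a generic condition -/

set_option autoImplicit false

namespace Pool.Agent.MMA1

open Classical

/-- a chosen sequence of names of the elements of a countable set -/
noncomputable def killNames_v {L : Pre Cd} (u : XK L → BA L) (n : ℕ) (x : XK L) : BA L :=
  if h : BCtbl u then h.choose n x else ⊥

theorem killNames_v_disj {L : Pre Cd} (u : XK L → BA L) (n : ℕ) {x x' : XK L} (h : x ≠ x') :
    killNames_v u n x ⊓ killNames_v u n x' = ⊥ := by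
  unfold killNames_v
  split_ifs with hu
  · exact hu.choose_spec.1 n x x' h
  · exact inf_bot_eq _

theorem killNames_v_sup {L : Pre Cd} {u : XK L → BA L} (hu : BCtbl u) (x : XK L) :
    u x = ⨆ n, killNames_v u n x := by
  unfold killNames_v
  simp only [dif_pos hu]
  exact hu.choose_spec.2 x

theorem killNames_v_eq {L : Pre Cd} {u : XK L → BA L} {n : ℕ} {x x' : XK L} {q : Cd}
    (h : Fo q (killNames_v u n x)) (h' : Fo q (killNames_v u n x')) : x = x' := by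
  by_contra hne
  have h1 := Fo_inf.2 ⟨h, h'⟩
  rw [killNames_v_disj u n hne] at h1
  exact not_Fo_bot q h1

/-- code of a name of a countable set -/
def killNames_c {L : Pre Cd} (u : XK L → BA L) : Un := Un.xd (codeX u)

theorem killNames_c_inj {L : Pre Cd} : Function.Injective (killNames_c (L := L)) :=
  fun _ _ h => codeX_inj (xd_inj h)

/-- the elements of a countable set in `N` are forced to be in `N` -/
theorem kill_mem (L : Pre Cd) : ∀ᶠ z in MF, ∀ c, Gen L z.1 c → ∀ u : XK L → BA L, BCtbl u →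
    Un.xd (codeX u) ∈ z.1 → ∀ q, L.le q c → ∀ x, Fo q (u x) → cX x ∈ z.1 := by
  have h0 : ∀ᶠ z in MF, ∀ n : ℕ, _ := eventually_countable_forall.2 fun n =>
    Gen_iSup L (killNames_c (L := L)) killNames_c_inj (cX (L := L)) (fun u x => killNames_v u n x)
  filter_upwards [h0] with z hz c hc u hu huN q hq x hx
  rw [killNames_v_sup hu] at hx
  obtain ⟨q1, hq1, n, hn⟩ := Fo_iSup.1 hx q (L.refl q)
  obtain ⟨q', x', b, hq', hq'x, -, hb, hxb, -⟩ := hz n c hc u huN q1 (L.trans _ _ _ hq1 hq)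
    (Fo_iSup.2 fun y hy => ⟨y, L.refl y, x, hn.mono hy⟩)
  have h1 : x = b := killNames_v_eq (hn.mono hq') (hxb.mono hq'x)
  rw [h1]
  exact hb

/-- the elements of the image under `h` of a countable set in `N` are forced to be images of elements
of `N` -/
theorem kill_mem' (L : Pre Cd) : ∀ᶠ z in MF, ∀ c, GenH L z.1 z.2 c → ∀ u u' : XK L → BA L, BCtbl u →
    Un.xd (codeX u) ∈ z.1 → z.2 (Un.xd (codeX u)) = Un.xd (codeX u') →
    ∀ q, L.le q c → ∀ x', Fo q (u' x') → ∃ x, cX x ∈ z.1 ∧ z.2 (cX x) = cX x' ∧ Fo q (u x) := by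
  have h0 : ∀ᶠ z in MF, ∀ n : ℕ, _ := eventually_countable_forall.2 fun n =>
    Gen_iSup L (killNames_c (L := L)) killNames_c_inj (cX (L := L)) (fun u x => killNames_v u n x)
  have h1 : ∀ᶠ z in MF, ∀ n : ℕ, _ := eventually_countable_forall.2 fun n =>
    GenH_Fo L (killNames_c (L := L)) killNames_c_inj (fun u => ⨆ x, killNames_v u n x)
  filter_upwards [h0, h1, MF_inj, MF_rel1 (killNames_c (L := L)) killNames_c_inj BCtbl] with
    z hz0 hz1 hinj hrel c hc u u' hu huN huu q hq x' hx'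
  have hu' : BCtbl u' := (hrel u u' huN huu).1 hu
  have key : ∀ q1, L.le q1 q → ∃ q2, L.le q2 q1 ∧ ∃ x, cX x ∈ z.1 ∧ z.2 (cX x) = cX x' ∧
      Fo q2 (u x) := by
    intro q1 hq1
    have h2 := hx'.mono hq1
    rw [killNames_v_sup hu'] at h2
    obtain ⟨q2, hq2, n, hn⟩ := Fo_iSup.1 h2 q1 (L.refl q1)
    have hq2c : L.le q2 c := L.trans _ _ _ (L.trans _ _ _ hq2 hq1) hq
    have h3 : Fo q2 (⨆ x, killNames_v u n x) :=
      (hz1 n c hc u u' huN huu q2 hq2c).2 (Fo_iSup.2 fun y hy => ⟨y, L.refl y, x', hn.mono hy⟩)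
    obtain ⟨q3, x, b, hq3, hq3x, hxN, hbN, hxb, h4⟩ := hz0 n c hc.1 u huN q2 hq2c h3
    obtain ⟨x'', b'', hxx, hbb, h5⟩ := h4 u' huu
    have h6 : L.le q3 x'' := (hc.2 x x'' hxN hxx q3 (L.trans _ _ _ hq3 hq2c)).1 hq3x
    have h7 : b'' = x' := killNames_v_eq (h5.mono h6) (hn.mono hq3)
    refine ⟨q3, L.trans _ _ _ hq3 hq2, b, hbN, by rw [hbb, h7], ?_⟩
    rw [killNames_v_sup hu]
    exact Fo_iSup.2 fun y hy => ⟨y, L.refl y, n, hxb.mono (L.trans _ _ _ hy hq3x)⟩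
  obtain ⟨q2, hq2, x, hxN, hxx, hx⟩ := key q (L.refl q)
  refine ⟨x, hxN, hxx, Fo_reg fun q1 hq1 => ?_⟩
  obtain ⟨q3, hq3, y, hyN, hyy, hy⟩ := key q1 hq1
  have hxy : y = x := cX_inj (hinj hyN hxN (by rw [hyy, hxx]))
  exact ⟨q3, hq3, hxy ▸ hy⟩

/-- `h` respects the elements of countable sets in `N` -/
theorem kill_resp (L : Pre Cd) : ∀ᶠ z in MF, ∀ c, GenH L z.1 z.2 c → ∀ u u' : XK L → BA L,
    Un.xd (codeX u) ∈ z.1 → z.2 (Un.xd (codeX u)) = Un.xd (codeX u') →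
    ∀ q, L.le q c → ∀ x x', cX x ∈ z.1 → z.2 (cX x) = cX x' → (Fo q (u x) ↔ Fo q (u' x')) := by
  have hinj : Function.Injective (fun a : (XK L → BA L) × XK L =>
      Un.pair (killNames_c a.1) (cX a.2)) := by
    rintro ⟨u, x⟩ ⟨u', x'⟩ h
    simp only [Un.pair.injEq] at h
    rw [killNames_c_inj h.1, cX_inj h.2]
  filter_upwards [GenH_Fo L (fun a : (XK L → BA L) × XK L => Un.pair (killNames_c a.1) (cX a.2))
    hinj (fun a => a.1 a.2), MF_pair, MF_pair'] with z h1 h2 h3 c hc u u' hu huu q hq x x' hx hxx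
  refine h1 c hc (u, x) (u', x') ((h2 _ _).2 ⟨hu, hx⟩) ?_ q hq
  show z.2 (Un.pair (Un.xd (codeX u)) (cX x)) = Un.pair (Un.xd (codeX u')) (cX x')
  rw [h3 _ hu _ hx, hxx, huu]

/-- `h` fixes the codes of triples -/
theorem killNames_fix {L : Pre Cd} : ∀ᶠ z in MF, FixW z → ∀ t : W × W × W,
    cX (L := L) (Sum.inr t) ∈ z.1 → z.2 (cX (L := L) (Sum.inr t)) = cX (L := L) (Sum.inr t) := by
  filter_upwards [MF_pair, MF_pair'] with z h2 h3 hW t ht
  obtain ⟨i, q, ν⟩ := t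
  have h4 : Un.pair (Un.ww i) (Un.pair (Un.ww q) (Un.ww ν)) ∈ z.1 := ht
  obtain ⟨h5, h6⟩ := (h2 _ _).1 h4
  obtain ⟨h7, h8⟩ := (h2 _ _).1 h6
  show z.2 (Un.pair (Un.ww i) (Un.pair (Un.ww q) (Un.ww ν))) =
    Un.pair (Un.ww i) (Un.pair (Un.ww q) (Un.ww ν))
  rw [h3 _ h5 _ h6, h3 _ h7 _ h8, hW i h5, hW q h7, hW ν h8]

/-- the triples are the same -/
theorem kill_triple (L : Pre Cd) : ∀ᶠ z in MF, FixW z → ∀ c, GenH L z.1 z.2 c →
    ∀ u u' : XK L → BA L, BCtbl u →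
    Un.xd (codeX u) ∈ z.1 → z.2 (Un.xd (codeX u)) = Un.xd (codeX u') →
    ∀ q, L.le q c → ∀ t : W × W × W, (Fo q (u (Sum.inr t)) ↔ Fo q (u' (Sum.inr t))) := by
  filter_upwards [kill_mem L, kill_mem' L, kill_resp L, killNames_fix (L := L),
    MF_rel1 (cX (L := L)) cX_inj (fun x => ∃ t, x = Sum.inr t)] with
    z h1 h2 h3 h4 h5 hW c hc u u' hu huN huu q hq t
  constructor
  · intro h
    have h6 := h1 c hc.1 u hu huN q hq _ h
    exact (h3 c hc u u' huN huu q hq _ _ h6 (h4 hW t h6)).1 h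
  · intro h
    obtain ⟨x, hxN, hxx, hx⟩ := h2 c hc u u' hu huN huu q hq _ h
    obtain ⟨t', rfl⟩ := (h5 x _ hxN hxx).2 ⟨t, rfl⟩
    rw [h4 hW t' hxN] at hxx
    rw [← cX_inj hxx]
    exact hx

/-- `h` respects the Boolean value of being a condition -/
theorem kill_mK (L : Pre Cd) (R : W → W → BA L) : ∀ᶠ z in MF, ∀ c, GenH L z.1 z.2 c →
    ∀ u u' : (killB R).Y, cY u ∈ z.1 → z.2 (cY u) = cY u' →
    ∀ q, L.le q c → (Fo q ((killB R).m u) ↔ Fo q ((killB R).m u')) :=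
  GenH_Fo L (cY (R := R)) cY_inj (fun u => (killB R).m u)

/-- `h` respects the order -/
theorem kill_rK (L : Pre Cd) (R : W → W → BA L) : ∀ᶠ z in MF, ∀ c, GenH L z.1 z.2 c →
    ∀ u u' v v' : (killB R).Y, cY u ∈ z.1 → z.2 (cY u) = cY u' → cY v ∈ z.1 → z.2 (cY v) = cY v' →
    ∀ q, L.le q c → (Fo q ((killB R).r u v) ↔ Fo q ((killB R).r u' v')) := by
  have hinj : Function.Injective (fun a : (killB R).Y × (killB R).Y =>
      Un.pair (cY a.1) (cY a.2)) := by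
    rintro ⟨u, x⟩ ⟨u', x'⟩ h
    simp only [Un.pair.injEq] at h
    rw [cY_inj h.1, cY_inj h.2]
  filter_upwards [GenH_Fo L (fun a : (killB R).Y × (killB R).Y => Un.pair (cY a.1) (cY a.2))
    hinj (fun a => (killB R).r a.1 a.2), MF_pair, MF_pair'] with
    z h1 h2 h3 c hc u u' v v' hu huu hv hvv q hq
  refine h1 c hc (u, v) (u', v') ((h2 _ _).2 ⟨hu, hv⟩) ?_ q hq
  show z.2 (Un.pair (cY u) (cY v)) = Un.pair (cY u') (cY v')
  rw [h3 _ hu _ hv, huu, hvv]

end Pool.Agent.MMA1
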