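import Pool.Agent.MMI.KillSA
import Pool.Agent.MMI.Good

/-! # The bad case: the stationary set -/

set_option autoImplicit false

namespace Pool.Agent.MMA1

open Classical

theorem KillSC_iSup2 {X : Type} {L : Pre X} {ι : Type} {p : ι → Prop} {f : ι → BA L} {x : X} {i : ι}
    (hi : p i) (h : Fo x (f i)) : Fo x (⨆ i, ⨆ _ : p i, f i) :=
  le_iff_Fo.1 (le_iSup (fun i => ⨆ _ : p i, f i) i) x
    (le_iff_Fo.1 (le_iSup (fun _ : p i => f i) hi) x h)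

/-- `ES` is forced to be stationary where `R` is not proper below `p0` -/
theorem ES_stat {F : Prg} {ξ : K} (hleg : ∀ η ≤ ξ, Leg F η) (hF : (F ξ).1 = true) (p0 : W) (s : SC)
    (h1 : Order.succ ξ ≤ s.len) (h2 : ∀ η ≤ ξ, s.prg η = F η)
    (hbad : Fo s.cnd (bg (relE (LP F ξ) (F ξ)) p0)ᶜ) : Fo s (statB (ES F ξ p0)) := by
  unfold statB
  refine Fo_iInf.2 fun C => Fo_himp.2 fun s1 hs1 hC => Fo_reg fun s2 hs2 => ?_
  have hs2s : SP.le s2 s := SP.trans _ _ _ hs2 hs1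
  have hlen2 : Order.succ ξ ≤ s2.len := h1.trans hs2s.1
  have hlen2' : ξ ≤ s2.len := (Order.le_succ ξ).trans hlen2
  have hprg2 : ∀ η ≤ ξ, s2.prg η = F η := fun η hη =>
    (hs2s.2.1 η ((Order.lt_succ_iff.2 hη).trans_le h1)).trans (h2 η hη)
  have hLs : LP s.prg ξ = LP F ξ := SGen_LP_congr fun η hη => h2 η hη.le
  have hLs2 : LP s2.prg ξ = LP F ξ := SGen_LP_congr fun η hη => hprg2 η hη.le
  have hbad2 : Fo s2.cnd (bg (relE (LP F ξ) (F ξ)) p0)ᶜ := by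
    refine Fo.mono ?_ hbad
    rw [← hLs]
    exact SGen_LP_mono (WithTop.coe_le_coe.2 ((Order.le_succ ξ).trans h1)) hs2s.2.2
  obtain ⟨R, hRdef⟩ : ∃ R : W → W → BA (LP F ξ), R = relE (LP F ξ) (F ξ) := ⟨_, rfl⟩
  -- the density properties
  have f1 := SGen_choose Un.ww ww_inj Un.ww
    (fun β x γ => (β < γ ∧ Fo x (C γ)) ∨ Fo x (clubB C)ᶜ)
  have f2 := SGen_choose (cD (L := LP F ξ)) cD_inj Un.ww
    (fun D x i => Fo x (HS F ξ (Sum.inl (i, D))) ∨ Fo x (stg F (Order.succ ξ))ᶜ)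
  have f3 := SGen_choose (fun t : W × W => Un.pair (Un.ww t.1) (Un.ww t.2))
    (pair_code_inj ww_inj ww_inj) Un.ww
    (fun t x ν => Fo x (HS F ξ (Sum.inr (t.1, t.2, ν))) ∨ Fo x (⨆ ν, HS F ξ (Sum.inr (t.1, t.2, ν)))ᶜ)
  have hall := (((((((main_ext.and sgen).and (MF_const (cS s2))).and MF_InN).and
    (MF_const (Un.kk ξ))).and MF_dl).and MF_pair).and f1).and (f2.and f3)
  obtain ⟨N, c, hN, hc, hcs2, hcb⟩ := bad_exists (relE (LP F ξ) (F ξ)) p0 hbad2 hall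
  obtain ⟨⟨⟨⟨⟨⟨⟨⟨g1, g2⟩, g3⟩, g4⟩, g5⟩, g6⟩, g7⟩, g8⟩, g9, g10⟩ := hN
  have hInN : InN N s2 := (g4 s2).1 g3.1
  obtain ⟨c', k1, -, k3, k4⟩ := g1 s2.prg s2.len hInN.2.1 hInN.1 s2.2 ξ hlen2' g5.1 c
    (by rw [hLs2]; exact hc) s2.cnd hInN.2.2 (by rw [hLs2]; exact hcs2)
  obtain ⟨t, ht1, ht2⟩ := g2 s2.prg s2.len s2.2 hInN.2.1 hInN.1 c' k3
  have hts2 : SP.le t s2 := SP.trans _ _ _ ht1 ⟨le_rfl, fun _ _ => rfl, k4⟩
  have hts : SP.le t s := SP.trans _ _ _ hts2 hs2s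
  have htlen : Order.succ ξ ≤ t.len := h1.trans hts.1
  have htlen' : ξ ≤ t.len := (Order.le_succ ξ).trans htlen
  have htprg : ∀ η ≤ ξ, t.prg η = F η := fun η hη =>
    (hts.2.1 η ((Order.lt_succ_iff.2 hη).trans_le h1)).trans (h2 η hη)
  have htc : (LP F ξ).le t.cnd c := by
    have e1 : (LP s2.prg s2.len).le t.cnd c' := ht1.2.2
    have e2 : (LP F ξ).le t.cnd c' := by
      rw [← hLs2]
      exact SGen_LP_mono (WithTop.coe_le_coe.2 hlen2') e1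
    exact (LP F ξ).trans _ _ _ e2 (LE_of_agree fun ζ hζ => k1 ζ (WithTop.coe_lt_coe.1 hζ))
  obtain ⟨δ, hδ, hδ0, -⟩ := g6
  have hNδ : ∀ α, Un.ww α ∈ N ↔ α < δ := fun α => by
    have : α ∈ dl N ↔ α ∈ Set.Iio δ := by rw [hδ]
    exact this
  -- `δ` is in the club
  have hCt : Fo t (clubB C) := hC.mono (SP.trans _ _ _ hts2 hs2)
  have hCδ : Fo t (C δ) := by
    have e1 := hCt
    unfold clubB at e1
    refine Fo_himp.1 (Fo_iInf.1 (Fo_iInf.1 (Fo_inf.1 e1).2 δ) hδ0) t (SP.refl t) ?_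
    refine Fo_iInf.2 fun β => Fo_iInf.2 fun hβ => Fo_reg fun t' ht' => ?_
    obtain ⟨s', x, γ, e2, e3, -, e4, e5⟩ := g8 t ht2 β ((hNδ β).2 hβ) (by
      intro s'
      by_cases h : ∃ s'', SP.le s'' s' ∧ Fo s'' (clubB C)
      · obtain ⟨s'', e1, e2⟩ := h
        unfold clubB at e2
        obtain ⟨x, e3, γ, e4⟩ := Fo_iSup.1 (Fo_iInf.1 (Fo_inf.1 e2).1 β) s'' (SP.refl _)
        obtain ⟨x', e5, e6, e7⟩ := Fo_iSup.1 e4 x (SP.refl _)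
        exact ⟨x', γ, SP.trans _ _ _ e5 (SP.trans _ _ _ e3 e1), Or.inl ⟨e6, e7⟩⟩
      · push Not at h
        exact ⟨s', β, SP.refl _, Or.inr (Fo_compl.2 h)⟩) t' ht'
    rcases e5 with ⟨e5, e6⟩ | e5
    · refine ⟨s', e2, KillSC_iSup2 ⟨e5, (hNδ γ).1 e4⟩ (e6.mono e3)⟩
    · exact absurd (hCt.mono (SP.trans _ _ _ e2 ht')) (Fo_compl.1 (e5.mono e3) s' (SP.refl _))
  refine ⟨t, hts2, ?_⟩
  refine le_iff_Fo.1 (le_iSup (fun δ => ES F ξ p0 δ ⊓ C δ) δ) t (Fo_inf.2 ⟨?_, hCδ⟩)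
  unfold ES
  refine Fo_inf.2 ⟨?_, ?_⟩
  · refine le_iff_Fo.1 (le_iSup (fun M : Set (W → BA (LP F ξ)) =>
      liftS F ξ (⨆ q, relE (LP F ξ) (F ξ) q p0 ⊓ ⨅ D, ⨅ _ : D ∈ M,
      PD (relE (LP F ξ) (F ξ)) D (Set.Iio δ) q)ᶜ ⊓
    ⨅ D, ⨅ _ : D ∈ M, ⨆ i, ⨆ _ : i < δ, HS F ξ (Sum.inl (i, D)))
      {D | Un.wd (codeD D) ∈ N ∧ denB (relE (LP F ξ) (F ξ)) D = ⊤}) t (Fo_inf.2 ⟨?_, ?_⟩)
    · refine (Fo_liftS htlen' fun η hη => htprg η hη.le).2 ?_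
      have e1 : gq (relE (LP F ξ) (F ξ)) N p0 = ⨆ q, relE (LP F ξ) (F ξ) q p0 ⊓ ⨅ D, ⨅ _ : D ∈
          {D : W → BA (LP F ξ) | Un.wd (codeD D) ∈ N ∧ denB (relE (LP F ξ) (F ξ)) D = ⊤},
          PD (relE (LP F ξ) (F ξ)) D (Set.Iio δ) q := by
        unfold gq
        rw [hδ]
        rfl
      rw [← e1]
      exact hcb.mono htc
    · refine Fo_iInf.2 fun D => Fo_iInf.2 fun hD => Fo_reg fun t' ht' => ?_
      obtain ⟨s', x, i, e2, e3, -, e4, e5⟩ := g9 t ht2 D hD.1 (by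
        intro s'
        by_cases h : ∃ s'', SP.le s'' s' ∧ Fo s'' (stg F (Order.succ ξ))
        · obtain ⟨s'', e1, e2⟩ := h
          obtain ⟨s3, e3, e4, e5⟩ := exists_of_Fo_stg e2
          obtain ⟨x, i, e6, e7⟩ := HS_add hleg hF D s3 e4
            (fun η hη => e5 η (Order.lt_succ_iff.2 hη)) (by rw [hD.2]; exact Fo_top _)
          exact ⟨x, i, SP.trans _ _ _ e6 (SP.trans _ _ _ e3 e1), Or.inl e7⟩
        · push Not at h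
          exact ⟨s', Classical.arbitrary W, SP.refl _, Or.inr (Fo_compl.2 h)⟩) t' ht'
      have e6 : Fo s' (stg F (Order.succ ξ)) := by
        refine Fo.mono (SP.trans _ _ _ e2 ht') ?_
        exact Fo_stg htlen fun η hη => htprg η (Order.lt_succ_iff.1 hη)
      rcases e5 with e5 | e5
      · exact ⟨s', e2, KillSC_iSup2 ((hNδ i).1 e4) (e5.mono e3)⟩
      · exact absurd e6 (Fo_compl.1 (e5.mono e3) s' (SP.refl _))
  · refine Fo_iInf.2 fun i => Fo_iInf.2 fun hi => Fo_iInf.2 fun q => Fo_iInf.2 fun hq =>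
      Fo_himp.2 fun t' ht' e0 => Fo_reg fun t'' ht'' => ?_
    obtain ⟨s', x, ν, e2, e3, -, e4, e5⟩ := g10 t ht2 (i, q)
      ((g7 _ _).2 ⟨(hNδ i).2 hi, (hNδ q).2 hq⟩) (by
      intro s'
      by_cases h : ∃ s'', SP.le s'' s' ∧ Fo s'' (⨆ ν, HS F ξ (Sum.inr (i, q, ν)))
      · obtain ⟨s'', e1, e2⟩ := h
        obtain ⟨x, e3, ν, e4⟩ := Fo_iSup.1 e2 s'' (SP.refl _)
        exact ⟨x, ν, SP.trans _ _ _ e3 e1, Or.inl e4⟩
      · push Not at h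
        exact ⟨s', i, SP.refl _, Or.inr (Fo_compl.2 h)⟩) t'' (SP.trans _ _ _ ht'' ht')
    rcases e5 with e5 | e5
    · exact ⟨s', e2, KillSC_iSup2 ((hNδ ν).1 e4) (e5.mono e3)⟩
    · exact absurd (e0.mono (SP.trans _ _ _ e2 ht'')) (Fo_compl.1 (e5.mono e3) s' (SP.refl _))

end Pool.Agent.MMA1
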