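import Pool.Agent.MMI.KillSA

/-! # The bad case: the contradiction -/

set_option autoImplicit false

namespace Pool.Agent.MMA1

open Classical

theorem KillSD_iSup2 {X : Type} {L : Pre X} {ι : Type} {p : ι → Prop} {f : ι → BA L} {x : X}
    (h : Fo x (⨆ i, ⨆ _ : p i, f i)) : ∃ y, L.le y x ∧ ∃ i, p i ∧ Fo y (f i) := by
  obtain ⟨y, hy, i, hi⟩ := Fo_iSup.1 h x (L.refl x)
  obtain ⟨z, hz, hp, hi⟩ := Fo_iSup.1 hi y (L.refl y)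
  exact ⟨z, L.trans _ _ _ hz hy, i, hp, hi⟩

theorem KillSD_iSup1 {X : Type} {L : Pre X} {ι : Type} {f : ι → BA L} {x : X}
    (h : Fo x (⨆ i, f i)) : ∃ y, L.le y x ∧ ∃ i, Fo y (f i) :=
  Fo_iSup.1 h x (L.refl x)

/-- no `q ≤ p0` has the predensity property at a point of `ES` -/
theorem ES_contra {F : Prg} {ξ : K} (hF : (F ξ).1 = true) (hR : IsBPre (relE (LP F ξ) (F ξ)))
    {RS : W → W → BS} (hRS : ∀ x y, liftS F ξ (relE (LP F ξ) (F ξ) x y) = stg F ξ ⊓ RS x y)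
    (p0 q δ : W) (s : SC) (h1 : Order.succ ξ ≤ s.len) (h2 : ∀ η ≤ ξ, s.prg η = F η)
    (hq : Fo s (RS q p0)) (hE : Fo s (ES F ξ p0 δ))
    (hP : ∀ i < δ, Fo s (PD RS (fun q => ⨆ ν, HS F ξ (Sum.inr (i, q, ν))) (Set.Iio δ) q)) : False := by
  have hlen : ∀ t, SP.le t s → ξ ≤ t.len := fun t ht => (Order.le_succ ξ).trans (h1.trans ht.1)
  have hprg : ∀ t, SP.le t s → ∀ η < ξ, t.prg η = F η := fun t ht η hη =>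
    (ht.2.1 η ((hη.trans (Order.lt_succ ξ)).trans_le h1)).trans (h2 η hη.le)
  have hst : ∀ t, SP.le t s → Fo t (stg F ξ) := fun t ht => Fo_stg (hlen t ht) (hprg t ht)
  obtain ⟨hE1, hE2⟩ := Fo_inf.1 hE
  obtain ⟨s1, hs1, M, hM⟩ := KillSD_iSup1 hE1
  obtain ⟨hM1, hM2⟩ := Fo_inf.1 hM
  have hM1' := (Fo_liftS (hlen s1 hs1) (hprg s1 hs1)).1 hM1
  refine Fo_compl.1 hM1' s1.cnd ((LP F ξ).refl _) ?_
  refine le_iff_Fo.1 (le_iSup (fun q => relE (LP F ξ) (F ξ) q p0 ⊓ ⨅ D, ⨅ _ : D ∈ M,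
      PD (relE (LP F ξ) (F ξ)) D (Set.Iio δ) q) q) s1.cnd ?_
  refine Fo_inf.2 ⟨?_, Fo_iInf.2 fun D => Fo_iInf.2 fun hD => ?_⟩
  · refine (Fo_liftS (hlen s1 hs1) (hprg s1 hs1)).1 ?_
    rw [hRS]
    exact Fo_inf.2 ⟨hst s1 hs1, hq.mono hs1⟩
  refine (Fo_liftS (hlen s1 hs1) (hprg s1 hs1)).1 ?_
  have hDS : ∀ x, liftS F ξ (D x) = stg F ξ ⊓ liftS F ξ (D x) := fun x =>
    (inf_eq_right.2 (liftS_le_stg _)).symm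
  rw [lift_PD hRS hDS]
  refine Fo_inf.2 ⟨hst s1 hs1, ?_⟩
  unfold PD
  refine Fo_iInf.2 fun q1 => Fo_himp.2 fun s2 hs2 hq1 => Fo_reg fun s3 hs3 => ?_
  obtain ⟨s4, hs4, i, hi, hHi⟩ := KillSD_iSup2
    ((Fo_iInf.1 (Fo_iInf.1 hM2 D) hD).mono (SP.trans _ _ _ hs3 hs2))
  have hs4s2 : SP.le s4 s2 := SP.trans _ _ _ hs4 hs3
  have hs4s1 : SP.le s4 s1 := SP.trans _ _ _ hs4s2 hs2
  have hs4s : SP.le s4 s := SP.trans _ _ _ hs4s1 hs1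
  have h3 := hP i hi
  unfold PD at h3
  obtain ⟨s5, hs5, j, hj, h4⟩ := KillSD_iSup2 (Fo_himp.1 (Fo_iInf.1 h3 q1) s4 hs4s (hq1.mono hs4s2))
  obtain ⟨s6, hs6, t, h5⟩ := KillSD_iSup1 h4
  obtain ⟨h6, h7⟩ := Fo_inf.1 h5
  obtain ⟨h8, h9⟩ := Fo_inf.1 h6
  have hs65 : SP.le s6 s4 := SP.trans _ _ _ hs6 hs5
  have hs6s : SP.le s6 s := SP.trans _ _ _ hs65 hs4s
  obtain ⟨s7, hs7, ν, hν, h10⟩ := KillSD_iSup2 (Fo_himp.1 (Fo_iInf.1 (Fo_iInf.1 (Fo_iInf.1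
    (Fo_iInf.1 hE2 i) hi) j) hj) s6 hs6s h7)
  have hs7s : SP.le s7 s := SP.trans _ _ _ hs7 hs6s
  have h11 := le_iff_Fo.1 (HS_clique hF i j ν D) s7
    (Fo_inf.2 ⟨hHi.mono (SP.trans _ _ _ hs7 hs65), h10⟩)
  rw [lift_PD hRS hDS] at h11
  have h12 := (Fo_inf.1 h11).2
  unfold PD at h12
  obtain ⟨s8, hs8, j', hj', h13⟩ := KillSD_iSup2 (Fo_himp.1 (Fo_iInf.1 h12 t) s7 (SP.refl _)
    (h9.mono hs7))
  obtain ⟨s9, hs9, t', h14⟩ := KillSD_iSup1 h13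
  obtain ⟨h15, h16⟩ := Fo_inf.1 h14
  obtain ⟨h17, h18⟩ := Fo_inf.1 h15
  have hs98 : SP.le s9 s7 := SP.trans _ _ _ hs9 hs8
  have hs9s : SP.le s9 s := SP.trans _ _ _ hs98 hs7s
  refine ⟨s9, SP.trans _ _ _ hs98 (SP.trans _ _ _ hs7 (SP.trans _ _ _ hs65 hs4)), ?_⟩
  have h19 : Fo s9 (RS t' q1) := by
    have h20 : Fo s9 (liftS F ξ (relE (LP F ξ) (F ξ) t' t ⊓ relE (LP F ξ) (F ξ) t q1)) := by
      rw [liftS_inf, hRS, hRS]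
      exact Fo_inf.2 ⟨Fo_inf.2 ⟨hst s9 hs9s, h17⟩, Fo_inf.2 ⟨hst s9 hs9s,
        h8.mono (SP.trans _ _ _ hs98 hs7)⟩⟩
    have h21 := le_iff_Fo.1 (liftS_mono (hR.2 t' t q1)) s9 h20
    rw [hRS] at h21
    exact (Fo_inf.1 h21).2
  refine le_iff_Fo.1 (le_iSup (fun j => ⨆ _ : j ∈ Set.Iio δ, ⨆ t, RS t q1 ⊓ RS t j ⊓
    liftS F ξ (D j)) j') s9 ?_
  refine le_iff_Fo.1 (le_iSup (fun _ : j' ∈ Set.Iio δ => ⨆ t, RS t q1 ⊓ RS t j' ⊓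
    liftS F ξ (D j')) (lt_trans (show j' < ν from hj') hν)) s9 ?_
  refine le_iff_Fo.1 (le_iSup (fun t => RS t q1 ⊓ RS t j' ⊓ liftS F ξ (D j')) t') s9 ?_
  exact Fo_inf.2 ⟨Fo_inf.2 ⟨h19, h18⟩, h16⟩

end Pool.Agent.MMA1
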