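import Pool.Agent.MMI.KillSB
import Pool.Agent.MMI.KillSC
import Pool.Agent.MMI.KillSD

/-! # The bad case: the killing forcing destroys preservation of stationary sets -/

set_option autoImplicit false

namespace Pool.Agent.MMA1

open Classical

/-- the killing forcing destroys preservation of stationary sets -/
theorem skill {F : Prg} {ξ : K} (hleg : ∀ η ≤ ξ, Leg F η) (hF : (F ξ).1 = true)
    (hR : IsBPre (relE (LP F ξ) (F ξ))) {RS : W → W → BS}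
    (hRS : ∀ x y, liftS F ξ (relE (LP F ξ) (F ξ) x y) = stg F ξ ⊓ RS x y)
    (p0 : W) (s : SC) (h1 : Order.succ ξ ≤ s.len) (h2 : ∀ η ≤ ξ, s.prg η = F η)
    (hbad : Fo s.cnd (bg (relE (LP F ξ) (F ξ)) p0)ᶜ) : ¬ Fo s (sspc RS) := by
  intro hs
  have h3 : Fo s (⨅ i, denB RS (fun q => ⨆ ν, HS F ξ (Sum.inr (i, q, ν)))) := by
    refine Fo_iInf.2 fun i => ?_
    unfold denB
    refine Fo_iInf.2 fun q0 => Fo_iSup.2 fun s1 hs1 => ?_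
    obtain ⟨s', q, ν, h4, h5, h6⟩ := HS_triple hleg hF hR hRS s1 (h1.trans hs1.1)
      (fun η hη => (hs1.2.1 η ((Order.lt_succ_iff.2 hη).trans_le h1)).trans (h2 η hη)) (hs.mono hs1) i q0
    exact ⟨s', h4, q, Fo_inf.2 ⟨h5, le_iff_Fo.1 (le_iSup (fun ν => HS F ξ (Sum.inr (i, q, ν))) ν) _ h6⟩⟩
  have h4 := ES_stat hleg hF p0 s h1 h2 hbad
  unfold sspc at hs
  have h5 := Fo_iInf.1 (Fo_iInf.1 (Fo_iInf.1 hs (ES F ξ p0)) p0)
    (fun i q => ⨆ ν, HS F ξ (Sum.inr (i, q, ν)))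
  have h6 := Fo_himp.1 h5 s (SP.refl s) (Fo_inf.2 ⟨h4, h3⟩)
  obtain ⟨s1, hs1, q, h7⟩ := Fo_iSup.1 h6 s (SP.refl s)
  obtain ⟨h8, h9⟩ := Fo_inf.1 h7
  obtain ⟨s2, hs2, δ, h10⟩ := Fo_iSup.1 h9 s1 (SP.refl s1)
  obtain ⟨h11, h12⟩ := Fo_inf.1 h10
  have hs12 := SP.trans _ _ _ hs2 hs1
  refine ES_contra hF hR hRS p0 q δ s2 (h1.trans hs12.1)
    (fun η hη => (hs12.2.1 η ((Order.lt_succ_iff.2 hη).trans_le h1)).trans (h2 η hη))
    (h8.mono hs2) h11 fun i hi => ?_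
  exact Fo_iInf.1 (Fo_iInf.1 h12 i) hi

end Pool.Agent.MMA1
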