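import Pool.Agent.MMI.LiftS

/-! # The generic object of the killing forcing: definitions -/

set_option autoImplicit false

namespace Pool.Agent.MMA1

open Classical

/-- Boolean value of `x` being in the generic object, in the algebra of the two step iteration -/
noncomputable def genK {L : Pre Cd} (R : W → W → BA L) (x : XK L) : BA (TS (killB R)) :=
  toB (TS (killB R)) {v | Fo v.1.1 (v.1.2.1 x)}

/-- Boolean value of: the generic object of the killing forcing at `ξ` contains `x` -/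
noncomputable def HS (F : Prg) (ξ : K) (x : XK (LP F ξ)) : BS :=
  toB SP {s | Order.succ ξ ≤ s.len ∧ (∀ η ≤ ξ, s.prg η = F η) ∧
    val (LP F ξ) (killB (relE (LP F ξ) (F ξ))) ξ s.cnd ≤ genK (relE (LP F ξ) (F ξ)) x}

/-- the stationary set which is destroyed -/
noncomputable def ES (F : Prg) (ξ : K) (p0 : W) (δ : W) : BS :=
  (⨆ M : Set (W → BA (LP F ξ)),
    liftS F ξ (⨆ q, relE (LP F ξ) (F ξ) q p0 ⊓ ⨅ D, ⨅ _ : D ∈ M,
      PD (relE (LP F ξ) (F ξ)) D (Set.Iio δ) q)ᶜ ⊓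
    ⨅ D, ⨅ _ : D ∈ M, ⨆ i, ⨆ _ : i < δ, HS F ξ (Sum.inl (i, D))) ⊓
  ⨅ i, ⨅ _ : i < δ, ⨅ q, ⨅ _ : q < δ, (⨆ ν, HS F ξ (Sum.inr (i, q, ν))) ⇨
    ⨆ ν, ⨆ _ : ν < δ, HS F ξ (Sum.inr (i, q, ν))

end Pool.Agent.MMA1
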