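import Pool.Agent.MMI.SGen
import Pool.Agent.MMI.KillSDefs

/-! # The generic object of the killing forcing: basic properties -/

set_option autoImplicit false

namespace Pool.Agent.MMA1

open Classical

/-! ### the stage `ξ + 1` and the generic object -/

/-- comparison at the stage `ξ + 1` -/
theorem KillSA_succ {F : Prg} {ξ : K} (hF : (F ξ).1 = true) {p q : Cd} :
    (LP F ((Order.succ ξ : K) : WithTop K)).le p q ↔ (LP F ξ).le p q ∧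
      val (LP F ξ) (killB (relE (LP F ξ) (F ξ))) ξ p ≤
        val (LP F ξ) (killB (relE (LP F ξ) (F ξ))) ξ q := by
  have hQ : Itd (stp F) ξ = killB (relE (LP F ξ) (F ξ)) := by
    have h1 : Itd (stp F) ξ = itE (LP F ξ) (F ξ) := rfl
    rw [h1]; exact if_pos hF
  have h2 : (LP F ((Order.succ ξ : K) : WithTop K)).le p q ↔
      (nxt (LE (stp F) ξ) (Itd (stp F) ξ) ξ).le p q := LE_succ
  rw [hQ] at h2
  exact h2

/-- the conditions which decide that `x` is in the generic object -/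
def KillSA_G (F : Prg) (ξ : K) (x : XK (LP F ξ)) : Set SC :=
  {s | Order.succ ξ ≤ s.len ∧ (∀ η ≤ ξ, s.prg η = F η) ∧
    val (LP F ξ) (killB (relE (LP F ξ) (F ξ))) ξ s.cnd ≤ genK (relE (LP F ξ) (F ξ)) x}

theorem KillSA_lt {F : Prg} {ξ : K} {G : Prg} (h : ∀ η ≤ ξ, G η = F η) :
    ∀ η < Order.succ ξ, G η = F η := fun η hη => h η (Order.lt_succ_iff.1 hη)

theorem KillSA_lt' {F : Prg} {ξ : K} {G : Prg} (h : ∀ η ≤ ξ, G η = F η) :
    ∀ η < ξ, G η = F η := fun η hη => h η hη.le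

theorem KillSA_ext {F : Prg} {ξ : K} {s t : SC} (h : SP.le t s) (h1 : Order.succ ξ ≤ s.len)
    (h2 : ∀ η ≤ ξ, s.prg η = F η) : Order.succ ξ ≤ t.len ∧ ∀ η ≤ ξ, t.prg η = F η := by
  obtain ⟨h3, h4⟩ := liftS_ext_of_le h1 (KillSA_lt h2) h
  exact ⟨h3, fun η hη => h4 η (Order.lt_succ_iff.2 hη)⟩

theorem KillSA_len {ξ : K} {s : SC} (h1 : Order.succ ξ ≤ s.len) : ξ ≤ s.len :=
  (Order.le_succ ξ).trans h1

theorem KillSA_G_mono {F : Prg} {ξ : K} (hF : (F ξ).1 = true) {s t : SC} {x : XK (LP F ξ)}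
    (h : SP.le t s) (hs : s ∈ KillSA_G F ξ x) : t ∈ KillSA_G F ξ x := by
  obtain ⟨h1, h2, h3⟩ := hs
  obtain ⟨h5, h6⟩ := KillSA_ext h h1 h2
  refine ⟨h5, h6, ?_⟩
  have h7 := liftS_cnd_le h1 (KillSA_lt h2) h
  exact ((KillSA_succ hF).1 h7).2.trans h3

theorem KillSA_Fo_HS {F : Prg} {ξ : K} (hF : (F ξ).1 = true) {s : SC} {x : XK (LP F ξ)} :
    Fo s (HS F ξ x) ↔ ∀ y, SP.le y s → ∃ z, SP.le z y ∧ z ∈ KillSA_G F ξ x := by
  unfold HS
  rw [Fo_toB]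
  constructor
  · intro h y hy
    obtain ⟨z, hz, w, hw, hzw⟩ := h y hy
    exact ⟨z, hz, KillSA_G_mono hF hzw hw⟩
  · intro h y hy
    obtain ⟨z, hz, hzG⟩ := h y hy
    exact ⟨z, hz, z, hzG, SP.refl z⟩

theorem KillSA_Fo_of_G {F : Prg} {ξ : K} (hF : (F ξ).1 = true) {s : SC} {x : XK (LP F ξ)}
    (h : s ∈ KillSA_G F ξ x) : Fo s (HS F ξ x) :=
  (KillSA_Fo_HS hF).2 fun y hy => ⟨y, SP.refl y, KillSA_G_mono hF hy h⟩

/-- elements of the second coordinate are kept by stronger conditions -/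
theorem KillSA_mem_mono {L : Pre Cd} {R : W → W → BA L} {v w : TSC (killB R)} {x : XK L}
    (h : (TS (killB R)).le w v) (hv : Fo v.1.1 (v.1.2.1 x)) : Fo w.1.1 (w.1.2.1 x) := by
  have h1 : Fo w.1.1 (⨅ x, v.1.2.1 x ⇨ w.1.2.1 x) := h.2
  exact Fo_himp.1 (Fo_iInf.1 h1 x) w.1.1 (L.refl _) (hv.mono h.1)

/-- if the generic object contains `x` then densely often the second coordinate contains `x` -/
theorem KillSA_one {L : Pre Cd} {R : W → W → BA L} {v : TSC (killB R)} {x : XK L}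
    (h : Fo v (genK R x)) : ∃ w, (TS (killB R)).le w v ∧ Fo w.1.1 (w.1.2.1 x) := by
  unfold genK at h
  obtain ⟨w, hw, t, ht, hwt⟩ := Fo_toB.1 h v ((TS (killB R)).refl v)
  exact ⟨w, hw, KillSA_mem_mono hwt ht⟩

theorem KillSA_genK {L : Pre Cd} {R : W → W → BA L} {v : TSC (killB R)} {x : XK L}
    (h : Fo v.1.1 (v.1.2.1 x)) : down (TS (killB R)) v ≤ genK R x := by
  rw [down_le_iff]
  unfold genK
  exact Fo_toB.2 fun y hy => ⟨y, (TS (killB R)).refl y, v, h, hy⟩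

theorem KillSA_prj {L : Pre Cd} {Q : BPo L} {η : K} {p y : Cd} (h : L.le y p) :
    ∃ v : TSC Q, L.le v.1.1 y ∧ Fo v (val L Q η p) := by
  have h1 : Fo y (prj Q (val L Q η p)) := by
    rw [prj_val]
    exact Fo_down_of_le h
  exact Fo_prj.1 h1 y (L.refl y)

/-- a condition `v` of the two step iteration below the value of `s` gives an extension of `s` -/
theorem KillSA_push {F : Prg} {ξ : K} (hleg : ∀ η ≤ ξ, Leg F η) (hF : (F ξ).1 = true) (s : SC)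
    (h1 : Order.succ ξ ≤ s.len) (h2 : ∀ η ≤ ξ, s.prg η = F η)
    (v : TSC (killB (relE (LP F ξ) (F ξ))))
    (hv : Fo v (val (LP F ξ) (killB (relE (LP F ξ) (F ξ))) ξ s.cnd)) :
    ∃ s', SP.le s' s ∧ (LP F ξ).le s'.cnd v.1.1 ∧
      val (LP F ξ) (killB (relE (LP F ξ) (F ξ))) ξ s'.cnd ≤
        down (TS (killB (relE (LP F ξ) (F ξ)))) v := by
  have hQ : Itd (stp F) ξ = killB (relE (LP F ξ) (F ξ)) := by
    have h1 : Itd (stp F) ξ = itE (LP F ξ) (F ξ) := rfl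
    rw [h1]; exact if_pos hF
  have hfull : FullQ (killB (relE (LP F ξ) (F ξ))) := by
    have h3 : FullQ (Itd (stp F) ξ) := main_full F (Order.succ ξ)
      (fun η hη => hleg η (Order.lt_succ_iff.1 hη)) ξ (WithTop.coe_lt_coe.2 (Order.lt_succ ξ))
    rw [hQ] at h3
    exact h3
  have hloc : Loc (LP F ξ) ξ := Loc_LE (stp F) ξ
  -- make the first coordinate smaller
  have h3 : Fo v.1.1 (down (LP F ξ) s.cnd) := Fo_emb.1 (le_iff_Fo.1 (val_le_emb _ _ _ _) v hv)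
  obtain ⟨y, hy1, hy2⟩ := Fo_down.1 h3 v.1.1 ((LP F ξ).refl _)
  obtain ⟨p, hp1, hp2⟩ := exists_val_eq hloc hfull (v.lift y hy1)
  have hpy : (LP F ξ).le p y := hloc p y hp1
  have hple : (LP F ((Order.succ ξ : K) : WithTop K)).le p s.cnd := by
    refine (KillSA_succ hF).2 ⟨(LP F ξ).trans _ _ _ hpy hy2, ?_⟩
    rw [hp2, down_le_iff]
    exact hv.mono (v.lift_le y hy1)
  obtain ⟨t, ht, -, -, htp⟩ := exists_cnd s h1 (KillSA_lt h2) hple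
  have h5 := (KillSA_succ hF).1 htp
  refine ⟨t, ht, (LP F ξ).trans _ _ _ h5.1 ((LP F ξ).trans _ _ _ hpy hy1), ?_⟩
  rw [hp2] at h5
  exact h5.2.trans (down_mono (v.lift_le y hy1))

/-! ### the predensity formulas in any algebra -/

theorem KillSA_Fo_PD {X : Type} {L : Pre X} {R : W → W → BA L} {D : W → BA L} {s : Set W} {q : W}
    {x : X} :
    Fo x (PD R D s q) ↔ ∀ q' y, L.le y x → Fo y (R q' q) →
      ∃ z, L.le z y ∧ ∃ j ∈ s, ∃ t, Fo z (R t q') ∧ Fo z (R t j) ∧ Fo z (D j) := by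
  unfold PD
  rw [Fo_iInf]
  refine forall_congr' fun q' => ?_
  rw [Fo_himp]
  constructor
  · intro h y hy hR
    obtain ⟨z, hz, j, hj⟩ := Fo_iSup.1 (h y hy hR) y (L.refl y)
    obtain ⟨z1, hz1, hjs, h1⟩ := Fo_iSup.1 hj z (L.refl z)
    obtain ⟨z2, hz2, t, h2⟩ := Fo_iSup.1 h1 z1 (L.refl z1)
    rw [Fo_inf, Fo_inf] at h2
    exact ⟨z2, L.trans _ _ _ hz2 (L.trans _ _ _ hz1 hz), j, hjs, t, h2.1.1, h2.1.2, h2.2⟩
  · intro h y hy hR
    refine Fo_iSup.2 fun w hw => ?_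
    obtain ⟨z, hz, j, hj, t, h1, h2, h3⟩ := h w (L.trans _ _ _ hw hy) (hR.mono hw)
    refine ⟨z, hz, j, Fo_iSup.2 fun v hv => ⟨v, L.refl v, hj, Fo_iSup.2 fun u hu =>
      ⟨u, L.refl u, t, ?_⟩⟩⟩
    have huz := L.trans _ _ _ hu hv
    rw [Fo_inf, Fo_inf]
    exact ⟨⟨h1.mono huz, h2.mono huz⟩, h3.mono huz⟩

theorem KillSA_Fo_denB {X : Type} {L : Pre X} {R : W → W → BA L} {D : W → BA L} {x : X} :
    Fo x (denB R D) ↔ ∀ q y, L.le y x → ∃ z, L.le z y ∧ ∃ j, Fo z (R j q) ∧ Fo z (D j) := by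
  unfold denB
  rw [Fo_iInf]
  refine forall_congr' fun q => ?_
  rw [Fo_iSup]
  refine forall_congr' fun y => forall_congr' fun _ => exists_congr fun z => and_congr_right fun _ =>
    exists_congr fun j => ?_
  rw [Fo_inf]

/-- if `(i, D)` is in the generic object then `D` is dense -/
theorem HS_dense {F : Prg} {ξ : K} (hF : (F ξ).1 = true) (i : W) (D : W → BA (LP F ξ)) :
    HS F ξ (Sum.inl (i, D)) ≤ liftS F ξ (denB (relE (LP F ξ) (F ξ)) D) := by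
  refine le_iff_Fo.2 fun s hs => Fo_reg fun t ht => ?_
  obtain ⟨z, hz, hzG⟩ := (KillSA_Fo_HS hF).1 hs t ht
  refine ⟨z, hz, (Fo_liftS (KillSA_len hzG.1) (KillSA_lt' hzG.2.1)).2 (Fo_reg fun y hy => ?_)⟩
  obtain ⟨v, hv1, hv2⟩ := KillSA_prj (Q := killB (relE (LP F ξ) (F ξ))) (η := ξ) hy
  obtain ⟨w, hw, hwx⟩ := KillSA_one (le_iff_Fo.1 hzG.2.2 v hv2)
  refine ⟨w.1.1, (LP F ξ).trans _ _ _ hw.1 hv1, ?_⟩
  have h3 : Fo w.1.1 (mK (relE (LP F ξ) (F ξ)) w.1.2.1) := w.2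
  exact (KillUnion_mK.1 h3).1 i D w.1.1 ((LP F ξ).refl _) hwx

/-- the clique property of the generic object -/
theorem HS_clique {F : Prg} {ξ : K} (hF : (F ξ).1 = true) (i q ν : W) (D : W → BA (LP F ξ)) :
    HS F ξ (Sum.inl (i, D)) ⊓ HS F ξ (Sum.inr (i, q, ν)) ≤
      liftS F ξ (PD (relE (LP F ξ) (F ξ)) D (Set.Iio ν) q) := by
  refine le_iff_Fo.2 fun s hs => Fo_reg fun t ht => ?_
  obtain ⟨hs1, hs2⟩ := Fo_inf.1 hs
  obtain ⟨z0, hz0, hzG0⟩ := (KillSA_Fo_HS hF).1 hs1 t ht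
  obtain ⟨z, hz, hzG⟩ := (KillSA_Fo_HS hF).1 hs2 z0 (SP.trans _ _ _ hz0 ht)
  have hzG1 := KillSA_G_mono hF hz hzG0
  refine ⟨z, SP.trans _ _ _ hz hz0,
    (Fo_liftS (KillSA_len hzG.1) (KillSA_lt' hzG.2.1)).2 (Fo_reg fun y hy => ?_)⟩
  obtain ⟨v, hv1, hv2⟩ := KillSA_prj (Q := killB (relE (LP F ξ) (F ξ))) (η := ξ) hy
  obtain ⟨w, hw, hwx⟩ := KillSA_one (le_iff_Fo.1 hzG.2.2 v hv2)
  have hv3 := hv2.mono hw
  obtain ⟨w2, hw2, hwx2⟩ := KillSA_one (le_iff_Fo.1 hzG1.2.2 w hv3)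
  refine ⟨w2.1.1, (LP F ξ).trans _ _ _ hw2.1 ((LP F ξ).trans _ _ _ hw.1 hv1), ?_⟩
  have h3 : Fo w2.1.1 (mK (relE (LP F ξ) (F ξ)) w2.1.2.1) := w2.2
  exact (KillUnion_mK.1 h3).2 i D q ν w2.1.1 ((LP F ξ).refl _) hwx2 (KillSA_mem_mono hw2 hwx)

/-- every dense set is put into the generic object at some index -/
theorem HS_add {F : Prg} {ξ : K} (hleg : ∀ η ≤ ξ, Leg F η) (hF : (F ξ).1 = true)
    (D : W → BA (LP F ξ)) (s : SC) (h1 : Order.succ ξ ≤ s.len) (h2 : ∀ η ≤ ξ, s.prg η = F η)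
    (hD : Fo s.cnd (denB (relE (LP F ξ) (F ξ)) D)) :
    ∃ s' i, SP.le s' s ∧ Fo s' (HS F ξ (Sum.inl (i, D))) := by
  obtain ⟨v, hv⟩ := ne_bot_iff.1 (val_ne_bot (LP F ξ) (killB (relE (LP F ξ) (F ξ))) ξ s.cnd)
  have hvD : Fo v.1.1 (denB (relE (LP F ξ) (F ξ)) D) := by
    have h3 : Fo v.1.1 (down (LP F ξ) s.cnd) := Fo_emb.1 (le_iff_Fo.1 (val_le_emb _ _ _ _) v hv)
    exact le_iff_Fo.1 (down_le_iff.2 hD) _ h3
  -- a countable model
  have hG : GenEx (LE (stp F) ξ) ξ :=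
    GenEx_of_PI (main_PI F ξ fun η hη => hleg η hη.le)
  have hMF : ∀ᶠ z in MF, (FixW z → Fix z ξ → ∀ p p', Un.cd p ∈ z.1 → z.2 (Un.cd p) = Un.cd p' →
      ∃ c, GenH (LP F ξ) z.1 z.2 c ∧ (LP F ξ).le c p ∧ (LP F ξ).le c p') ∧
      (∀ c, Gen (LP F ξ) z.1 c → ∀ u : XK (LP F ξ) → BA (LP F ξ), BCtbl u →
        Un.xd (codeX u) ∈ z.1 → ∀ q, (LP F ξ).le q c → ∀ x, Fo q (u x) → cX x ∈ z.1) ∧
      (∀ x y, Un.pair x y ∈ z.1 ↔ x ∈ z.1 ∧ y ∈ z.1) ∧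
      (∃ δ : W, dl z.1 = Set.Iio δ ∧ (∃ β, β < δ) ∧ ∀ β < δ, ∃ γ < δ, β < γ) := by
    filter_upwards [hG, kill_mem (LP F ξ), MF_pair, MF_dl] with z a1 a2 a3 a4
    exact ⟨a1, a2, a3, a4⟩
  obtain ⟨N, hAN, hN1, hN2, hN3, δ, hδ, -⟩ := MF_exists hMF
    (A := {Un.cd v.1.1, Un.xd (codeX v.1.2.1)}) (Set.toFinite _).countable
  obtain ⟨c, hc, hcv, -⟩ := hN1 (fun α _ => rfl) (fun ζ _ _ => rfl) v.1.1 v.1.1
    (hAN (by simp)) rfl
  have hu : BCtbl v.1.2.1 := v.1.2.2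
  have hmem := hN2 c hc.1 v.1.2.1 hu (hAN (by simp))
  have hδN : ¬ Un.ww δ ∈ N := by
    intro h
    have h3 : δ ∈ dl N := h
    rw [hδ] at h3
    exact lt_irrefl δ (Set.mem_Iio.1 h3)
  -- the new condition
  let x0 : XK (LP F ξ) := Sum.inl (δ, D)
  let u' : XK (LP F ξ) → BA (LP F ξ) := fun x => v.1.2.1 x ⊔ (if x = x0 then (⊤ : BA (LP F ξ)) else ⊥)
  have hu' : BCtbl u' := BCtbl_sup hu (BCtbl_single x0)
  have hne : ∀ x, x ≠ x0 → u' x = v.1.2.1 x := by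
    intro x hx
    show v.1.2.1 x ⊔ (if x = x0 then (⊤ : BA (LP F ξ)) else ⊥) = v.1.2.1 x
    rw [if_neg hx, sup_bot_eq]
  have hvm : Fo v.1.1 (mK (relE (LP F ξ) (F ξ)) v.1.2.1) := v.2
  have hcm := KillUnion_mK.1 (hvm.mono hcv)
  have hm : Fo c (mK (relE (LP F ξ) (F ξ)) u') := by
    refine KillUnion_mK.2 ⟨?_, ?_⟩
    · intro i' D' r hr hrx
      by_cases hx : (Sum.inl (i', D') : XK (LP F ξ)) = x0
      · have h4 : D' = D := by
          have := Sum.inl.inj hx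
          exact (Prod.mk.inj this).2
        rw [h4]
        exact hvD.mono ((LP F ξ).trans _ _ _ hr hcv)
      · rw [hne _ hx] at hrx
        exact hcm.1 i' D' r hr hrx
    · intro i' D' q ν r hr hrx hry
      have h5 : (Sum.inr (i', q, ν) : XK (LP F ξ)) ≠ x0 := Sum.inr_ne_inl
      rw [hne _ h5] at hry
      by_cases hx : (Sum.inl (i', D') : XK (LP F ξ)) = x0
      · exfalso
        have h4 : i' = δ := by
          have := Sum.inl.inj hx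
          exact (Prod.mk.inj this).1
        have h6 := hmem r hr _ hry
        have h7 : cX (L := LP F ξ) (Sum.inr (i', q, ν)) =
          Un.pair (Un.ww i') (Un.pair (Un.ww q) (Un.ww ν)) := rfl
        rw [h7] at h6
        have h8 := ((hN3 _ _).1 h6).1
        rw [h4] at h8
        exact hδN h8
      · rw [hne _ hx] at hrx
        exact hcm.2 i' D' q ν r hr hrx hry
  let v' : TSC (killB (relE (LP F ξ) (F ξ))) := ⟨(c, ⟨u', hu'⟩), hm⟩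
  have hv'v : (TS (killB (relE (LP F ξ) (F ξ)))).le v' v := by
    refine ⟨hcv, ?_⟩
    show Fo c (⨅ x, v.1.2.1 x ⇨ u' x)
    refine Fo_iInf.2 fun x => Fo_himp.2 fun y _ hy => ?_
    exact le_iff_Fo.1 le_sup_left y hy
  obtain ⟨s', hs', -, hval⟩ := KillSA_push hleg hF s h1 h2 v' (hv.mono hv'v)
  obtain ⟨h8, h9⟩ := KillSA_ext hs' h1 h2
  refine ⟨s', δ, hs', KillSA_Fo_of_G hF ⟨h8, h9, hval.trans (KillSA_genK ?_)⟩⟩
  show Fo c (v.1.2.1 x0 ⊔ (if x0 = x0 then (⊤ : BA (LP F ξ)) else ⊥))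
  rw [if_pos rfl, sup_top_eq]
  exact Fo_top c

end Pool.Agent.MMA1
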