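import Pool.Agent.MMI.KillSA

/-! # The generic object of the killing forcing: triples -/

set_option autoImplicit false

namespace Pool.Agent.MMA1

open Classical

/-- names for the dense sets of a countable set -/
theorem KillSB_names {L : Pre Cd} {R : W → W → BA L} (hR : ∀ x, R x x = ⊤) {u : XK L → BA L}
    (hu : BCtbl u) {a : Cd}
    (ha : ∀ i D r, L.le r a → Fo r (u (Sum.inl (i, D))) → Fo r (denB R D)) :
    ∃ Dn : ℕ → W → BA L, (∀ n, Fo a (denB R (Dn n))) ∧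
      ∀ i D r, Fo r (u (Sum.inl (i, D))) → ∀ r', L.le r' r → ∃ r'', L.le r'' r' ∧
        ∃ n, ∀ y t, L.le t r'' → (Fo t (Dn n y) ↔ Fo t (D y)) := by
  obtain ⟨v, hv1, hv2⟩ := hu
  let Sn : ℕ → BA L := fun n => ⨆ j, ⨆ D, v n (Sum.inl (j, D))
  let Dn : ℕ → W → BA L := fun n y => (⨆ j, ⨆ D : W → BA L, v n (Sum.inl (j, D)) ⊓ D y) ⊔ (Sn n)ᶜ
  have hS : ∀ n j D, v n (Sum.inl (j, D)) ≤ Sn n := fun n j D =>
    (le_iSup (fun D => v n (Sum.inl (j, D))) D).trans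
      (le_iSup (fun j => ⨆ D, v n (Sum.inl (j, D))) j)
  have claim1 : ∀ n j D r, Fo r (v n (Sum.inl (j, D))) → ∀ y t, L.le t r →
      (Fo t (Dn n y) ↔ Fo t (D y)) := by
    intro n j D r hr y t ht
    constructor
    · intro h
      refine Fo_reg fun w hw => ?_
      obtain ⟨w', hw', h3 | h3⟩ := Fo_sup.1 h w hw
      · obtain ⟨w1, hw1, j', h4⟩ := Fo_iSup.1 h3 w' (L.refl w')
        obtain ⟨w2, hw2, D', h5⟩ := Fo_iSup.1 h4 w1 (L.refl w1)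
        have hle : L.le w2 r := L.trans _ _ _ hw2 (L.trans _ _ _ hw1 (L.trans _ _ _ hw'
          (L.trans _ _ _ hw ht)))
        by_cases hx : (Sum.inl (j', D') : XK L) = Sum.inl (j, D)
        · have h6 : D' = D := by
            have := Sum.inl.inj hx
            exact (Prod.mk.inj this).2
          rw [h6] at h5
          exact ⟨w2, L.trans _ _ _ hw2 (L.trans _ _ _ hw1 hw'), (Fo_inf.1 h5).2⟩
        · exfalso
          have h7 : Fo w2 (v n (Sum.inl (j', D')) ⊓ v n (Sum.inl (j, D))) :=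
            Fo_inf.2 ⟨(Fo_inf.1 h5).1, hr.mono hle⟩
          rw [hv1 n _ _ hx] at h7
          exact not_Fo_bot _ h7
      · exfalso
        have hle : L.le w' r := L.trans _ _ _ hw' (L.trans _ _ _ hw ht)
        exact Fo_compl.1 h3 w' (L.refl w') (le_iff_Fo.1 (hS n j D) w' (hr.mono hle))
    · intro h
      have h3 : v n (Sum.inl (j, D)) ⊓ D y ≤ Dn n y := by
        refine le_trans ?_ le_sup_left
        exact (le_iSup (fun D : W → BA L => v n (Sum.inl (j, D)) ⊓ D y) D).trans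
          (le_iSup (fun j => ⨆ D : W → BA L, v n (Sum.inl (j, D)) ⊓ D y) j)
      exact le_iff_Fo.1 h3 t (Fo_inf.2 ⟨hr.mono ht, h⟩)
  refine ⟨Dn, ?_, ?_⟩
  · intro n
    refine KillSA_Fo_denB.2 fun q y hy => ?_
    by_cases hx : ∃ w, L.le w y ∧ Fo w (Sn n)
    · obtain ⟨w, hw, hwS⟩ := hx
      obtain ⟨w1, hw1, j, h3⟩ := Fo_iSup.1 hwS w (L.refl w)
      obtain ⟨w2, hw2, D, h4⟩ := Fo_iSup.1 h3 w1 (L.refl w1)
      have hle : L.le w2 y := L.trans _ _ _ hw2 (L.trans _ _ _ hw1 hw)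
      have h5 : Fo w2 (u (Sum.inl (j, D))) := by
        rw [hv2]
        exact le_iff_Fo.1 (le_iSup (fun n => v n (Sum.inl (j, D))) n) w2 h4
      have h6 := ha j D w2 (L.trans _ _ _ hle hy) h5
      obtain ⟨z, hz, k, hk1, hk2⟩ := KillSA_Fo_denB.1 h6 q w2 (L.refl w2)
      exact ⟨z, L.trans _ _ _ hz hle, k, hk1, (claim1 n j D w2 h4 k z hz).2 hk2⟩
    · push Not at hx
      have h3 : Fo y (Sn n)ᶜ := Fo_compl.2 hx
      refine ⟨y, L.refl y, q, ?_, le_iff_Fo.1 le_sup_right y h3⟩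
      rw [hR q]
      exact Fo_top y
  · intro i D r hr r' hr'
    rw [hv2] at hr
    obtain ⟨r'', hr'', n, hn⟩ := Fo_iSup.1 hr r' hr'
    exact ⟨r'', hr'', n, fun y t ht => claim1 n i D r'' hn y t ht⟩

/-- preservation of stationary sets gives triples below every `q0`, for every index -/
theorem HS_triple {F : Prg} {ξ : K} (hleg : ∀ η ≤ ξ, Leg F η) (hF : (F ξ).1 = true)
    (hR : IsBPre (relE (LP F ξ) (F ξ))) {RS : W → W → BS}
    (hRS : ∀ x y, liftS F ξ (relE (LP F ξ) (F ξ) x y) = stg F ξ ⊓ RS x y)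
    (s : SC) (h1 : Order.succ ξ ≤ s.len) (h2 : ∀ η ≤ ξ, s.prg η = F η) (hs : Fo s (sspc RS))
    (i q0 : W) :
    ∃ s' q ν, SP.le s' s ∧ Fo s' (RS q q0) ∧ Fo s' (HS F ξ (Sum.inr (i, q, ν))) := by
  have hLR : ∀ x y, LRel F ξ (relE (LP F ξ) (F ξ) x y) (RS x y) := hRS
  obtain ⟨v0, hv0⟩ := ne_bot_iff.1 (val_ne_bot (LP F ξ) (killB (relE (LP F ξ) (F ξ))) ξ s.cnd)
  have hv3 : Fo v0.1.1 (down (LP F ξ) s.cnd) := Fo_emb.1 (le_iff_Fo.1 (val_le_emb _ _ _ _) v0 hv0)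
  obtain ⟨y0, hy1, hy2⟩ := Fo_down.1 hv3 v0.1.1 ((LP F ξ).refl _)
  obtain ⟨v, hvs, hv⟩ : ∃ v : TSC (killB (relE (LP F ξ) (F ξ))), (LP F ξ).le v.1.1 s.cnd ∧
      Fo v (val (LP F ξ) (killB (relE (LP F ξ) (F ξ))) ξ s.cnd) :=
    ⟨v0.lift y0 hy1, hy2, hv0.mono (v0.lift_le y0 hy1)⟩
  have hvm : Fo v.1.1 (mK (relE (LP F ξ) (F ξ)) v.1.2.1) := v.2
  have hvm2 := KillUnion_mK.1 hvm
  have hu : BCtbl v.1.2.1 := v.1.2.2
  obtain ⟨Dn, hDn1, hDn2⟩ := KillSB_names hR.1 hu hvm2.1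
  -- a condition whose part below `ξ` is below `v`
  obtain ⟨s2, hs2, hs2l, hs2p, hs2v⟩ := exists_cnd s (KillSA_len h1) (KillSA_lt' h2) hvs
  obtain ⟨h3, h4⟩ := KillSA_ext hs2 h1 h2
  -- the sequence of indices
  haveI : Infinite W := Cardinal.infinite_iff.2 (by rw [mk_W]; exact Cardinal.aleph0_le_aleph 1)
  let w : ℕ → W := Infinite.natEmbedding W
  have hw : Function.Injective w := (Infinite.natEmbedding W).injective
  obtain ⟨δ0, hδ0⟩ := W_bdd (Set.countable_range w)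
  let A : W → W → BS := fun k x => if h : ∃ n, w n = k then liftS F ξ (Dn h.choose x) else ⊤
  have hA : ∀ n, A (w n) = fun x => liftS F ξ (Dn n x) := by
    intro n
    funext x
    have hex : ∃ m, w m = w n := ⟨n, rfl⟩
    show (if h : ∃ m, w m = w n then liftS F ξ (Dn h.choose x) else ⊤) = _
    rw [dif_pos hex, hw hex.choose_spec]
  have hA2 : ∀ k, (¬ ∃ n, w n = k) → A k = fun _ => ⊤ := by
    intro k hk
    funext x
    show (if h : ∃ m, w m = k then liftS F ξ (Dn h.choose x) else ⊤) = _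
    rw [dif_neg hk]
  let E : W → BS := fun δ => if δ0 < δ then ⊤ else ⊥
  have hDS : ∀ n x, liftS F ξ (Dn n x) = stg F ξ ⊓ liftS F ξ (Dn n x) := fun n x =>
    (inf_eq_right.2 (liftS_le_stg _)).symm
  have hstat : Fo s2 (statB E) := by
    unfold statB
    refine Fo_iInf.2 fun C => Fo_himp.2 fun y _ hy => ?_
    unfold clubB at hy
    have h5 := Fo_iInf.1 (Fo_inf.1 hy).1 δ0
    have h6 : (⨆ δ, ⨆ _ : δ0 < δ, C δ) ≤ ⨆ δ, E δ ⊓ C δ := by
      refine iSup_le fun δ => iSup_le fun hδ => le_iSup_of_le δ ?_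
      show C δ ≤ (if δ0 < δ then (⊤ : BS) else ⊥) ⊓ C δ
      rw [if_pos hδ, top_inf_eq]
    exact le_iff_Fo.1 h6 y h5
  have hden : ∀ k, Fo s2 (denB RS (A k)) := by
    intro k
    by_cases hk : ∃ n, w n = k
    · obtain ⟨n, rfl⟩ := hk
      rw [hA n]
      have h5 := lift_denB (F := F) (ξ := ξ) hRS (hDS n)
      have h6 : Fo s2 (liftS F ξ (denB (relE (LP F ξ) (F ξ)) (Dn n))) :=
        (Fo_liftS (KillSA_len h3) (KillSA_lt' h4)).2 ((hDn1 n).mono hs2v)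
      rw [h5] at h6
      exact (Fo_inf.1 h6).2
    · rw [hA2 k hk]
      refine KillSA_Fo_denB.2 fun q y hy => ⟨y, SP.refl y, q, ?_, Fo_top y⟩
      obtain ⟨h5, h6⟩ := KillSA_ext hy h3 h4
      refine ((hLR q q).Fo_iff (KillSA_len h5) (KillSA_lt' h6)).1 ?_
      rw [hR.1 q]
      exact Fo_top _
  unfold sspc at hs
  have h5 := Fo_iInf.1 (Fo_iInf.1 (Fo_iInf.1 hs E) q0) A
  have h6 := Fo_himp.1 h5 s2 hs2 (Fo_inf.2 ⟨hstat, Fo_iInf.2 hden⟩)
  obtain ⟨s3, hs3, q, h7⟩ := Fo_iSup.1 h6 s2 (SP.refl s2)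
  obtain ⟨h8, h9⟩ := Fo_inf.1 h7
  obtain ⟨s4, hs4, δ, h10⟩ := Fo_iSup.1 h9 s3 (SP.refl s3)
  obtain ⟨h11, h12⟩ := Fo_inf.1 h10
  have hδ : δ0 < δ := by
    by_contra hcon
    have h13 : E δ = ⊥ := if_neg hcon
    rw [h13] at h11
    exact not_Fo_bot _ h11
  have hs42 := SP.trans _ _ _ hs4 hs3
  obtain ⟨h13, h14⟩ := KillSA_ext hs42 h3 h4
  have hav : (LP F ξ).le s4.cnd v.1.1 := (LP F ξ).trans _ _ _
    (liftS_cnd_le (KillSA_len h3) (KillSA_lt' h4) hs42) hs2v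
  have hPD : ∀ n, Fo s4.cnd (PD (relE (LP F ξ) (F ξ)) (Dn n) (Set.Iio δ) q) := by
    intro n
    have h15 := Fo_iInf.1 (Fo_iInf.1 h12 (w n)) ((hδ0 (w n) ⟨n, rfl⟩).trans hδ)
    rw [hA n] at h15
    have h16 := lift_PD (F := F) (ξ := ξ) hRS (hDS n) (Set.Iio δ) q
    refine (Fo_liftS (KillSA_len h13) (KillSA_lt' h14)).1 ?_
    rw [h16]
    exact Fo_inf.2 ⟨Fo_stg (KillSA_len h13) (KillSA_lt' h14), h15⟩
  have hRq : Fo s4.cnd (relE (LP F ξ) (F ξ) q q0) :=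
    ((hLR q q0).Fo_iff (KillSA_len h13) (KillSA_lt' h14)).2 (h8.mono hs4)
  -- the new condition
  let x0 : XK (LP F ξ) := Sum.inr (i, q, δ)
  let u' : XK (LP F ξ) → BA (LP F ξ) := fun x => v.1.2.1 x ⊔ (if x = x0 then (⊤ : BA (LP F ξ)) else ⊥)
  have hu' : BCtbl u' := BCtbl_sup hu (BCtbl_single x0)
  have hne : ∀ x, x ≠ x0 → u' x = v.1.2.1 x := by
    intro x hx
    show v.1.2.1 x ⊔ (if x = x0 then (⊤ : BA (LP F ξ)) else ⊥) = v.1.2.1 x
    rw [if_neg hx, sup_bot_eq]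
  have hcm := KillUnion_mK.1 (hvm.mono hav)
  have hm : Fo s4.cnd (mK (relE (LP F ξ) (F ξ)) u') := by
    refine KillUnion_mK.2 ⟨?_, ?_⟩
    · intro i' D' r hr hrx
      rw [hne _ (show (Sum.inl (i', D') : XK (LP F ξ)) ≠ x0 from Sum.inl_ne_inr)] at hrx
      exact hcm.1 i' D' r hr hrx
    · intro i' D' q' ν r hr hrx hry
      rw [hne _ (show (Sum.inl (i', D') : XK (LP F ξ)) ≠ x0 from Sum.inl_ne_inr)] at hrx
      by_cases hx : (Sum.inr (i', q', ν) : XK (LP F ξ)) = x0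
      · have h15 := Prod.mk.inj (Sum.inr.inj hx)
        have h16 := Prod.mk.inj h15.2
        rw [h16.1, h16.2]
        refine Fo_reg fun r' hr' => ?_
        obtain ⟨r'', hr'', n, hn⟩ := hDn2 i' D' r hrx r' hr'
        refine ⟨r'', hr'', ?_⟩
        have hle : (LP F ξ).le r'' s4.cnd :=
          (LP F ξ).trans _ _ _ hr'' ((LP F ξ).trans _ _ _ hr' hr)
        have h17 := KillSA_Fo_PD.1 ((hPD n).mono hle)
        refine KillSA_Fo_PD.2 fun q1 y hy hq1 => ?_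
        obtain ⟨z, hz, j, hj, t, ht1, ht2, ht3⟩ := h17 q1 y hy hq1
        exact ⟨z, hz, j, hj, t, ht1, ht2, (hn j z ((LP F ξ).trans _ _ _ hz hy)).1 ht3⟩
      · rw [hne _ hx] at hry
        exact hcm.2 i' D' q' ν r hr hrx hry
  let v' : TSC (killB (relE (LP F ξ) (F ξ))) := ⟨(s4.cnd, ⟨u', hu'⟩), hm⟩
  have hv'v : (TS (killB (relE (LP F ξ) (F ξ)))).le v' v := by
    refine ⟨hav, ?_⟩
    show Fo s4.cnd (⨅ x, v.1.2.1 x ⇨ u' x)
    refine Fo_iInf.2 fun x => Fo_himp.2 fun y _ hy => ?_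
    exact le_iff_Fo.1 le_sup_left y hy
  obtain ⟨s', hs', hs'c, hval⟩ := KillSA_push hleg hF s h1 h2 v' (hv.mono hv'v)
  obtain ⟨h18, h19⟩ := KillSA_ext hs' h1 h2
  refine ⟨s', q, δ, hs', ?_, KillSA_Fo_of_G hF ⟨h18, h19, hval.trans (KillSA_genK ?_)⟩⟩
  · exact ((hLR q q0).Fo_iff (KillSA_len h18) (KillSA_lt' h19)).1 (hRq.mono hs'c)
  · show Fo s4.cnd (v.1.2.1 x0 ⊔ (if x0 = x0 then (⊤ : BA (LP F ξ)) else ⊥))
    rw [if_pos rfl, sup_top_eq]
    exact Fo_top _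

end Pool.Agent.MMA1
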