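import Pool.Agent.MMI.Fo

/-! # Unions of names of conditions of the killing forcing -/

set_option autoImplicit false

namespace Pool.Agent.MMA1

open Classical

variable {L : Pre Cd}

theorem KillUnion_of {X κ : Type} (hκ : Countable κ) {u : X → BA L} (w : κ → X → BA L)
    (hw : ∀ k x x', x ≠ x' → w k x ⊓ w k x' = ⊥) (hu : ∀ x, u x = ⨆ k, w k x) : BCtbl u := by
  haveI : Encodable κ := Encodable.ofCountable κ
  refine ⟨fun n x => (Encodable.decode (α := κ) n).elim ⊥ fun k => w k x, ?_, ?_⟩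
  · intro n x x' hx
    cases h : Encodable.decode (α := κ) n with
    | none => simp [h]
    | some k => simpa [h] using hw k x x' hx
  · intro x
    rw [hu x]
    refine le_antisymm (iSup_le fun k => ?_) (iSup_le fun n => ?_)
    · refine le_iSup_of_le (Encodable.encode k) ?_
      simp
    · cases h : Encodable.decode (α := κ) n with
      | none => simp [h]
      | some k => simpa [h] using le_iSup (fun k => w k x) k

/-- countable mixtures of countable names -/
theorem BCtbl_mix {ι : Type} (hι : Countable ι) {U : ι → BA L} (u : ι → XK L → BA L)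
    (hu : ∀ i, BCtbl (u i)) : BCtbl (fun x => ⨆ i, U i ⊓ u i x) := by
  choose v hv1 hv2 using hu
  refine KillUnion_of (κ := ι × ℕ) inferInstance (fun k x => U k.1 ⊓ v k.1 k.2 x) ?_ ?_
  · intro k x x' hx
    refine le_bot_iff.1 ?_
    rw [← hv1 k.1 k.2 x x' hx]
    exact inf_le_inf inf_le_right inf_le_right
  · intro x
    rw [iSup_prod]
    refine iSup_congr fun i => ?_
    rw [hv2 i x, inf_iSup_eq]

theorem BCtbl_iSup {ι : Type} (hι : Countable ι) (u : ι → XK L → BA L) (hu : ∀ i, BCtbl (u i)) :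
    BCtbl (fun x => ⨆ i, u i x) := by
  have h := BCtbl_mix hι (U := fun _ => ⊤) u hu
  simpa using h

theorem BCtbl_sup {u v : XK L → BA L} (hu : BCtbl u) (hv : BCtbl v) : BCtbl (fun x => u x ⊔ v x) := by
  have h := BCtbl_iSup (ι := Bool) inferInstance (fun b => if b = true then u else v) (by
    intro b
    cases b
    · simpa using hv
    · simpa using hu)
  have h2 : (fun x => ⨆ b : Bool, (if b = true then u else v) x) = fun x => u x ⊔ v x := by
    funext x
    rw [iSup_bool_eq]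
    simp
  rw [h2] at h
  exact h

theorem BCtbl_single (x0 : XK L) : BCtbl (fun x => if x = x0 then (⊤ : BA L) else ⊥) := by
  refine ⟨fun _ x => if x = x0 then (⊤ : BA L) else ⊥, ?_, ?_⟩
  · intro n x x' hx
    by_cases h : x = x0
    · have h' : x' ≠ x0 := fun h2 => hx (h.trans h2.symm)
      simp [h, h']
    · simp [h]
  · intro x
    simp

theorem KillUnion_mK {R : W → W → BA L} {c : Cd} {u : XK L → BA L} : Fo c (mK R u) ↔
    (∀ i D r, L.le r c → Fo r (u (Sum.inl (i, D))) → Fo r (denB R D)) ∧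
    ∀ i D q ν r, L.le r c → Fo r (u (Sum.inl (i, D))) → Fo r (u (Sum.inr (i, q, ν))) →
      Fo r (PD R D (Set.Iio ν) q) := by
  unfold mK
  simp only [Fo_inf, Fo_iInf, Fo_himp, and_imp]

/-- The union of two increasing sequences of conditions with the same triples is a condition. -/
theorem mK_union (R : W → W → BA L) (c : Cd) (u u' : ℕ → XK L → BA L)
    (hm : ∀ n, Fo c (mK R (u n))) (hm' : ∀ n, Fo c (mK R (u' n)))
    (hinc : ∀ n x q, L.le q c → Fo q (u n x) → Fo q (u (n + 1) x))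
    (hinc' : ∀ n x q, L.le q c → Fo q (u' n x) → Fo q (u' (n + 1) x))
    (ht : ∀ n t q, L.le q c → (Fo q (u n (Sum.inr t)) ↔ Fo q (u' n (Sum.inr t)))) :
    Fo c (mK R (fun x => ⨆ n, (u n x ⊔ u' n x))) := by
  have hinc2 : ∀ n k x q, L.le q c → n ≤ k → Fo q (u n x) → Fo q (u k x) := by
    intro n k x q hq hnk h
    induction k, hnk using Nat.le_induction with
    | base => exact h
    | succ k hk ih => exact hinc k x q hq ih
  have hinc2' : ∀ n k x q, L.le q c → n ≤ k → Fo q (u' n x) → Fo q (u' k x) := by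
    intro n k x q hq hnk h
    induction k, hnk using Nat.le_induction with
    | base => exact h
    | succ k hk ih => exact hinc' k x q hq ih
  have key : ∀ x r, Fo r (⨆ n, (u n x ⊔ u' n x)) → ∃ r', L.le r' r ∧ ∃ n, Fo r' (u n x) ∨ Fo r' (u' n x) := by
    intro x r hr
    obtain ⟨z, hz, n, hn⟩ := Fo_iSup.1 hr r (L.refl r)
    obtain ⟨w, hw, h⟩ := Fo_sup.1 hn z (L.refl z)
    exact ⟨w, L.trans _ _ _ hw hz, n, h⟩
  rw [KillUnion_mK]
  constructor
  · intro i D r hr h
    refine Fo_reg fun y hy => ?_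
    obtain ⟨r', hr', n, h1⟩ := key _ y (h.mono hy)
    have h2 : L.le r' c := L.trans _ _ _ hr' (L.trans _ _ _ hy hr)
    refine ⟨r', hr', ?_⟩
    rcases h1 with h1 | h1
    · exact (KillUnion_mK.1 (hm n)).1 i D r' h2 h1
    · exact (KillUnion_mK.1 (hm' n)).1 i D r' h2 h1
  · intro i D q ν r hr h h'
    refine Fo_reg fun y hy => ?_
    obtain ⟨r', hr', n, h1⟩ := key _ y (h.mono hy)
    have h2 : L.le r' c := L.trans _ _ _ hr' (L.trans _ _ _ hy hr)
    obtain ⟨r'', hr'', m, h3⟩ := key _ r' (h'.mono (L.trans _ _ _ hr' hy))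
    have h4 : L.le r'' c := L.trans _ _ _ hr'' h2
    have h5 : Fo r'' (u m (Sum.inr (i, q, ν))) ∧ Fo r'' (u' m (Sum.inr (i, q, ν))) := by
      rcases h3 with h3 | h3
      · exact ⟨h3, (ht m _ r'' h4).1 h3⟩
      · exact ⟨(ht m _ r'' h4).2 h3, h3⟩
    refine ⟨r'', L.trans _ _ _ hr'' hr', ?_⟩
    rcases h1 with h1 | h1
    · exact (KillUnion_mK.1 (hm (max n m))).2 i D q ν r'' h4
        (hinc2 n _ _ _ h4 (le_max_left _ _) (h1.mono hr''))
        (hinc2 m _ _ _ h4 (le_max_right _ _) h5.1)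
    · exact (KillUnion_mK.1 (hm' (max n m))).2 i D q ν r'' h4
        (hinc2' n _ _ _ h4 (le_max_left _ _) (h1.mono hr''))
        (hinc2' m _ _ _ h4 (le_max_right _ _) h5.2)

/-- a name which is below `U i` equal to a condition is a condition -/
theorem mK_mix (R : W → W → BA L) (c : Cd) {ι : Type} (U : ι → BA L)
    (hU : ∀ i j, i ≠ j → U i ⊓ U j = ⊥) (u : ι → XK L → BA L)
    (hcov : ∀ r, L.le r c → ∃ i r', L.le r' r ∧ Fo r' (U i))
    (hm : ∀ i r, L.le r c → Fo r (U i) → Fo r (mK R (u i))) :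
    Fo c (mK R (fun x => ⨆ i, U i ⊓ u i x)) := by
  have key : ∀ x r, Fo r (⨆ i, U i ⊓ u i x) → ∃ r', L.le r' r ∧ ∃ i, Fo r' (U i) ∧ Fo r' (u i x) := by
    intro x r hr
    obtain ⟨z, hz, n, hn⟩ := Fo_iSup.1 hr r (L.refl r)
    exact ⟨z, hz, n, Fo_inf.1 hn⟩
  rw [KillUnion_mK]
  constructor
  · intro i D r hr h
    refine Fo_reg fun y hy => ?_
    obtain ⟨r', hr', n, h1, h1'⟩ := key _ y (h.mono hy)
    have h2 : L.le r' c := L.trans _ _ _ hr' (L.trans _ _ _ hy hr)
    exact ⟨r', hr', (KillUnion_mK.1 (hm n r' h2 h1)).1 i D r' (L.refl r') h1'⟩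
  · intro i D q ν r hr h h'
    refine Fo_reg fun y hy => ?_
    obtain ⟨r', hr', n, h1, h1'⟩ := key _ y (h.mono hy)
    have h2 : L.le r' c := L.trans _ _ _ hr' (L.trans _ _ _ hy hr)
    obtain ⟨r'', hr'', m, h3, h3'⟩ := key _ r' (h'.mono (L.trans _ _ _ hr' hy))
    have h4 : L.le r'' c := L.trans _ _ _ hr'' h2
    have h5 : n = m := by
      by_contra hne
      have h6 : Fo r'' (U n ⊓ U m) := Fo_inf.2 ⟨h1.mono hr'', h3⟩
      rw [hU n m hne] at h6
      exact not_Fo_bot _ h6
    subst h5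
    exact ⟨r'', L.trans _ _ _ hr'' hr', (KillUnion_mK.1 (hm n r'' h4 h3)).2 i D q ν r'' (L.refl r'')
      (h1'.mono hr'') h3'⟩

end Pool.Agent.MMA1
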