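import Pool.Agent.MMI.Fo

/-! # Names for sequences of labels -/

set_option autoImplicit false

namespace Pool.Agent.MMA1

open Classical

/-- a maximal antichain of elements of a set -/
theorem LabSeq_antichain {X : Type} (L : Pre X) (S : Set X) :
    ∃ A : Set X, A ⊆ S ∧ (∀ x ∈ A, ∀ y ∈ A, x ≠ y → ¬ L.Comp x y) ∧ ∀ s ∈ S, ∃ a ∈ A, L.Comp s a := by
  obtain ⟨A, hA⟩ := zorn_subset {A : Set X | A ⊆ S ∧ ∀ x ∈ A, ∀ y ∈ A, x ≠ y → ¬ L.Comp x y} (by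
    intro c hc hchain
    refine ⟨⋃₀ c, ⟨Set.sUnion_subset fun s hs => (hc hs).1, ?_⟩, fun s hs => Set.subset_sUnion_of_mem hs⟩
    rintro x ⟨s, hs, hxs⟩ y ⟨t, ht, hyt⟩ hxy
    rcases hchain.total hs ht with h | h
    · exact (hc ht).2 x (h hxs) y hyt hxy
    · exact (hc hs).2 x hxs y (h hyt) hxy)
  refine ⟨A, hA.prop.1, hA.prop.2, ?_⟩
  intro s hs
  by_contra hcon
  push Not at hcon
  have hsA : s ∉ A := fun h => hcon s h ⟨s, L.refl s, L.refl s⟩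
  have h1 : insert s A ∈ {A : Set X | A ⊆ S ∧ ∀ x ∈ A, ∀ y ∈ A, x ≠ y → ¬ L.Comp x y} := by
    refine ⟨Set.insert_subset hs hA.prop.1, ?_⟩
    rintro x (rfl | hx) y (rfl | hy) hxy
    · exact absurd rfl hxy
    · exact hcon y hy
    · rintro ⟨z, hz1, hz2⟩
      exact hcon x hx ⟨z, hz2, hz1⟩
    · exact hA.prop.2 x hx y hy hxy
  exact hsA (hA.le_of_ge h1 (Set.subset_insert s A) (Set.mem_insert s A))

/-- Let `M` be a countable set of names and assume that below `c` every name in `M` can be extended into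
the dense set `T n` by a name in `M`, decided by a condition in `C`.  Then there is a name for a decreasing
sequence: `f n y` is the Boolean value of `y` being the `n`-th element. -/
theorem lab_seq {L : Pre Cd} (Q : BPo L) (c : Cd) (M : Set Q.Y) (hM : M.Countable) (C : Set Cd)
    (T : ℕ → Set (TSC Q))
    (hT : ∀ n, ∀ y ∈ M, ∀ q, L.le q c → Fo q (Q.m y) →
      ∃ t ∈ T n, t.1.1 ∈ C ∧ t.1.2 ∈ M ∧ L.Comp t.1.1 q ∧ Fo t.1.1 (Q.r t.1.2 y))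
    (y0 : Q.Y) (hy0 : y0 ∈ M) (hc0 : Fo c (Q.m y0)) :
    ∃ f : ℕ → Q.Y → BA L, (∀ n y y', y ≠ y' → f n y ⊓ f n y' = ⊥) ∧
      (∀ n y, f n y ≠ ⊥ → y ∈ M) ∧ (∀ r, L.le r c → Fo r (f 0 y0)) ∧
      (∀ n r, L.le r c → ∃ y r', L.le r' r ∧ Fo r' (f n y)) ∧
      (∀ n y r, L.le r c → Fo r (f n y) → Fo r (Q.m y)) ∧
      (∀ n y y' r, L.le r c → Fo r (f n y) → Fo r (f (n + 1) y') → Fo r (Q.r y' y)) ∧
      (∀ n y r, L.le r c → Fo r (f (n + 1) y) →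
        ∃ r', L.le r' r ∧ ∃ t ∈ T n, t.1.1 ∈ C ∧ t.1.2 = y ∧ L.le r' t.1.1) := by
  set I : (Q.Y → BA L) → Prop := fun f => (∀ y y', y ≠ y' → f y ⊓ f y' = ⊥) ∧
      (∀ y, f y ≠ ⊥ → y ∈ M) ∧ (∀ r, L.le r c → ∃ y r', L.le r' r ∧ Fo r' (f y)) ∧
      (∀ y r, L.le r c → Fo r (f y) → Fo r (Q.m y)) with hI
  have step : ∀ n (f : Q.Y → BA L), I f → ∃ g, I g ∧
      (∀ y y' r, L.le r c → Fo r (f y) → Fo r (g y') → Fo r (Q.r y' y)) ∧
      (∀ y r, L.le r c → Fo r (g y) →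
        ∃ r', L.le r' r ∧ ∃ t ∈ T n, t.1.1 ∈ C ∧ t.1.2 = y ∧ L.le r' t.1.1) := by
    intro n f hf
    obtain ⟨hf1, hf2, hf3, hf4⟩ := hf
    obtain ⟨A, hA1, hA2, hA3⟩ := LabSeq_antichain L {r | L.le r c ∧ ∃ y, Fo r (f y) ∧
      ∃ t ∈ T n, t.1.1 ∈ C ∧ t.1.2 ∈ M ∧ L.le r t.1.1 ∧ Fo t.1.1 (Q.r t.1.2 y)}
    have hA4 : ∀ a : A, ∃ t : TSC Q, ∃ y, Fo a.1 (f y) ∧ t ∈ T n ∧ t.1.1 ∈ C ∧ t.1.2 ∈ M ∧
        L.le a.1 t.1.1 ∧ Fo t.1.1 (Q.r t.1.2 y) := by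
      intro a
      obtain ⟨-, y, hy, t, ht⟩ := hA1 a.2
      exact ⟨t, y, hy, ht⟩
    choose t ya ht1 ht2 ht3 ht4 ht5 ht6 using hA4
    have hg : ∀ y r, Fo r (⨆ a : A, ⨆ _ : (t a).1.2 = y, down L a.1) →
        ∃ r', L.le r' r ∧ ∃ a : A, (t a).1.2 = y ∧ L.le r' a.1 := by
      intro y r hr
      obtain ⟨z, hz, a, ha⟩ := Fo_iSup.1 hr r (L.refl r)
      obtain ⟨w, hw, hay, h1⟩ := Fo_iSup.1 ha z (L.refl z)
      obtain ⟨v, hv1, hv2⟩ := Fo_down.1 h1 w (L.refl w)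
      exact ⟨v, L.trans _ _ _ hv1 (L.trans _ _ _ hw hz), a, hay, hv2⟩
    refine ⟨fun y => ⨆ a : A, ⨆ _ : (t a).1.2 = y, down L a.1, ⟨?_, ?_, ?_, ?_⟩, ?_, ?_⟩
    · intro y y' hyy
      by_contra hne
      obtain ⟨x, hx⟩ := ne_bot_iff.1 hne
      obtain ⟨hx1, hx2⟩ := Fo_inf.1 hx
      obtain ⟨r, hr, a, ha, hra⟩ := hg y x hx1
      obtain ⟨r', hr', a', ha', hra'⟩ := hg y' r (hx2.mono hr)
      refine hA2 a.1 a.2 a'.1 a'.2 ?_ ⟨r', L.trans _ _ _ hr' hra, hra'⟩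
      intro h
      have h2 : a = a' := Subtype.ext h
      subst h2
      exact hyy (ha.symm.trans ha')
    · intro y hy
      obtain ⟨x, hx⟩ := ne_bot_iff.1 hy
      obtain ⟨r, hr, a, ha, hra⟩ := hg y x hx
      rw [← ha]
      exact ht4 a
    · intro r hr
      obtain ⟨y, r1, hr1, h1⟩ := hf3 r hr
      have hr1c : L.le r1 c := L.trans _ _ _ hr1 hr
      have hyM : y ∈ M := hf2 y (ne_bot_iff.2 ⟨r1, h1⟩)
      obtain ⟨s, hs, hsC, hsM, ⟨r2, hr2, hr2'⟩, hsr⟩ := hT n y hyM r1 hr1c (hf4 y r1 hr1c h1)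
      obtain ⟨a, ha, r3, hr3, hr3'⟩ := hA3 r2 ⟨L.trans _ _ _ hr2' hr1c, y, h1.mono hr2', s, hs, hsC, hsM,
        hr2, hsr⟩
      refine ⟨(t ⟨a, ha⟩).1.2, r3, L.trans _ _ _ hr3 (L.trans _ _ _ hr2' hr1), ?_⟩
      refine le_iff_Fo.1 ?_ r3 (Fo_down_of_le hr3')
      exact le_iSup_of_le (⟨a, ha⟩ : A) (le_iSup_of_le rfl le_rfl)
    · intro y r hr h
      refine Fo_reg fun z hz => ?_
      obtain ⟨r', hr', a, ha, hra⟩ := hg y z (h.mono hz)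
      refine ⟨r', hr', ?_⟩
      rw [← ha]
      exact (t a).2.mono (L.trans _ _ _ hra (ht5 a))
    · intro y y' r hr h h'
      refine Fo_reg fun z hz => ?_
      obtain ⟨r', hr', a, ha, hra⟩ := hg y' z (h'.mono hz)
      refine ⟨r', hr', ?_⟩
      have h1 : ya a = y := by
        by_contra hne
        have h2 : Fo r' (f (ya a) ⊓ f y) :=
          Fo_inf.2 ⟨(ht1 a).mono hra, h.mono (L.trans _ _ _ hr' hz)⟩
        rw [hf1 _ _ hne] at h2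
        exact not_Fo_bot _ h2
      rw [← ha, ← h1]
      exact (ht6 a).mono (L.trans _ _ _ hra (ht5 a))
    · intro y r hr h
      obtain ⟨r', hr', a, ha, hra⟩ := hg y r h
      exact ⟨r', hr', t a, ht2 a, ht3 a, ha, L.trans _ _ _ hra (ht5 a)⟩
  have h0 : I (fun y => if y = y0 then ⊤ else ⊥) := by
    refine ⟨?_, ?_, ?_, ?_⟩
    · intro y y' hyy
      by_cases h : y = y0
      · have h' : y' ≠ y0 := fun h2 => hyy (h.trans h2.symm)
        simp [h']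
      · simp [h]
    · intro y hy
      by_cases h : y = y0
      · rw [h]; exact hy0
      · simp [h] at hy
    · intro r _
      refine ⟨y0, r, L.refl r, ?_⟩
      simp only [if_true]
      exact Fo_top r
    · intro y r hr h
      by_cases hy : y = y0
      · rw [hy]; exact hc0.mono hr
      · simp only [hy, if_false] at h
        exact absurd h (not_Fo_bot r)
  let F : ℕ → {f : Q.Y → BA L // I f} := fun n => Nat.rec ⟨_, h0⟩
    (fun n f => ⟨(step n f.1 f.2).choose, (step n f.1 f.2).choose_spec.1⟩) n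
  have hF : ∀ n, (∀ y y' r, L.le r c → Fo r ((F n).1 y) → Fo r ((F (n + 1)).1 y') → Fo r (Q.r y' y)) ∧
      (∀ y r, L.le r c → Fo r ((F (n + 1)).1 y) →
        ∃ r', L.le r' r ∧ ∃ t ∈ T n, t.1.1 ∈ C ∧ t.1.2 = y ∧ L.le r' t.1.1) :=
    fun n => (step n (F n).1 (F n).2).choose_spec.2
  refine ⟨fun n => (F n).1, fun n => (F n).2.1, fun n => (F n).2.2.1, ?_, fun n => (F n).2.2.2.1,
    fun n => (F n).2.2.2.2, fun n => (hF n).1, fun n => (hF n).2⟩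
  intro r _
  change Fo r (if y0 = y0 then ⊤ else ⊥)
  rw [if_pos rfl]
  exact Fo_top r

end Pool.Agent.MMA1
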