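import Pool.Agent.MMI.KillNames
import Pool.Agent.MMI.KillUnion
import Pool.Agent.MMI.LabSeq
import Pool.Agent.MMI.Gok

/-! # Generic conditions for the killing forcing -/

set_option autoImplicit false

namespace Pool.Agent.MMA1

open Classical

theorem killSeq_iSup {L : Pre Cd} {ι : Type} {U : ι → BA L} {V : ι → BA L} {q : Cd}
    (h : Fo q (⨆ i, U i ⊓ V i)) : ∃ q', L.le q' q ∧ ∃ i, Fo q' (U i) ∧ Fo q' (V i) := by
  obtain ⟨q', hq', i, hi⟩ := Fo_iSup.1 h q (L.refl q)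
  exact ⟨q', hq', i, (Fo_inf.1 hi).1, (Fo_inf.1 hi).2⟩

theorem killSeq_of {L : Pre Cd} {ι : Type} {U : ι → BA L} {V : ι → BA L} {q : Cd} (i : ι)
    (h : Fo q (U i)) (h' : Fo q (V i)) : Fo q (⨆ i, U i ⊓ V i) :=
  Fo_iSup.2 fun y hy => ⟨y, L.refl y, i, Fo_inf.2 ⟨h.mono hy, h'.mono hy⟩⟩

theorem killSeq_r {L : Pre Cd} {R : W → W → BA L} {u v : (killB R).Y} {q : Cd} :
    Fo q ((killB R).r u v) ↔ ∀ x r, L.le r q → Fo r (v.1 x) → Fo r (u.1 x) := by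
  show Fo q (⨅ x, v.1 x ⇨ u.1 x) ↔ _
  rw [Fo_iInf]
  exact forall_congr' fun x => Fo_himp

/-- extension of a generic condition by a common lower bound of a generic sequence and its image -/
theorem kill_seq (L : Pre Cd) (R : W → W → BA L) :
    ∀ᶠ z in MF, FixW z → ∀ c, GenH L z.1 z.2 c → ∀ T : ℕ → Set (TSC (killB R)),
      (∀ n y, cY y ∈ z.1 → ∀ q, L.le q c → Fo q ((killB R).m y) →
        ∃ t ∈ T n, InT cY z.1 t ∧ L.Comp t.1.1 q ∧ Fo t.1.1 ((killB R).r t.1.2 y)) →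
      ∀ y0 y0' : (killB R).Y, cY y0 ∈ z.1 → z.2 (cY y0) = cY y0' → Fo c ((killB R).m y0) →
      ∃ w : (killB R).Y, Fo c ((killB R).m w) ∧ Fo c ((killB R).r w y0) ∧ Fo c ((killB R).r w y0') ∧
        ∀ n q, L.le q c → ∃ q' t, L.le q' q ∧ t ∈ T n ∧ InT cY z.1 t ∧ L.le q' t.1.1 ∧
          Fo q' ((killB R).r w t.1.2) ∧
          ∀ y', z.2 (cY t.1.2) = cY y' → Fo q' ((killB R).r w y') := by
  filter_upwards [kill_triple L, kill_mK L R, kill_rK L R, MF_ctb, MF_type (cY (R := R))] with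
    z hz1 hz2 hz3 hctb hty hW c hc T hT y0 y0' hy0 hyy0 hm0
  let M : Set (killB R).Y := {y | cY y ∈ z.1}
  have hM : M.Countable := Set.Countable.preimage_of_injOn hctb.1 (fun _ _ _ _ h => cY_inj h)
  have hMc : Countable M := hM.to_subtype
  obtain ⟨f, f1, f2, f3, f4, f5, f6, f7⟩ := lab_seq (killB R) c M hM {x | Un.cd x ∈ z.1} T
    (fun n y hy q hq hqy => by
      obtain ⟨t, h1, h2, h3, h4⟩ := hT n y hy q hq hqy
      exact ⟨t, h1, h2.1, h2.2, h3, h4⟩) y0 hy0 hm0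
  let H : (killB R).Y → (killB R).Y := fun y =>
    if h : ∃ y' : (killB R).Y, z.2 (cY y) = cY y' then h.choose else y
  have hH : ∀ y, cY y ∈ z.1 → z.2 (cY y) = cY (H y) := by
    intro y hy
    have h : ∃ y' : (killB R).Y, z.2 (cY y) = cY y' := hty y hy
    show _ = cY (if h : ∃ y' : (killB R).Y, z.2 (cY y) = cY y' then h.choose else y)
    rw [dif_pos h]
    exact h.choose_spec
  have hHeq : ∀ y y', cY y ∈ z.1 → z.2 (cY y) = cY y' → y' = H y := fun y y' hy hyy =>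
    cY_inj (hyy.symm.trans (hH y hy))
  have fM : ∀ n y q, Fo q (f n y) → y ∈ M := fun n y q h => f2 n y (ne_bot_iff.2 ⟨q, h⟩)
  let u : ℕ → XK L → BA L := fun n x => ⨆ y : M, f n y.1 ⊓ y.1.1 x
  let u' : ℕ → XK L → BA L := fun n x => ⨆ y : M, f n y.1 ⊓ (H y.1).1 x
  have hcov : ∀ n r, L.le r c → ∃ (i : M) (r' : Cd), L.le r' r ∧ Fo r' (f n i.1) := by
    intro n r hr
    obtain ⟨y, r', hr', hy⟩ := f4 n r hr
    exact ⟨⟨y, fM n y r' hy⟩, r', hr', hy⟩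
  have hub : ∀ n, BCtbl (u n) := fun n => BCtbl_mix hMc (fun y : M => y.1.1) fun y => y.1.2
  have hub' : ∀ n, BCtbl (u' n) := fun n => BCtbl_mix hMc (fun y : M => (H y.1).1) fun y => (H y.1).2
  have hwb : BCtbl (fun x => ⨆ n, (u n x ⊔ u' n x)) :=
    BCtbl_iSup inferInstance (fun n x => u n x ⊔ u' n x) fun n => BCtbl_sup (hub n) (hub' n)
  have hm : ∀ n, Fo c (mK R (u n)) := fun n =>
    mK_mix R c (fun y : M => f n y.1) (fun i j hij => f1 n i.1 j.1 fun h => hij (Subtype.ext h))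
      (fun y : M => y.1.1) (hcov n) fun i r hr hi => f5 n i.1 r hr hi
  have hm' : ∀ n, Fo c (mK R (u' n)) := fun n =>
    mK_mix R c (fun y : M => f n y.1) (fun i j hij => f1 n i.1 j.1 fun h => hij (Subtype.ext h))
      (fun y : M => (H y.1).1) (hcov n) fun i r hr hi =>
        (hz2 c hc i.1 (H i.1) i.2 (hH i.1 i.2) r hr).1 (f5 n i.1 r hr hi)
  have hinc : ∀ n x q, L.le q c → Fo q (u n x) → Fo q (u (n + 1) x) := by
    intro n x q hq hx
    refine Fo_reg fun q1 hq1 => ?_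
    obtain ⟨q2, hq2, y, hy1, hy2⟩ := killSeq_iSup (hx.mono hq1)
    have hq2c := L.trans _ _ _ (L.trans _ _ _ hq2 hq1) hq
    obtain ⟨y', q3, hq3, hy'⟩ := hcov (n + 1) q2 hq2c
    refine ⟨q3, L.trans _ _ _ hq3 hq2, killSeq_of y' hy' ?_⟩
    exact killSeq_r.1 (f6 n y.1 y'.1 q3 (L.trans _ _ _ hq3 hq2c) (hy1.mono hq3) hy') x q3
      (L.refl q3) (hy2.mono hq3)
  have hinc' : ∀ n x q, L.le q c → Fo q (u' n x) → Fo q (u' (n + 1) x) := by
    intro n x q hq hx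
    refine Fo_reg fun q1 hq1 => ?_
    obtain ⟨q2, hq2, y, hy1, hy2⟩ := killSeq_iSup (hx.mono hq1)
    have hq2c := L.trans _ _ _ (L.trans _ _ _ hq2 hq1) hq
    obtain ⟨y', q3, hq3, hy'⟩ := hcov (n + 1) q2 hq2c
    have hq3c := L.trans _ _ _ hq3 hq2c
    refine ⟨q3, L.trans _ _ _ hq3 hq2, killSeq_of y' hy' ?_⟩
    exact killSeq_r.1 ((hz3 c hc y'.1 (H y'.1) y.1 (H y.1) y'.2 (hH _ y'.2) y.2 (hH _ y.2) q3
      hq3c).1 (f6 n y.1 y'.1 q3 hq3c (hy1.mono hq3) hy')) x q3 (L.refl q3) (hy2.mono hq3)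
  have ht : ∀ n t q, L.le q c → (Fo q (u n (Sum.inr t)) ↔ Fo q (u' n (Sum.inr t))) := by
    intro n t q hq
    constructor
    · intro hx
      refine Fo_reg fun q1 hq1 => ?_
      obtain ⟨q2, hq2, y, hy1, hy2⟩ := killSeq_iSup (hx.mono hq1)
      have hq2c := L.trans _ _ _ (L.trans _ _ _ hq2 hq1) hq
      exact ⟨q2, hq2, killSeq_of y hy1
        ((hz1 hW c hc y.1.1 (H y.1).1 y.1.2 y.2 (hH _ y.2) q2 hq2c t).1 hy2)⟩
    · intro hx
      refine Fo_reg fun q1 hq1 => ?_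
      obtain ⟨q2, hq2, y, hy1, hy2⟩ := killSeq_iSup (hx.mono hq1)
      have hq2c := L.trans _ _ _ (L.trans _ _ _ hq2 hq1) hq
      exact ⟨q2, hq2, killSeq_of y hy1
        ((hz1 hW c hc y.1.1 (H y.1).1 y.1.2 y.2 (hH _ y.2) q2 hq2c t).2 hy2)⟩
  let w : (killB R).Y := ⟨fun x => ⨆ n, (u n x ⊔ u' n x), hwb⟩
  have hw : ∀ n y q, Fo q (f n y) → Fo q ((killB R).r w y) := by
    intro n y q hy
    refine killSeq_r.2 fun x r hr hx => ?_
    have h1 : Fo r (u n x) := killSeq_of (⟨y, fM n y q hy⟩ : M) (hy.mono hr) hx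
    exact le_iff_Fo.1 (le_sup_left.trans (le_iSup (fun n => u n x ⊔ u' n x) n)) r h1
  have hw' : ∀ n y q, Fo q (f n y) → Fo q ((killB R).r w (H y)) := by
    intro n y q hy
    refine killSeq_r.2 fun x r hr hx => ?_
    have h1 : Fo r (u' n x) := killSeq_of (⟨y, fM n y q hy⟩ : M) (hy.mono hr) hx
    exact le_iff_Fo.1 (le_sup_right.trans (le_iSup (fun n => u n x ⊔ u' n x) n)) r h1
  refine ⟨w, mK_union R c u u' hm hm' hinc hinc' ht, hw 0 y0 c (f3 c (L.refl c)), ?_, ?_⟩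
  · rw [hHeq y0 y0' hy0 hyy0]
    exact hw' 0 y0 c (f3 c (L.refl c))
  · intro n q hq
    obtain ⟨y, r', hr', hy⟩ := f4 (n + 1) q hq
    obtain ⟨r'', hr'', t, htT, htC, rfl, htr⟩ := f7 n y r' (L.trans _ _ _ hr' hq) hy
    have hyM : t.1.2 ∈ M := fM _ _ _ hy
    refine ⟨r'', t, L.trans _ _ _ hr'' hr', htT, ⟨htC, hyM⟩, htr, hw _ _ _ (hy.mono hr''), ?_⟩
    intro y' hy'
    rw [hHeq _ y' hyM hy']
    exact hw' _ _ _ (hy.mono hr'')

end Pool.Agent.MMA1
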