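import Pool.Agent.MMI.MFlt

/-! # Codes -/

set_option autoImplicit false

namespace Pool.Agent.MMA1

open Classical

/-! ### codes -/

theorem kk_inj : Function.Injective Un.kk := fun a b h => by cases h; rfl
theorem ww_inj : Function.Injective Un.ww := fun a b h => by cases h; rfl
theorem cd_inj : Function.Injective Un.cd := fun a b h => by cases h; rfl
theorem st_inj : Function.Injective Un.st := fun a b h => by cases h; rfl
theorem wd_inj : Function.Injective Un.wd := fun a b h => by cases h; rfl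
theorem xd_inj : Function.Injective Un.xd := fun a b h => by cases h; rfl
theorem pr_inj : Function.Injective Un.pr := fun a b h => by cases h; rfl
theorem sd_inj : Function.Injective Un.sd := fun a b h => by cases h; rfl

theorem codeD_inj {L : Pre Cd} : Function.Injective (codeD (L := L)) := by
  intro D D' h
  funext w
  refine BA_ext fun x => ?_
  have h1 : (w, x) ∈ codeD D ↔ (w, x) ∈ codeD D' := by rw [h]
  exact h1

theorem mem_codeX_inl {L : Pre Cd} {u : XK L → BA L} {i : W} {D : W → BA L} {x : Cd} :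
    ((Sum.inl (i, codeD D), x) : ((W × Set (W × Cd)) ⊕ (W × W × W)) × Cd) ∈ codeX u ↔
      Fo x (u (Sum.inl (i, D))) := by
  constructor
  · rintro (⟨i', D', h1, h2⟩ | ⟨t, h1, -⟩)
    · have h3 : i = i' ∧ codeD D = codeD D' := by
        have := Sum.inl.inj h1
        exact ⟨congrArg Prod.fst this, congrArg Prod.snd this⟩
      obtain ⟨rfl, h4⟩ := h3
      rw [codeD_inj h4]
      exact h2
    · cases h1
  · intro h
    exact Or.inl ⟨i, D, rfl, h⟩

theorem mem_codeX_inr {L : Pre Cd} {u : XK L → BA L} {t : W × W × W} {x : Cd} :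
    ((Sum.inr t, x) : ((W × Set (W × Cd)) ⊕ (W × W × W)) × Cd) ∈ codeX u ↔
      Fo x (u (Sum.inr t)) := by
  constructor
  · rintro (⟨i', D', h1, -⟩ | ⟨t', h1, h2⟩)
    · cases h1
    · have h3 : t = t' := Sum.inr.inj h1
      rw [h3]
      exact h2
  · intro h
    exact Or.inr ⟨t, rfl, h⟩

theorem codeX_inj {L : Pre Cd} : Function.Injective (codeX (L := L)) := by
  intro u u' h
  funext t
  refine BA_ext fun x => ?_
  rcases t with ⟨i, D⟩ | t
  · rw [← mem_codeX_inl, ← mem_codeX_inl, h]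
  · rw [← mem_codeX_inr, ← mem_codeX_inr, h]

/-- code of an element of the algebra -/
def cU {L : Pre Cd} (U : BA L) : Un := Un.st {x | Fo x U}

theorem cU_inj {L : Pre Cd} : Function.Injective (cU (L := L)) := by
  intro U V h
  have h1 : {x | Fo x U} = {x | Fo x V} := st_inj h
  refine BA_ext fun x => ?_
  have h2 : x ∈ {x | Fo x U} ↔ x ∈ {x | Fo x V} := by rw [h1]
  exact h2

/-- code of a name of a subset of `W` -/
def cD {L : Pre Cd} (D : W → BA L) : Un := Un.wd (codeD D)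

theorem cD_inj {L : Pre Cd} : Function.Injective (cD (L := L)) :=
  wd_inj.comp codeD_inj

/-- code of a condition of the killing forcing -/
def cY {L : Pre Cd} {R : W → W → BA L} (u : (killB R).Y) : Un := Un.xd (codeX u.1)

theorem cY_inj {L : Pre Cd} {R : W → W → BA L} : Function.Injective (cY (R := R)) :=
  fun _ _ h => Subtype.ext (codeX_inj (xd_inj h))

/-- code of an element of `XK L` -/
def cX {L : Pre Cd} : XK L → Un
  | Sum.inl (i, D) => Un.pair (Un.ww i) (cD D)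
  | Sum.inr (i, q, ν) => Un.pair (Un.ww i) (Un.pair (Un.ww q) (Un.ww ν))

theorem cX_inj {L : Pre Cd} : Function.Injective (cX (L := L)) := by
  intro a b h
  rcases a with ⟨i, D⟩ | ⟨i, q, ν⟩ <;> rcases b with ⟨i', D'⟩ | ⟨i', q', ν'⟩
  · have h1 : Un.pair (Un.ww i) (cD D) = Un.pair (Un.ww i') (cD D') := h
    obtain ⟨h2, h3⟩ := Un.pair.inj h1
    rw [ww_inj h2, cD_inj h3]
  · have h1 : Un.pair (Un.ww i) (cD D) = Un.pair (Un.ww i') (Un.pair (Un.ww q') (Un.ww ν')) := h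
    obtain ⟨-, h3⟩ := Un.pair.inj h1
    cases h3
  · have h1 : Un.pair (Un.ww i) (Un.pair (Un.ww q) (Un.ww ν)) = Un.pair (Un.ww i') (cD D') := h
    obtain ⟨-, h3⟩ := Un.pair.inj h1
    cases h3
  · have h1 : Un.pair (Un.ww i) (Un.pair (Un.ww q) (Un.ww ν)) =
      Un.pair (Un.ww i') (Un.pair (Un.ww q') (Un.ww ν')) := h
    obtain ⟨h2, h3⟩ := Un.pair.inj h1
    obtain ⟨h4, h5⟩ := Un.pair.inj h3
    rw [ww_inj h2, ww_inj h4, ww_inj h5]

/-- code of a condition of the final forcing -/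
def cS (s : SC) : Un := Un.pair (Un.kk s.len) (Un.pair (Un.pr s.prg) (Un.cd s.cnd))

theorem cS_inj : Function.Injective cS := by
  intro s t h
  have h1 : Un.pair (Un.kk s.len) (Un.pair (Un.pr s.prg) (Un.cd s.cnd)) =
    Un.pair (Un.kk t.len) (Un.pair (Un.pr t.prg) (Un.cd t.cnd)) := h
  obtain ⟨h2, h3⟩ := Un.pair.inj h1
  obtain ⟨h4, h5⟩ := Un.pair.inj h3
  refine Subtype.ext (Prod.ext (kk_inj h2) (Prod.ext (pr_inj h4) (cd_inj h5)))

theorem MF_InN : ∀ᶠ z in MF, ∀ s, cS s ∈ z.1 ↔ InN z.1 s := by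
  filter_upwards [MF_pair] with z hz s
  unfold cS InN
  rw [hz, hz]

/-- the countable ordinals in `N` form a limit ordinal -/
theorem MF_dl : ∀ᶠ z in MF, ∃ δ : W, dl z.1 = Set.Iio δ ∧ (∃ β, β < δ) ∧ ∀ β < δ, ∃ γ < δ, β < γ := by
  have he : ∀ α : W, ∃ e : ℕ → W, Set.Iio α ⊆ Set.range e := fun α =>
    Set.countable_iff_exists_subset_range.1 (Iio_W_countable α)
  choose e he using he
  have h1 : ∀ᶠ z in MF, ∀ n : ℕ, ∀ a, Un.ww a ∈ z.1 → Un.ww (e a n) ∈ z.1 := by
    rw [eventually_countable_forall]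
    intro n
    filter_upwards [MF_fun Un.ww ww_inj Un.ww fun a => e a n] with z hz a ha
    exact (hz a ha).1
  have h2 : ∀ α : W, ∃ β : W, α < β := fun α => exists_gt α
  choose f hf using h2
  obtain ⟨α0⟩ := (inferInstance : Nonempty W)
  filter_upwards [h1, MF_fun Un.ww ww_inj Un.ww f, MF_const (Un.ww α0), MF_ctb] with z h1 h2 h3 h4
  have hc : (dl z.1).Countable := by
    have h5 : (Un.ww ⁻¹' z.1).Countable := h4.1.preimage_of_injOn ww_inj.injOn
    exact h5
  have hdown : ∀ α ∈ dl z.1, ∀ β < α, β ∈ dl z.1 := by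
    intro α hα β hβ
    obtain ⟨n, hn⟩ := he α hβ
    rw [← hn]
    exact h1 n α hα
  have hne : ((dl z.1)ᶜ).Nonempty := by
    obtain ⟨μ, hμ⟩ := W_bdd hc
    exact ⟨μ, fun h => lt_irrefl _ (hμ μ h)⟩
  let δ : W := (wellFounded_lt (α := W)).min (dl z.1)ᶜ hne
  have hδ1 : δ ∉ dl z.1 := (wellFounded_lt (α := W)).min_mem _ hne
  have hδ2 : ∀ β < δ, β ∈ dl z.1 := by
    intro β hβ
    by_contra hcon
    exact (wellFounded_lt (α := W)).not_lt_min _ (x := β) hcon hβ
  have hδ3 : ∀ β ∈ dl z.1, β < δ := by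
    intro β hβ
    rcases lt_trichotomy β δ with h | h | h
    · exact h
    · rw [h] at hβ
      exact absurd hβ hδ1
    · exact absurd (hdown β hβ δ h) hδ1
  refine ⟨δ, Set.ext fun β => ⟨hδ3 β, hδ2 β⟩, ⟨α0, hδ3 α0 h3.1⟩, fun β hβ => ?_⟩
  exact ⟨f β, hδ3 _ (h2 β (hδ2 β hβ)).1, hf β⟩

theorem MCod_supp (p : Cd) : ∃ e : ℕ → K, ∀ ζ, p.at ζ ≠ none → ∃ n, e n = ζ := by
  obtain ⟨e, he⟩ := Set.countable_iff_exists_subset_range.1 p.2
  exact ⟨e, fun ζ hζ => he hζ⟩

/-- the supports of the conditions in `N` are in `N` -/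
theorem MF_supp : ∀ᶠ z in MF, ∀ p ζ, Un.cd p ∈ z.1 → p.at ζ ≠ none → Un.kk ζ ∈ z.1 := by
  choose e he using MCod_supp
  have h1 : ∀ᶠ z in MF, ∀ n : ℕ, ∀ p, Un.cd p ∈ z.1 → Un.kk (e p n) ∈ z.1 := by
    rw [eventually_countable_forall]
    intro n
    filter_upwards [MF_fun Un.cd cd_inj Un.kk fun p => e p n] with z hz p hp
    exact (hz p hp).1
  filter_upwards [h1] with z h1 p ζ hp hζ
  obtain ⟨n, hn⟩ := he p ζ hζ
  rw [← hn]
  exact h1 n p hp

/-- the support of the image of a condition in `N` consists of images of elements of `N` -/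
theorem MF_supp' : ∀ᶠ z in MF, ∀ p p' ζ', Un.cd p ∈ z.1 → z.2 (Un.cd p) = Un.cd p' → p'.at ζ' ≠ none →
    ∃ ζ, Un.kk ζ ∈ z.1 ∧ z.2 (Un.kk ζ) = Un.kk ζ' := by
  choose e he using MCod_supp
  have h1 : ∀ᶠ z in MF, ∀ n : ℕ, ∀ p, Un.cd p ∈ z.1 → Un.kk (e p n) ∈ z.1 ∧
      ∀ p', z.2 (Un.cd p) = Un.cd p' → z.2 (Un.kk (e p n)) = Un.kk (e p' n) := by
    rw [eventually_countable_forall]
    intro n
    exact MF_fun Un.cd cd_inj Un.kk fun p => e p n
  filter_upwards [h1] with z h1 p p' ζ' hp hpp' hζ'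
  obtain ⟨n, hn⟩ := he p' ζ' hζ'
  refine ⟨e p n, (h1 n p hp).1, ?_⟩
  rw [← hn]
  exact (h1 n p hp).2 p' hpp'

end Pool.Agent.MMA1
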