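import Pool.Agent.MMI.Basic

/-! # The filter of countable models -/

set_option autoImplicit false

namespace Pool.Agent.MMA1

open Classical

theorem MF_of (O : Ops) (hO : O.Countable) {P : Set Un × (Un → Un) → Prop}
    (h : ∀ N f, Cl O N → HI O N f → P (N, f)) : ∀ᶠ z in MF, P z := ⟨O, hO, h⟩

theorem MF_iff {P : Set Un × (Un → Un) → Prop} :
    (∀ᶠ z in MF, P z) ↔ ∃ O : Ops, O.Countable ∧ ∀ N f, Cl O N → HI O N f → P (N, f) := Iff.rfl

theorem HI_id (O : Ops) (N : Set Un) : HI O N id := ⟨fun _ _ _ _ h => h, fun _ _ _ _ _ _ => rfl⟩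

theorem Cl.mono {O O' : Ops} (h : O ⊆ O') {N : Set Un} (hN : Cl O' N) : Cl O N :=
  ⟨hN.1, hN.2, fun φ hφ => hN.cl φ (h hφ)⟩

theorem HI.mono {O O' : Ops} (h : O ⊆ O') {N : Set Un} {f : Un → Un} (hN : HI O' N f) : HI O N f :=
  ⟨hN.1, fun φ hφ => hN.comm φ (h hφ)⟩

/-- the closure of a set under operations, in stages -/
def clSeq (O : Ops) (A : Set Un) : ℕ → Set Un
  | 0 => A
  | n + 1 => clSeq O A n ∪ (fun t : (Un → Un → Un) × Un × Un => t.1 t.2.1 t.2.2) ''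
      (O ×ˢ (clSeq O A n ×ˢ clSeq O A n))

theorem clSeq_mono (O : Ops) (A : Set Un) : Monotone (clSeq O A) :=
  monotone_nat_of_le_succ fun _ => Set.subset_union_left

theorem clSeq_countable {O : Ops} (hO : O.Countable) {A : Set Un} (hA : A.Countable) (n : ℕ) :
    (clSeq O A n).Countable := by
  induction n with
  | zero => exact hA
  | succ n ih => exact ih.union ((hO.prod (ih.prod ih)).image _)

/-- every countable set is contained in a countable closed set -/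
theorem exists_Cl {O : Ops} (hO : O.Countable) {A : Set Un} (hA : A.Countable) :
    ∃ N, A ⊆ N ∧ Cl O N := by
  have hA' : (A ∪ {Un.ww (Classical.arbitrary W)}).Countable := hA.union (Set.countable_singleton _)
  refine ⟨⋃ n, clSeq O (A ∪ {Un.ww (Classical.arbitrary W)}) n, ?_, ?_, ?_, ?_⟩
  · exact Set.subset_iUnion_of_subset 0 Set.subset_union_left
  · exact Set.countable_iUnion (clSeq_countable hO hA')
  · exact ⟨_, Set.mem_iUnion.2 ⟨0, Or.inr rfl⟩⟩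
  · intro φ hφ x hx y hy
    obtain ⟨m, hm⟩ := Set.mem_iUnion.1 hx
    obtain ⟨n, hn⟩ := Set.mem_iUnion.1 hy
    refine Set.mem_iUnion.2 ⟨max m n + 1, Or.inr ⟨(φ, x, y), ⟨hφ, ?_, ?_⟩, rfl⟩⟩
    · exact clSeq_mono _ _ (le_max_left m n) hm
    · exact clSeq_mono _ _ (le_max_right m n) hn

instance : CountableInterFilter MF := by
  refine ⟨fun S hS h => ?_⟩
  have h' : ∀ A : Set (Set Un × (Un → Un)), ∃ O : Ops, A ∈ S → O.Countable ∧
      ∀ N f, Cl O N → HI O N f → (N, f) ∈ A := fun A => by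
    by_cases hA : A ∈ S
    · obtain ⟨O, h1, h2⟩ := h A hA
      exact ⟨O, fun _ => ⟨h1, h2⟩⟩
    · exact ⟨∅, fun h => absurd h hA⟩
  choose O hO using h'
  refine ⟨⋃ A ∈ S, O A, hS.biUnion fun A hA => (hO A hA).1, fun N f h1 h2 A hA => ?_⟩
  have h3 : O A ⊆ ⋃ A ∈ S, O A := Set.subset_biUnion_of_mem hA
  exact (hO A hA).2 N f (h1.mono h3) (h2.mono h3)

theorem MF_ctb : ∀ᶠ z in MF, z.1.Countable ∧ z.1.Nonempty :=
  MF_of ∅ Set.countable_empty fun _ _ h _ => ⟨h.ctb, h.ne⟩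

theorem MF_inj : ∀ᶠ z in MF, Set.InjOn z.2 z.1 :=
  MF_of ∅ Set.countable_empty fun _ _ _ h => h.inj

theorem MF_op (φ : Un → Un → Un) :
    ∀ᶠ z in MF, ∀ x ∈ z.1, ∀ y ∈ z.1, φ x y ∈ z.1 ∧ z.2 (φ x y) = φ (z.2 x) (z.2 y) :=
  MF_of {φ} (Set.countable_singleton _) fun _ _ h1 h2 x hx y hy =>
    ⟨h1.cl φ rfl x hx y hy, h2.comm φ rfl x hx y hy⟩

theorem MF_op1 (φ : Un → Un) : ∀ᶠ z in MF, ∀ x ∈ z.1, φ x ∈ z.1 ∧ z.2 (φ x) = φ (z.2 x) := by
  filter_upwards [MF_op fun x _ => φ x] with z h x hx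
  exact h x hx x hx

theorem MF_const (a : Un) : ∀ᶠ z in MF, a ∈ z.1 ∧ z.2 a = a := by
  filter_upwards [MF_op1 fun _ => a, MF_ctb] with z h h1
  obtain ⟨x, hx⟩ := h1.2
  exact h x hx

/-- first component -/
def Un.fst : Un → Un
  | .pair x _ => x
  | x => x

/-- second component -/
def Un.snd : Un → Un
  | .pair _ y => y
  | x => x

theorem MF_pair : ∀ᶠ z in MF, ∀ x y, Un.pair x y ∈ z.1 ↔ x ∈ z.1 ∧ y ∈ z.1 := by
  filter_upwards [MF_op Un.pair, MF_op1 Un.fst, MF_op1 Un.snd] with z h1 h2 h3 x y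
  exact ⟨fun h => ⟨(h2 _ h).1, (h3 _ h).1⟩, fun h => (h1 x h.1 y h.2).1⟩

theorem MF_pair' : ∀ᶠ z in MF, ∀ x ∈ z.1, ∀ y ∈ z.1, z.2 (Un.pair x y) = Un.pair (z.2 x) (z.2 y) := by
  filter_upwards [MF_op Un.pair] with z h1 x hx y hy
  exact (h1 x hx y hy).2

theorem MF_rel (P : Un → Un → Prop) :
    ∀ᶠ z in MF, ∀ x ∈ z.1, ∀ y ∈ z.1, (P x y ↔ P (z.2 x) (z.2 y)) := by
  filter_upwards [MF_op (fun x y => if P x y then Un.ww (Classical.arbitrary W) else
    Un.kk (Classical.arbitrary K)), MF_const (Un.ww (Classical.arbitrary W)),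
    MF_const (Un.kk (Classical.arbitrary K))] with z h h1 h2 x hx y hy
  have h3 := (h x hx y hy).2
  by_cases h4 : P x y
  · rw [if_pos h4, h1.2] at h3
    refine ⟨fun _ => ?_, fun _ => h4⟩
    by_contra hcon
    rw [if_neg hcon] at h3
    cases h3
  · rw [if_neg h4, h2.2] at h3
    refine ⟨fun h => absurd h h4, fun h => ?_⟩
    rw [if_pos h] at h3
    cases h3

/-- coded objects are mapped to coded objects -/
theorem MF_type {α : Type*} (ca : α → Un) : ∀ᶠ z in MF, ∀ a, ca a ∈ z.1 → ∃ a', z.2 (ca a) = ca a' := by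
  filter_upwards [MF_rel fun x _ => ∃ a, x = ca a] with z h a ha
  exact (h _ ha _ ha).1 ⟨a, rfl⟩

/-- `N` is closed under functions between coded objects and `h` respects them -/
theorem MF_fun {α β : Type*} (ca : α → Un) (hca : Function.Injective ca) (cb : β → Un) (f : α → β) :
    ∀ᶠ z in MF, ∀ a, ca a ∈ z.1 → cb (f a) ∈ z.1 ∧
      ∀ a', z.2 (ca a) = ca a' → z.2 (cb (f a)) = cb (f a') := by
  filter_upwards [MF_op1 fun x => if h : ∃ a, x = ca a then cb (f h.choose) else x] with z h a ha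
  have key : ∀ a, (if h : ∃ a', ca a = ca a' then cb (f h.choose) else ca a) = cb (f a) := by
    intro a
    have h1 : ∃ a', ca a = ca a' := ⟨a, rfl⟩
    rw [dif_pos h1, ← hca h1.choose_spec]
  have h1 := h _ ha
  rw [key] at h1
  refine ⟨h1.1, fun a' ha' => ?_⟩
  rw [h1.2, ha', key]

/-- injectivity of codes of pairs -/
theorem pair_code_inj {α β : Type*} {ca : α → Un} (hca : Function.Injective ca) {cb : β → Un}
    (hcb : Function.Injective cb) :
    Function.Injective fun t : α × β => Un.pair (ca t.1) (cb t.2) := by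
  rintro ⟨a, b⟩ ⟨a', b'⟩ h
  simp only [Un.pair.injEq] at h
  rw [hca h.1, hcb h.2]

theorem MF_fun2 {α β γ : Type*} (ca : α → Un) (hca : Function.Injective ca) (cb : β → Un)
    (hcb : Function.Injective cb) (cc : γ → Un) (f : α → β → γ) :
    ∀ᶠ z in MF, ∀ a b, ca a ∈ z.1 → cb b ∈ z.1 → cc (f a b) ∈ z.1 ∧
      ∀ a' b', z.2 (ca a) = ca a' → z.2 (cb b) = cb b' → z.2 (cc (f a b)) = cc (f a' b') := by
  filter_upwards [MF_fun (fun t : α × β => Un.pair (ca t.1) (cb t.2)) (pair_code_inj hca hcb) cc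
    (fun t => f t.1 t.2), MF_pair, MF_pair'] with z h h1 h2 a b ha hb
  obtain ⟨h3, h4⟩ := h (a, b) ((h1 _ _).2 ⟨ha, hb⟩)
  refine ⟨h3, fun a' b' ha' hb' => h4 (a', b') ?_⟩
  change z.2 (Un.pair (ca a) (cb b)) = Un.pair (ca a') (cb b')
  rw [h2 _ ha _ hb, ha', hb']

theorem MF_fun3 {α β γ δ : Type*} (ca : α → Un) (hca : Function.Injective ca) (cb : β → Un)
    (hcb : Function.Injective cb) (cc : γ → Un) (hcc : Function.Injective cc) (cd : δ → Un)
    (f : α → β → γ → δ) :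
    ∀ᶠ z in MF, ∀ a b c, ca a ∈ z.1 → cb b ∈ z.1 → cc c ∈ z.1 → cd (f a b c) ∈ z.1 ∧
      ∀ a' b' c', z.2 (ca a) = ca a' → z.2 (cb b) = cb b' → z.2 (cc c) = cc c' →
        z.2 (cd (f a b c)) = cd (f a' b' c') := by
  filter_upwards [MF_fun2 (fun t : α × β => Un.pair (ca t.1) (cb t.2)) (pair_code_inj hca hcb) cc hcc
    cd (fun t c => f t.1 t.2 c), MF_pair, MF_pair'] with z h h1 h2 a b c ha hb hc
  obtain ⟨h3, h4⟩ := h (a, b) c ((h1 _ _).2 ⟨ha, hb⟩) hc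
  refine ⟨h3, fun a' b' c' ha' hb' hc' => h4 (a', b') c' ?_ hc'⟩
  change z.2 (Un.pair (ca a) (cb b)) = Un.pair (ca a') (cb b')
  rw [h2 _ ha _ hb, ha', hb']

/-- `h` respects relations between coded objects -/
theorem MF_rel1 {α : Type*} (ca : α → Un) (hca : Function.Injective ca) (P : α → Prop) :
    ∀ᶠ z in MF, ∀ a a', ca a ∈ z.1 → z.2 (ca a) = ca a' → (P a ↔ P a') := by
  filter_upwards [MF_rel fun x _ => ∃ a, x = ca a ∧ P a] with z h a a' ha haa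
  have h1 := h _ ha _ ha
  rw [haa] at h1
  have key : ∀ a, (∃ a', ca a = ca a' ∧ P a') ↔ P a := fun a =>
    ⟨fun ⟨a', h1, h2⟩ => hca h1 ▸ h2, fun h => ⟨a, rfl, h⟩⟩
  rw [key, key] at h1
  exact h1

theorem MF_rel2 {α β : Type*} (ca : α → Un) (hca : Function.Injective ca) (cb : β → Un)
    (hcb : Function.Injective cb) (P : α → β → Prop) :
    ∀ᶠ z in MF, ∀ a a' b b', ca a ∈ z.1 → cb b ∈ z.1 → z.2 (ca a) = ca a' → z.2 (cb b) = cb b' →
      (P a b ↔ P a' b') := by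
  filter_upwards [MF_rel1 (fun t : α × β => Un.pair (ca t.1) (cb t.2)) (pair_code_inj hca hcb)
    (fun t => P t.1 t.2), MF_pair, MF_pair'] with z h h1 h2 a a' b b' ha hb haa hbb
  refine h (a, b) (a', b') ((h1 _ _).2 ⟨ha, hb⟩) ?_
  change z.2 (Un.pair (ca a) (cb b)) = Un.pair (ca a') (cb b')
  rw [h2 _ ha _ hb, haa, hbb]

theorem MF_rel3 {α β γ : Type*} (ca : α → Un) (hca : Function.Injective ca) (cb : β → Un)
    (hcb : Function.Injective cb) (cc : γ → Un) (hcc : Function.Injective cc) (P : α → β → γ → Prop) :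
    ∀ᶠ z in MF, ∀ a a' b b' c c', ca a ∈ z.1 → cb b ∈ z.1 → cc c ∈ z.1 →
      z.2 (ca a) = ca a' → z.2 (cb b) = cb b' → z.2 (cc c) = cc c' → (P a b c ↔ P a' b' c') := by
  filter_upwards [MF_rel2 (fun t : α × β => Un.pair (ca t.1) (cb t.2)) (pair_code_inj hca hcb)
    cc hcc (fun t c => P t.1 t.2 c), MF_pair, MF_pair'] with z h h1 h2 a a' b b' c c' ha hb hc haa hbb hcc
  refine h (a, b) (a', b') c c' ((h1 _ _).2 ⟨ha, hb⟩) hc ?_ hcc
  change z.2 (Un.pair (ca a) (cb b)) = Un.pair (ca a') (cb b')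
  rw [h2 _ ha _ hb, haa, hbb]

/-- definable witnesses: if `P a b` has a solution `b` then it has one in `N`, and `h` respects it -/
theorem MF_choose {α β : Type*} (ca : α → Un) (hca : Function.Injective ca) (cb : β → Un)
    (P : α → β → Prop) :
    ∀ᶠ z in MF, ∀ a, ca a ∈ z.1 → (∃ b, P a b) → ∃ b, P a b ∧ cb b ∈ z.1 ∧
      ∀ a', z.2 (ca a) = ca a' → ∃ b', z.2 (cb b) = cb b' ∧ P a' b' := by
  by_cases hβ : Nonempty β
  · have hf : ∀ a, ∃ b, (∃ b, P a b) → P a b := fun a => by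
      by_cases h : ∃ b, P a b
      · obtain ⟨b, hb⟩ := h
        exact ⟨b, fun _ => hb⟩
      · exact ⟨hβ.some, fun h' => absurd h' h⟩
    choose f hf using hf
    filter_upwards [MF_fun ca hca cb f, MF_rel1 ca hca fun a => ∃ b, P a b] with z h h1 a ha hP
    obtain ⟨h3, h4⟩ := h a ha
    refine ⟨f a, hf a hP, h3, fun a' ha' => ⟨f a', h4 a' ha', hf a' ((h1 a a' ha ha').1 hP)⟩⟩
  · exact Filter.Eventually.of_forall fun z a _ h => absurd ⟨h.choose⟩ hβ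

theorem MF_choose2 {α β γ : Type*} (ca : α → Un) (hca : Function.Injective ca) (cb : β → Un)
    (hcb : Function.Injective cb) (cc : γ → Un) (P : α → β → γ → Prop) :
    ∀ᶠ z in MF, ∀ a b, ca a ∈ z.1 → cb b ∈ z.1 → (∃ c, P a b c) → ∃ c, P a b c ∧ cc c ∈ z.1 ∧
      ∀ a' b', z.2 (ca a) = ca a' → z.2 (cb b) = cb b' → ∃ c', z.2 (cc c) = cc c' ∧ P a' b' c' := by
  filter_upwards [MF_choose (fun t : α × β => Un.pair (ca t.1) (cb t.2)) (pair_code_inj hca hcb) cc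
    (fun t c => P t.1 t.2 c), MF_pair, MF_pair'] with z h h1 h2 a b ha hb hP
  obtain ⟨c, h3, h4, h5⟩ := h (a, b) ((h1 _ _).2 ⟨ha, hb⟩) hP
  refine ⟨c, h3, h4, fun a' b' ha' hb' => h5 (a', b') ?_⟩
  change z.2 (Un.pair (ca a) (cb b)) = Un.pair (ca a') (cb b')
  rw [h2 _ ha _ hb, ha', hb']

theorem MF_choose3 {α β γ δ : Type*} (ca : α → Un) (hca : Function.Injective ca) (cb : β → Un)
    (hcb : Function.Injective cb) (cc : γ → Un) (hcc : Function.Injective cc) (cd : δ → Un)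
    (P : α → β → γ → δ → Prop) :
    ∀ᶠ z in MF, ∀ a b c, ca a ∈ z.1 → cb b ∈ z.1 → cc c ∈ z.1 → (∃ d, P a b c d) →
      ∃ d, P a b c d ∧ cd d ∈ z.1 ∧
      ∀ a' b' c', z.2 (ca a) = ca a' → z.2 (cb b) = cb b' → z.2 (cc c) = cc c' →
        ∃ d', z.2 (cd d) = cd d' ∧ P a' b' c' d' := by
  filter_upwards [MF_choose2 (fun t : α × β => Un.pair (ca t.1) (cb t.2)) (pair_code_inj hca hcb) cc
    hcc cd (fun t c d => P t.1 t.2 c d), MF_pair, MF_pair'] with z h h1 h2 a b c ha hb hc hP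
  obtain ⟨d, h3, h4, h5⟩ := h (a, b) c ((h1 _ _).2 ⟨ha, hb⟩) hc hP
  refine ⟨d, h3, h4, fun a' b' c' ha' hb' hc' => h5 (a', b') c' ?_ hc'⟩
  change z.2 (Un.pair (ca a) (cb b)) = Un.pair (ca a') (cb b')
  rw [h2 _ ha _ hb, ha', hb']

/-- diagonal intersections, over the elements fixed by `h` -/
theorem MF_diag {P : Un → Set Un × (Un → Un) → Prop} (h : ∀ x, ∀ᶠ z in MF, P x z) :
    ∀ᶠ z in MF, ∀ x ∈ z.1, z.2 x = x → P x z := by
  choose O hO hP using h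
  have h1 : ∀ x, ∃ φ : ℕ → Un → Un → Un, O x ⊆ Set.range φ := fun x => by
    rcases (O x).eq_empty_or_nonempty with h | h
    · exact ⟨fun _ _ y => y, by rw [h]; exact Set.empty_subset _⟩
    · obtain ⟨φ, hφ⟩ := (hO x).exists_eq_range h
      exact ⟨φ, hφ.le⟩
  choose φ hφ using h1
  let ψ : ℕ → Un → Un → Un := fun n a y => φ (Un.fst a) n (Un.snd a) y
  have h2 : ∀ᶠ z in MF, ∀ n, ∀ x ∈ z.1, ∀ y ∈ z.1, ψ n x y ∈ z.1 ∧
      z.2 (ψ n x y) = ψ n (z.2 x) (z.2 y) := eventually_countable_forall.2 fun n => MF_op (ψ n)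
  filter_upwards [h2, MF_pair, MF_pair', MF_ctb, MF_inj] with z h2 h3 h4 h5 h6 x hx hxx
  have key : ∀ ω ∈ O x, ∀ a ∈ z.1, ∀ b ∈ z.1, ω a b ∈ z.1 ∧ z.2 (ω a b) = ω (z.2 a) (z.2 b) := by
    intro ω hω a ha b hb
    obtain ⟨n, rfl⟩ := hφ x hω
    have h7 := h2 n (Un.pair x a) ((h3 _ _).2 ⟨hx, ha⟩) b hb
    refine ⟨h7.1, ?_⟩
    have h8 := h7.2
    rw [h4 _ hx _ ha, hxx] at h8
    exact h8
  exact hP x z.1 z.2 ⟨h5.1, h5.2, fun ω hω a ha b hb => (key ω hω a ha b hb).1⟩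
    ⟨h6, fun ω hω a ha b hb => (key ω hω a ha b hb).2⟩

theorem MF_diag' {α : Type*} (ca : α → Un) (hca : Function.Injective ca)
    {P : α → Set Un × (Un → Un) → Prop} (h : ∀ x, ∀ᶠ z in MF, P x z) :
    ∀ᶠ z in MF, ∀ x, ca x ∈ z.1 → z.2 (ca x) = ca x → P x z := by
  have h1 : ∀ x : Un, ∀ᶠ z in MF, ∀ a, x = ca a → P a z := fun x => by
    by_cases hx : ∃ a, x = ca a
    · obtain ⟨a, rfl⟩ := hx
      filter_upwards [h a] with z hz b hb
      rw [← hca hb]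
      exact hz
    · exact Filter.Eventually.of_forall fun z a ha => absurd ⟨a, ha⟩ hx
  filter_upwards [MF_diag h1] with z hz x hx hxx
  exact hz _ hx hxx x rfl

/-- a property of almost all `(N, h)` holds for `(N, id)` -/
theorem MF_id {P : Set Un × (Un → Un) → Prop} (h : ∀ᶠ z in MF, P z) : ∀ᶠ z in MF, P (z.1, id) := by
  obtain ⟨O, hO, hP⟩ := h
  exact MF_of O hO fun N f h1 _ => hP N id h1 (HI_id O N)

/-- diagonal intersections for properties of `N` alone -/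
theorem MF_diagN {α : Type*} (ca : α → Un) (hca : Function.Injective ca)
    {P : α → Set Un → Prop} (h : ∀ x, ∀ᶠ z in MF, P x z.1) :
    ∀ᶠ z in MF, ∀ x, ca x ∈ z.1 → P x z.1 := by
  filter_upwards [MF_id (MF_diag' ca hca h)] with z hz x hx
  exact hz x hx rfl

theorem MF_exists {P : Set Un × (Un → Un) → Prop} (h : ∀ᶠ z in MF, P z) {A : Set Un}
    (hA : A.Countable) : ∃ N, A ⊆ N ∧ P (N, id) := by
  obtain ⟨O, hO, hP⟩ := h
  obtain ⟨N, h1, h2⟩ := exists_Cl hO hA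
  exact ⟨N, h1, hP N id h2 (HI_id O N)⟩

/-- a property of `N` which does not hold for almost all `N` fails for some good `N` -/
theorem MF_not {P : Set Un → Prop} (hP : ¬ ∀ᶠ z in MF, P z.1) {Q : Set Un × (Un → Un) → Prop}
    (hQ : ∀ᶠ z in MF, Q z) : ∃ N, Q (N, id) ∧ ¬ P N := by
  obtain ⟨O, hO, hQ⟩ := hQ
  by_contra hcon
  push Not at hcon
  exact hP (MF_of O hO fun N f h1 _ => hcon N (hQ N id h1 (HI_id O N)))

end Pool.Agent.MMA1
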