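import Pool.Agent.MMI.GokKill
import Pool.Agent.MMI.GokPos
import Pool.Agent.MMI.CardB
import Pool.Agent.MMI.KccTop

/-! # The main induction -/

set_option autoImplicit false

namespace Pool.Agent.MMA1

open Classical

theorem main_step (F : Prg) (η : K) (hleg : Leg F η) (hF : Full (stp F) η) (hS : SOKev (stp F) η) :
    FullQ (Itd (stp F) η) ∧ ∀ᶠ z in MF, FixW z → SOK (LE (stp F) η) (Itd (stp F) η) η z := by
  have hG : GenEx (LE (stp F) η) η := GenEx_of_PI (PI_all hF hS)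
  have hK : KCC (LE (stp F) η) := kcc_GenEx hG
  have hQ : Itd (stp F) η = itE (LP F η) (F η) := rfl
  by_cases h1 : (F η).1 = true
  · have hQ2 : Itd (stp F) η = killB (relE (LP F η) (F η)) := by
      rw [hQ]; exact if_pos h1
    rw [hQ2]
    have hf : FullQ (killB (relE (LP F η) (F η))) := full_kill hK _ (kcc_kill hG _)
    exact ⟨hf, SOK_of_GOK _ _ η (Loc_LE _ _) cY cY_inj hf (GOK_kill _ η (Loc_LE _ _) _ hf)⟩
  · have hQ2 : Itd (stp F) η = posB (relP (LP F η) (F η)) (isBPre_relP _ _) := by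
      rw [hQ]; exact if_neg h1
    rw [hQ2]
    have hf : FullQ (posB (relP (LP F η) (F η)) (isBPre_relP _ _)) :=
      full_pos _ _ (kcc_pos hK _ _)
    exact ⟨hf, SOK_of_GOK _ _ η (Loc_LE _ _) Un.ww ww_inj hf
      (GOK_pos _ η (Loc_LE _ _) _ _ (hleg.resolve_left h1) hf)⟩

theorem main_F (F : Prg) (ξ : WithTop K) (h : ∀ η : K, (η : WithTop K) < ξ → Leg F η) :
    Full (stp F) ξ ∧ SOKev (stp F) ξ := by
  have key : ∀ η : K, (η : WithTop K) < ξ → FullQ (Itd (stp F) η) ∧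
      ∀ᶠ z in MF, FixW z → SOK (LE (stp F) η) (Itd (stp F) η) η z := by
    intro η
    induction η using (wellFounded_lt (α := K)).induction with
    | _ η ih =>
      intro hη
      have h1 : ∀ ζ < η, (ζ : WithTop K) < ξ := fun ζ hζ => (WithTop.coe_lt_coe.2 hζ).trans hη
      exact main_step F η (h η hη) (fun ζ hζ => (ih ζ (WithTop.coe_lt_coe.1 hζ)
        (h1 ζ (WithTop.coe_lt_coe.1 hζ))).1) (fun ζ hζ => (ih ζ (WithTop.coe_lt_coe.1 hζ)
        (h1 ζ (WithTop.coe_lt_coe.1 hζ))).2)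
  exact ⟨fun η hη => (key η hη).1, fun η hη => (key η hη).2⟩

theorem main_PI (F : Prg) (ξ : K) (h : ∀ η < ξ, Leg F η) : PIev (stp F) ξ :=
  PI_all (main_F F ξ fun η hη => h η (WithTop.coe_lt_coe.1 hη)).1
    (main_F F ξ fun η hη => h η (WithTop.coe_lt_coe.1 hη)).2

theorem main_full (F : Prg) (ξ : K) (h : ∀ η < ξ, Leg F η) : Full (stp F) ξ :=
  (main_F F ξ fun η hη => h η (WithTop.coe_lt_coe.1 hη)).1

theorem main_kcc (F : Prg) (ξ : K) (h : ∀ η < ξ, Leg F η) : KCC (LP F ξ) :=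
  kcc_GenEx (GenEx_of_PI (main_PI F ξ h))

theorem main_kcc_top (F : Prg) (h : ∀ η, Leg F η) : KCC (LP F ⊤) :=
  kcc_top (main_F F ⊤ fun η _ => h η).1 fun ξ => main_PI F ξ fun η _ => h η

end Pool.Agent.MMA1
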