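import Pool.Agent.MMI.Sep

/-! # Mixing of conditions -/

set_option autoImplicit false

namespace Pool.Agent.MMA1

open Classical

variable {S : Stp}

/-- the lift of an element of the algebra of a stage to a later stage -/
noncomputable def liftB (S : Stp) (η ξ : WithTop K) (U : BA (LE S η)) : BA (LE S ξ) :=
  toB (LE S ξ) {z | Fo z U}

theorem Fo_liftB {η ξ : WithTop K} (h : η ≤ ξ) {U : BA (LE S η)} {z : Cd} :
    Fo z (liftB S η ξ U) ↔ Fo z U := by
  unfold liftB
  rw [Fo_toB]
  constructor
  · intro h1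
    refine Fo_reg fun y hy => ?_
    obtain ⟨z', hz', s, hs, hzs⟩ := h1 (splice η y z) (splice_le hy ξ)
    refine ⟨z', (LE S η).trans _ _ _ (LE_mono h hz') (splice_equiv y z).1, ?_⟩
    exact Fo.mono (LE_mono h hzs) hs
  · intro h1 y hy
    exact ⟨y, (LE S ξ).refl y, y, h1.mono (LE_mono h hy), (LE S ξ).refl y⟩

theorem liftB_inf {η ξ : WithTop K} (h : η ≤ ξ) (U V : BA (LE S η)) :
    liftB S η ξ (U ⊓ V) = liftB S η ξ U ⊓ liftB S η ξ V := by
  refine BA_ext fun z => ?_
  rw [Fo_liftB h, Fo_inf, Fo_inf, Fo_liftB h, Fo_liftB h]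

theorem liftB_compl {η ξ : WithTop K} (h : η ≤ ξ) (U : BA (LE S η)) :
    liftB S η ξ Uᶜ = (liftB S η ξ U)ᶜ := by
  refine BA_ext fun z => ?_
  rw [Fo_liftB h, Fo_compl, Fo_compl]
  constructor
  · intro h1 y hy hU
    exact h1 y (LE_mono h hy) ((Fo_liftB h).1 hU)
  · intro h1 y hy hU
    refine h1 (splice η y z) (splice_le hy ξ) ((Fo_liftB h).2 ?_)
    exact hU.mono (splice_equiv y z).1

theorem liftB_iSup {η ξ : WithTop K} (h : η ≤ ξ) {ι : Sort*} (U : ι → BA (LE S η)) :
    liftB S η ξ (⨆ i, U i) = ⨆ i, liftB S η ξ (U i) := by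
  refine BA_ext fun z => ?_
  rw [Fo_liftB h, Fo_iSup, Fo_iSup]
  constructor
  · intro h1 y hy
    obtain ⟨w, hw, i, hi⟩ := h1 y (LE_mono h hy)
    exact ⟨splice η w y, splice_le hw ξ, i, (Fo_liftB h).2 (hi.mono (splice_equiv w y).1)⟩
  · intro h1 y hy
    obtain ⟨w, hw, i, hi⟩ := h1 (splice η y z) (splice_le hy ξ)
    exact ⟨w, (LE S η).trans _ _ _ (LE_mono h hw) (splice_equiv y z).1, i, (Fo_liftB h).1 hi⟩

theorem liftB_bot {η ξ : WithTop K} (h : η ≤ ξ) : liftB S η ξ ⊥ = ⊥ := by
  refine BA_ext fun z => ?_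
  rw [Fo_liftB h]
  exact ⟨fun h => absurd h (not_Fo_bot _), fun h => absurd h (not_Fo_bot _)⟩

theorem liftB_top {η ξ : WithTop K} : liftB S η ξ ⊤ = ⊤ := by
  refine BA_ext fun z => ⟨fun _ => Fo_top _, fun _ => ?_⟩
  unfold liftB
  rw [Fo_toB]
  intro y _
  have h : y ∈ {z | Fo z (⊤ : BA (LE S η))} := Fo_top (L := LE S η) y
  exact ⟨y, (LE S ξ).refl y, y, h, (LE S ξ).refl y⟩

/-- mixing: below `U i` the condition `p` is `q i` from `η` on -/
theorem mix {ξ : WithTop K} (hF : Full S ξ) {η : K} (hη : (η : WithTop K) ≤ ξ) {ι : Type}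
    (U : ι → BA (LE S η)) (hU : ∀ i j, i ≠ j → U i ⊓ U j = ⊥) (p0 : Cd) (q : ι → Cd)
    (T : Set K) (hT : T.Countable) (hs : ∀ i ζ, η ≤ ζ → (q i).at ζ ≠ none → ζ ∈ T) :
    ∃ p : Cd, (∀ ζ < η, p.at ζ = p0.at ζ) ∧
      (∀ ζ, η ≤ ζ → p.at ζ ≠ none → (ζ : WithTop K) < ξ ∧ ζ ∈ T) ∧
      ∀ i r, (LE S η).le r p0 → Fo r (U i) →
        (LE S ξ).le (splice η r p) (splice η r (q i)) ∧
        (LE S ξ).le (splice η r (q i)) (splice η r p) := by
  set u : (ζ : K) → BA (TS (Itd S ζ)) := fun ζ =>
    ⨆ i, emb (Itd S ζ) (liftB S η ζ (U i)) ⊓ Val S ζ (splice η p0 (q i)) with hu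
  have ha : ∀ ζ : K, (ζ : WithTop K) < ξ → ∃ a : A0, ∀ p : Cd, Val S ζ (p.set ζ (some a)) =
      emb (Itd S ζ) (down (LE S ζ) p) ⊓ (u ζ ⊔ (emb (Itd S ζ) (prj (Itd S ζ) (u ζ)))ᶜ) :=
    fun ζ hζ => Val_code (hF ζ hζ) (u ζ)
  choose! a ha using ha
  set p : Cd := ⟨fun ζ => if ζ < η then p0.1 ζ else if (ζ : WithTop K) < ξ ∧ ζ ∈ T then some (a ζ)
    else none, by
      refine (p0.2.union hT).mono ?_
      intro ζ hζ
      by_cases h1 : ζ < η
      · left; simpa [h1] using hζ
      · right
        by_contra h2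
        simp [h1, h2] at hζ⟩ with hp
  have hp1 : ∀ ζ < η, p.at ζ = p0.at ζ := fun ζ hζ => if_pos hζ
  have hp2 : ∀ ζ, η ≤ ζ → p.at ζ ≠ none → (ζ : WithTop K) < ξ ∧ ζ ∈ T := by
    intro ζ hζ h
    by_contra h2
    refine h ?_
    change (if ζ < η then p0.1 ζ else if (ζ : WithTop K) < ξ ∧ ζ ∈ T then some (a ζ)
      else none) = none
    rw [if_neg (not_lt.2 hζ), if_neg h2]
  have hp3 : ∀ ζ, η ≤ ζ → (ζ : WithTop K) < ξ → ζ ∈ T → p.at ζ = some (a ζ) := by
    intro ζ hζ h1 h2
    change (if ζ < η then p0.1 ζ else if (ζ : WithTop K) < ξ ∧ ζ ∈ T then some (a ζ)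
      else none) = some (a ζ)
    rw [if_neg (not_lt.2 hζ), if_pos ⟨h1, h2⟩]
  refine ⟨p, hp1, hp2, ?_⟩
  intro i r hr hri
  -- equality of the values by induction
  have key : ∀ ζ : WithTop K, ζ ≤ ξ →
      (LE S ζ).le (splice η r p) (splice η r (q i)) ∧
      (LE S ζ).le (splice η r (q i)) (splice η r p) := by
    intro ζ
    induction ζ using (wellFounded_lt (α := WithTop K)).induction with
    | _ ζ ih =>
      intro hζξ
      have hval : ∀ ζ' : K, (ζ' : WithTop K) < ζ →
          Val S ζ' (splice η r p) = Val S ζ' (splice η r (q i)) := by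
        intro ζ' hζ'
        have hζ'ξ : (ζ' : WithTop K) < ξ := hζ'.trans_le hζξ
        obtain ⟨ih1, ih2⟩ := ih ζ' hζ' hζ'ξ.le
        have hdown : down (LE S ζ') (splice η r p) = down (LE S ζ') (splice η r (q i)) :=
          le_antisymm (down_mono ih1) (down_mono ih2)
        by_cases h1 : ζ' < η
        · refine Val_congr fun ζ'' h'' => ?_
          rw [splice_lt (WithTop.coe_lt_coe.2 (h''.trans_lt h1)),
            splice_lt (WithTop.coe_lt_coe.2 (h''.trans_lt h1))]
        · have h1' : η ≤ ζ' := not_lt.1 h1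
          have h1'' : (η : WithTop K) ≤ (ζ' : WithTop K) := WithTop.coe_le_coe.2 h1'
          by_cases h2 : ζ' ∈ T
          · set d : Cd := splice η r (q i) with hd
            have hdval : Val S ζ' d = emb (Itd S ζ') (down (LE S ζ') d) ⊓
                (dec (Itd S ζ') ((q i).1 ζ') ⊔
                  (emb (Itd S ζ') (prj (Itd S ζ') (dec (Itd S ζ') ((q i).1 ζ'))))ᶜ) := by
              unfold Val val
              rw [show d.1 ζ' = (q i).1 ζ' from splice_ge h1'']
            have hqval : Val S ζ' (splice η p0 (q i)) =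
                emb (Itd S ζ') (down (LE S ζ') (splice η p0 (q i))) ⊓
                (dec (Itd S ζ') ((q i).1 ζ') ⊔
                  (emb (Itd S ζ') (prj (Itd S ζ') (dec (Itd S ζ') ((q i).1 ζ'))))ᶜ) := by
              unfold Val val
              rw [show (splice η p0 (q i)).1 ζ' = (q i).1 ζ' from splice_ge h1'']
            set V : BA (TS (Itd S ζ')) := dec (Itd S ζ') ((q i).1 ζ') ⊔
                  (emb (Itd S ζ') (prj (Itd S ζ') (dec (Itd S ζ') ((q i).1 ζ'))))ᶜ with hV
            have hVtop : prj (Itd S ζ') V = ⊤ := prj_code _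
            have hdq : down (LE S ζ') d ≤ down (LE S ζ') (splice η p0 (q i)) :=
              down_mono (splice_mono hr)
            have hdU : down (LE S ζ') d ≤ liftB S η ζ' (U i) := by
              refine down_le_iff.2 ((Fo_liftB h1'').2 ?_)
              exact hri.mono (splice_equiv r (q i)).1
            have hu1 : emb (Itd S ζ') (down (LE S ζ') d) ⊓ u ζ' =
                emb (Itd S ζ') (down (LE S ζ') d) ⊓ V := by
              refine le_antisymm (le_inf inf_le_left ?_) (le_inf inf_le_left ?_)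
              · rw [hu, inf_iSup_eq]
                refine iSup_le fun j => ?_
                by_cases hij : i = j
                · subst hij
                  refine inf_le_right.trans (inf_le_right.trans ?_)
                  rw [hqval]
                  exact inf_le_right
                · have h3 : down (LE S ζ') d ⊓ liftB S η ζ' (U j) = ⊥ := by
                    refine le_bot_iff.1 ?_
                    refine (inf_le_inf_right _ hdU).trans ?_
                    rw [← liftB_inf h1'', hU i j hij, liftB_bot h1'']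
                  rw [← inf_assoc, ← emb_inf, h3, emb_bot, bot_inf_eq]
                  exact bot_le
              · rw [hu]
                refine le_iSup_of_le i ?_
                rw [hqval]
                refine le_inf (inf_le_left.trans (emb_mono hdU))
                  (le_inf (inf_le_left.trans (emb_mono hdq)) inf_le_right)
            have he : Val S ζ' (splice η r p) = emb (Itd S ζ') (down (LE S ζ') d) ⊓
                (u ζ' ⊔ (emb (Itd S ζ') (prj (Itd S ζ') (u ζ')))ᶜ) := by
              have h4 := ha ζ' hζ'ξ (splice η r p)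
              rw [hdown] at h4
              rw [← h4]
              refine Val_congr fun ζ'' h'' => ?_
              by_cases h5 : ζ'' = ζ'
              · subst h5
                rw [set_at, splice_ge h1'', hp3 ζ'' h1' hζ'ξ h2]
              · rw [set_at_ne _ h5]
            rw [he, code_congr hu1, hVtop, emb_top, compl_top, sup_bot_eq, hdval]
          · have h3 : (splice η r p).at ζ' = none := by
              rw [splice_ge h1'']
              by_contra h4
              exact h2 (hp2 ζ' h1' h4).2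
            have h4 : (splice η r (q i)).at ζ' = none := by
              rw [splice_ge h1'']
              by_contra h4
              exact h2 (hs i ζ' h1' h4)
            rw [Val_none h3, Val_none h4, hdown]
      constructor
      · rw [LE_le]
        exact fun ζ' hζ' => (hval ζ' hζ').le
      · rw [LE_le]
        exact fun ζ' hζ' => (hval ζ' hζ').ge
  exact key ξ le_rfl

end Pool.Agent.MMA1
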