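import Pool.Agent.MMI.PILim

/-! # The extension property: all stages -/

set_option autoImplicit false

namespace Pool.Agent.MMA1

open Classical

variable {S : Stp}

theorem PI_all {ξ : K} (hF : Full S ξ) (hS : SOKev S ξ) : PIev S ξ := by
  induction ξ using (wellFounded_lt (α := K)).induction with
  | _ ξ ih =>
    have ih' : ∀ η < ξ, PIev S η := fun η hη => ih η hη
      (fun ζ hζ => hF ζ (hζ.trans (WithTop.coe_lt_coe.2 hη)))
      (fun ζ hζ => hS ζ (hζ.trans (WithTop.coe_lt_coe.2 hη)))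
    by_cases hlim : ∀ η < ξ, Order.succ η < ξ
    · exact PI_lim hlim hF ih'
    · push Not at hlim
      obtain ⟨η, hη, hη2⟩ := hlim
      have h1 : Order.succ η = ξ := le_antisymm (Order.succ_le_of_lt hη) hη2
      rw [← h1]
      exact PI_succ (hF η (WithTop.coe_lt_coe.2 hη)) (hS η (WithTop.coe_lt_coe.2 hη)) (ih' η hη)

/-- existence of generic conditions which respect `h` -/
def GenEx (L : Pre Cd) (ξ : K) : Prop :=
  ∀ᶠ z in MF, FixW z → Fix z ξ → ∀ p p', Un.cd p ∈ z.1 → z.2 (Un.cd p) = Un.cd p' →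
    ∃ c, GenH L z.1 z.2 c ∧ L.le c p ∧ L.le c p'

theorem GenEx_of_PI {ξ : K} (h : PIev S ξ) : GenEx (LE S ξ) ξ := by
  unfold GenEx
  filter_upwards [h, Gen_zero S, MF_const (Un.kk K0)] with z h1 h2 h3 hW hξ p p' hp hpp
  obtain ⟨c, -, -, h4, h5, h6⟩ := h1 hW hξ K0 (K0_le ξ) h3.1 p (h2 p) p p' hp hpp (LE_zero _ _)
  exact ⟨c, h4, h5, h6⟩

end Pool.Agent.MMA1
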