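import Pool.Agent.MMI.GenB

/-! # The extension property: successor steps -/

set_option autoImplicit false

namespace Pool.Agent.MMA1

open Classical

variable {S : Stp}

/-- the trivial case -/
theorem PIs_refl (ξ : K) (z : Set Un × (Un → Un)) : PIs S ξ ξ z := by
  intro c hc p p' hp hpp hcp
  have h1 : (LE S ξ).le (splice ξ c Cd.triv) c := (splice_equiv c Cd.triv).1
  have h2 : (LE S ξ).le (splice ξ c Cd.triv) p := (LE S ξ).trans _ _ _ h1 hcp
  refine ⟨splice ξ c Cd.triv, fun ζ hζ => splice_lt (WithTop.coe_lt_coe.2 hζ), fun ζ hζ h => ?_,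
    hc.mono h1, h2, (hc.2 p p' hp hpp _ h1).1 h2⟩
  exact absurd (splice_ge (WithTop.coe_le_coe.2 hζ)) h

/-- transitivity -/
theorem PIs_trans {η ζ ξ : K} (h1 : η ≤ ζ) (h2 : ζ ≤ ξ) {z : Set Un × (Un → Un)} (hP : PIs S η ζ z)
    (hQ : PIs S ζ ξ z) : PIs S η ξ z := by
  intro c hc p p' hp hpp hcp
  obtain ⟨c1, a1, a2, a3, a4, a5⟩ := hP c hc p p' hp hpp hcp
  obtain ⟨c2, b1, b2, b3, b4, b5⟩ := hQ c1 a3 p p' hp hpp a4
  refine ⟨c2, fun t ht => (b1 t (ht.trans_le h1)).trans (a1 t ht), fun t ht h => ?_, b3, b4, b5⟩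
  rcases lt_or_ge t ζ with h3 | h3
  · rw [b1 t h3] at h
    exact ⟨(a2 t ht h).1.trans_le h2, (a2 t ht h).2⟩
  · exact b2 t h3 h

/-- one step -/
theorem PIs_step {η : K} (hF : FullQ (Itd S η)) (z : Set Un × (Un → Un)) (hη : Un.kk η ∈ z.1)
    (hS : SOK (LE S η) (Itd S η) η z) : PIs S η (Order.succ η) z := by
  intro c hc p p' hp hpp hcp
  obtain ⟨u, u1, u2, u3, u4, u5⟩ := hS c hc p p' hp hpp hcp
  have hd : prj (Itd S η) u = down (LE S η) (splice η c Cd.triv) := by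
    rw [u1]
    exact down_of_agree fun ζ hζ => (splice_lt hζ).symm
  obtain ⟨a, ha⟩ := exists_Val_eq hF u _ hd
  set c' : Cd := (splice η c Cd.triv).set η (some a) with hc'
  have hat : ∀ ζ < η, c'.at ζ = c.at ζ := fun ζ hζ =>
    (set_at_ne _ hζ.ne _).trans (splice_lt (WithTop.coe_lt_coe.2 hζ))
  have hle : (LE S η).le c' c := LE_of_agree fun ζ hζ => hat ζ (WithTop.coe_lt_coe.1 hζ)
  have hcp' : (LE S η).le c' p := (LE S η).trans _ _ _ hle hcp
  refine ⟨c', hat, fun ζ hζ h => ?_, ⟨?_, ?_⟩, LE_succ.2 ⟨hcp', ?_⟩,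
    LE_succ.2 ⟨(hc.2 p p' hp hpp _ hle).1 hcp', ?_⟩⟩
  · rcases hζ.lt_or_eq with h1 | h1
    · refine absurd ?_ h
      rw [hc', set_at_ne _ h1.ne', splice_ge (WithTop.coe_le_coe.2 hζ)]
      rfl
    · rw [← h1]
      exact ⟨Order.lt_succ η, hη⟩
  · intro D hD hdense q hq
    rw [LE_succ_eq] at hdense
    have h1 := u4 D hD hdense
    have hq' := LE_succ.1 hq
    have h2 : Val S η q ≤ u := by
      rw [← ha]
      exact hq'.2
    have h3 : ∃ d, (d ∈ D ∧ Un.cd d ∈ z.1) ∧ Val S η q ⊓ Val S η d ≠ ⊥ := by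
      by_contra hcon
      push Not at hcon
      refine Val_ne_bot (S := S) η q ?_
      have h4 : Val S η q = Val S η q ⊓ ⨆ d, ⨆ _ : d ∈ D ∧ Un.cd d ∈ z.1, val (LE S η) (Itd S η) η d :=
        (inf_eq_left.2 (h2.trans h1)).symm
      rw [h4, inf_iSup_eq]
      refine le_antisymm (iSup_le fun d => ?_) bot_le
      rw [inf_iSup_eq]
      exact iSup_le fun hd => (hcon d hd).le
    obtain ⟨d, hd, h4⟩ := h3
    obtain ⟨x, hx⟩ := Val_exists hF h4
    have hxq : Fo x (down (LE S η) q) := by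
      rw [← prj_Val η q]
      refine le_iff_Fo.1 (prj_mono (hx.trans inf_le_left)) x ?_
      rw [prj_Val]
      exact Fo_self x
    have hxd : Fo x (down (LE S η) d) := by
      rw [← prj_Val η d]
      refine le_iff_Fo.1 (prj_mono (hx.trans inf_le_right)) x ?_
      rw [prj_Val]
      exact Fo_self x
    obtain ⟨y, hy1, hy2⟩ := Fo_down.1 hxq x ((LE S η).refl x)
    obtain ⟨w, hw1, hw2⟩ := Fo_down.1 hxd y hy1
    have hwx : (LE S η).le w x := (LE S η).trans _ _ _ hw1 hy1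
    have hrw : (LE S η).le (splice η w x) w := (splice_equiv w x).1
    have hV : Val S η (splice η w x) ≤ Val S η x :=
      Val_mono (splice_ge le_rfl) (down_mono ((LE S η).trans _ _ _ hrw hwx))
    refine ⟨d, hd.1, hd.2, splice η w x, LE_succ.2 ⟨?_, ?_⟩, LE_succ.2 ⟨?_, ?_⟩⟩
    · exact (LE S η).trans _ _ _ hrw hw2
    · exact (hV.trans hx).trans inf_le_right
    · exact (LE S η).trans _ _ _ hrw ((LE S η).trans _ _ _ hw1 hy2)
    · exact (hV.trans hx).trans inf_le_left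
  · intro q q' hq hqq r hr
    have hr' := LE_succ.1 hr
    have h2 : Val S η r ≤ u := by
      rw [← ha]
      exact hr'.2
    have h3 := u5 q q' hq hqq
    have h4 := hc.2 q q' hq hqq r ((LE S η).trans _ _ _ hr'.1 hle)
    constructor
    · intro h
      have h' := LE_succ.1 h
      refine LE_succ.2 ⟨h4.1 h'.1, ?_⟩
      exact ((le_inf h2 h'.2).trans h3.le).trans inf_le_right
    · intro h
      have h' := LE_succ.1 h
      refine LE_succ.2 ⟨h4.2 h'.1, ?_⟩
      exact ((le_inf h2 h'.2).trans h3.ge).trans inf_le_right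
  · change Val S η c' ≤ _
    rw [ha]
    exact u2
  · change Val S η c' ≤ _
    rw [ha]
    exact u3

theorem PI_succ {η : K} (hF : FullQ (Itd S η))
    (hS : ∀ᶠ z in MF, FixW z → SOK (LE S η) (Itd S η) η z) (h : PIev S η) :
    PIev S (Order.succ η) := by
  unfold PIev at h ⊢
  filter_upwards [hS, h, MF_const (Un.kk η)] with z h1 h2 h3 hW hFix η' hη' hη'N
  rcases hη'.lt_or_eq with h4 | h4
  · have h5 : η' ≤ η := Order.lt_succ_iff.1 h4
    have h6 : Fix z η := fun ζ hζ => hFix ζ (hζ.trans (Order.lt_succ η))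
    exact PIs_trans h5 (Order.le_succ η) (h2 hW h6 η' h5 hη'N) (PIs_step hF z h3.1 (h1 hW))
  · rw [h4]
    exact PIs_refl _ z

end Pool.Agent.MMA1
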