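import Pool.Agent.MMI.PIn
import Pool.Agent.MMI.PISucc

/-! # The extension property: limit stages -/

set_option autoImplicit false

namespace Pool.Agent.MMA1

open Classical

variable {S : Stp}

namespace PILim

/-- dependent choices -/
theorem exists_seq {St : Type*} (Good : ℕ → St → Prop) (Rel : ℕ → St → St → Prop) (s0 : St)
    (h0 : Good 0 s0) (step : ∀ n s, Good n s → ∃ s', Good (n + 1) s' ∧ Rel n s s') :
    ∃ s : ℕ → St, s 0 = s0 ∧ ∀ n, Good n (s n) ∧ Rel n (s n) (s (n + 1)) := by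
  let F : (n : ℕ) → {s // Good n s} := fun n => Nat.rec ⟨s0, h0⟩
    (fun n s => ⟨(step n s.1 s.2).choose, (step n s.1 s.2).choose_spec.1⟩) n
  refine ⟨fun n => (F n).1, rfl, fun n => ⟨(F n).2, ?_⟩⟩
  exact (step n (F n).1 (F n).2).choose_spec.2

/-- the state at the stage `ζ`: a generic condition `c` and labels -/
structure Good (S : Stp) (z : Set Un × (Un → Un)) (ζ : K) (s : Cd × (Cd → Cd → Prop)) : Prop where
  gen : GenH (LE S ζ) z.1 z.2 s.1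
  mono : ∀ r r' d, (LE S ζ).le r' r → s.2 r d → s.2 r' d
  disj : ∀ r d e, s.2 r d → s.2 r e → d = e
  inN : ∀ r d, s.2 r d → Un.cd d ∈ z.1
  le : ∀ r d, (LE S ζ).le r s.1 → s.2 r d → (LE S ζ).le r d
  cov : ∀ r, (LE S ζ).le r s.1 → ∃ d r', (LE S ζ).le r' r ∧ s.2 r' d

/-- the relation between successive states -/
structure Rel (S : Stp) (z : Set Un × (Un → Un)) (ξ ζ ζ' : K) (D : Set Cd)
    (s s' : Cd × (Cd → Cd → Prop)) : Prop where
  agree : ∀ t < ζ, s'.1.at t = s.1.at t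
  supp : ∀ t, ζ ≤ t → s'.1.at t ≠ none → t < ζ' ∧ Un.kk t ∈ z.1
  mono : ∀ r r' d, (LE S ζ).le r' r → s'.2 r d → s'.2 r' d
  trans : ∀ r d q, s'.2 r d → s.2 r q → (LE S ξ).le d q
  inD : ∀ r d, s'.2 r d → d ∈ D

/-- one step of the construction -/
theorem step {ξ ζ ζ' : K} (hζζ : ζ ≤ ζ') (hζ'ξ : ζ' ≤ ξ) (hF : Full S ξ)
    {z : Set Un × (Un → Un)} (hz : z.1.Countable) (hP : PIs S ζ ζ' z)
    (hty : ∀ d : Cd, Un.cd d ∈ z.1 → ∃ d', z.2 (Un.cd d) = Un.cd d') {D : Set Cd}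
    (hch : ∀ c, Gen (LE S ζ) z.1 c → ∀ q, Un.cd q ∈ z.1 → ∀ r, (LE S ζ).le r c → (LE S ζ).le r q →
      ∃ r' d, (LE S ζ).le r' r ∧ Un.cd d ∈ z.1 ∧ d ∈ D ∧ (LE S ξ).le d q ∧ (LE S ζ).le r' d)
    (s : Cd × (Cd → Cd → Prop)) (hs : Good S z ζ s) :
    ∃ s', Good S z ζ' s' ∧ Rel S z ξ ζ ζ' D s s' := by
  have hζξ' : (ζ : WithTop K) ≤ ξ := WithTop.coe_le_coe.2 (hζζ.trans hζ'ξ)
  have hζζ' : (ζ : WithTop K) ≤ ζ' := WithTop.coe_le_coe.2 hζζ
  have hFζ : Full S ζ := fun t ht => hF t (ht.trans_le hζξ')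
  have hFζ' : Full S ζ' := fun t ht => hF t (ht.trans_le (WithTop.coe_le_coe.2 hζ'ξ))
  -- the conditions which decide the next label
  set B : Set Cd := {y | (LE S ζ).le y s.1 ∧ ∃ q d, s.2 y q ∧ d ∈ D ∧ Un.cd d ∈ z.1 ∧
    (LE S ξ).le d q ∧ (LE S ζ).le y d} with hB
  have hBd : ∀ r, (LE S ζ).le r s.1 → ∃ y, (LE S ζ).le y r ∧ y ∈ B := by
    intro r hr
    obtain ⟨q, r1, hr1, hq⟩ := hs.cov r hr
    have hr1c := (LE S ζ).trans _ _ _ hr1 hr
    obtain ⟨r2, d, hr2, hdN, hdD, hdq, hr2d⟩ := hch s.1 hs.gen.1 q (hs.inN _ _ hq) r1 hr1c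
      (hs.le r1 q hr1c hq)
    exact ⟨r2, (LE S ζ).trans _ _ _ hr2 hr1, (LE S ζ).trans _ _ _ hr2 hr1c, q, d,
      hs.mono _ _ _ hr2 hq, hdD, hdN, hdq, hr2d⟩
  obtain ⟨A, hAB, hA1, hA2⟩ := PIn_max_antichain (LE S ζ) B
  have : Nonempty Cd := ⟨Cd.triv⟩
  choose! qq dd h1 h2 h3 h4 h5 using fun y (hy : y ∈ A) => (hAB hy).2
  set V : Cd → BA (LE S ζ) := fun d => ⨆ y, ⨆ _ : y ∈ A ∧ dd y = d, down (LE S ζ) y with hV
  have hVF : ∀ r d, Fo r (V d) → ∀ r', (LE S ζ).le r' r → ∃ r'', (LE S ζ).le r'' r' ∧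
      ∃ y ∈ A, dd y = d ∧ (LE S ζ).le r'' y := by
    intro r d hr r' hr'
    obtain ⟨w, hw, y, hy⟩ := Fo_iSup.1 hr r' hr'
    obtain ⟨w', hw', hyA, hy'⟩ := Fo_iSup.1 hy w ((LE S ζ).refl w)
    obtain ⟨v, hv1, hv2⟩ := Fo_down.1 hy' w' ((LE S ζ).refl w')
    exact ⟨v, (LE S ζ).trans _ _ _ hv1 ((LE S ζ).trans _ _ _ hw' hw), y, hyA.1, hyA.2, hv2⟩
  have hVy : ∀ y ∈ A, ∀ r, (LE S ζ).le r y → Fo r (V (dd y)) := by
    intro y hy r hr
    refine le_iff_Fo.1 ?_ r (Fo_down_of_le hr)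
    exact le_iSup_of_le y (le_iSup_of_le ⟨hy, rfl⟩ le_rfl)
  have hAu : ∀ y ∈ A, ∀ y' ∈ A, ∀ r, (LE S ζ).le r y → (LE S ζ).le r y' → y = y' := by
    intro y hy y' hy' r hr hr'
    by_contra hcon
    exact hA1 y hy y' hy' hcon ⟨r, hr, hr'⟩
  have hVdisj : ∀ r d e, Fo r (V d) → Fo r (V e) → d = e := by
    intro r d e hd he
    obtain ⟨r1, hr1, y, hy, hyd, hry⟩ := hVF r d hd r ((LE S ζ).refl r)
    obtain ⟨r2, hr2, y', hy', hyd', hry'⟩ := hVF r e he r1 hr1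
    rw [← hyd, ← hyd', hAu y hy y' hy' r2 ((LE S ζ).trans _ _ _ hr2 hry) hry']
  have hVN : ∀ r d, Fo r (V d) → Un.cd d ∈ z.1 ∧ d ∈ D := by
    intro r d hd
    obtain ⟨r1, hr1, y, hy, hyd, hry⟩ := hVF r d hd r ((LE S ζ).refl r)
    rw [← hyd]
    exact ⟨h3 y hy, h2 y hy⟩
  have hVle : ∀ r d, Fo r (V d) → (LE S ζ).le r d := by
    intro r d hd
    refine LE_of_dense hFζ fun r' hr' => ?_
    obtain ⟨r1, hr1, y, hy, hyd, hry⟩ := hVF r d hd r' hr'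
    refine ⟨r1, hr1, (LE S ζ).trans _ _ _ hry ?_⟩
    rw [← hyd]
    exact h5 y hy
  have hVcov : ∀ r, (LE S ζ).le r s.1 → ∃ d r', (LE S ζ).le r' r ∧ Fo r' (V d) := by
    intro r hr
    obtain ⟨y, hy, hyB⟩ := hBd r hr
    obtain ⟨a, ha, w, hw1, hw2⟩ := hA2 y hyB
    exact ⟨dd a, w, (LE S ζ).trans _ _ _ hw2 hy, hVy a ha w hw1⟩
  -- the next condition
  have hty' : ∀ d : {d : Cd // Un.cd d ∈ z.1}, ∃ d', z.2 (Un.cd d.1) = Un.cd d' := fun d => hty d.1 d.2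
  choose im him using hty'
  obtain ⟨c', k1, k2, k3, k4⟩ := PIs_name (ι := {d : Cd // Un.cd d ∈ z.1}) hζζ hFζ' hz hP hs.gen
    (fun d => V d.1) (by
      intro d e hde
      by_contra hcon
      obtain ⟨x, hx⟩ := ne_bot_iff.1 hcon
      obtain ⟨hx1, hx2⟩ := Fo_inf.1 hx
      exact hde (Subtype.ext (hVdisj x d.1 e.1 hx1 hx2)))
    (fun d => d.1) im (fun d => d.2) him (fun d r _ hd => hVle r d.1 hd) (by
      intro r hr
      obtain ⟨d, r', hr', hd⟩ := hVcov r hr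
      exact ⟨⟨d, (hVN r' d hd).1⟩, r', hr', hd⟩)
  have hc's : (LE S ζ).le c' s.1 := LE_of_agree fun t ht => k1 t (WithTop.coe_lt_coe.1 ht)
  refine ⟨(c', fun r d => Fo r (V d)), ⟨k3, fun r r' d hr hd => hd.mono (LE_mono hζζ' hr), hVdisj,
    fun r d hd => (hVN r d hd).1, fun r d hr hd => (k4 ⟨d, (hVN r d hd).1⟩ r hr hd).1, ?_⟩,
    ⟨k1, k2, fun r r' d hr hd => hd.mono hr, ?_, fun r d hd => (hVN r d hd).2⟩⟩
  · intro r hr
    obtain ⟨d, r1, hr1, hd⟩ := hVcov r ((LE S ζ).trans _ _ _ (LE_mono hζζ' hr) hc's)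
    refine ⟨d, splice ζ r1 r, splice_le hr1 _, ?_⟩
    exact hd.mono (splice_equiv r1 r).1
  · intro r d q hd hq
    obtain ⟨r1, hr1, y, hy, hyd, hry⟩ := hVF r d hd r ((LE S ζ).refl r)
    have h6 : s.2 r1 (qq y) := hs.mono _ _ _ hry (h1 y hy)
    have h7 : s.2 r1 q := hs.mono _ _ _ hr1 hq
    rw [hs.disj r1 q (qq y) h7 h6, ← hyd]
    exact h4 y hy

/-- the code of a pair -/
def cP (a : Cd × Set Cd) : Un := Un.pair (Un.cd a.1) (Un.st a.2)

theorem cP_inj : Function.Injective cP := by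
  rintro ⟨a, b⟩ ⟨a', b'⟩ h
  unfold cP at h
  cases h
  rfl

end PILim

open PILim in
theorem PI_lim {ξ : K} (hlim : ∀ η < ξ, Order.succ η < ξ) (hF : Full S ξ)
    (h : ∀ η < ξ, PIev S η) : PIev S ξ := by
  have hlow : ∀ᶠ z in MF, ∀ ζ, Un.kk ζ ∈ z.1 → z.2 (Un.kk ζ) = Un.kk ζ →
      (ζ < ξ → FixW z → Fix z ζ → ∀ η ≤ ζ, Un.kk η ∈ z.1 → PIs S η ζ z) := by
    refine MF_diag' Un.kk kk_inj fun ζ => ?_
    by_cases hζ : ζ < ξ
    · filter_upwards [h ζ hζ] with z hz _ hW hFix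
      exact hz hW hFix
    · exact Filter.Eventually.of_forall fun z hz => absurd hz hζ
  have hch : ∀ᶠ z in MF, ∀ ζ, Un.kk ζ ∈ z.1 → z.2 (Un.kk ζ) = Un.kk ζ →
      (∀ c, Gen (LE S ζ) z.1 c → ∀ a : Cd × Set Cd, cP a ∈ z.1 →
        (∀ q, ∃ (x : Cd) (b : Cd), (LE S ζ).le x q ∧ ((b ∈ a.2 ∧ (LE S ξ).le b a.1 ∧ (LE S ζ).le x b) ∨
          ¬ (LE S ζ).Comp x a.1)) →
        ∀ q, (LE S ζ).le q c → ∃ q' x b, (LE S ζ).le q' q ∧ (LE S ζ).le q' x ∧ Un.cd x ∈ z.1 ∧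
          Un.cd b ∈ z.1 ∧ ((b ∈ a.2 ∧ (LE S ξ).le b a.1 ∧ (LE S ζ).le x b) ∨
          ¬ (LE S ζ).Comp x a.1)) := by
    refine MF_diag' Un.kk kk_inj fun ζ => ?_
    filter_upwards [Gen_choose (LE S ζ) cP cP_inj Un.cd (fun (a : Cd × Set Cd) (x : Cd) (b : Cd) =>
      (b ∈ a.2 ∧ (LE S ξ).le b a.1 ∧ (LE S ζ).le x b) ∨ ¬ (LE S ζ).Comp x a.1)] with z hz c hc a ha hd q hq
    obtain ⟨q', x, b, h1, h2, h3, h4, h5, -⟩ := hz c hc a ha hd q hq
    exact ⟨q', x, b, h1, h2, h3, h4, h5⟩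
  have hD0 := MF_fun Un.cd cd_inj Un.st (fun p0 : Cd => {d : Cd | (LE S ξ).le d p0 ∨ ¬ (LE S ξ).Comp d p0})
  unfold PIev
  filter_upwards [hlow, hch, hD0, MF_ctb, MF_const (Un.st Set.univ), MF_pair,
    MF_type Un.cd, MF_supp, MF_supp', MF_rel1 Un.kk kk_inj (fun ζ => ζ < ξ),
    MF_rel2 Un.cd cd_inj Un.cd cd_inj (fun d q => (LE S ξ).le d q),
    MF_rel2 Un.cd cd_inj Un.cd cd_inj (fun d q => (LE S ξ).Comp d q),
    MF_fun Un.kk kk_inj Un.kk (fun ζ : K => Order.succ ζ)] with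
    z hlow hch hD0 hctb huniv hpair hty hsupp hsupp' hrξ hrle hrcomp hsucc hW hFix η hη hηN
  rcases hη.lt_or_eq with hηξ | rfl
  swap
  · exact PIs_refl _ z
  intro c hc p p' hp hpp hcp
  -- the ordinals
  set NK : Set K := {ζ | Un.kk ζ ∈ z.1 ∧ ζ < ξ} with hNK
  have hNKc : NK.Countable := (hctb.1.preimage kk_inj).mono fun ζ hζ => hζ.1
  obtain ⟨e, he⟩ := hNKc.exists_eq_range ⟨η, hηN, hηξ⟩
  have heN : ∀ n, e n ∈ NK := fun n => by rw [he]; exact Set.mem_range_self n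
  obtain ⟨ζs, hζ0, hζs⟩ : ∃ ζs : ℕ → K, ζs 0 = η ∧ ∀ n, ζs (n + 1) = max (ζs n) (e n) :=
    ⟨fun n => Nat.rec η (fun n t => max t (e n)) n, rfl, fun n => rfl⟩
  have hζN : ∀ n, ζs n ∈ NK := by
    intro n
    induction n with
    | zero => rw [hζ0]; exact ⟨hηN, hηξ⟩
    | succ n ih =>
      rw [hζs]
      rcases le_total (ζs n) (e n) with h1 | h1
      · rw [max_eq_right h1]; exact heN n
      · rw [max_eq_left h1]; exact ih
  have hζmono : Monotone ζs := monotone_nat_of_le_succ fun n => by rw [hζs]; exact le_max_left _ _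
  have heζ : ∀ n, e n ≤ ζs (n + 1) := fun n => by rw [hζs]; exact le_max_right _ _
  have hζξ : ∀ n, ((ζs n : K) : WithTop K) ≤ (ξ : WithTop K) := fun n =>
    WithTop.coe_le_coe.2 (le_of_lt (hζN n).2)
  have hFn : ∀ n, Full S (ζs n) := fun n t ht => hF t (ht.trans_le (hζξ n))
  -- the dense sets
  set DD : Set (Set Cd) := {D | Un.st D ∈ z.1 ∧ (LE S ξ).Dense D} with hDD
  have hDDc : DD.Countable := (hctb.1.preimage st_inj).mono fun D hD => hD.1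
  obtain ⟨Ds, hDs⟩ := hDDc.exists_eq_range ⟨Set.univ, huniv.1, fun x => ⟨x, trivial, (LE S ξ).refl x⟩⟩
  have hDsN : ∀ n, Ds n ∈ DD := fun n => by rw [hDs]; exact Set.mem_range_self n
  -- the construction
  have hstep : ∀ n s, Good S z (ζs n) s → ∃ s', Good S z (ζs (n + 1)) s' ∧
      Rel S z ξ (ζs n) (ζs (n + 1)) (Ds n) s s' := by
    intro n s hs
    have hfix : z.2 (Un.kk (ζs n)) = Un.kk (ζs n) := hFix _ (hζN n).2 (hζN n).1
    have hfix' : z.2 (Un.kk (ζs (n + 1))) = Un.kk (ζs (n + 1)) := hFix _ (hζN _).2 (hζN _).1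
    refine PILim.step (hζmono (Nat.le_succ n)) (hζN (n + 1)).2.le hF hctb.1
      (hlow (ζs (n + 1)) (hζN _).1 hfix' (hζN _).2 hW
        (fun t ht => hFix t (ht.trans (hζN _).2)) (ζs n) (hζmono (Nat.le_succ n)) (hζN n).1)
      hty ?_ s hs
    intro c hc q hq r hr hrq
    have hcP : cP (q, Ds n) ∈ z.1 := (hpair _ _).2 ⟨hq, (hDsN n).1⟩
    obtain ⟨r', x, d, h1, h2, h3, h4, h5⟩ := hch (ζs n) (hζN n).1 hfix c hc (q, Ds n) hcP (by
      intro y
      by_cases hy : (LE S (ζs n)).Comp y q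
      · obtain ⟨x0, hx1, hx2⟩ := hy
        have h6 : (LE S ξ).le (splice (ζs n) x0 q) q := splice_le hx2 _
        obtain ⟨d, hd, hd2⟩ := (hDsN n).2 (splice (ζs n) x0 q)
        have h7 : (LE S (ζs n)).le d x0 :=
          (LE S (ζs n)).trans _ _ _ (LE_mono (hζξ n) hd2) (splice_equiv x0 q).1
        exact ⟨d, d, (LE S (ζs n)).trans _ _ _ h7 hx1,
          Or.inl ⟨hd, (LE S ξ).trans _ _ _ hd2 h6, (LE S (ζs n)).refl d⟩⟩
      · exact ⟨y, y, (LE S (ζs n)).refl y, Or.inr hy⟩) r hr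
    rcases h5 with ⟨h5, h6, h7⟩ | h5
    · exact ⟨r', d, h1, h4, h5, h6, (LE S (ζs n)).trans _ _ _ h2 h7⟩
    · exact absurd ⟨r', h2, (LE S (ζs n)).trans _ _ _ h1 hrq⟩ h5
  have hc' : GenH (LE S (ζs 0)) z.1 z.2 c := by rw [hζ0]; exact hc
  have hcp' : (LE S (ζs 0)).le c p := by rw [hζ0]; exact hcp
  obtain ⟨st, hst0, hst⟩ := exists_seq (fun n => Good S z (ζs n))
    (fun n => Rel S z ξ (ζs n) (ζs (n + 1)) (Ds n)) (c, fun _ d => d = p)
    ⟨hc', fun _ _ _ _ h => h, fun _ _ _ h1 h2 => h1.trans h2.symm, fun _ d hd => by rw [hd]; exact hp,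
      fun r d hr hd => by rw [hd]; exact (LE S (ζs 0)).trans _ _ _ hr hcp',
      fun r _ => ⟨p, r, (LE S (ζs 0)).refl r, rfl⟩⟩ hstep
  have hG : ∀ n, Good S z (ζs n) (st n) := fun n => (hst n).1
  have hR : ∀ n, Rel S z ξ (ζs n) (ζs (n + 1)) (Ds n) (st n) (st (n + 1)) := fun n => (hst n).2
  -- coherence
  have hcoh : ∀ n m, n ≤ m → ∀ t < ζs n, (st m).1.at t = (st n).1.at t := by
    intro n m hnm t ht
    induction m, hnm using Nat.le_induction with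
    | base => rfl
    | succ m hm ih => exact ((hR m).agree t (ht.trans_le (hζmono hm))).trans ih
  -- the limit condition
  let cω : Cd := ⟨fun t => if h : ∃ n, t < ζs n then (st (Nat.find h)).1.1 t else none, by
    refine (Set.countable_iUnion fun n => (st n).1.2).mono ?_
    intro t ht
    by_cases h : ∃ n, t < ζs n
    · refine Set.mem_iUnion.2 ⟨Nat.find h, ?_⟩
      change (if h : ∃ n, t < ζs n then (st (Nat.find h)).1.1 t else none) ≠ none at ht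
      rw [dif_pos h] at ht
      exact ht
    · change (if h : ∃ n, t < ζs n then (st (Nat.find h)).1.1 t else none) ≠ none at ht
      rw [dif_neg h] at ht
      exact absurd rfl ht⟩
  have hcω : ∀ n, ∀ t < ζs n, cω.at t = (st n).1.at t := by
    intro n t ht
    have hex : ∃ n, t < ζs n := ⟨n, ht⟩
    have h1 : cω.at t = (st (Nat.find hex)).1.at t := dif_pos hex
    rw [h1]
    exact (hcoh _ n (Nat.find_min' hex ht) t (Nat.find_spec hex)).symm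
  have hcω' : ∀ t, (¬ ∃ n, t < ζs n) → cω.at t = none := fun t ht => dif_neg ht
  have hle : ∀ n, (LE S (ζs n)).le cω (st n).1 := fun n =>
    LE_of_agree fun t ht => hcω n t (WithTop.coe_lt_coe.1 ht)
  have hlen : ∀ n r, (LE S ξ).le r cω → (LE S (ζs n)).le r (st n).1 := fun n r hr =>
    (LE S (ζs n)).trans _ _ _ (LE_mono (hζξ n) hr) (hle n)
  have hlen' : ∀ n m r, n ≤ m → (LE S (ζs m)).le r cω → (LE S (ζs n)).le r (st n).1 := fun n m r hnm hr =>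
    (LE S (ζs n)).trans _ _ _ (LE_mono (WithTop.coe_le_coe.2 (hζmono hnm)) hr) (hle n)
  -- transitions
  have htrans : ∀ n m, n ≤ m → ∀ r d q, (LE S (ζs m)).le r cω → (st m).2 r d → (st n).2 r q →
      (LE S ξ).le d q := by
    intro n m hnm
    induction m, hnm using Nat.le_induction with
    | base =>
      intro r d q _ hd hq
      rw [(hG n).disj r d q hd hq]
      exact (LE S ξ).refl q
    | succ m hm ih =>
      intro r d q hr hd hq
      have hr1 := hlen' m (m + 1) r (Nat.le_succ m) hr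
      obtain ⟨e', r', hr', he'⟩ := (hG m).cov r hr1
      have h1 : (LE S ξ).le d e' := (hR m).trans r' d e' ((hR m).mono r r' d hr' hd) he'
      have h2 : (st n).2 r' q := (hG n).mono r r' q
        (LE_mono (WithTop.coe_le_coe.2 (hζmono hm)) hr') hq
      have h3 : (LE S (ζs m)).le r' cω := (LE S (ζs m)).trans _ _ _ hr'
        (LE_mono (WithTop.coe_le_coe.2 (hζmono (Nat.le_succ m))) hr)
      exact (LE S ξ).trans _ _ _ h1 (ih r' e' q h3 he' h2)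
  -- the images of the labels
  have hlab' : ∀ n r d d', (LE S (ζs n)).le r (st n).1 → (st n).2 r d → z.2 (Un.cd d) = Un.cd d' →
      (LE S (ζs n)).le r d' := fun n r d d' hr hd hdd =>
    ((hG n).gen.2 d d' ((hG n).inN r d hd) hdd r hr).1 ((hG n).le r d hr hd)
  -- the supremum of the ordinals `ζs n`
  have hsup : ∃ σ : K, (∀ n, ζs n ≤ σ) ∧ ∀ t < σ, ∃ n, t < ζs n := by
    have hne : {σ : K | ∀ n, ζs n ≤ σ}.Nonempty := ⟨ξ, fun n => (hζN n).2.le⟩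
    refine ⟨wellFounded_lt.min _ hne, wellFounded_lt.min_mem _ hne, fun t ht => ?_⟩
    by_contra hcon
    push Not at hcon
    exact wellFounded_lt.not_lt_min {σ : K | ∀ n, ζs n ≤ σ} (x := t) hcon ht
  obtain ⟨σ, hσ1, hσ2⟩ := hsup
  have hNσ : ∀ t, Un.kk t ∈ z.1 → t < ξ → t < σ := by
    intro t ht htξ
    have h1 : Order.succ t ∈ NK := ⟨(hsucc t ht).1, hlim t htξ⟩
    rw [he] at h1
    obtain ⟨n, hn⟩ := h1
    have h2 : Order.succ t ≤ σ := by rw [← hn]; exact (heζ n).trans (hσ1 _)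
    exact (Order.lt_succ t).trans_le h2
  -- from all `ζs m` to `ξ`
  have htop : ∀ r q, (∀ t, t < ξ → q.at t ≠ none → t < σ) → (∀ m, (LE S (ζs m)).le r q) →
      (LE S ξ).le r q := by
    intro r q hq hr
    refine le_of_none (ζ := (σ : WithTop K)) ?_ ?_
    · rw [LE_le]
      intro t ht
      obtain ⟨n, hn⟩ := hσ2 t (WithTop.coe_lt_coe.1 ht)
      exact (LE_le S _ _ _).1 (hr n) t (WithTop.coe_lt_coe.2 hn)
    · intro t ht1 ht2
      by_contra hcon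
      exact absurd (hq t (WithTop.coe_lt_coe.1 ht2) hcon) (not_lt.2 (WithTop.coe_le_coe.1 ht1))
  -- the main claim
  have main : ∀ n r q q', (LE S ξ).le r cω → (st n).2 r q → z.2 (Un.cd q) = Un.cd q' →
      (LE S ξ).le r q ∧ (LE S ξ).le r q' := by
    intro n r q q' hr hq hqq
    have hqN := (hG n).inN r q hq
    have key : ∀ m, n ≤ m → ∀ r', (LE S (ζs m)).le r' r → ∃ r'', (LE S (ζs m)).le r'' r' ∧
        (LE S (ζs m)).le r'' q ∧ (LE S (ζs m)).le r'' q' := by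
      intro m hnm r' hr'
      have h1 : (LE S (ζs m)).le r' cω := (LE S (ζs m)).trans _ _ _ hr' (LE_mono (hζξ m) hr)
      obtain ⟨d, r'', hr'', hd⟩ := (hG m).cov r' ((LE S (ζs m)).trans _ _ _ h1 (hle m))
      have h2 : (LE S (ζs m)).le r'' cω := (LE S (ζs m)).trans _ _ _ hr'' h1
      have h3 : (LE S (ζs m)).le r'' (st m).1 := (LE S (ζs m)).trans _ _ _ h2 (hle m)
      have h4 : (LE S ξ).le d q := htrans n m hnm r'' d q h2 hd ((hG n).mono r r'' q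
        (LE_mono (WithTop.coe_le_coe.2 (hζmono hnm)) ((LE S (ζs m)).trans _ _ _ hr'' hr')) hq)
      obtain ⟨d', hdd⟩ := hty d ((hG m).inN _ _ hd)
      have h5 : (LE S ξ).le d' q' := (hrle d d' q q' ((hG m).inN _ _ hd) hqN hdd hqq).1 h4
      exact ⟨r'', hr'', (LE S (ζs m)).trans _ _ _ ((hG m).le r'' d h3 hd) (LE_mono (hζξ m) h4),
        (LE S (ζs m)).trans _ _ _ (hlab' m r'' d d' h3 hd hdd) (LE_mono (hζξ m) h5)⟩
    have hq1 : ∀ m, (LE S (ζs m)).le r q := by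
      intro m
      have h1 : (LE S (ζs (max n m))).le r q := LE_of_dense (hFn _) fun r' hr' =>
        (key (max n m) (le_max_left _ _) r' hr').imp fun _ h => ⟨h.1, h.2.1⟩
      exact LE_mono (WithTop.coe_le_coe.2 (hζmono (le_max_right n m))) h1
    have hq2 : ∀ m, (LE S (ζs m)).le r q' := by
      intro m
      have h1 : (LE S (ζs (max n m))).le r q' := LE_of_dense (hFn _) fun r' hr' =>
        (key (max n m) (le_max_left _ _) r' hr').imp fun _ h => ⟨h.1, h.2.2⟩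
      exact LE_mono (WithTop.coe_le_coe.2 (hζmono (le_max_right n m))) h1
    refine ⟨htop r q (fun t ht h => hNσ t (hsupp q t hqN h) ht) hq1,
      htop r q' (fun t ht h => ?_) hq2⟩
    obtain ⟨t0, ht0, ht0'⟩ := hsupp' q q' t hqN hqq h
    have h1 : t0 < ξ := (hrξ t0 t ht0 ht0').2 ht
    have h2 := hFix t0 h1 ht0
    rw [h2] at ht0'
    have h3 : t0 = t := kk_inj ht0'
    rw [← h3]
    exact hNσ t0 ht0 h1
  -- deciding a dense set
  have hdec : ∀ D, Un.st D ∈ z.1 → (LE S ξ).Dense D → ∀ q, (LE S ξ).le q cω →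
      ∃ r d d', (LE S ξ).le r q ∧ d ∈ D ∧ Un.cd d ∈ z.1 ∧ z.2 (Un.cd d) = Un.cd d' ∧
        (LE S ξ).le r d ∧ (LE S ξ).le r d' := by
    intro D hD hdense q hq
    have h1 : D ∈ DD := ⟨hD, hdense⟩
    rw [hDs] at h1
    obtain ⟨n, rfl⟩ := h1
    obtain ⟨d, r', hr', hd⟩ := (hG (n + 1)).cov q (hlen (n + 1) q hq)
    have h2 : (LE S ξ).le (splice (ζs (n + 1)) r' q) q := splice_le hr' _
    have h3 : (st (n + 1)).2 (splice (ζs (n + 1)) r' q) d :=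
      (hG (n + 1)).mono _ _ _ (splice_equiv r' q).1 hd
    obtain ⟨d', hdd⟩ := hty d ((hG (n + 1)).inN _ _ hd)
    obtain ⟨h4, h5⟩ := main (n + 1) _ d d' ((LE S ξ).trans _ _ _ h2 hq) h3 hdd
    exact ⟨_, d, d', h2, (hR n).inD _ _ hd, (hG (n + 1)).inN _ _ hd, hdd, h4, h5⟩
  have h00 : (st 0).2 cω p := by rw [hst0]
  obtain ⟨hcp1, hcp2⟩ := main 0 cω p p' ((LE S ξ).refl cω) h00 hpp
  refine ⟨cω, fun t ht => ?_, fun t ht hne => ?_, ⟨?_, ?_⟩, hcp1, hcp2⟩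
  · rw [hcω 0 t (by rw [hζ0]; exact ht), hst0]
  · by_cases hex : ∃ n, t < ζs n
    · have hn : t < ζs (Nat.find hex) := Nat.find_spec hex
      obtain ⟨m, hm⟩ : ∃ m, Nat.find hex = m + 1 := by
        refine Nat.exists_eq_succ_of_ne_zero fun h0 => ?_
        rw [h0, hζ0] at hn
        exact absurd hn (not_lt.2 ht)
      rw [hm] at hn
      have h1 : ζs m ≤ t := by
        by_contra hcon
        have := Nat.find_min' hex (not_le.1 hcon)
        omega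
      rw [hcω (m + 1) t hn] at hne
      obtain ⟨h2, h3⟩ := (hR m).supp t h1 hne
      exact ⟨h2.trans (hζN (m + 1)).2, h3⟩
    · exact absurd (hcω' t hex) hne
  · intro D hD hdense q hq
    obtain ⟨r, d, d', h1, h2, h3, -, h4, -⟩ := hdec D hD hdense q hq
    exact ⟨d, h2, h3, r, h4, h1⟩
  · intro p0 p0' hp0 hpp0 q hq
    have hDp := (hD0 p0 hp0).1
    have hDdense : (LE S ξ).Dense {d : Cd | (LE S ξ).le d p0 ∨ ¬ (LE S ξ).Comp d p0} := by
      intro x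
      by_cases hx : (LE S ξ).Comp x p0
      · obtain ⟨w, hw1, hw2⟩ := hx
        exact ⟨w, Or.inl hw2, hw1⟩
      · exact ⟨x, Or.inr hx, (LE S ξ).refl x⟩
    constructor
    · intro hqp
      refine LE_of_dense hF fun r' hr' => ?_
      obtain ⟨r, d, d', h1, h2, h3, hdd, h4, h5⟩ := hdec _ hDp hDdense r'
        ((LE S ξ).trans _ _ _ hr' hq)
      have h6 : (LE S ξ).le d p0 := by
        rcases h2 with h2 | h2
        · exact h2
        · exact absurd ⟨r, h4, (LE S ξ).trans _ _ _ h1 ((LE S ξ).trans _ _ _ hr' hqp)⟩ h2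
      exact ⟨r, h1, (LE S ξ).trans _ _ _ h5 ((hrle d d' p0 p0' h3 hp0 hdd hpp0).1 h6)⟩
    · intro hqp
      refine LE_of_dense hF fun r' hr' => ?_
      obtain ⟨r, d, d', h1, h2, h3, hdd, h4, h5⟩ := hdec _ hDp hDdense r'
        ((LE S ξ).trans _ _ _ hr' hq)
      rcases h2 with h2 | h2
      · exact ⟨r, h1, (LE S ξ).trans _ _ _ h4 h2⟩
      · have h6 : ¬ (LE S ξ).Comp d' p0' := fun h7 =>
          h2 ((hrcomp d d' p0 p0' h3 hp0 hdd hpp0).2 h7)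
        exact absurd ⟨r, h5, (LE S ξ).trans _ _ _ h1 ((LE S ξ).trans _ _ _ hr' hqp)⟩ h6

end Pool.Agent.MMA1
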