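import Pool.Agent.MMI.Mix
import Pool.Agent.MMI.GenB

/-! # The extension property for names -/

set_option autoImplicit false

namespace Pool.Agent.MMA1

open Classical

variable {S : Stp}

/-- a maximal antichain contained in a set -/
theorem PIn_max_antichain {X : Type} (L : Pre X) (B : Set X) :
    ∃ A ⊆ B, (∀ x ∈ A, ∀ y ∈ A, x ≠ y → ¬ L.Comp x y) ∧ ∀ b ∈ B, ∃ a ∈ A, L.Comp a b := by
  obtain ⟨A, hA⟩ := zorn_subset {A : Set X | A ⊆ B ∧ ∀ x ∈ A, ∀ y ∈ A, x ≠ y → ¬ L.Comp x y} (by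
    intro C hC hchain
    refine ⟨⋃₀ C, ⟨Set.sUnion_subset fun A hA => (hC hA).1, ?_⟩, fun A hA => Set.subset_sUnion_of_mem hA⟩
    rintro x ⟨A1, hA1, hx⟩ y ⟨A2, hA2, hy⟩ hxy
    rcases hchain.total hA1 hA2 with h | h
    · exact (hC hA2).2 x (h hx) y hy hxy
    · exact (hC hA1).2 x hx y (h hy) hxy)
  refine ⟨A, hA.prop.1, hA.prop.2, fun b hb => ?_⟩
  by_contra hcon
  push Not at hcon
  have hcomm : ∀ x y, L.Comp x y → L.Comp y x := fun x y ⟨z, h1, h2⟩ => ⟨z, h2, h1⟩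
  have h1 : insert b A ∈ {A : Set X | A ⊆ B ∧ ∀ x ∈ A, ∀ y ∈ A, x ≠ y → ¬ L.Comp x y} := by
    refine ⟨Set.insert_subset hb hA.prop.1, ?_⟩
    rintro x (rfl | hx) y (rfl | hy) hxy
    · exact absurd rfl hxy
    · exact fun h => hcon y hy (hcomm _ _ h)
    · exact hcon x hx
    · exact hA.prop.2 x hx y hy hxy
  have h2 := hA.le_of_ge h1 (Set.subset_insert b A)
  exact hcon b (h2 (Set.mem_insert b A)) ⟨b, L.refl b, L.refl b⟩

/-- the extension property for names `(U i, p i)` of elements of `N` -/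
theorem PIs_name {η ξ : K} (hηξ : η ≤ ξ) (hF : Full S ξ) {z : Set Un × (Un → Un)}
    (hz : z.1.Countable) (hP : PIs S η ξ z) {c : Cd} (hc : GenH (LE S η) z.1 z.2 c) {ι : Type}
    (U : ι → BA (LE S η)) (hU : ∀ i j, i ≠ j → U i ⊓ U j = ⊥) (p p' : ι → Cd)
    (hN : ∀ i, Un.cd (p i) ∈ z.1) (hh : ∀ i, z.2 (Un.cd (p i)) = Un.cd (p' i))
    (hle : ∀ i r, (LE S η).le r c → Fo r (U i) → (LE S η).le r (p i))
    (hcov : ∀ r, (LE S η).le r c → ∃ i r', (LE S η).le r' r ∧ Fo r' (U i)) :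
    ∃ c', (∀ ζ < η, c'.at ζ = c.at ζ) ∧ (∀ ζ, η ≤ ζ → c'.at ζ ≠ none → ζ < ξ ∧ Un.kk ζ ∈ z.1) ∧
      GenH (LE S ξ) z.1 z.2 c' ∧
      ∀ i r, (LE S ξ).le r c' → Fo r (U i) → (LE S ξ).le r (p i) ∧ (LE S ξ).le r (p' i) := by
  have hηξ' : (η : WithTop K) ≤ ξ := WithTop.coe_le_coe.2 hηξ
  obtain ⟨A, hAB, hA1, hA2⟩ := PIn_max_antichain (LE S η) {r | (LE S η).le r c ∧ ∃ i, Fo r (U i)}
  -- the index and the extension for the elements of `A`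
  have : Nonempty ι := ⟨(hcov c ((LE S η).refl c)).choose⟩
  have : Nonempty Cd := ⟨Cd.triv⟩
  choose! ix hix using fun r (hr : r ∈ A) => (hAB hr).2
  have hAc : ∀ r ∈ A, (LE S η).le r c := fun r hr => (hAB hr).1
  have hex : ∀ r ∈ A, ∃ c', (∀ ζ < η, c'.at ζ = r.at ζ) ∧
      (∀ ζ, η ≤ ζ → c'.at ζ ≠ none → ζ < ξ ∧ Un.kk ζ ∈ z.1) ∧ GenH (LE S ξ) z.1 z.2 c' ∧
      (LE S ξ).le c' (p (ix r)) ∧ (LE S ξ).le c' (p' (ix r)) := fun r hr =>
    hP r (hc.mono (hAc r hr)) (p (ix r)) (p' (ix r)) (hN _) (hh _)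
      (hle _ r (hAc r hr) (hix r hr))
  choose! e he1 he2 he3 he4 he5 using hex
  have hT : {ζ : K | Un.kk ζ ∈ z.1}.Countable := hz.preimage kk_inj
  obtain ⟨c', hc1, hc2, hc3⟩ := mix hF hηξ' (ι := A) (fun r => down (LE S η) r.1) (by
      intro r r' hrr
      by_contra hcon
      exact hA1 r.1 r.2 r'.1 r'.2 (fun h => hrr (Subtype.ext h)) (inf_down_ne_bot.1 hcon))
    c (fun r => e r.1) {ζ | Un.kk ζ ∈ z.1} hT (fun r ζ hζ h => (he2 r.1 r.2 ζ hζ h).2)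
  -- the main step: below `c'` we find conditions below some `e a`
  have hc'c : (LE S η).le c' c := LE_of_agree fun ζ hζ => hc1 ζ (WithTop.coe_lt_coe.1 hζ)
  have main : ∀ q, (LE S ξ).le q c' → ∃ a ∈ A, ∃ q1, (LE S ξ).le q1 q ∧ (LE S η).le q1 a ∧
      (LE S ξ).le q1 (e a) := by
    intro q hq
    have hqc : (LE S η).le q c := (LE S η).trans _ _ _ (LE_mono hηξ' hq) hc'c
    obtain ⟨i, q', hq', hi⟩ := hcov q hqc
    obtain ⟨a, ha, s, hs1, hs2⟩ := hA2 q' ⟨(LE S η).trans _ _ _ hq' hqc, i, hi⟩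
    have hsq : (LE S η).le s q := (LE S η).trans _ _ _ hs2 hq'
    have hsc : (LE S η).le s c := (LE S η).trans _ _ _ hsq hqc
    have h1 : (LE S ξ).le (splice η s q) q := splice_le hsq ξ
    have h2 : (LE S η).le (splice η s q) s := (splice_equiv s q).1
    have h3 : (LE S ξ).le (splice η s q) (splice η s c') :=
      le_splice h2 ((LE S ξ).trans _ _ _ h1 hq)
    have h4 := (hc3 ⟨a, ha⟩ s hsc (Fo_down_of_le hs1)).1
    have h5 : (LE S ξ).le (splice η s (e a)) (e a) := by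
      refine splice_le ?_ ξ
      refine (LE S η).trans _ _ _ hs1 ?_
      exact LE_of_agree fun ζ hζ => (he1 a ha ζ (WithTop.coe_lt_coe.1 hζ)).symm
    exact ⟨a, ha, splice η s q, h1, (LE S η).trans _ _ _ h2 hs1,
      (LE S ξ).trans _ _ _ h3 ((LE S ξ).trans _ _ _ h4 h5)⟩
  refine ⟨c', hc1, fun ζ hζ h => ⟨WithTop.coe_lt_coe.1 (hc2 ζ hζ h).1, (hc2 ζ hζ h).2⟩,
    ⟨?_, ?_⟩, ?_⟩
  · intro D hD hdense q hq
    obtain ⟨a, ha, q1, h1, h2, h3⟩ := main q hq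
    obtain ⟨d, hd, hdN, w, hw1, hw2⟩ := (he3 a ha).1 D hD hdense q1 h3
    exact ⟨d, hd, hdN, w, hw1, (LE S ξ).trans _ _ _ hw2 h1⟩
  · intro p0 p0' hp0 hpp0 q hq
    constructor
    · intro h
      refine LE_of_dense hF fun r hr => ?_
      obtain ⟨a, ha, q1, h1, h2, h3⟩ := main r ((LE S ξ).trans _ _ _ hr hq)
      refine ⟨q1, h1, ((he3 a ha).2 p0 p0' hp0 hpp0 q1 h3).1 ?_⟩
      exact (LE S ξ).trans _ _ _ h1 ((LE S ξ).trans _ _ _ hr h)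
    · intro h
      refine LE_of_dense hF fun r hr => ?_
      obtain ⟨a, ha, q1, h1, h2, h3⟩ := main r ((LE S ξ).trans _ _ _ hr hq)
      refine ⟨q1, h1, ((he3 a ha).2 p0 p0' hp0 hpp0 q1 h3).2 ?_⟩
      exact (LE S ξ).trans _ _ _ h1 ((LE S ξ).trans _ _ _ hr h)
  · intro i r hr hi
    have key : ∀ r', (LE S ξ).le r' r → ∃ q1, (LE S ξ).le q1 r' ∧ (LE S ξ).le q1 (p i) ∧
        (LE S ξ).le q1 (p' i) := by
      intro r' hr'
      obtain ⟨a, ha, q1, h1, h2, h3⟩ := main r' ((LE S ξ).trans _ _ _ hr' hr)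
      have hq1 : (LE S η).le q1 r := LE_mono hηξ' ((LE S ξ).trans _ _ _ h1 hr')
      have hi1 : Fo q1 (U i) := hi.mono hq1
      have hi2 : Fo q1 (U (ix a)) := (hix a ha).mono h2
      have hia : i = ix a := by
        by_contra hcon
        have h6 : Fo q1 (U i ⊓ U (ix a)) := Fo_inf.2 ⟨hi1, hi2⟩
        rw [hU i (ix a) hcon] at h6
        exact not_Fo_bot q1 h6
      rw [hia]
      exact ⟨q1, h1, (LE S ξ).trans _ _ _ h3 (he4 a ha), (LE S ξ).trans _ _ _ h3 (he5 a ha)⟩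
    exact ⟨LE_of_dense hF fun r' hr' => (key r' hr').imp fun q1 h => ⟨h.1, h.2.1⟩,
      LE_of_dense hF fun r' hr' => (key r' hr').imp fun q1 h => ⟨h.1, h.2.2⟩⟩

end Pool.Agent.MMA1
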