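import Pool.Agent.MMI.Cap

/-! # Generic conditions of the final forcing -/

set_option autoImplicit false

namespace Pool.Agent.MMA1

open Classical

theorem SGen_LP_congr {F F' : Prg} {ξ : K} (h : ∀ η < ξ, F η = F' η) : LP F ξ = LP F' ξ :=
  LP_congr (ξ : WithTop K) fun η hη => h η (WithTop.coe_lt_coe.1 hη)

theorem SGen_le_triv {F : Prg} {ξ : WithTop K} (c : Cd) : (LP F ξ).le c Cd.triv :=
  le_of_none (ζ := (K0 : WithTop K)) (LE_zero _ _) fun η _ _ => triv_at η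

theorem SGen_LP_mono {F : Prg} {ζ ξ : WithTop K} (h : ζ ≤ ξ) {p q : Cd} (hpq : (LP F ξ).le p q) :
    (LP F ζ).le p q := LE_mono h hpq

/-- uniform extension property -/
theorem main_ext : ∀ᶠ z in MF, ∀ (F : Prg) (ξ : K), Un.pr F ∈ z.1 → Un.kk ξ ∈ z.1 →
    (∀ η < ξ, Leg F η) → ∀ η ≤ ξ, Un.kk η ∈ z.1 → ∀ c, Gen (LP F η) z.1 c → ∀ p, Un.cd p ∈ z.1 →
      (LP F η).le c p → ∃ c', (∀ ζ < η, c'.at ζ = c.at ζ) ∧
        (∀ ζ, η ≤ ζ → c'.at ζ ≠ none → ζ < ξ ∧ Un.kk ζ ∈ z.1) ∧ Gen (LP F ξ) z.1 c' ∧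
        (LP F ξ).le c' p := by
  have hu : ∀ᶠ z in MF, ∀ a : Prg × K, Un.pair (Un.pr a.1) (Un.kk a.2) ∈ z.1 →
      ((∀ η < a.2, Leg a.1 η) → ∀ η ≤ a.2, Un.kk η ∈ z.1 → PIs (stp a.1) η a.2 (z.1, id)) := by
    refine MF_diagN (fun a : Prg × K => Un.pair (Un.pr a.1) (Un.kk a.2)) ?_ (P := fun a N =>
      (∀ η < a.2, Leg a.1 η) → ∀ η ≤ a.2, Un.kk η ∈ N → PIs (stp a.1) η a.2 (N, id)) ?_
    · rintro ⟨b, p⟩ ⟨b', p'⟩ h
      simp only [Un.pair.injEq] at h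
      rw [pr_inj h.1, kk_inj h.2]
    · intro a
      by_cases h : ∀ η < a.2, Leg a.1 η
      · have h1 := MF_id (main_PI a.1 a.2 h)
        filter_upwards [h1] with z hz _
        exact hz (fun _ _ => rfl) (fun _ _ _ => rfl)
      · exact Filter.Eventually.of_forall fun z h' => absurd h' h
  filter_upwards [hu, MF_pair] with z h1 h2 F ξ hF hξ hleg η hη hηN c hc p hp hcp
  obtain ⟨c', h3, h4, h5, h6, -⟩ := h1 (F, ξ) ((h2 _ _).2 ⟨hF, hξ⟩) hleg η hη hηN c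
    (GenH_id.2 hc) p p hp rfl hcp
  exact ⟨c', h3, h4, GenH_id.1 h5, h6⟩

/-- the downward closure of a set of codes of conditions -/
def SGen_dc (D : Set SC0) : Set SC := {t | ∃ d : SC, d.1 ∈ D ∧ SP.le t d}

/-- the conditions of a stage which are in the downward closure of `D` -/
def SGen_tr (F : Prg) (ξ : K) (D : Set SC0) : Set Cd :=
  {q | ∃ h : ∀ η < ξ, Leg F η, mkS F ξ h q ∈ SGen_dc D}

/-- `(F', ξ')` is a legal extension of `(F, ξ)` which captures `D` -/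
def SGen_cap (F : Prg) (ξ : K) (D : Set SC0) (F' : Prg) (ξ' : K) : Prop :=
  (∀ η < ξ', Leg F' η) ∧ ξ ≤ ξ' ∧ (∀ η < ξ, F' η = F η) ∧ (LP F' ξ').Dense (SGen_tr F' ξ' D)

theorem SGen_exists_cap {F : Prg} {ξ : K} (h : ∀ η < ξ, Leg F η) {D : Set SC0}
    (hD : SP.Dense {s | s.1 ∈ D}) : ∃ F' ξ', SGen_cap F ξ D F' ξ' := by
  obtain ⟨ξ', F', h', h1, h2, h3⟩ := capD (ι := Unit) (by
      rw [Cardinal.mk_unit]
      exact Cardinal.one_le_aleph0.trans (Cardinal.cantor _).le) (fun _ => SGen_dc D)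
    (fun _ x => by
      obtain ⟨y, hy, hyx⟩ := hD x
      exact ⟨y, ⟨y, hy, SP.refl y⟩, hyx⟩)
    (fun _ t s hts hs => by
      obtain ⟨d, hd, hsd⟩ := hs
      exact ⟨d, hd, SP.trans _ _ _ hts hsd⟩) (mkS F ξ h Cd.triv)
  refine ⟨F', ξ', h', h1, h2, fun x => ?_⟩
  obtain ⟨y, hy, hyx⟩ := h3 () x
  exact ⟨y, ⟨h', hy⟩, hyx⟩

/-- generic conditions of a stage extend to generic conditions of the final forcing -/
theorem sgen : ∀ᶠ z in MF, ∀ (F : Prg) (ξ : K) (h : ∀ η < ξ, Leg F η), Un.pr F ∈ z.1 →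
    Un.kk ξ ∈ z.1 → ∀ c, Gen (LP F ξ) z.1 c → ∃ t, SP.le t (mkS F ξ h c) ∧ SGen z.1 t := by
  have hinj3 : Function.Injective (fun a : Prg × K × Set SC0 =>
      Un.pair (Un.pr a.1) (Un.pair (Un.kk a.2.1) (Un.sd a.2.2))) := by
    rintro ⟨F, ξ, D⟩ ⟨F', ξ', D'⟩ h
    simp only [Un.pair.injEq] at h
    rw [pr_inj h.1, kk_inj h.2.1, sd_inj h.2.2]
  have hinj2 : Function.Injective (fun a : Cd × (Prg × K × Set SC0) =>
      Un.pair (Un.cd a.1) (Un.pair (Un.pr a.2.1) (Un.pair (Un.kk a.2.2.1) (Un.sd a.2.2.2)))) := by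
    rintro ⟨q, F, ξ, D⟩ ⟨q', F', ξ', D'⟩ h
    simp only [Un.pair.injEq] at h
    rw [cd_inj h.1, pr_inj h.2.1, kk_inj h.2.2.1, sd_inj h.2.2.2]
  filter_upwards [main_ext, MF_ctb, MF_pair, MF_const (Un.cd Cd.triv), MF_const (Un.sd Set.univ),
    MF_choose (fun a : Prg × K × Set SC0 =>
      Un.pair (Un.pr a.1) (Un.pair (Un.kk a.2.1) (Un.sd a.2.2))) hinj3
      (fun b : Prg × K => Un.pair (Un.pr b.1) (Un.kk b.2))
      (fun a b => SGen_cap a.1 a.2.1 a.2.2 b.1 b.2),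
    MF_fun (fun a : Prg × K × Set SC0 =>
      Un.pair (Un.pr a.1) (Un.pair (Un.kk a.2.1) (Un.sd a.2.2))) hinj3 Un.st
      (fun a => SGen_tr a.1 a.2.1 a.2.2),
    MF_choose (fun a : Cd × (Prg × K × Set SC0) =>
      Un.pair (Un.cd a.1) (Un.pair (Un.pr a.2.1) (Un.pair (Un.kk a.2.2.1) (Un.sd a.2.2.2)))) hinj2
      cS (fun a d => d.1 ∈ a.2.2.2 ∧ ∃ h : ∀ η < a.2.2.1, Leg a.2.1 η,
        SP.le (mkS a.2.1 a.2.2.1 h a.1) d), MF_InN]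
    with z hext hctb hpair htriv huniv hcap hfun hch hInN F ξ h hFN hξN c hc
  -- enumeration of the dense sets
  have h𝒟c : {D : Set SC0 | Un.sd D ∈ z.1 ∧ SP.Dense {s | s.1 ∈ D}}.Countable := by
    have h1 : (Un.sd ⁻¹' z.1).Countable := hctb.1.preimage sd_inj
    exact h1.mono fun D hD => hD.1
  have h𝒟n : {D : Set SC0 | Un.sd D ∈ z.1 ∧ SP.Dense {s | s.1 ∈ D}}.Nonempty :=
    ⟨Set.univ, huniv.1, fun x => ⟨x, trivial, SP.refl x⟩⟩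
  obtain ⟨g, hg⟩ := h𝒟c.exists_eq_range h𝒟n
  have hg1 : ∀ n, Un.sd (g n) ∈ z.1 ∧ SP.Dense {s | s.1 ∈ g n} := by
    intro n
    have : g n ∈ {D : Set SC0 | Un.sd D ∈ z.1 ∧ SP.Dense {s | s.1 ∈ D}} := by
      rw [hg]; exact ⟨n, rfl⟩
    exact this
  -- one step
  have hstep : ∀ (n : ℕ) (a : {a : Prg × K × Cd // Un.pr a.1 ∈ z.1 ∧ Un.kk a.2.1 ∈ z.1 ∧
      (∀ η < a.2.1, Leg a.1 η) ∧ Gen (LP a.1 a.2.1) z.1 a.2.2}),
      ∃ b : {a : Prg × K × Cd // Un.pr a.1 ∈ z.1 ∧ Un.kk a.2.1 ∈ z.1 ∧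
        (∀ η < a.2.1, Leg a.1 η) ∧ Gen (LP a.1 a.2.1) z.1 a.2.2},
        SGen_cap a.1.1 a.1.2.1 (g n) b.1.1 b.1.2.1 ∧ ∀ ζ < a.1.2.1, b.1.2.2.at ζ = a.1.2.2.at ζ := by
    rintro n ⟨⟨F, ξ, c⟩, hF, hξ, hleg, hgen⟩
    obtain ⟨F', ξ', h1⟩ := SGen_exists_cap hleg (hg1 n).2
    obtain ⟨⟨F2, ξ2⟩, h2, h3, -⟩ := hcap (F, ξ, g n)
      ((hpair _ _).2 ⟨hF, (hpair _ _).2 ⟨hξ, (hg1 n).1⟩⟩) ⟨(F', ξ'), h1⟩
    have h4 := (hpair _ _).1 h3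
    have h5 : LP F2 ξ = LP F ξ := SGen_LP_congr h2.2.2.1
    obtain ⟨c', h6, -, h7, -⟩ := hext F2 ξ2 h4.1 h4.2 h2.1 ξ h2.2.1 hξ c (by rw [h5]; exact hgen)
      Cd.triv htriv.1 (SGen_le_triv c)
    exact ⟨⟨(F2, ξ2, c'), h4.1, h4.2, h2.1, h7⟩, h2, h6⟩
  choose nx hnx1 hnx2 using hstep
  obtain ⟨s, hs⟩ : ∃ s : ℕ → {a : Prg × K × Cd // Un.pr a.1 ∈ z.1 ∧ Un.kk a.2.1 ∈ z.1 ∧
      (∀ η < a.2.1, Leg a.1 η) ∧ Gen (LP a.1 a.2.1) z.1 a.2.2},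
      s 0 = ⟨(F, ξ, c), hFN, hξN, h, hc⟩ ∧ ∀ n, s (n + 1) = nx n (s n) :=
    ⟨fun n => Nat.rec ⟨(F, ξ, c), hFN, hξN, h, hc⟩ (fun n a => nx n a) n, rfl, fun n => rfl⟩
  obtain ⟨hs0, hsn⟩ := hs
  -- the components
  obtain ⟨Fn, hFn⟩ : ∃ Fn : ℕ → Prg, ∀ n, Fn n = (s n).1.1 := ⟨_, fun _ => rfl⟩
  obtain ⟨ξn, hξn⟩ : ∃ ξn : ℕ → K, ∀ n, ξn n = (s n).1.2.1 := ⟨_, fun _ => rfl⟩
  obtain ⟨cn, hcn⟩ : ∃ cn : ℕ → Cd, ∀ n, cn n = (s n).1.2.2 := ⟨_, fun _ => rfl⟩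
  have hF0 : Fn 0 = F := by rw [hFn, hs0]
  have hξ0 : ξn 0 = ξ := by rw [hξn, hs0]
  have hc0 : cn 0 = c := by rw [hcn, hs0]
  have hprop : ∀ n, Un.pr (Fn n) ∈ z.1 ∧ Un.kk (ξn n) ∈ z.1 ∧ (∀ η < ξn n, Leg (Fn n) η) ∧
      Gen (LP (Fn n) (ξn n)) z.1 (cn n) := by
    intro n
    rw [hFn, hξn, hcn]
    exact (s n).2
  have hcapn : ∀ n, SGen_cap (Fn n) (ξn n) (g n) (Fn (n + 1)) (ξn (n + 1)) := by
    intro n
    rw [hFn, hFn, hξn, hξn, hsn]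
    exact hnx1 n (s n)
  have hagr : ∀ n, ∀ ζ < ξn n, (cn (n + 1)).at ζ = (cn n).at ζ := by
    intro n ζ hζ
    rw [hcn, hcn, hsn]
    rw [hξn] at hζ
    exact hnx2 n (s n) ζ hζ
  have hξmono : Monotone ξn := monotone_nat_of_le_succ fun n => (hcapn n).2.1
  have hFagr : ∀ m n, m ≤ n → ∀ ζ < ξn m, Fn n ζ = Fn m ζ := by
    intro m n hmn
    induction n, hmn using Nat.le_induction with
    | base => exact fun _ _ => rfl
    | succ n hmn ih =>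
      intro ζ hζ
      rw [(hcapn n).2.2.1 ζ (hζ.trans_le (hξmono hmn)), ih ζ hζ]
  have hcagr : ∀ m n, m ≤ n → ∀ ζ < ξn m, (cn n).at ζ = (cn m).at ζ := by
    intro m n hmn
    induction n, hmn using Nat.le_induction with
    | base => exact fun _ _ => rfl
    | succ n hmn ih =>
      intro ζ hζ
      rw [hagr n ζ (hζ.trans_le (hξmono hmn)), ih ζ hζ]
  -- the limit
  obtain ⟨μ, hμ1, hμ2⟩ : ∃ μ : K, (∀ n, ξn n ≤ μ) ∧ ∀ ζ < μ, ∃ n, ζ < ξn n := by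
    obtain ⟨b, hb⟩ := K_bdd_countable (Set.countable_range ξn)
    have hne : {μ : K | ∀ n, ξn n ≤ μ}.Nonempty := ⟨b, fun n => (hb _ ⟨n, rfl⟩).le⟩
    refine ⟨(wellFounded_lt (α := K)).min _ hne, (wellFounded_lt (α := K)).min_mem _ hne, ?_⟩
    intro ζ hζ
    by_contra hcon
    push Not at hcon
    exact (wellFounded_lt (α := K)).not_lt_min _ (show ζ ∈ {μ : K | ∀ n, ξn n ≤ μ} from hcon) hζ
  obtain ⟨Fω, hFω⟩ : ∃ Fω : Prg, ∀ n, ∀ ζ < ξn n, Fω ζ = Fn n ζ := by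
    refine ⟨fun ζ => if h : ∃ n, ζ < ξn n then Fn (Nat.find h) ζ else Fn 0 ζ, ?_⟩
    intro n ζ hζ
    have h1 : ∃ n, ζ < ξn n := ⟨n, hζ⟩
    rw [show (fun ζ => if h : ∃ n, ζ < ξn n then Fn (Nat.find h) ζ else Fn 0 ζ) ζ =
      Fn (Nat.find h1) ζ from dif_pos h1]
    exact (hFagr (Nat.find h1) n (Nat.find_min' h1 hζ) ζ (Nat.find_spec h1)).symm
  obtain ⟨cω, hcω⟩ : ∃ cω : Cd, ∀ n, ∀ ζ < ξn n, cω.at ζ = (cn n).at ζ := by
    refine ⟨⟨fun ζ => if h : ∃ n, ζ < ξn n then (cn (Nat.find h)).at ζ else none, ?_⟩, ?_⟩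
    · refine (Set.countable_iUnion fun n => (cn n).2).mono ?_
      intro ζ hζ
      have h1 : ∃ n, ζ < ξn n := by
        by_contra hcon
        have : (if h : ∃ n, ζ < ξn n then (cn (Nat.find h)).at ζ else none) ≠ none := hζ
        rw [dif_neg hcon] at this
        exact this rfl
      have h2 : (if h : ∃ n, ζ < ξn n then (cn (Nat.find h)).at ζ else none) ≠ none := hζ
      rw [dif_pos h1] at h2
      exact Set.mem_iUnion.2 ⟨Nat.find h1, h2⟩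
    · intro n ζ hζ
      have h1 : ∃ n, ζ < ξn n := ⟨n, hζ⟩
      change (if h : ∃ n, ζ < ξn n then (cn (Nat.find h)).at ζ else none) = _
      rw [dif_pos h1]
      exact (hcagr (Nat.find h1) n (Nat.find_min' h1 hζ) ζ (Nat.find_spec h1)).symm
  have hlegω : ∀ η < μ, Leg Fω η := by
    intro η hη
    obtain ⟨n, hn⟩ := hμ2 η hη
    refine (Leg_congr fun ζ hζ => ?_).2 ((hprop n).2.2.1 η hn)
    exact hFω n ζ (hζ.trans_lt hn)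
  refine ⟨mkS Fω μ hlegω cω, ?_, ?_⟩
  · rw [SP_le]
    refine ⟨?_, ?_, ?_⟩
    · have := hμ1 0
      rw [hξ0] at this
      exact this
    · intro η hη
      have h1 : η < ξn 0 := by rw [hξ0]; exact hη
      have h2 := hFω 0 η h1
      rw [hF0] at h2
      exact h2
    · have h1 : (LP F ξ).le cω c := LE_of_agree fun η hη => by
        have h2 : η < ξn 0 := by rw [hξ0]; exact WithTop.coe_lt_coe.1 hη
        rw [hcω 0 η h2, hc0]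
      exact h1
  · intro D hD hDd t' ht'
    obtain ⟨n, rfl⟩ : ∃ n, g n = D := by
      have : D ∈ Set.range g := by rw [← hg]; exact ⟨hD, hDd⟩
      exact this
    obtain ⟨hle1, hle2, hle3⟩ := SP_le.1 ht'
    have hle1' : μ ≤ t'.len := hle1
    have hle2' : ∀ η < μ, t'.prg η = Fω η := hle2
    have hle3' : (LP Fω μ).le t'.cnd cω := hle3
    have h1 : LP Fω (ξn (n + 1)) = LP (Fn (n + 1)) (ξn (n + 1)) := SGen_LP_congr (hFω (n + 1))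
    have h2 : (LP (Fn (n + 1)) (ξn (n + 1))).le t'.cnd (cn (n + 1)) := by
      rw [← h1]
      refine (LP _ _).trans _ _ _ (SGen_LP_mono (WithTop.coe_le_coe.2 (hμ1 (n + 1))) hle3') ?_
      exact LE_of_agree fun η hη => hcω (n + 1) η (WithTop.coe_lt_coe.1 hη)
    have hcode : Un.pair (Un.pr (Fn (n + 1))) (Un.pair (Un.kk (ξn (n + 1))) (Un.sd (g n))) ∈ z.1 :=
      (hpair _ _).2 ⟨(hprop (n + 1)).1, (hpair _ _).2 ⟨(hprop (n + 1)).2.1, (hg1 n).1⟩⟩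
    obtain ⟨d, hd, hdN, w, hwd, hwt⟩ := (hprop (n + 1)).2.2.2 _
      (hfun (Fn (n + 1), ξn (n + 1), g n) hcode).1 (hcapn n).2.2.2 t'.cnd h2
    obtain ⟨hleg', e, heD, hqe⟩ := hd
    obtain ⟨e', ⟨he'D, hleg2, hqe'⟩, he'N, -⟩ := hch (d, Fn (n + 1), ξn (n + 1), g n)
      ((hpair _ _).2 ⟨hdN, hcode⟩) ⟨e, heD, hleg', hqe⟩
    refine ⟨e', he'D, (hInN e').1 he'N, ?_⟩
    obtain ⟨t'', h3, h4, h5, h6⟩ := exists_cnd t' (p := w) (F := Fn (n + 1)) (ξ := ξn (n + 1))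
      ((hμ1 (n + 1)).trans hle1') (fun η hη => by
        rw [hle2' η (hη.trans_le (hμ1 (n + 1))), hFω (n + 1) η hη]) hwt
    refine ⟨t'', SP.trans _ _ _ ?_ hqe', h3⟩
    rw [SP_le]
    refine ⟨?_, ?_, ?_⟩
    · rw [h4]; exact (hμ1 (n + 1)).trans hle1'
    · intro η hη
      have hη' : η < ξn (n + 1) := hη
      rw [h5, hle2' η (hη'.trans_le (hμ1 (n + 1))), hFω (n + 1) η hη']
      rfl
    · exact (LP _ _).trans _ _ _ h6 hwd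

theorem sgen' : ∀ᶠ z in MF, ∀ s : SC, InN z.1 s → ∃ t, SP.le t s ∧ SGen z.1 t := by
  filter_upwards [main_ext, sgen, Gen_zero (stp (fun _ => (true, fun _ _ => ∅))),
    MF_const (Un.kk K0)] with z h1 h2 h3 h4 s hs
  have h5 : LP s.prg K0 = LE (stp (fun _ => (true, fun _ _ => ∅))) K0 := by
    have : LP s.prg K0 = LP (fun _ => (true, fun _ _ => ∅)) K0 :=
      SGen_LP_congr fun η hη => absurd hη (not_lt.2 (K0_le η))
    exact this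
  obtain ⟨c', -, -, h6, h7⟩ := h1 s.prg s.len hs.2.1 hs.1 s.2 K0 (K0_le _) h4.1 s.cnd
    (by rw [h5]; exact (h3 _).1) s.cnd hs.2.2 ((LP _ _).refl _)
  obtain ⟨t, h8, h9⟩ := h2 s.prg s.len s.2 hs.2.1 hs.1 c' h6
  exact ⟨t, SP.trans _ _ _ h8 ⟨le_rfl, fun _ _ => rfl, h7⟩, h9⟩

/-- names of elements: functional form of genericity for the final forcing -/
theorem SGen_choose {α β : Type} (ca : α → Un) (hca : Function.Injective ca) (cb : β → Un)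
    (P : α → SC → β → Prop) :
    ∀ᶠ z in MF, ∀ t, SGen z.1 t → ∀ a, ca a ∈ z.1 → (∀ s, ∃ x b, SP.le x s ∧ P a x b) →
      ∀ s, SP.le s t → ∃ s' x b, SP.le s' s ∧ SP.le s' x ∧ InN z.1 x ∧ cb b ∈ z.1 ∧ P a x b := by
  filter_upwards [MF_fun ca hca Un.sd (fun a => {x : SC0 | ∃ y : SC, y.1 = x ∧ ∃ b, P a y b}),
    MF_choose2 ca hca cS cS_inj cb P, MF_InN] with z h1 h2 h3 t ht a ha hP s hs
  obtain ⟨d, hd, hdN, w, hw1, hw2⟩ := ht _ (h1 a ha).1 (by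
    intro x
    obtain ⟨y, b, hyx, hb⟩ := hP x
    exact ⟨y, ⟨y, rfl, b, hb⟩, hyx⟩) s hs
  obtain ⟨y, hyd, b, hb⟩ := hd
  have hyd' : y = d := Subtype.ext hyd
  subst hyd'
  obtain ⟨b', hb', hb'N, -⟩ := h2 a y ha ((h3 y).2 hdN) ⟨b, hb⟩
  exact ⟨w, y, b', hw2, hw1, hdN, hb'N, hb'⟩

end Pool.Agent.MMA1
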