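import Pool.Agent.MMI.Fo

/-! # The two step iteration: embedding and projection -/

set_option autoImplicit false

namespace Pool.Agent.MMA1

open Classical

variable {X : Type} {L : Pre X} {Q : BPo L}

theorem TS_le {z w : TSC Q} : (TS Q).le z w ↔ L.le z.1.1 w.1.1 ∧ Fo z.1.1 (Q.r z.1.2 w.1.2) := Iff.rfl

/-- lifting: every condition below the first coordinate -/
def TSC.lift (z : TSC Q) (x : X) (h : L.le x z.1.1) : TSC Q := ⟨(x, z.1.2), z.2.mono h⟩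

theorem TSC.lift_le (z : TSC Q) (x : X) (h : L.le x z.1.1) : (TS Q).le (z.lift x h) z :=
  ⟨h, by rw [show (z.lift x h).1.2 = z.1.2 from rfl, Q.r_refl]; exact Fo_top _⟩

theorem exists_TSC (x : X) : ∃ z : TSC Q, L.le z.1.1 x := by
  have h : Fo x (⨆ y, Q.m y) := by rw [Q.ne]; exact Fo_top x
  obtain ⟨x', hx', y, hy⟩ := Fo_iSup.1 h x (L.refl x)
  exact ⟨⟨(x', y), hy⟩, hx'⟩

theorem Fo_emb {z : TSC Q} {U : BA L} : Fo z (emb Q U) ↔ Fo z.1.1 U := by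
  unfold emb
  rw [Fo_toB]
  constructor
  · intro h
    refine Fo_reg fun x hx => ?_
    obtain ⟨w, hw, s, hs, hws⟩ := h (z.lift x hx) (z.lift_le x hx)
    exact ⟨w.1.1, hw.1, Fo.mono hws.1 hs⟩
  · intro h w hw
    exact ⟨w, (TS Q).refl w, w, h.mono hw.1, (TS Q).refl w⟩

theorem Fo_prj {x : X} {V : BA (TS Q)} :
    Fo x (prj Q V) ↔ ∀ y, L.le y x → ∃ z : TSC Q, L.le z.1.1 y ∧ Fo z V := by
  unfold prj
  rw [Fo_toB]
  constructor
  · intro h y hy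
    obtain ⟨x', hx', s, ⟨z, rfl, hz⟩, hs⟩ := h y hy
    exact ⟨z.lift x' hs, hx', hz.mono (z.lift_le x' hs)⟩
  · intro h y hy
    obtain ⟨z, hz, hzV⟩ := h y hy
    exact ⟨z.1.1, hz, z.1.1, ⟨z, rfl, hzV⟩, L.refl _⟩

theorem Fo_prj_of {z : TSC Q} {V : BA (TS Q)} (h : Fo z V) : Fo z.1.1 (prj Q V) :=
  Fo_prj.2 fun y hy => ⟨z.lift y hy, L.refl y, h.mono (z.lift_le y hy)⟩

theorem prj_le_iff {V : BA (TS Q)} {U : BA L} : prj Q V ≤ U ↔ V ≤ emb Q U := by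
  constructor
  · intro h
    exact le_iff_Fo.2 fun z hz => Fo_emb.2 (le_iff_Fo.1 h _ (Fo_prj_of hz))
  · intro h
    refine le_iff_Fo.2 fun x hx => Fo_reg fun y hy => ?_
    obtain ⟨z, hz, hzV⟩ := Fo_prj.1 hx y hy
    exact ⟨z.1.1, hz, Fo_emb.1 (le_iff_Fo.1 h z hzV)⟩

theorem emb_le_emb {U U' : BA L} : emb Q U ≤ emb Q U' ↔ U ≤ U' := by
  constructor
  · intro h
    refine le_iff_Fo.2 fun x hx => Fo_reg fun y hy => ?_
    obtain ⟨z, hz⟩ := exists_TSC (Q := Q) y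
    exact ⟨z.1.1, hz, Fo_emb.1 (le_iff_Fo.1 h z (Fo_emb.2 (hx.mono (L.trans _ _ _ hz hy))))⟩
  · intro h
    exact le_iff_Fo.2 fun z hz => Fo_emb.2 (le_iff_Fo.1 h _ (Fo_emb.1 hz))

theorem emb_injective : Function.Injective (emb Q) := fun _ _ h =>
  le_antisymm (emb_le_emb.1 h.le) (emb_le_emb.1 h.ge)

theorem emb_top : emb Q ⊤ = ⊤ := BA_ext fun z => by
  rw [Fo_emb]; exact ⟨fun _ => Fo_top _, fun _ => Fo_top _⟩

theorem emb_bot : emb Q ⊥ = ⊥ := BA_ext fun z => by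
  rw [Fo_emb]; exact ⟨fun h => absurd h (not_Fo_bot _), fun h => absurd h (not_Fo_bot _)⟩

theorem emb_inf (U U' : BA L) : emb Q (U ⊓ U') = emb Q U ⊓ emb Q U' := BA_ext fun z => by
  rw [Fo_emb, Fo_inf, Fo_inf, Fo_emb, Fo_emb]

theorem emb_iInf {ι : Sort*} (U : ι → BA L) : emb Q (⨅ i, U i) = ⨅ i, emb Q (U i) :=
  BA_ext fun z => by
    rw [Fo_emb, Fo_iInf, Fo_iInf]
    exact forall_congr' fun i => Fo_emb.symm

theorem emb_compl (U : BA L) : emb Q Uᶜ = (emb Q U)ᶜ := BA_ext fun z => by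
  rw [Fo_emb, Fo_compl, Fo_compl]
  constructor
  · intro h w hw hwU
    exact h w.1.1 hw.1 (Fo_emb.1 hwU)
  · intro h y hy hyU
    exact h (z.lift y hy) (z.lift_le y hy) (Fo_emb.2 hyU)

theorem emb_iSup {ι : Sort*} (U : ι → BA L) : emb Q (⨆ i, U i) = ⨆ i, emb Q (U i) := by
  have h : emb Q (⨆ i, U i)ᶜ = (⨆ i, emb Q (U i))ᶜ := by
    rw [compl_iSup, compl_iSup, emb_iInf]
    exact iInf_congr fun i => emb_compl _
  rw [emb_compl] at h
  exact compl_injective h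

theorem emb_sup (U U' : BA L) : emb Q (U ⊔ U') = emb Q U ⊔ emb Q U' := by
  rw [sup_eq_iSup, emb_iSup, sup_eq_iSup]
  exact iSup_congr fun b => by cases b <;> rfl

theorem emb_mono : Monotone (emb Q) := fun _ _ h => emb_le_emb.2 h

theorem prj_mono : Monotone (prj Q) := fun _ _ h =>
  prj_le_iff.2 (h.trans (prj_le_iff.1 le_rfl))

theorem le_emb_prj (V : BA (TS Q)) : V ≤ emb Q (prj Q V) := prj_le_iff.1 le_rfl

theorem prj_emb (U : BA L) : prj Q (emb Q U) = U :=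
  le_antisymm (prj_le_iff.2 le_rfl) (emb_le_emb.1 (le_emb_prj _))

theorem prj_bot : prj Q ⊥ = ⊥ := le_antisymm (prj_le_iff.2 bot_le) bot_le

theorem prj_top : prj Q ⊤ = ⊤ := by rw [← emb_top, prj_emb]

theorem prj_eq_bot {V : BA (TS Q)} : prj Q V = ⊥ ↔ V = ⊥ := by
  rw [← le_bot_iff, prj_le_iff, emb_bot, le_bot_iff]

theorem prj_iSup {ι : Sort*} (V : ι → BA (TS Q)) : prj Q (⨆ i, V i) = ⨆ i, prj Q (V i) := by
  refine le_antisymm (prj_le_iff.2 (iSup_le fun i => ?_)) (iSup_le fun i => prj_mono (le_iSup V i))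
  exact prj_le_iff.1 (le_iSup (fun i => prj Q (V i)) i)

theorem prj_sup (V V' : BA (TS Q)) : prj Q (V ⊔ V') = prj Q V ⊔ prj Q V' := by
  rw [sup_eq_iSup, prj_iSup, sup_eq_iSup]
  exact iSup_congr fun b => by cases b <;> rfl

theorem prj_emb_inf (U : BA L) (V : BA (TS Q)) : prj Q (emb Q U ⊓ V) = U ⊓ prj Q V := by
  refine le_antisymm (le_inf (prj_le_iff.2 inf_le_left) (prj_mono inf_le_right)) ?_
  refine le_iff_Fo.2 fun x hx => ?_
  obtain ⟨h1, h2⟩ := Fo_inf.1 hx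
  refine Fo_prj.2 fun y hy => ?_
  obtain ⟨z, hz, hzV⟩ := Fo_prj.1 h2 y hy
  exact ⟨z, hz, Fo_inf.2 ⟨Fo_emb.2 (h1.mono (L.trans _ _ _ hz hy)), hzV⟩⟩

theorem prj_inf_emb (V : BA (TS Q)) (U : BA L) : prj Q (V ⊓ emb Q U) = prj Q V ⊓ U := by
  rw [inf_comm, prj_emb_inf, inf_comm]

/-- the value attached to a code is above a given condition of the first algebra -/
theorem prj_code (V : BA (TS Q)) : prj Q (V ⊔ (emb Q (prj Q V))ᶜ) = ⊤ := by
  rw [prj_sup, ← emb_compl, prj_emb, sup_compl_eq_top]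

theorem prj_val (L : Pre Cd) (Q : BPo L) (η : K) (p : Cd) : prj Q (val L Q η p) = down L p := by
  unfold val
  rw [prj_emb_inf, prj_code, inf_top_eq]

theorem val_le_emb (L : Pre Cd) (Q : BPo L) (η : K) (p : Cd) : val L Q η p ≤ emb Q (down L p) :=
  inf_le_left

theorem val_none (L : Pre Cd) (Q : BPo L) {η : K} {p : Cd} (h : p.1 η = none) :
    val L Q η p = emb Q (down L p) := by
  unfold val
  rw [h, show dec Q none = ⊤ from rfl, top_sup_eq, inf_top_eq]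

theorem val_ne_bot (L : Pre Cd) (Q : BPo L) (η : K) (p : Cd) : val L Q η p ≠ ⊥ := by
  intro h
  have h1 := prj_val L Q η p
  rw [h, prj_bot] at h1
  exact down_ne_bot p h1.symm

/-- two elements which agree below `emb U` give the same values -/
theorem code_congr {U : BA L} {V V' : BA (TS Q)} (h : emb Q U ⊓ V = emb Q U ⊓ V') :
    emb Q U ⊓ (V ⊔ (emb Q (prj Q V))ᶜ) = emb Q U ⊓ (V' ⊔ (emb Q (prj Q V'))ᶜ) := by
  have h1 : U ⊓ prj Q V = U ⊓ prj Q V' := by rw [← prj_emb_inf, ← prj_emb_inf, h]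
  have h2 : emb Q U ⊓ (emb Q (prj Q V))ᶜ = emb Q U ⊓ (emb Q (prj Q V'))ᶜ := by
    rw [← emb_compl, ← emb_compl, ← emb_inf, ← emb_inf]
    congr 1
    have h3 : U ⊓ (prj Q V)ᶜ = U ⊓ (U ⊓ prj Q V)ᶜ := by
      rw [compl_inf, inf_sup_left, inf_compl_eq_bot, bot_sup_eq]
    have h4 : U ⊓ (prj Q V')ᶜ = U ⊓ (U ⊓ prj Q V')ᶜ := by
      rw [compl_inf, inf_sup_left, inf_compl_eq_bot, bot_sup_eq]
    rw [h3, h4, h1]
  rw [inf_sup_left, inf_sup_left, h, h2]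

end Pool.Agent.MMA1
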